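import Mathlib

set_option autoImplicit false

namespace Pool.Agent.Helper31.Spectra

open FirstOrder FirstOrder.Language

/-- The spectrum of a sentence: the set of sizes of its finite nonempty models. -/
def Spec (L : FirstOrder.Language.{0, 0}) (φ : L.Sentence) : Set ℕ :=
  {n | 0 < n ∧ ∃ (M : Type) (_ : L.Structure M), Nat.card M = n ∧ φ.Realize M}

/-- A finite vocabulary. -/
def FinVoc (L : FirstOrder.Language.{0, 0}) : Prop :=
  Finite (Σ n, L.Functions n) ∧ Finite (Σ n, L.Relations n)

/-- `S` is a spectrum: the spectrum of a first-order sentence over a finite vocabulary. -/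
def IsSpectrum (S : Set ℕ) : Prop :=
  ∃ (L : FirstOrder.Language.{0, 0}) (φ : L.Sentence), FinVoc L ∧ Spec L φ = S

/-! ### Unions -/

lemma finVoc_sum {L L' : FirstOrder.Language.{0, 0}} (h : FinVoc L) (h' : FinVoc L') :
    FinVoc (L.sum L') := by
  obtain ⟨h1, h2⟩ := h
  obtain ⟨h3, h4⟩ := h'
  constructor
  · have : Function.Surjective (fun z : (Σ n, L.Functions n) ⊕ (Σ n, L'.Functions n) =>
        (match z with
        | Sum.inl z => ⟨z.1, Sum.inl z.2⟩
        | Sum.inr z => ⟨z.1, Sum.inr z.2⟩ : Σ n, (L.sum L').Functions n)) := by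
      rintro ⟨n, (f | f)⟩
      · exact ⟨Sum.inl ⟨n, f⟩, rfl⟩
      · exact ⟨Sum.inr ⟨n, f⟩, rfl⟩
    exact Finite.of_surjective _ this
  · have : Function.Surjective (fun z : (Σ n, L.Relations n) ⊕ (Σ n, L'.Relations n) =>
        (match z with
        | Sum.inl z => ⟨z.1, Sum.inl z.2⟩
        | Sum.inr z => ⟨z.1, Sum.inr z.2⟩ : Σ n, (L.sum L').Relations n)) := by
      rintro ⟨n, (f | f)⟩
      · exact ⟨Sum.inl ⟨n, f⟩, rfl⟩
      · exact ⟨Sum.inr ⟨n, f⟩, rfl⟩
    exact Finite.of_surjective _ this

/-- A trivial structure on a nonempty type. -/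
@[instance_reducible]
def trivStr (L : FirstOrder.Language.{0, 0}) {M : Type} (a : M) : L.Structure M where
  funMap := fun _ _ => a
  RelMap := fun _ _ => False

theorem IsSpectrum.union {S T : Set ℕ} (hS : IsSpectrum S) (hT : IsSpectrum T) :
    IsSpectrum (S ∪ T) := by
  obtain ⟨L, φ, hL, rfl⟩ := hS
  obtain ⟨L', ψ, hL', rfl⟩ := hT
  refine ⟨L.sum L', (LHom.sumInl.onSentence φ) ⊔ (LHom.sumInr.onSentence ψ),
    finVoc_sum hL hL', ?_⟩
  ext n
  constructor
  · rintro ⟨hn, M, sM, hM, hr⟩
    let s1 : L.Structure M := (LHom.sumInl : L →ᴸ L.sum L').reduct M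
    let s2 : L'.Structure M := (LHom.sumInr : L' →ᴸ L.sum L').reduct M
    have hr' := Formula.realize_sup.1 hr
    rcases hr' with h | h
    · left
      refine ⟨hn, M, s1, hM, ?_⟩
      exact (LHom.realize_onSentence M (LHom.sumInl : L →ᴸ L.sum L') φ).1 h
    · right
      refine ⟨hn, M, s2, hM, ?_⟩
      exact (LHom.realize_onSentence M (LHom.sumInr : L' →ᴸ L.sum L') ψ).1 h
  · rintro (⟨hn, M, sM, hM, hr⟩ | ⟨hn, M, sM, hM, hr⟩)
    · have hne : Nonempty M := by
        by_contra hc
        rw [not_nonempty_iff] at hc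
        rw [Nat.card_of_isEmpty] at hM
        omega
      obtain ⟨a⟩ := hne
      let s2 : L'.Structure M := trivStr L' a
      refine ⟨hn, M, inferInstance, hM, ?_⟩
      refine Formula.realize_sup.2 (Or.inl ?_)
      exact (LHom.realize_onSentence M (LHom.sumInl : L →ᴸ L.sum L') φ).2 hr
    · have hne : Nonempty M := by
        by_contra hc
        rw [not_nonempty_iff] at hc
        rw [Nat.card_of_isEmpty] at hM
        omega
      obtain ⟨a⟩ := hne
      let s2 : L.Structure M := trivStr L a
      refine ⟨hn, M, inferInstance, hM, ?_⟩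
      refine Formula.realize_sup.2 (Or.inr ?_)
      exact (LHom.realize_onSentence M (LHom.sumInr : L' →ᴸ L.sum L') ψ).2 hr

theorem isSpectrum_empty : IsSpectrum ∅ := by
  refine ⟨FirstOrder.Language.empty, ⊥, ⟨?_, ?_⟩, ?_⟩
  · have : IsEmpty (Σ n, FirstOrder.Language.empty.Functions n) := ⟨fun z => isEmptyElim z.2⟩
    infer_instance
  · have : IsEmpty (Σ n, FirstOrder.Language.empty.Relations n) := ⟨fun z => isEmptyElim z.2⟩
    infer_instance
  · ext n
    constructor
    · rintro ⟨_, M, sM, _, hr⟩
      exact absurd hr (by simp [Sentence.Realize])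
    · intro h
      exact absurd h (Set.notMem_empty n)

theorem isSpectrum_biUnion {ι : Type} (Q : Finset ι) (f : ι → Set ℕ)
    (h : ∀ i ∈ Q, IsSpectrum (f i)) : IsSpectrum (⋃ i ∈ Q, f i) := by
  classical
  induction Q using Finset.induction_on with
  | empty => simpa using isSpectrum_empty
  | insert a Q _ ih =>
    rw [Finset.set_biUnion_insert]
    exact (h a (Finset.mem_insert_self _ _)).union
      (ih (fun i hi => h i (Finset.mem_insert_of_mem hi)))

/-! ### Arithmetic progressions -/

/-- Function symbols: `a` constants and `p` unary functions. -/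
inductive APFun (a p : ℕ) : ℕ → Type
  | c (i : Fin a) : APFun a p 0
  | s (i : Fin p) : APFun a p 1

/-- The language of arithmetic progressions. -/
abbrev APLang (a p : ℕ) : FirstOrder.Language.{0, 0} := ⟨APFun a p, fun _ => Empty⟩

/-- The constant symbols. -/
def fc (a p : ℕ) (i : Fin a) : (APLang a p).Functions 0 := APFun.c i

/-- The unary function symbols. -/
def fs (a p : ℕ) (i : Fin p) : (APLang a p).Functions 1 := APFun.s i

/-- The term for a constant. -/
def tc {a p : ℕ} {α : Type} (i : Fin a) : (APLang a p).Term α :=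
  Term.func (fc a p i) ![]

/-- The term for an application of a unary function. -/
def ts {a p : ℕ} {α : Type} (i : Fin p) (t : (APLang a p).Term α) : (APLang a p).Term α :=
  Term.func (fs a p i) ![t]

/-- The variable of the axiom. -/
def tx {a p : ℕ} : (APLang a p).Term (Empty ⊕ Fin 1) := Term.var (Sum.inr 0)

/-- The constants are distinct. -/
noncomputable def ax1 (a p : ℕ) : (APLang a p).Sentence :=
  BoundedFormula.iInf (fun i : Fin a => BoundedFormula.iInf (fun j : Fin a =>
    if i = j then ⊤ else (Term.bdEqual (tc i) (tc j)).not))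

/-- The other elements come in blocks of `p`. -/
noncomputable def ax2 (a p : ℕ) : (APLang a p).Sentence :=
  BoundedFormula.all ((BoundedFormula.iSup (fun i : Fin a => Term.bdEqual tx (tc i))) ⊔
    ((BoundedFormula.iInf (fun i : Fin p => BoundedFormula.iInf (fun j : Fin a =>
      (Term.bdEqual (ts i tx) (tc j)).not))) ⊓
    ((BoundedFormula.iInf (fun i : Fin p => BoundedFormula.iInf (fun j : Fin p =>
      if i = j then ⊤ else (Term.bdEqual (ts i tx) (ts j tx)).not))) ⊓
    ((BoundedFormula.iInf (fun i : Fin p => BoundedFormula.iInf (fun j : Fin p =>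
      (Term.bdEqual (ts j (ts i tx)) (ts j tx))))) ⊓
    (BoundedFormula.iSup (fun i : Fin p => Term.bdEqual tx (ts i tx)))))))

/-- The meaning of the axioms. -/
structure APModel {a p : ℕ} {M : Type} (c : Fin a → M) (s : Fin p → M → M) : Prop where
  cinj : ∀ i j, i ≠ j → c i ≠ c j
  ax : ∀ x, (∃ i, x = c i) ∨ ((∀ i j, s i x ≠ c j) ∧ (∀ i j, i ≠ j → s i x ≠ s j x) ∧
    (∀ i j, s j (s i x) = s j x) ∧ ∃ i, x = s i x)

/-- Values of the constants. -/
def vc (a p : ℕ) {M : Type} [(APLang a p).Structure M] (i : Fin a) : M :=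
  Structure.funMap (fc a p i) ![]

/-- Values of the unary functions. -/
def vs (a p : ℕ) {M : Type} [(APLang a p).Structure M] (i : Fin p) (x : M) : M :=
  Structure.funMap (fs a p i) ![x]

lemma realize_tc {a p : ℕ} {α M : Type} [(APLang a p).Structure M] (v : α → M) (i : Fin a) :
    (tc i : (APLang a p).Term α).realize v = vc a p i := by
  rw [tc, Term.realize_func, vc]
  congr 1
  funext j
  exact j.elim0

lemma realize_ts {a p : ℕ} {α M : Type} [(APLang a p).Structure M] (v : α → M) (i : Fin p)
    (t : (APLang a p).Term α) :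
    (ts i t).realize v = vs a p i (t.realize v) := by
  rw [ts, Term.realize_func, vs]
  congr 1
  funext j
  rw [Subsingleton.elim j 0]
  rfl

lemma realize_tx {a p : ℕ} {M : Type} [(APLang a p).Structure M] (v : Empty → M)
    (x : M) (xs : Fin 0 → M) :
    (tx : (APLang a p).Term (Empty ⊕ Fin 1)).realize (Sum.elim v (Fin.snoc xs x)) = x := by
  rw [tx, Term.realize_var]
  simp [Fin.snoc]

lemma realize_ax1 {a p : ℕ} {M : Type} [(APLang a p).Structure M] :
    (ax1 a p).Realize M ↔ ∀ i j : Fin a, i ≠ j → (vc a p i : M) ≠ vc a p j := by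
  rw [ax1, Sentence.Realize, Formula.Realize]
  simp only [BoundedFormula.realize_iInf]
  refine forall_congr' (fun i => forall_congr' (fun j => ?_))
  by_cases hij : i = j
  · simp [hij]
  · simp only [hij, if_false, BoundedFormula.realize_not, BoundedFormula.realize_bdEqual,
      realize_tc]
    exact ⟨fun h _ => h, fun h => h hij⟩

lemma realize_ax2 {a p : ℕ} {M : Type} [(APLang a p).Structure M] :
    (ax2 a p).Realize M ↔ ∀ x : M,
      (∃ i : Fin a, x = vc a p i) ∨
      ((∀ (i : Fin p) (j : Fin a), vs a p i x ≠ vc a p j) ∧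
      (∀ i j : Fin p, i ≠ j → vs a p i x ≠ vs a p j x) ∧
      (∀ i j : Fin p, vs a p j (vs a p i x) = vs a p j x) ∧
      ∃ i : Fin p, x = vs a p i x) := by
  rw [ax2, Sentence.Realize, Formula.Realize, BoundedFormula.realize_all]
  refine forall_congr' (fun x => ?_)
  rw [BoundedFormula.realize_sup, BoundedFormula.realize_inf, BoundedFormula.realize_inf,
    BoundedFormula.realize_inf]
  simp only [BoundedFormula.realize_iInf, BoundedFormula.realize_iSup,
    BoundedFormula.realize_bdEqual, BoundedFormula.realize_not, realize_tc, realize_ts,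
    realize_tx]
  refine or_congr Iff.rfl (and_congr Iff.rfl (and_congr ?_ Iff.rfl))
  refine forall_congr' (fun i => forall_congr' (fun j => ?_))
  by_cases hij : i = j
  · simp [hij]
  · simp only [hij, if_false, BoundedFormula.realize_not, BoundedFormula.realize_bdEqual,
      realize_ts, realize_tx]
    exact ⟨fun h _ => h, fun h => h hij⟩

lemma realize_ax {a p : ℕ} {M : Type} [(APLang a p).Structure M] :
    ((ax1 a p) ⊓ (ax2 a p) : (APLang a p).Sentence).Realize M ↔
    APModel (vc a p : Fin a → M) (vs a p) := by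
  have h3 : ((ax1 a p) ⊓ (ax2 a p) : (APLang a p).Sentence).Realize M ↔
      (ax1 a p).Realize M ∧ (ax2 a p).Realize M := Formula.realize_inf
  rw [h3, realize_ax1, realize_ax2]
  exact ⟨fun h => ⟨h.1, h.2⟩, fun h => ⟨h.1, h.2⟩⟩

lemma APModel.card {a p : ℕ} {M : Type} [Finite M] {c : Fin a → M} {s : Fin p → M → M}
    (h : APModel c s) : ∃ j, Nat.card M = a + p * j := by
  classical
  set C : Set M := Set.range c with hC
  have hcinj : Function.Injective c := by
    intro i j hij
    by_contra hne
    exact h.cinj i j hne hij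
  have hCcard : C.ncard = a := by
    rw [hC, ← Set.image_univ, Set.InjOn.ncard_image hcinj.injOn, Set.ncard_univ,
      Nat.card_eq_fintype_card, Fintype.card_fin]
  have htot := Set.ncard_add_ncard_compl C
  have hax : ∀ x ∈ Cᶜ, (∀ i j, s i x ≠ c j) ∧ (∀ i j, i ≠ j → s i x ≠ s j x) ∧
      (∀ i j, s j (s i x) = s j x) ∧ ∃ i, x = s i x := by
    intro x hx
    rcases h.ax x with ⟨i, hi⟩ | h1
    · exact absurd ⟨i, hi.symm⟩ hx
    · exact h1
  rcases Nat.eq_zero_or_pos p with hp | hp
  · subst hp
    have : Cᶜ = ∅ := by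
      ext x
      simp only [Set.mem_empty_iff_false, iff_false]
      intro hx
      obtain ⟨i, _⟩ := (hax x hx).2.2.2
      exact i.elim0
    refine ⟨0, ?_⟩
    rw [this, Set.ncard_empty] at htot
    omega
  · set o : Fin p := ⟨0, hp⟩ with ho
    set r : {x // x ∈ Cᶜ} → M := fun x => s o x.1 with hr
    set f : (Set.range r) × Fin p → M := fun z => s z.2 z.1.1 with hf
    have hrange : ∀ y ∈ Set.range r, y ∈ Cᶜ ∧ s o y = y := by
      rintro y ⟨x, rfl⟩
      refine ⟨?_, (hax x.1 x.2).2.2.1 o o⟩
      rintro ⟨j, hj⟩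
      exact (hax x.1 x.2).1 o j hj.symm
    have hfinj : Function.Injective f := by
      rintro ⟨⟨y, hy⟩, i⟩ ⟨⟨y', hy'⟩, i'⟩ he
      simp only [hf] at he
      have h1 := hrange y hy
      have h2 := hrange y' hy'
      have h3 : y = y' := by
        rw [← h1.2, ← h2.2, ← (hax y h1.1).2.2.1 i o, ← (hax y' h2.1).2.2.1 i' o, he]
      subst h3
      have h4 : i = i' := by
        by_contra hne
        exact (hax y h1.1).2.1 i i' hne he
      rw [h4]
    have hfrange : Set.range f = Cᶜ := by
      ext x
      constructor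
      · rintro ⟨⟨⟨y, hy⟩, i⟩, rfl⟩
        rintro ⟨j, hj⟩
        exact (hax y (hrange y hy).1).1 i j hj.symm
      · intro hx
        obtain ⟨i, hi⟩ := (hax x hx).2.2.2
        refine ⟨(⟨s o x, ⟨⟨x, hx⟩, rfl⟩⟩, i), ?_⟩
        simp only [hf]
        rw [(hax x hx).2.2.1 o i, ← hi]
    have hcomp : (Cᶜ).ncard = Nat.card (Set.range r) * p := by
      have h1 : (Set.range f).ncard = Nat.card (Set.range r) * p := by
        rw [← Set.image_univ, Set.InjOn.ncard_image hfinj.injOn, Set.ncard_univ,
          Nat.card_prod, Nat.card_eq_fintype_card (α := Fin p), Fintype.card_fin]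
      rw [← h1, hfrange]
    refine ⟨Nat.card (Set.range r), ?_⟩
    rw [mul_comm p]
    omega

/-- The interpretation of the function symbols in the standard model. -/
def apFun (a p j : ℕ) : {n : ℕ} → APFun a p n → (Fin n → Fin a ⊕ (Fin j × Fin p)) →
    Fin a ⊕ (Fin j × Fin p)
  | _, APFun.c i, _ => Sum.inl i
  | _, APFun.s i, xs => Sum.elim Sum.inl (fun z => Sum.inr (z.1, i)) (xs 0)

/-- The standard model. -/
@[instance_reducible]
def apStr (a p j : ℕ) : (APLang a p).Structure (Fin a ⊕ (Fin j × Fin p)) where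
  funMap := fun f xs => apFun a p j f xs
  RelMap := fun r _ => r.elim

lemma apStr_model (a p j : ℕ) :
    letI := apStr a p j
    APModel (vc a p : Fin a → Fin a ⊕ (Fin j × Fin p)) (vs a p) := by
  let _ := apStr a p j
  have hc : ∀ i : Fin a, (vc a p i : Fin a ⊕ (Fin j × Fin p)) = Sum.inl i := fun i => rfl
  have hs : ∀ (i : Fin p) (z : Fin j × Fin p),
      (vs a p i (Sum.inr z) : Fin a ⊕ (Fin j × Fin p)) = Sum.inr (z.1, i) := fun i z => rfl
  refine ⟨?_, ?_⟩
  · intro i i' hii h
    rw [hc, hc] at h
    exact hii (Sum.inl_injective h)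
  · rintro (x | ⟨b, x⟩)
    · left; exact ⟨x, (hc x).symm⟩
    · right
      refine ⟨?_, ?_, ?_, ?_⟩
      · intro i i' h
        rw [hs, hc] at h
        simp at h
      · intro i i' hii h
        rw [hs, hs] at h
        apply hii
        simpa using h
      · intro i i'
        rw [hs, hs, hs]
      · exact ⟨x, (hs x (b, x)).symm⟩

theorem isSpectrum_AP (a p : ℕ) (ha : 0 < a) : IsSpectrum {n | ∃ j, n = a + p * j} := by
  classical
  refine ⟨APLang a p, ax1 a p ⊓ ax2 a p, ⟨?_, ?_⟩, ?_⟩
  · have : Function.Surjective (fun z : Fin a ⊕ Fin p =>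
        (match z with
        | Sum.inl i => ⟨0, APFun.c i⟩
        | Sum.inr i => ⟨1, APFun.s i⟩ : Σ n, (APLang a p).Functions n)) := by
      rintro ⟨n, f⟩
      cases f with
      | c i => exact ⟨Sum.inl i, rfl⟩
      | s i => exact ⟨Sum.inr i, rfl⟩
    exact Finite.of_surjective _ this
  · have : IsEmpty (Σ n, (APLang a p).Relations n) := ⟨fun z => z.2.elim⟩
    infer_instance
  · ext n
    constructor
    · rintro ⟨hn, M, sM, hM, hr⟩
      have hfin : Finite M := by
        apply Nat.finite_of_card_ne_zero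
        omega
      have h1 := realize_ax.1 hr
      obtain ⟨j, hj⟩ := h1.card
      exact ⟨j, by rw [← hM, hj]⟩
    · rintro ⟨j, rfl⟩
      refine ⟨by omega, Fin a ⊕ (Fin j × Fin p), apStr a p j, ?_, ?_⟩
      · rw [Nat.card_sum, Nat.card_prod, Nat.card_eq_fintype_card, Nat.card_eq_fintype_card,
          Nat.card_eq_fintype_card, Fintype.card_fin, Fintype.card_fin, Fintype.card_fin]
        ring
      · exact (@realize_ax a p _ (apStr a p j)).2 (apStr_model a p j)

/-! ### Eventually periodic sets -/

theorem isSpectrum_of_periodic (T : Set ℕ) (h0 : 0 ∉ T) (N p : ℕ) (hp : 0 < p)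
    (hT : ∀ n, N ≤ n → (n ∈ T ↔ n + p ∈ T)) : IsSpectrum T := by
  classical
  have key : T = ⋃ a ∈ (Finset.range (N + p)).filter (fun a => a ∈ T),
      {n | ∃ j, n = a + (if a < N then 0 else p) * j} := by
    ext n
    simp only [Set.mem_iUnion, Finset.mem_filter, Finset.mem_range, Set.mem_ofPred_eq, exists_prop]
    constructor
    · intro hn
      induction n using Nat.strong_induction_on with
      | _ n ih =>
        by_cases hnN : n < N + p
        · exact ⟨n, ⟨hnN, hn⟩, 0, by simp⟩
        · obtain ⟨m, rfl⟩ : ∃ m, n = m + p := ⟨n - p, by omega⟩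
          have hm : m ∈ T := (hT m (by omega)).2 hn
          obtain ⟨a, ⟨ha1, ha2⟩, j, hj⟩ := ih m (by omega) hm
          by_cases haN : a < N
          · simp only [haN, if_true] at hj
            omega
          · refine ⟨a, ⟨ha1, ha2⟩, j + 1, ?_⟩
            simp only [haN, if_false] at hj ⊢
            rw [hj]
            ring
    · rintro ⟨a, ⟨_, ha2⟩, j, hj⟩
      by_cases haN : a < N
      · simp only [haN, if_true] at hj
        rw [hj]; simpa using ha2
      · simp only [haN, if_false] at hj
        rw [hj]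
        clear hj
        induction j with
        | zero => simpa using ha2
        | succ j ih =>
          have h1 : a + p * (j + 1) = (a + p * j) + p := by ring
          rw [h1]
          exact (hT (a + p * j) (by omega)).1 ih
  rw [key]
  apply isSpectrum_biUnion
  intro a ha
  rw [Finset.mem_filter] at ha
  apply isSpectrum_AP
  rcases Nat.eq_zero_or_pos a with h | h
  · rw [h] at ha; exact absurd ha.2 h0
  · exact h

/-- A set that is eventually closed under adding `p` is eventually periodic. -/
theorem eventually_periodic (S : Set ℕ) (B p : ℕ) (hp : 0 < p)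
    (hS : ∀ n ∈ S, B < n → n + p ∈ S) : ∃ N, ∀ n, N ≤ n → (n ∈ S ↔ n + p ∈ S) := by
  classical
  have h1 : ∀ r : Fin p, ∃ m, ∀ n, m ≤ n → n % p = r.1 → (n ∈ S ↔ n + p ∈ S) := by
    intro r
    by_cases hex : ∃ m, m ∈ S ∧ B < m ∧ m % p = r.1
    · obtain ⟨m, hm1, hm2, hm3⟩ := hex
      have hup : ∀ j, m + p * j ∈ S := by
        intro j
        induction j with
        | zero => simpa using hm1
        | succ j ih =>
          have h1 : m + p * (j + 1) = (m + p * j) + p := by ring
          rw [h1]
          exact hS _ ih (by omega)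
      refine ⟨m, fun n hn hr => ?_⟩
      have h2 : n ∈ S := by
        obtain ⟨j, hj⟩ := (Nat.modEq_iff_dvd' hn).1 (show m % p = n % p by rw [hm3, hr])
        have : n = m + p * j := by omega
        rw [this]; exact hup j
      have h3 := hS n h2 (by omega)
      exact ⟨fun _ => h3, fun _ => h2⟩
    · push Not at hex
      refine ⟨B + 1, fun n hn hr => ?_⟩
      constructor
      · intro h; exact absurd hr (hex n h (by omega))
      · intro h
        exact absurd (by simpa using hr) (hex (n + p) h (by omega))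
  choose m hm using h1
  refine ⟨Finset.univ.sup m, fun n hn => ?_⟩
  exact hm ⟨n % p, Nat.mod_lt _ hp⟩ n
    (le_trans (Finset.le_sup (f := m) (Finset.mem_univ _)) hn) rfl

/-- If a set of positive integers is eventually closed under adding a fixed positive number,
then the set and its complement are spectra. -/
theorem isSpectrum_compl (S : Set ℕ) (h0 : 0 ∉ S) (B p : ℕ) (hp : 0 < p)
    (hS : ∀ n ∈ S, B < n → n + p ∈ S) :
    IsSpectrum S ∧ IsSpectrum {n | 0 < n ∧ n ∉ S} := by
  obtain ⟨N, hN⟩ := eventually_periodic S B p hp hS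
  refine ⟨isSpectrum_of_periodic S h0 N p hp hN, ?_⟩
  refine isSpectrum_of_periodic _ (by simp) (N + 1) p hp ?_
  intro n hn
  have := hN n (by omega)
  simp only [Set.mem_ofPred_eq]
  rw [this]
  constructor
  · rintro ⟨_, h⟩; exact ⟨by omega, h⟩
  · rintro ⟨_, h⟩; exact ⟨by omega, h⟩

end Pool.Agent.Helper31.Spectra
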