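import Mathlib
import Pool.Agent.Helper31.Spectra

set_option autoImplicit false

namespace Pool.Agent.Helper31.BoundedCore

open FirstOrder FirstOrder.Language
open Pool.Agent.Helper31.Spectra

variable {L : FirstOrder.Language.{0, 0}}

/-! ### Free amalgamation with arbitrary values on mixed tuples -/

section Amalgam

variable {A M N : Type} [L.Structure A] [L.Structure M] [L.Structure N]

/-- The underlying set of the amalgam. -/
abbrev Am (M : Type) {A N : Type} (e' : A → N) : Type := M ⊕ {y : N // y ∉ Set.range e'}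

open Classical in
/-- The map of the second structure into the amalgam. -/
noncomputable def jm (e : A → M) (e' : A → N) (y : N) : Am M e' :=
  if h : ∃ a, e' a = y then Sum.inl (e h.choose) else Sum.inr ⟨y, h⟩

lemma jm_base {e : A → M} {e' : A → N} (he' : Function.Injective e') (a : A) :
    jm e e' (e' a) = Sum.inl (e a) := by
  have h : ∃ b, e' b = e' a := ⟨a, rfl⟩
  rw [jm, dif_pos h, he' h.choose_spec]

lemma jm_new {e : A → M} {e' : A → N} {y : N} (h : ¬ ∃ a, e' a = y) :
    jm e e' y = (Sum.inr ⟨y, h⟩ : Am M e') := dif_neg h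

lemma jm_inj {e : A → M} {e' : A → N} (he : Function.Injective e)
    (he' : Function.Injective e') : Function.Injective (jm e e') := by
  intro x y hxy
  by_cases hx : ∃ a, e' a = x
  · obtain ⟨a, rfl⟩ := hx
    rw [jm_base he'] at hxy
    by_cases hy : ∃ b, e' b = y
    · obtain ⟨b, rfl⟩ := hy
      rw [jm_base he'] at hxy
      rw [he (Sum.inl_injective hxy)]
    · rw [jm_new hy] at hxy
      exact absurd hxy (by simp)
  · rw [jm_new hx] at hxy
    by_cases hy : ∃ b, e' b = y
    · obtain ⟨b, rfl⟩ := hy
      rw [jm_base he'] at hxy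
      exact absurd hxy (by simp)
    · rw [jm_new hy] at hxy
      have := Sum.inr_injective hxy
      exact congrArg Subtype.val this

lemma jm_eq_inl {e : A → M} {e' : A → N} (he' : Function.Injective e') {y : N} {m : M}
    (h : jm e e' y = Sum.inl m) : ∃ a, y = e' a ∧ m = e a := by
  by_cases hy : ∃ a, e' a = y
  · obtain ⟨a, rfl⟩ := hy
    rw [jm_base he'] at h
    exact ⟨a, rfl, (Sum.inl_injective h).symm⟩
  · rw [jm_new hy] at h
    exact absurd h (by simp)

open Classical in
/-- The structure on the amalgam. -/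
@[instance_reducible]
noncomputable def amStr (e : A ↪[L] M) (e' : A ↪[L] N) : L.Structure (Am M e') where
  funMap := fun {n} f t =>
    if h1 : ∃ t' : Fin n → M, t = fun l => Sum.inl (t' l) then
      Sum.inl (Structure.funMap f h1.choose)
    else if h2 : ∃ t' : Fin n → N, t = fun l => jm e e' (t' l) then
      jm e e' (Structure.funMap f h2.choose)
    else if h3 : 0 < n then t ⟨0, h3⟩
    else (h1 ⟨fun l => (h3 (lt_of_le_of_lt (Nat.zero_le _) l.2)).elim,
      funext fun l => (h3 (lt_of_le_of_lt (Nat.zero_le _) l.2)).elim⟩).elim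
  RelMap := fun {n} R t =>
    (∃ t' : Fin n → M, (t = fun l => Sum.inl (t' l)) ∧ Structure.RelMap R t') ∨
    (∃ t' : Fin n → N, (t = fun l => jm e e' (t' l)) ∧ Structure.RelMap R t')

lemma common {e : A ↪[L] M} {e' : A ↪[L] N} {n : ℕ} {t' : Fin n → M} {t'' : Fin n → N}
    (h : (fun l => (Sum.inl (t' l) : Am M e')) = fun l => jm e e' (t'' l)) :
    ∃ a : Fin n → A, t' = e ∘ a ∧ t'' = e' ∘ a := by
  choose a ha using fun l => jm_eq_inl e'.injective (congrFun h l).symm
  exact ⟨a, funext fun l => (ha l).2, funext fun l => (ha l).1⟩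

open Classical in
lemma am_fun_left (e : A ↪[L] M) (e' : A ↪[L] N) {n : ℕ} (f : L.Functions n)
    (t' : Fin n → M) :
    @Structure.funMap L (Am M e') (amStr e e') n f (fun l => Sum.inl (t' l)) =
      Sum.inl (Structure.funMap f t') := by
  have h1 : ∃ t'' : Fin n → M,
      (fun l => (Sum.inl (t' l) : Am M e')) = fun l => Sum.inl (t'' l) := ⟨t', rfl⟩
  have h2 : h1.choose = t' := by
    funext l
    exact (Sum.inl_injective (congrFun h1.choose_spec l)).symm
  show (if h1 : ∃ t'' : Fin n → M,
      (fun l => (Sum.inl (t' l) : Am M e')) = fun l => Sum.inl (t'' l) then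
      Sum.inl (Structure.funMap f h1.choose) else _) = _
  rw [dif_pos h1, h2]

open Classical in
lemma am_fun_right (e : A ↪[L] M) (e' : A ↪[L] N) {n : ℕ} (f : L.Functions n)
    (t' : Fin n → N) :
    @Structure.funMap L (Am M e') (amStr e e') n f (fun l => jm e e' (t' l)) =
      jm e e' (Structure.funMap f t') := by
  by_cases h1 : ∃ t'' : Fin n → M,
      (fun l => jm e e' (t' l)) = fun l => (Sum.inl (t'' l) : Am M e')
  · obtain ⟨t'', ht''⟩ := h1
    obtain ⟨a, ha1, ha2⟩ := common ht''.symm
    rw [ht'', am_fun_left, ha1, ha2, ← e.map_fun, ← e'.map_fun, jm_base e'.injective]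
  · have h2 : ∃ t'' : Fin n → N,
        (fun l => jm e e' (t' l)) = fun l => (jm e e' (t'' l) : Am M e') := ⟨t', rfl⟩
    have h3 : h2.choose = t' := by
      funext l
      exact (jm_inj e.injective e'.injective (congrFun h2.choose_spec l)).symm
    have h4 : @Structure.funMap L (Am M e') (amStr e e') n f (fun l => jm e e' (t' l)) =
      if h1 : ∃ t'' : Fin n → M, (fun l => jm e e' (t' l)) = fun l => (Sum.inl (t'' l) : Am M e')
      then Sum.inl (Structure.funMap f h1.choose)
      else if h2 : ∃ t'' : Fin n → N,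
        (fun l => jm e e' (t' l)) = fun l => (jm e e' (t'' l) : Am M e') then
        jm e e' (Structure.funMap f h2.choose)
      else if h3 : 0 < n then (fun l => jm e e' (t' l)) ⟨0, h3⟩
      else (h1 ⟨fun l => (h3 (lt_of_le_of_lt (Nat.zero_le _) l.2)).elim,
        funext fun l => (h3 (lt_of_le_of_lt (Nat.zero_le _) l.2)).elim⟩).elim := rfl
    rw [h4, dif_neg h1, dif_pos h2, h3]

/-- The first embedding into the amalgam. -/
noncomputable def embL (e : A ↪[L] M) (e' : A ↪[L] N) :
    @FirstOrder.Language.Embedding L M (Am M e') _ (amStr e e') :=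
  letI := amStr e e'
  { toFun := Sum.inl
    inj' := Sum.inl_injective
    map_fun' := fun f t' => (am_fun_left e e' f t').symm
    map_rel' := by
      intro n R t'
      constructor
      · rintro (⟨t'', h1, h2⟩ | ⟨t'', h1, h2⟩)
        · have : t' = t'' := funext fun l => Sum.inl_injective (congrFun h1 l)
          rw [this]; exact h2
        · obtain ⟨a, ha1, ha2⟩ := common h1
          rw [ha1]
          rw [ha2] at h2
          rw [e'.map_rel] at h2
          rw [e.map_rel]
          exact h2
      · intro h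
        exact Or.inl ⟨t', rfl, h⟩ }

/-- The second embedding into the amalgam. -/
noncomputable def embR (e : A ↪[L] M) (e' : A ↪[L] N) :
    @FirstOrder.Language.Embedding L N (Am M e') _ (amStr e e') :=
  letI := amStr e e'
  { toFun := jm e e'
    inj' := jm_inj e.injective e'.injective
    map_fun' := fun f t' => (am_fun_right e e' f t').symm
    map_rel' := by
      intro n R t'
      constructor
      · rintro (⟨t'', h1, h2⟩ | ⟨t'', h1, h2⟩)
        · obtain ⟨a, ha1, ha2⟩ := common h1.symm
          rw [ha2]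
          rw [ha1] at h2
          rw [e.map_rel] at h2
          rw [e'.map_rel]
          exact h2
        · have : t' = t'' := funext fun l =>
            jm_inj e.injective e'.injective (congrFun h1 l)
          rw [this]; exact h2
      · intro h
        exact Or.inr ⟨t', rfl, h⟩ }

end Amalgam

/-- The sizes of the finite models of `∀ x χ(c, x)` that contain a fixed structure with universe
`Fin k`, the parameters `c` being given inside this structure. -/
def SC {a : ℕ} (χ : L.BoundedFormula Empty (a + 1)) {k : ℕ} (s : L.Structure (Fin k))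
    (c : Fin a → Fin k) : Set ℕ :=
  {n | ∃ (M : Type) (sM : L.Structure M), Finite M ∧ Nat.card M = n ∧
    ∃ e : @FirstOrder.Language.Embedding L (Fin k) M s sM,
      ∀ x : M, @BoundedFormula.Realize L M sM _ _ χ (default : Empty → M)
        (Fin.snoc (α := fun _ => M) (fun i => e (c i)) x : Fin (a + 1) → M)}

lemma card_Am {A M N : Type} [Finite M] [Finite N] (e' : A → N)
    (he' : Function.Injective e') :
    Nat.card (Am M e') + Nat.card A = Nat.card M + Nat.card N := by
  have h1 : Nat.card (Am M e') = Nat.card M + Nat.card {y : N // y ∉ Set.range e'} :=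
    Nat.card_sum
  have h2 := Set.ncard_add_ncard_compl (Set.range e')
  have h3 : Nat.card {y : N // y ∉ Set.range e'} = (Set.range e')ᶜ.ncard := rfl
  have h4 : (Set.range e').ncard = Nat.card A := by
    have : (Set.range e').ncard = Nat.card (Set.range e') := rfl
    rw [this, Nat.card_range_of_injective he']
  omega

theorem SC_add {a : ℕ} {χ : L.BoundedFormula Empty (a + 1)} (hχ : χ.IsExistential) {k : ℕ}
    {s : L.Structure (Fin k)} {c : Fin a → Fin k} {m n : ℕ} (hm : m ∈ SC χ s c)
    (hn : n ∈ SC χ s c) : m + n - k ∈ SC χ s c := by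
  obtain ⟨M, sM, fM, rfl, e, he⟩ := hm
  obtain ⟨N, sN, fN, rfl, e', he'⟩ := hn
  have hcard := card_Am (M := M) e' e'.injective
  rw [Nat.card_fin] at hcard
  refine ⟨Am M e', amStr e e', inferInstance, by omega, ?_⟩
  letI := amStr e e'
  refine ⟨(embL e e').comp e, fun x => ?_⟩
  rcases x with m | y
  · have h1 := hχ.realize_embedding (embL e e') (he m)
    rw [Fin.comp_snoc] at h1
    rw [Subsingleton.elim (default : Empty → Am M e') ((embL e e') ∘ default)]
    exact h1
  · have h1 := hχ.realize_embedding (embR e e') (he' y.1)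
    rw [Fin.comp_snoc] at h1
    rw [Subsingleton.elim (default : Empty → Am M e') ((embR e e') ∘ default)]
    have h2 : (embR e e') y.1 = Sum.inr y := by
      show jm e e' y.1 = _
      rw [jm_new y.2]
    have h3 : ((embR e e') ∘ fun i => e' (c i)) = fun i => ((embL e e').comp e) (c i) := by
      funext i
      show jm e e' (e' (c i)) = _
      rw [jm_base e'.injective]
      rfl
    rw [h2, h3] at h1
    exact h1

theorem SC_step {a : ℕ} {χ : L.BoundedFormula Empty (a + 1)} (hχ : χ.IsExistential) {k : ℕ}
    {s : L.Structure (Fin k)} {c : Fin a → Fin k} {m n : ℕ} (hm : m ∈ SC χ s c) (hk : k < m)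
    (hn : n ∈ SC χ s c) (j : ℕ) : n + j * (m - k) ∈ SC χ s c := by
  induction j with
  | zero => simpa using hn
  | succ j ih =>
    have h := SC_add hχ ih hm
    have h2 : n + j * (m - k) + m - k = n + (j + 1) * (m - k) := by
      have h3 : (j + 1) * (m - k) = j * (m - k) + (m - k) := by ring
      rw [h3]
      omega
    rw [h2] at h
    exact h

/-- A finite vocabulary has finitely many structures on `Fin k`. -/
lemma finite_structure (hL : FinVoc L) (k : ℕ) : Finite (L.Structure (Fin k)) := by
  obtain ⟨h1, h2⟩ := hL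
  let g : L.Structure (Fin k) → ((x : Σ n, L.Functions n) → (Fin x.1 → Fin k) → Fin k) ×
      ((x : Σ n, L.Relations n) → (Fin x.1 → Fin k) → Prop) :=
    fun s => (fun x => s.funMap x.2, fun x => s.RelMap x.2)
  refine Finite.of_injective g ?_
  intro s s' h
  rw [Prod.mk.injEq] at h
  refine FirstOrder.Language.Structure.ext ?_ ?_
  · funext n f
    exact congrFun h.1 ⟨n, f⟩
  · funext n f
    exact congrFun h.2 ⟨n, f⟩

/-- The main step: if in every finite model of `∃ c ∀ x χ` some witness generates a substructure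
with at most `k` elements, then the spectrum is eventually closed under adding a fixed positive
number. -/
theorem spec_step (hL : FinVoc L) {a : ℕ} {χ : L.BoundedFormula Empty (a + 1)}
    (hχ : χ.IsExistential) (k : ℕ)
    (hk : ∀ (M : Type) (_ : L.Structure M), Finite M →
      (∃ c : Fin a → M, ∀ x : M, χ.Realize (default : Empty → M)
        (Fin.snoc (α := fun _ => M) c x : Fin (a + 1) → M)) →
      ∃ c : Fin a → M, (∀ x : M, χ.Realize (default : Empty → M)
        (Fin.snoc (α := fun _ => M) c x : Fin (a + 1) → M)) ∧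
        Nat.card (Substructure.closure L (Set.range c)) ≤ k) :
    ∃ B p : ℕ, 0 < p ∧ ∀ n ∈ Spec L χ.all.exs, B < n → n + p ∈ Spec L χ.all.exs := by
  classical
  have hfin := fun k => finite_structure hL k
  let T : Type := Σ k' : Fin (k + 1), L.Structure (Fin k'.1) × (Fin a → Fin k'.1)
  have hT : Finite T := by
    have : ∀ k' : Fin (k + 1), Finite (L.Structure (Fin k'.1) × (Fin a → Fin k'.1)) := by
      intro k'
      have := hfin k'.1
      infer_instance
    infer_instance
  have := Fintype.ofFinite T
  let ST : T → Set ℕ := fun τ => SC χ τ.2.1 τ.2.2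
  let q : T → ℕ := fun τ => if h : ∃ m ∈ ST τ, τ.1.1 < m then h.choose - τ.1.1 else 1
  have hq : ∀ τ, 0 < q τ := by
    intro τ
    by_cases h : ∃ m ∈ ST τ, τ.1.1 < m
    · have h1 := h.choose_spec
      have h2 : q τ = h.choose - τ.1.1 := dif_pos h
      omega
    · have h2 : q τ = 1 := dif_neg h
      omega
  have hreal : ∀ (M : Type) (sM : L.Structure M),
      (@Sentence.Realize L M sM χ.all.exs ↔ ∃ c : Fin a → M, ∀ x : M,
        @BoundedFormula.Realize L M sM _ _ χ (default : Empty → M)
        (Fin.snoc (α := fun _ => M) c x : Fin (a + 1) → M)) := by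
    intro M sM
    have h1 : @Sentence.Realize L M sM χ.all.exs ↔
      @Formula.Realize L M sM _ χ.all.exs (default : Empty → M) := Iff.rfl
    rw [h1, BoundedFormula.realize_exs]
    constructor
    · rintro ⟨c, hc⟩
      exact ⟨c, fun x => hc x⟩
    · rintro ⟨c, hc⟩
      exact ⟨c, fun x => hc x⟩
  have hSpec : ∀ n, n ∈ Spec L χ.all.exs ↔ 0 < n ∧ ∃ τ, n ∈ ST τ := by
    intro n
    constructor
    · rintro ⟨hn, M, sM, hM, hr⟩
      refine ⟨hn, ?_⟩
      have hMfin : Finite M := Nat.finite_of_card_ne_zero (by omega)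
      obtain ⟨c, hc, hck⟩ := hk M sM hMfin ((hreal M sM).1 hr)
      set A := Substructure.closure L (Set.range c) with hA
      have hcA : ∀ i, c i ∈ A := fun i => Substructure.subset_closure ⟨i, rfl⟩
      have hAfin : Finite A := inferInstance
      obtain ⟨E⟩ : Nonempty (A ≃ Fin (Nat.card A)) := ⟨Finite.equivFin A⟩
      let sF : L.Structure (Fin (Nat.card A)) := E.inducedStructure
      let E' : A ≃[L] Fin (Nat.card A) := E.inducedStructureEquiv
      refine ⟨⟨⟨Nat.card A, by omega⟩, sF, fun i => E ⟨c i, hcA i⟩⟩, M, sM, hMfin, hM,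
        A.subtype.comp E'.symm.toEmbedding, fun x => ?_⟩
      have h2 : (fun i => (A.subtype.comp E'.symm.toEmbedding) (E ⟨c i, hcA i⟩)) = c := by
        funext i
        show ((E'.symm (E' ⟨c i, hcA i⟩) : A) : M) = c i
        rw [FirstOrder.Language.Equiv.symm_apply_apply]
      rw [h2]
      exact hc x
    · rintro ⟨hn, τ, M, sM, -, hM, e, he⟩
      exact ⟨hn, M, sM, hM, (hreal M sM).2 ⟨_, he⟩⟩
  refine ⟨k, ∏ τ, q τ, Finset.prod_pos (fun τ _ => hq τ), fun n hn hkn => ?_⟩
  rw [hSpec] at hn ⊢
  obtain ⟨hn0, τ, hτ⟩ := hn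
  refine ⟨by omega, τ, ?_⟩
  have hτk : τ.1.1 < n := by
    have := τ.1.2
    omega
  have h : ∃ m ∈ ST τ, τ.1.1 < m := ⟨n, hτ, hτk⟩
  have hqτ : q τ = h.choose - τ.1.1 := dif_pos h
  have h1 := h.choose_spec
  obtain ⟨j, hj⟩ : q τ ∣ ∏ τ, q τ := Finset.dvd_prod_of_mem q (Finset.mem_univ τ)
  have h2 := SC_step hχ h1.1 h1.2 hτ j
  rw [hj, mul_comm, hqτ]
  exact h2

end Pool.Agent.Helper31.BoundedCore
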