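import Mathlib

set_option autoImplicit false

namespace Pool.Agent.Helper31.CloneProj

/-! ### The generic structure -/

/-- Codes of one-point extension requirements. -/
abbrev Req : Type := (Finset (List (Option ℕ)) × Finset (List (Option ℕ))) × ℕ

/-- Decoding a natural number as a requirement. -/
noncomputable def req (t : ℕ) : Req := (Denumerable.eqv Req).symm t

/-- The maximum of a list. -/
def mx (l : List ℕ) : ℕ := l.foldr max 0

/-- Replace the entries equal to `t` by `none`. -/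
def mark (t : ℕ) (l : List ℕ) : List (Option ℕ) :=
  l.map (fun y => if y = t then none else some y)

/-- The generic structure: each list of natural numbers gets a value in `ZMod 2 × Bool`. -/
noncomputable def P (l : List ℕ) : ZMod 2 × Bool :=
  (if mark (mx l) l ∈ (req (mx l)).1.1 then 1 else 0, decide (mark (mx l) l ∈ (req (mx l)).1.2))

lemma le_mx {l : List ℕ} {y : ℕ} (h : y ∈ l) : y ≤ mx l := by
  induction l with
  | nil => simp at h
  | cons a l ih =>
    simp only [mx, List.foldr_cons]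
    rcases List.mem_cons.1 h with h | h
    · subst h; exact le_max_left _ _
    · exact le_trans (ih h) (le_max_right _ _)

lemma mx_le {l : List ℕ} {t : ℕ} (h : ∀ y ∈ l, y ≤ t) : mx l ≤ t := by
  induction l with
  | nil => simp [mx]
  | cons a l ih =>
    simp only [mx, List.foldr_cons]
    exact max_le (h a (by simp)) (ih (fun y hy => h y (by simp [hy])))

lemma mx_eq {l : List ℕ} {t : ℕ} (h : ∀ y ∈ l, y ≤ t) (ht : t ∈ l) : mx l = t :=
  le_antisymm (mx_le h) (le_mx ht)

lemma mx_mem {l : List ℕ} (h : l ≠ []) : mx l ∈ l := by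
  induction l with
  | nil => exact absurd rfl h
  | cons a l ih =>
    simp only [mx, List.foldr_cons]
    by_cases hl : l = []
    · subst hl; simp
    · rcases le_total a (List.foldr max 0 l) with h1 | h1
      · rw [max_eq_right h1]; exact List.mem_cons_of_mem _ (ih hl)
      · rw [max_eq_left h1]; simp

/-- The set of nodup lists with entries in `none` or `some y`, `y ∈ F`, is finite. -/
lemma finite_relevant (F : Finset ℕ) :
    {l : List (Option ℕ) | l.Nodup ∧ ∀ o ∈ l, o = none ∨ ∃ y ∈ F, o = some y}.Finite := by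
  classical
  set G : Finset (Option ℕ) := insert none (F.image some) with hG
  have : {l : List (Option ℕ) | l.Nodup ∧ ∀ o ∈ l, o = none ∨ ∃ y ∈ F, o = some y} ⊆
      {l : List (Option ℕ) | l.length ≤ G.card ∧ ∀ o ∈ l, o ∈ G} := by
    rintro l ⟨h1, h2⟩
    have h3 : ∀ o ∈ l, o ∈ G := by
      intro o ho
      rcases h2 o ho with h | ⟨y, hy, h⟩
      · simp [hG, h]
      · rw [hG, h]; simp [hy]
    refine ⟨?_, h3⟩
    rw [← List.toFinset_card_of_nodup h1]
    exact Finset.card_le_card (fun o ho => h3 o (by simpa using ho))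
  refine Set.Finite.subset ?_ this
  have : {l : List (Option ℕ) | l.length ≤ G.card ∧ ∀ o ∈ l, o ∈ G} ⊆
      (fun l : List G => l.map Subtype.val) '' {l : List G | l.length ≤ G.card} := by
    rintro l ⟨h1, h2⟩
    refine ⟨l.attach.map (fun x => ⟨x.1, h2 x.1 x.2⟩), ?_, ?_⟩
    · simpa using h1
    · show List.map _ (List.map _ _) = l
      rw [List.map_map]
      exact List.attach_map_subtype_val l
  exact Set.Finite.subset (Set.Finite.image _ (List.finite_length_le G G.card)) this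

/-- The one-point extension property of the generic structure. -/
theorem extension (F : Finset ℕ) (τ : List (Option ℕ) → ZMod 2 × Bool) :
    ∃ t, (∀ y ∈ F, y < t) ∧ ∀ l : List ℕ, l.Nodup → (∀ y ∈ l, y ∈ F ∨ y = t) → t ∈ l →
      P l = τ (mark t l) := by
  classical
  set R := (finite_relevant F).toFinset with hR
  set A := R.filter (fun l => (τ l).1 = 1) with hA
  set B := R.filter (fun l => (τ l).2 = true) with hB
  -- infinitely many codes
  have hinj : Function.Injective (fun j : ℕ => (Denumerable.eqv Req) ((A, B), j)) := by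
    intro i j hij
    have := (Denumerable.eqv Req).injective hij
    simpa using this
  obtain ⟨j, hj⟩ : ∃ j, F.sup id < (Denumerable.eqv Req) ((A, B), j) := by
    by_contra hcon
    push Not at hcon
    have hfin : (Set.range (fun j : ℕ => (Denumerable.eqv Req) ((A, B), j))).Finite :=
      (Set.finite_Iic (F.sup id)).subset (by rintro _ ⟨j, rfl⟩; exact hcon j)
    exact Set.infinite_range_of_injective hinj hfin
  refine ⟨(Denumerable.eqv Req) ((A, B), j), ?_, ?_⟩
  · intro y hy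
    exact lt_of_le_of_lt (Finset.le_sup (f := id) hy) hj
  · intro l hl hF ht
    set t := (Denumerable.eqv Req) ((A, B), j) with htdef
    have hreq : req t = ((A, B), j) := by
      rw [htdef, req]; simp
    have hmx : mx l = t := by
      refine mx_eq ?_ ht
      intro y hy
      rcases hF y hy with h | h
      · exact le_of_lt (lt_of_le_of_lt (Finset.le_sup (f := id) h) hj)
      · exact le_of_eq h
    have hrel : mark t l ∈ R := by
      rw [hR, Set.Finite.mem_toFinset]
      refine ⟨?_, ?_⟩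
      · refine List.Nodup.map_on ?_ hl
        intro x _ y _ hxy
        by_cases hx : x = t
        · by_cases hy : y = t
          · rw [hx, hy]
          · simp [hx, hy] at hxy
        · by_cases hy : y = t
          · simp [hx, hy] at hxy
          · simpa [hx, hy] using hxy
      · intro o ho
        rw [mark, List.mem_map] at ho
        obtain ⟨y, hy, rfl⟩ := ho
        by_cases hyt : y = t
        · left; simp [hyt]
        · right
          refine ⟨y, ?_, by simp [hyt]⟩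
          rcases hF y hy with h | h
          · exact h
          · exact absurd h hyt
    rw [P, hmx, hreq]
    have h1 : (mark t l ∈ A) ↔ (τ (mark t l)).1 = 1 := by
      rw [hA, Finset.mem_filter]; exact ⟨fun h => h.2, fun h => ⟨hrel, h⟩⟩
    have h2 : (mark t l ∈ B) ↔ (τ (mark t l)).2 = true := by
      rw [hB, Finset.mem_filter]; exact ⟨fun h => h.2, fun h => ⟨hrel, h⟩⟩
    apply Prod.ext
    · simp only [h1]
      by_cases h : (τ (mark t l)).1 = 1
      · simp [h]
      · simp only [h, if_false]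
        revert h
        generalize (τ (mark t l)).1 = z
        revert z
        decide
    · simp only [h2]
      simp

/-! ### Embedding countable structures -/

/-- The recursive embedding of a structure on `ℕ`. -/
noncomputable def iota (q : List ℕ → ZMod 2 × Bool) (n : ℕ) : ℕ :=
  Classical.choose (extension (Finset.univ.image (fun m : Fin n => iota q m.1))
    (fun l' => q (l'.map (fun o => match o with
      | none => n
      | some y => if h : ∃ m : Fin n, iota q m.1 = y then (Classical.choose h).1 else 0))))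
termination_by n
decreasing_by all_goals exact Fin.isLt _

/-- The target function used at stage `n`. -/
noncomputable def tauAt (q : List ℕ → ZMod 2 × Bool) (n : ℕ) : List (Option ℕ) → ZMod 2 × Bool :=
  (fun l' => q (l'.map (fun o => match o with
      | none => n
      | some y => if h : ∃ m : Fin n, iota q m.1 = y then (Classical.choose h).1 else 0)))

lemma iota_spec (q : List ℕ → ZMod 2 × Bool) (n : ℕ) :
    (∀ m < n, iota q m < iota q n) ∧ ∀ l : List ℕ, l.Nodup →
      (∀ y ∈ l, (∃ m < n, iota q m = y) ∨ y = iota q n) → iota q n ∈ l →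
      P l = tauAt q n (mark (iota q n) l) := by
  have h := Classical.choose_spec (extension (Finset.univ.image (fun m : Fin n => iota q m.1))
    (tauAt q n))
  have he : iota q n = Classical.choose (extension
      (Finset.univ.image (fun m : Fin n => iota q m.1)) (tauAt q n)) := by
    rw [iota]; rfl
  rw [← he] at h
  refine ⟨?_, ?_⟩
  · intro m hm
    exact h.1 _ (Finset.mem_image.2 ⟨⟨m, hm⟩, Finset.mem_univ _, rfl⟩)
  · intro l hl hl2 hmem
    refine h.2 l hl ?_ hmem
    intro y hy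
    rcases hl2 y hy with ⟨m, hm, h⟩ | h
    · left; exact Finset.mem_image.2 ⟨⟨m, hm⟩, Finset.mem_univ _, h⟩
    · right; exact h

lemma iota_strictMono (q : List ℕ → ZMod 2 × Bool) : StrictMono (iota q) := by
  intro m n hmn
  exact (iota_spec q n).1 m hmn

lemma iota_P (q : List ℕ → ZMod 2 × Bool) (l : List ℕ) (hl : l.Nodup) (hne : l ≠ []) :
    P (l.map (iota q)) = q l := by
  have hinj := (iota_strictMono q).injective
  set N := mx l with hN
  have hNl : N ∈ l := mx_mem hne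
  have h1 := (iota_spec q N).2 (l.map (iota q)) (hl.map hinj) (by
    intro y hy
    obtain ⟨m, hm, rfl⟩ := List.mem_map.1 hy
    rcases (le_mx hm).lt_or_eq with h | h
    · left; exact ⟨m, h, rfl⟩
    · right; rw [h]) (List.mem_map.2 ⟨N, hNl, rfl⟩)
  rw [h1, tauAt]
  congr 1
  rw [mark, List.map_map, List.map_map]
  conv_rhs => rw [← List.map_id l]
  apply List.map_congr_left
  intro m hm
  simp only [Function.comp_apply, id]
  by_cases h : m = N
  · subst h; simp
  · have hlt : m < N := lt_of_le_of_ne (le_mx hm) h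
    have h2 : iota q m ≠ iota q N := fun h3 => h (hinj h3)
    have h3 : ∃ m' : Fin N, iota q m'.1 = iota q m := ⟨⟨m, hlt⟩, rfl⟩
    simp only [h2, if_false, h3, dif_pos]
    exact hinj (Classical.choose_spec h3)

/-- Every countable structure embeds in the generic one. -/
theorem exists_embedding {Q : Type} [Countable Q] [Nonempty Q] (q : List Q → ZMod 2 × Bool) :
    ∃ ι : Q → ℕ, Function.Injective ι ∧
      ∀ l : List Q, l.Nodup → l ≠ [] → P (l.map ι) = q l := by
  obtain ⟨e, he⟩ := Countable.exists_injective_nat Q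
  refine ⟨iota (fun l => q (l.map (Function.invFun e))) ∘ e,
    (iota_strictMono _).injective.comp he, ?_⟩
  intro l hl hne
  rw [← List.map_map, iota_P _ _ (hl.map he) (by simpa using hne), List.map_map]
  rw [Function.LeftInverse.comp_eq_id (Function.leftInverse_invFun he)]
  simp

/-! ### Homogeneity -/

/-- Finite partial isomorphisms of the generic structure. -/
structure IsPI (s : Set (ℕ × ℕ)) : Prop where
  fin : s.Finite
  bij : ∀ p ∈ s, ∀ p' ∈ s, p.1 = p'.1 ↔ p.2 = p'.2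
  pres : ∀ l : List (ℕ × ℕ), (∀ p ∈ l, p ∈ s) → l.Nodup → l ≠ [] →
    P (l.map Prod.fst) = P (l.map Prod.snd)

lemma IsPI.swap {s : Set (ℕ × ℕ)} (hs : IsPI s) : IsPI (Prod.swap '' s) := by
  refine ⟨hs.fin.image _, ?_, ?_⟩
  · rintro _ ⟨p, hp, rfl⟩ _ ⟨p', hp', rfl⟩
    simpa using (hs.bij p hp p' hp').symm
  · intro l hl hnd hne
    have h := hs.pres (l.map Prod.swap) (by
      intro p hp
      obtain ⟨p', hp', rfl⟩ := List.mem_map.1 hp
      obtain ⟨p'', hp'', rfl⟩ := hl p' hp'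
      simpa using hp'') (hnd.map Prod.swap_injective) (by simpa using hne)
    rw [List.map_map, List.map_map] at h
    exact h.symm

lemma IsPI.forth {s : Set (ℕ × ℕ)} (hs : IsPI s) (a : ℕ) :
    ∃ s', IsPI s' ∧ s ⊆ s' ∧ ∃ b, (a, b) ∈ s' := by
  classical
  by_cases ha : ∃ b, (a, b) ∈ s
  · exact ⟨s, hs, subset_rfl, ha⟩
  set F : Finset ℕ := hs.fin.toFinset.image Prod.snd with hF
  set inv : ℕ → ℕ := fun y => if h : ∃ x, (x, y) ∈ s then Classical.choose h else 0 with hinv
  have hinv' : ∀ p ∈ s, inv p.2 = p.1 := by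
    intro p hp
    have h : ∃ x, (x, p.2) ∈ s := ⟨p.1, hp⟩
    simp only [hinv, h, dif_pos]
    exact (hs.bij _ (Classical.choose_spec h) p hp).2 rfl
  obtain ⟨b, hb1, hb2⟩ := extension F
    (fun l' => P (l'.map (fun o => match o with
      | none => a
      | some y => inv y)))
  have hbF : ∀ p ∈ s, p.2 ≠ b := by
    intro p hp h
    have := hb1 p.2 (Finset.mem_image.2 ⟨p, hs.fin.mem_toFinset.2 hp, rfl⟩)
    omega
  have haF : ∀ p ∈ s, p.1 ≠ a := by
    intro p hp h
    exact ha ⟨p.2, by rw [← h]; exact hp⟩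
  refine ⟨insert (a, b) s, ⟨hs.fin.insert _, ?_, ?_⟩, Set.subset_insert _ _,
    b, Set.mem_insert _ _⟩
  · intro p hp p' hp'
    rcases Set.mem_insert_iff.1 hp with rfl | hp <;> rcases Set.mem_insert_iff.1 hp' with rfl | hp'
    · simp
    · have h1 := haF p' hp'
      have h2 := hbF p' hp'
      constructor
      · intro h; exact absurd h.symm h1
      · intro h; exact absurd h.symm h2
    · have h1 := haF p hp
      have h2 := hbF p hp
      constructor
      · intro h; exact absurd h h1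
      · intro h; exact absurd h h2
    · exact hs.bij p hp p' hp'
  · intro l hl hnd hne
    by_cases hab : (a, b) ∈ l
    · have hinj2 : (l.map Prod.snd).Nodup := by
        refine List.Nodup.map_on ?_ hnd
        intro p hp p' hp' h
        rcases Set.mem_insert_iff.1 (hl p hp) with rfl | hp1 <;>
          rcases Set.mem_insert_iff.1 (hl p' hp') with rfl | hp1'
        · rfl
        · exact absurd h.symm (hbF p' hp1')
        · exact absurd h (hbF p hp1)
        · exact Prod.ext ((hs.bij p hp1 p' hp1').2 h) h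
      rw [hb2 (l.map Prod.snd) hinj2]
      · show _ = P _
        congr 1
        rw [mark, List.map_map, List.map_map]
        apply List.map_congr_left
        intro p hp
        simp only [Function.comp_apply]
        rcases Set.mem_insert_iff.1 (hl p hp) with rfl | hp1
        · simp
        · simp only [hbF p hp1, if_false]
          exact (hinv' p hp1).symm
      · intro y hy
        obtain ⟨p, hp, rfl⟩ := List.mem_map.1 hy
        rcases Set.mem_insert_iff.1 (hl p hp) with rfl | hp1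
        · right; rfl
        · left; exact Finset.mem_image.2 ⟨p, hs.fin.mem_toFinset.2 hp1, rfl⟩
      · exact List.mem_map.2 ⟨(a, b), hab, rfl⟩
    · refine hs.pres l ?_ hnd hne
      intro p hp
      rcases Set.mem_insert_iff.1 (hl p hp) with rfl | hp1
      · exact absurd hp hab
      · exact hp1

lemma IsPI.step {s : Set (ℕ × ℕ)} (hs : IsPI s) (a : ℕ) :
    ∃ s', IsPI s' ∧ s ⊆ s' ∧ (∃ b, (a, b) ∈ s') ∧ (∃ b, (b, a) ∈ s') := by
  obtain ⟨s1, h1, h2, b, hb⟩ := hs.forth a
  obtain ⟨s2, h3, h4, c, hc⟩ := h1.swap.forth a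
  refine ⟨Prod.swap '' s2, h3.swap, ?_, ?_, ?_⟩
  · intro p hp
    exact ⟨p.swap, h4 ⟨p, h2 hp, rfl⟩, by simp⟩
  · exact ⟨b, (b, a), h4 ⟨(a, b), hb, rfl⟩, rfl⟩
  · exact ⟨c, (a, c), hc, rfl⟩

/-- The chain of finite partial isomorphisms. -/
noncomputable def chain {s : Set (ℕ × ℕ)} (hs : IsPI s) : ℕ → {s : Set (ℕ × ℕ) // IsPI s}
  | 0 => ⟨s, hs⟩
  | n + 1 => ⟨Classical.choose ((chain hs n).2.step n),
      (Classical.choose_spec ((chain hs n).2.step n)).1⟩

/-- Homogeneity of the generic structure. -/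
theorem homogeneous {s : Set (ℕ × ℕ)} (hs : IsPI s) :
    ∃ σ τ : ℕ → ℕ, Function.LeftInverse τ σ ∧ Function.RightInverse τ σ ∧
      (∀ p ∈ s, σ p.1 = p.2) ∧ ∀ l : List ℕ, l.Nodup → l ≠ [] → P (l.map σ) = P l := by
  have hmono : ∀ n, (chain hs n).1 ⊆ (chain hs (n + 1)).1 := fun n =>
    (Classical.choose_spec ((chain hs n).2.step n)).2.1
  have hmono' : Monotone (fun n => (chain hs n).1) := monotone_nat_of_le_succ hmono
  have hdom : ∀ n, ∃ b, (n, b) ∈ (chain hs (n + 1)).1 := fun n =>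
    (Classical.choose_spec ((chain hs n).2.step n)).2.2.1
  have hran : ∀ n, ∃ b, (b, n) ∈ (chain hs (n + 1)).1 := fun n =>
    (Classical.choose_spec ((chain hs n).2.step n)).2.2.2
  choose σ hσ using hdom
  choose τ hτ using hran
  have hbij : ∀ m n p p', p ∈ (chain hs m).1 → p' ∈ (chain hs n).1 →
      (p.1 = p'.1 ↔ p.2 = p'.2) := by
    intro m n p p' hp hp'
    exact (chain hs (max m n)).2.bij p (hmono' (le_max_left m n) hp) p'
      (hmono' (le_max_right m n) hp')
  refine ⟨σ, τ, ?_, ?_, ?_, ?_⟩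
  · intro n
    exact (hbij _ _ _ _ (hτ (σ n)) (hσ n)).2 rfl
  · intro n
    exact (hbij _ _ _ _ (hσ (τ n)) (hτ n)).1 rfl
  · intro p hp
    exact (hbij _ 0 _ p (hσ p.1) hp).1 rfl
  · intro l hl hne
    set N := mx l + 1 with hN
    have h := (chain hs N).2.pres (l.map (fun n => (n, σ n))) (by
      intro p hp
      obtain ⟨n, hn, rfl⟩ := List.mem_map.1 hp
      exact hmono' (by have := le_mx hn; omega) (hσ n)) (hl.map (fun a b h => by
        simpa using congrArg Prod.fst h)) (by simpa using hne)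
    rw [List.map_map, List.map_map] at h
    have e1 : (Prod.fst ∘ fun n => (n, σ n)) = id := rfl
    have e2 : (Prod.snd ∘ fun n => (n, σ n)) = σ := rfl
    rw [e1, e2, List.map_id] at h
    exact h.symm

/-! ### The clone -/

/-- `f` maps coordinatewise distinct tuples to distinct elements. -/
def NE {n : ℕ} (f : (Fin n → ℕ) → ℕ) : Prop := ∀ u v : Fin n → ℕ, (∀ i, u i ≠ v i) → f u ≠ f v

/-- A list of `n`-tuples that are pairwise coordinatewise distinct. -/
def Sep {n : ℕ} (l : List (Fin n → ℕ)) : Prop := l.Pairwise (fun u v => ∀ i, u i ≠ v i)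

lemma Sep.nodup_map {n : ℕ} {l : List (Fin n → ℕ)} (hl : Sep l) {f : (Fin n → ℕ) → ℕ}
    (hf : NE f) : (l.map f).Nodup := by
  rw [List.Nodup, List.pairwise_map]
  exact hl.imp (fun h => hf _ _ h)

lemma Sep.row {n : ℕ} {l : List (Fin n → ℕ)} (hl : Sep l) (i : Fin n) :
    (l.map (fun u => u i)).Nodup := by
  rw [List.Nodup, List.pairwise_map]
  exact hl.imp (fun h => h i)

lemma Sep.map {n m : ℕ} {l : List (Fin m → ℕ)} (hl : Sep l) {g : Fin n → (Fin m → ℕ) → ℕ}
    (hg : ∀ i, NE (g i)) : Sep (l.map (fun u i => g i u)) := by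
  rw [Sep, List.pairwise_map]
  exact hl.imp (fun h i => hg i _ _ h)

/-- The levels of the rows of a list of tuples. -/
noncomputable def lev {n : ℕ} (l : List (Fin n → ℕ)) : Fin n → ZMod 2 :=
  fun i => (P (l.map (fun u => u i))).1

/-- `f` acts on the levels by `L` and selects by `s`. -/
def Rep {n : ℕ} (f : (Fin n → ℕ) → ℕ) (L : ℕ → (Fin n → ZMod 2) → ZMod 2)
    (s : ℕ → (Fin n → ZMod 2) → Fin n) : Prop :=
  ∀ l : List (Fin n → ℕ), Sep l → l ≠ [] →
    P (l.map f) = (L l.length (lev l), (P (l.map (fun u => u (s l.length (lev l))))).2)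

lemma Rep.comp {n m : ℕ} {f : (Fin n → ℕ) → ℕ} {g : Fin n → (Fin m → ℕ) → ℕ}
    {L : ℕ → (Fin n → ZMod 2) → ZMod 2} {s : ℕ → (Fin n → ZMod 2) → Fin n}
    {L' : Fin n → ℕ → (Fin m → ZMod 2) → ZMod 2} {s' : Fin n → ℕ → (Fin m → ZMod 2) → Fin m}
    (hf : Rep f L s) (hg : ∀ i, Rep (g i) (L' i) (s' i)) (hne : ∀ i, NE (g i)) :
    Rep (fun x => f (fun i => g i x)) (fun k a => L k (fun i => L' i k a))
      (fun k a => s' (s k (fun i => L' i k a)) k a) := by
  intro l hl hl0
  have h1 := hf (l.map (fun u i => g i u)) (hl.map hne) (by simpa using hl0)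
  have h2 : ∀ i, P (l.map (g i)) =
      (L' i l.length (lev l), (P (l.map (fun u => u (s' i l.length (lev l))))).2) :=
    fun i => hg i l hl hl0
  have h3 : lev (l.map (fun u i => g i u)) = fun i => L' i l.length (lev l) := by
    funext i
    rw [lev, List.map_map]
    exact congrArg Prod.fst (h2 i)
  rw [h3, List.length_map, List.map_map, List.map_map] at h1
  have h4 : (f ∘ fun u i => g i u) = fun x => f (fun i => g i x) := rfl
  rw [h4] at h1
  rw [h1]
  apply Prod.ext
  · rfl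
  · show (P (l.map (g (s l.length fun i => L' i l.length (lev l))))).2 = _
    rw [h2]

/-- The level shift. -/
def hh (k : ℕ) (γ : ℕ → ZMod 2) : ZMod 2 :=
  γ (Nat.unpair k).1 + γ ((Nat.unpair k).1 + (Nat.unpair k).2 + 1)

/-- The affine maps on levels. -/
def Lin {n : ℕ} (c : Fin n → ZMod 2) (γ : ℕ → ZMod 2) (k : ℕ) (a : Fin n → ZMod 2) : ZMod 2 :=
  ∑ i, c i * a i + hh k γ

/-- Membership in the clone with explicit data. -/
structure InC {n : ℕ} (f : (Fin n → ℕ) → ℕ) (c : Fin n → ZMod 2) (γ : ℕ → ZMod 2)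
    (s : ℕ → (Fin n → ZMod 2) → Fin n) : Prop where
  ne : NE f
  sum : ∑ i, c i = 1
  rep : Rep f (Lin c γ) s

/-- The clone. -/
def C (n : ℕ) : Set ((Fin n → ℕ) → ℕ) := {f | ∃ c γ s, InC f c γ s}

lemma InC.mem {n : ℕ} {f : (Fin n → ℕ) → ℕ} {c : Fin n → ZMod 2} {γ : ℕ → ZMod 2}
    {s : ℕ → (Fin n → ZMod 2) → Fin n} (h : InC f c γ s) : f ∈ C n := ⟨c, γ, s, h⟩

lemma Lin_comp {n m : ℕ} (c : Fin n → ZMod 2) (γ : ℕ → ZMod 2) (c' : Fin n → Fin m → ZMod 2)
    (γ' : Fin n → ℕ → ZMod 2) (k : ℕ) (a : Fin m → ZMod 2) :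
    Lin c γ k (fun i => Lin (c' i) (γ' i) k a) =
      Lin (fun j => ∑ i, c i * c' i j) (fun x => ∑ i, c i * γ' i x + γ x) k a := by
  simp only [Lin, hh]
  have h1 : ∑ j, (∑ i, c i * c' i j) * a j = ∑ i, c i * ∑ j, c' i j * a j := by
    simp only [Finset.sum_mul, Finset.mul_sum]
    rw [Finset.sum_comm]
    refine Finset.sum_congr rfl (fun i _ => Finset.sum_congr rfl (fun j _ => by ring))
  rw [h1]
  simp only [mul_add, Finset.sum_add_distrib]
  ring

lemma InC.comp {n m : ℕ} {f : (Fin n → ℕ) → ℕ} {g : Fin n → (Fin m → ℕ) → ℕ}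
    {c : Fin n → ZMod 2} {γ : ℕ → ZMod 2} {s : ℕ → (Fin n → ZMod 2) → Fin n}
    {c' : Fin n → Fin m → ZMod 2} {γ' : Fin n → ℕ → ZMod 2}
    {s' : Fin n → ℕ → (Fin m → ZMod 2) → Fin m}
    (hf : InC f c γ s) (hg : ∀ i, InC (g i) (c' i) (γ' i) (s' i)) :
    InC (fun x => f (fun i => g i x)) (fun j => ∑ i, c i * c' i j)
      (fun x => ∑ i, c i * γ' i x + γ x)
      (fun k a => s' (s k (fun i => Lin (c' i) (γ' i) k a)) k a) := by
  refine ⟨?_, ?_, ?_⟩
  · intro u v huv
    exact hf.ne _ _ (fun i => (hg i).ne u v huv)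
  · rw [Finset.sum_comm]
    have : ∀ i, ∑ j, c i * c' i j = c i := by
      intro i
      rw [← Finset.mul_sum, (hg i).sum, mul_one]
    simp only [this]
    exact hf.sum
  · have h := hf.rep.comp (fun i => (hg i).rep) (fun i => (hg i).ne)
    have h2 : (fun (k : ℕ) (a : Fin m → ZMod 2) => Lin c γ k (fun i => Lin (c' i) (γ' i) k a)) =
        Lin (fun j => ∑ i, c i * c' i j) (fun x => ∑ i, c i * γ' i x + γ x) := by
      funext k a
      exact Lin_comp c γ c' γ' k a
    rw [h2] at h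
    exact h

lemma Lin_single {n : ℕ} (i : Fin n) :
    Lin (Pi.single i 1) (fun _ => 0) = fun (_ : ℕ) (a : Fin n → ZMod 2) => a i := by
  funext k a
  simp [Lin, hh, Pi.single_apply]

lemma InC.proj {n : ℕ} (i : Fin n) :
    InC (fun x : Fin n → ℕ => x i) (Pi.single i 1) (fun _ => 0) (fun _ _ => i) := by
  refine ⟨?_, ?_, ?_⟩
  · intro u v h; exact h i
  · simp
  · intro l hl hl0
    rw [Lin_single]
    rfl

lemma C_proj (n : ℕ) (i : Fin n) : (fun x : Fin n → ℕ => x i) ∈ C n := (InC.proj i).mem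

lemma C_comp (n m : ℕ) (f : (Fin n → ℕ) → ℕ) (g : Fin n → (Fin m → ℕ) → ℕ)
    (hf : f ∈ C n) (hg : ∀ i, g i ∈ C m) : (fun x : Fin m → ℕ => f (fun i => g i x)) ∈ C m := by
  obtain ⟨c, γ, s, hf⟩ := hf
  choose c' γ' s' hg using hg
  exact (hf.comp hg).mem

/-- Maps preserving the generic structure. -/
def Emb (σ : ℕ → ℕ) : Prop := Function.Injective σ ∧ ∀ l : List ℕ, l.Nodup → l ≠ [] →
  P (l.map σ) = P l

lemma Emb.inC {σ : ℕ → ℕ} (hσ : Emb σ) :
    InC (fun y : Fin 1 → ℕ => σ (y 0)) (fun _ => 1) (fun _ => 0) (fun _ _ => 0) := by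
  refine ⟨?_, ?_, ?_⟩
  · intro u v h
    exact fun h2 => h 0 (hσ.1 h2)
  · simp
  · intro l hl hl0
    have h := hσ.2 (l.map (fun u => u 0)) (hl.row 0) (by simpa using hl0)
    rw [List.map_map] at h
    have h2 : (σ ∘ fun u : Fin 1 → ℕ => u 0) = (fun y : Fin 1 → ℕ => σ (y 0)) := rfl
    rw [h2] at h
    rw [h]
    apply Prod.ext
    · simp [Lin, hh, lev]
    · rfl

lemma InC.emb_comp {n : ℕ} {f : (Fin n → ℕ) → ℕ} {c : Fin n → ZMod 2} {γ : ℕ → ZMod 2}
    {s : ℕ → (Fin n → ZMod 2) → Fin n} (h : InC f c γ s) {σ : ℕ → ℕ} (hσ : Emb σ) :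
    InC (fun x => σ (f x)) c γ s := by
  refine ⟨?_, h.sum, ?_⟩
  · intro u v huv h2
    exact h.ne u v huv (hσ.1 h2)
  · intro l hl hl0
    have h1 := hσ.2 (l.map f) (hl.nodup_map h.ne) (by simpa using hl0)
    rw [List.map_map] at h1
    have h2 : (σ ∘ f) = (fun x => σ (f x)) := rfl
    rw [h2] at h1
    rw [h1, h.rep l hl hl0]

/-! ### Oligomorphy -/

/-- The type of a tuple. -/
noncomputable def tp {k : ℕ} (x : Fin k → ℕ) :
    (Fin k → Fin k → Bool) × ({l : List (Fin k) // l.length ≤ k} → ZMod 2 × Bool) :=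
  (fun i j => decide (x i = x j), fun l => P (l.1.map x))

lemma isPI_of_tp {k : ℕ} {x y : Fin k → ℕ} (h : tp x = tp y) :
    IsPI (Set.range (fun i => (x i, y i))) := by
  have h1 : ∀ i j, x i = x j ↔ y i = y j := by
    intro i j
    have := congrFun (congrFun (congrArg Prod.fst h) i) j
    simpa [tp] using this
  refine ⟨Set.finite_range _, ?_, ?_⟩
  · rintro _ ⟨i, rfl⟩ _ ⟨j, rfl⟩
    exact h1 i j
  · intro l hl hnd hne
    have hnek : Nonempty (Fin k) := by
      obtain ⟨p, hp⟩ := List.exists_mem_of_ne_nil l hne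
      obtain ⟨i, _⟩ := hl p hp
      exact ⟨i⟩
    choose! r hr using hl
    have hlr : l = (l.map r).map (fun i => (x i, y i)) := by
      rw [List.map_map]
      conv_lhs => rw [← List.map_id l]
      apply List.map_congr_left
      intro p hp
      exact (hr p hp).symm
    have hnd2 : (l.map r).Nodup := by
      rw [hlr] at hnd
      exact List.Nodup.of_map _ hnd
    have hlen : (l.map r).length ≤ k := by
      have := hnd2.length_le_card
      simpa using this
    have := congrFun (congrArg Prod.snd h) ⟨l.map r, hlen⟩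
    simp only [tp] at this
    rw [hlr]
    generalize l.map r = l' at *
    rw [List.map_map, List.map_map]
    exact this

lemma C_oligo (k : ℕ) : ∃ S : Finset (Fin k → ℕ), ∀ x : Fin k → ℕ, ∃ s ∈ S, ∃ σ τ : ℕ → ℕ,
    (fun y : Fin 1 → ℕ => σ (y 0)) ∈ C 1 ∧ (fun y : Fin 1 → ℕ => τ (y 0)) ∈ C 1 ∧
    Function.LeftInverse τ σ ∧ Function.RightInverse τ σ ∧ σ ∘ s = x := by
  classical
  have : Finite {l : List (Fin k) // l.length ≤ k} :=
    (List.finite_length_le (Fin k) k).to_subtype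
  have _hf : Finite ((Fin k → Fin k → Bool) × ({l : List (Fin k) // l.length ≤ k} → ZMod 2 × Bool)) :=
    inferInstance
  have hfin : (Set.range (fun z : Set.range (tp (k := k)) => Classical.choose z.2)).Finite :=
    Set.finite_range _
  refine ⟨hfin.toFinset, ?_⟩
  intro x
  set s := Classical.choose (Set.mem_range_self (f := tp (k := k)) x) with hs
  have hs2 : tp s = tp x := Classical.choose_spec (Set.mem_range_self (f := tp (k := k)) x)
  refine ⟨s, ?_, ?_⟩
  · rw [Set.Finite.mem_toFinset]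
    exact ⟨⟨tp x, ⟨x, rfl⟩⟩, rfl⟩
  · obtain ⟨σ, τ, h1, h2, h3, h4⟩ := homogeneous (isPI_of_tp hs2)
    have hσ : Emb σ := ⟨h1.injective, h4⟩
    have hτ : Emb τ := by
      refine ⟨h2.injective, ?_⟩
      intro l hl hne
      have := h4 (l.map τ) (hl.map h2.injective) (by simpa using hne)
      rw [List.map_map, h2.comp_eq_id, List.map_id] at this
      exact this.symm
    refine ⟨σ, τ, hσ.inC.mem, hτ.inC.mem, h1, h2, ?_⟩
    funext i
    exact h3 _ ⟨i, rfl⟩

/-! ### Closedness -/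

lemma isLocallyConstant_map {n : ℕ} (l : List (Fin n → ℕ)) :
    IsLocallyConstant (fun f : (Fin n → ℕ) → ℕ => l.map f) := by
  induction l with
  | nil => exact IsLocallyConstant.const _
  | cons u l ih =>
    have h1 : IsLocallyConstant (fun f : (Fin n → ℕ) → ℕ => f u) :=
      (IsLocallyConstant.iff_continuous _).2 (continuous_apply u)
    exact h1.comp₂ ih (fun a b => a :: b)

lemma continuous_Lin {n : ℕ} {W : Type} [TopologicalSpace W] (c : W → Fin n → ZMod 2)
    (γ : W → ℕ → ZMod 2) (hc : Continuous c) (hγ : Continuous γ) (k : ℕ) (a : Fin n → ZMod 2) :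
    Continuous (fun w => Lin (c w) (γ w) k a) := by
  have h1 : Continuous (fun w => γ w (Nat.unpair k).1) := (continuous_apply _).comp hγ
  have h2 : Continuous (fun w => γ w ((Nat.unpair k).1 + (Nat.unpair k).2 + 1)) :=
    (continuous_apply _).comp hγ
  have h3 : Continuous (fun w => (c w, γ w (Nat.unpair k).1,
      γ w ((Nat.unpair k).1 + (Nat.unpair k).2 + 1))) := hc.prodMk (h1.prodMk h2)
  have h4 : Continuous (fun w : (Fin n → ZMod 2) × ZMod 2 × ZMod 2 =>
      ∑ i, w.1 i * a i + (w.2.1 + w.2.2)) := continuous_of_discreteTopology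
  exact h4.comp h3

lemma continuous_sel {n : ℕ} {W : Type} [TopologicalSpace W]
    (s : W → ℕ → (Fin n → ZMod 2) → Fin n) (hs : Continuous s) (k : ℕ) (a : Fin n → ZMod 2)
    (l : List (Fin n → ℕ)) :
    Continuous (fun w => (P (l.map (fun u => u (s w k a)))).2) := by
  have h1 : Continuous (fun w => s w k a) :=
    (continuous_apply a).comp ((continuous_apply k).comp hs)
  have h2 : Continuous (fun i : Fin n => (P (l.map (fun u => u i))).2) :=
    continuous_of_discreteTopology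
  exact h2.comp h1

lemma C_closed (n : ℕ) : IsClosed (C n) := by
  classical
  set Y : Type := (Fin n → ZMod 2) × (ℕ → ZMod 2) × (ℕ → (Fin n → ZMod 2) → Fin n) with hY
  have h1 : C n = {f | NE f} ∩ Prod.snd '' {z : Y × ((Fin n → ℕ) → ℕ) |
      ∑ i, z.1.1 i = 1 ∧ Rep z.2 (Lin z.1.1 z.1.2.1) z.1.2.2} := by
    ext f
    constructor
    · rintro ⟨c, γ, s, h⟩
      exact ⟨h.ne, ⟨((c, γ, s), f), ⟨h.sum, h.rep⟩, rfl⟩⟩
    · rintro ⟨h, ⟨⟨⟨c, γ, s⟩, f'⟩, ⟨h2, h3⟩, rfl⟩⟩
      exact ⟨c, γ, s, h, h2, h3⟩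
  rw [h1]
  refine IsClosed.inter ?_ ?_
  · have : {f : (Fin n → ℕ) → ℕ | NE f} =
        ⋂ (u : Fin n → ℕ) (v : Fin n → ℕ) (_ : ∀ i, u i ≠ v i), {f | f u ≠ f v} := by
      ext f; simp [NE]
    rw [this]
    refine isClosed_iInter (fun u => isClosed_iInter (fun v => isClosed_iInter (fun _ => ?_)))
    have hc : Continuous (fun f : (Fin n → ℕ) → ℕ => (f u, f v)) :=
      (continuous_apply u).prodMk (continuous_apply v)
    exact (isClosed_discrete {z : ℕ × ℕ | z.1 ≠ z.2}).preimage hc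
  · refine isClosedMap_snd_of_compactSpace _ ?_
    have : {z : Y × ((Fin n → ℕ) → ℕ) |
        ∑ i, z.1.1 i = 1 ∧ Rep z.2 (Lin z.1.1 z.1.2.1) z.1.2.2} =
        {z : Y × ((Fin n → ℕ) → ℕ) | ∑ i, z.1.1 i = 1} ∩
        ⋂ (l : List (Fin n → ℕ)) (_ : Sep l) (_ : l ≠ []), {z : Y × ((Fin n → ℕ) → ℕ) |
          P (l.map z.2) = (Lin z.1.1 z.1.2.1 l.length (lev l),
            (P (l.map (fun u => u (z.1.2.2 l.length (lev l))))).2)} := by
      ext z; simp [Rep]
    rw [this]
    have hc : Continuous (fun z : Y × ((Fin n → ℕ) → ℕ) => z.1.1) :=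
      continuous_fst.comp continuous_fst
    have hγ : Continuous (fun z : Y × ((Fin n → ℕ) → ℕ) => z.1.2.1) :=
      continuous_fst.comp (continuous_snd.comp continuous_fst)
    refine IsClosed.inter ?_ ?_
    · exact (isClosed_discrete {c : Fin n → ZMod 2 | ∑ i, c i = 1}).preimage hc
    · refine isClosed_iInter (fun l => isClosed_iInter (fun _ => isClosed_iInter (fun _ => ?_)))
      have hc0 : Continuous (fun f : (Fin n → ℕ) → ℕ => P (l.map f)) :=
        ((isLocallyConstant_map l).comp P).continuous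
      have hc1 : Continuous (fun z : Y × ((Fin n → ℕ) → ℕ) => P (l.map z.2)) :=
        hc0.comp continuous_snd
      have hc2 : Continuous (fun z : Y × ((Fin n → ℕ) → ℕ) =>
          Lin z.1.1 z.1.2.1 l.length (lev l)) :=
        continuous_Lin (fun z : Y × ((Fin n → ℕ) → ℕ) => z.1.1)
          (fun z : Y × ((Fin n → ℕ) → ℕ) => z.1.2.1) hc hγ l.length (lev l)
      have hc3 : Continuous (fun z : Y × ((Fin n → ℕ) → ℕ) =>
          (P (l.map (fun u => u (z.1.2.2 l.length (lev l))))).2) :=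
        continuous_sel (fun z : Y × ((Fin n → ℕ) → ℕ) => z.1.2.2)
          (continuous_snd.comp (continuous_snd.comp continuous_fst)) l.length (lev l) l
      exact isClosed_eq hc1 (hc2.prodMk hc3)

/-! ### A homomorphism to the projections -/

/-- There are many tuples. -/
lemma exists_const (z : ZMod 2 × Bool) : ∃ ι : ℕ → ℕ, Function.Injective ι ∧
    ∀ l : List ℕ, l.Nodup → l ≠ [] → P (l.map ι) = z := exists_embedding (fun _ => z)

lemma exists_sep {n : ℕ} (z : Fin n → ZMod 2 × Bool) (k : ℕ) :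
    ∃ l : List (Fin n → ℕ), Sep l ∧ l.length = k + 1 ∧
      ∀ i, P (l.map (fun u => u i)) = z i := by
  choose ι h1 h2 using fun i => exists_const (z i)
  refine ⟨(List.range (k + 1)).map (fun j i => ι i j), ?_, by simp, ?_⟩
  · rw [Sep, List.pairwise_map]
    exact (List.nodup_range (n := k + 1)).imp (fun h i h3 => h (h1 i h3))
  · intro i
    rw [List.map_map]
    exact h2 i _ List.nodup_range (by simp)

lemma Rep.unique {n : ℕ} {f : (Fin n → ℕ) → ℕ} {L L' : ℕ → (Fin n → ZMod 2) → ZMod 2}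
    {s s' : ℕ → (Fin n → ZMod 2) → Fin n} (h : Rep f L s) (h' : Rep f L' s') (k : ℕ)
    (a : Fin n → ZMod 2) : L (k + 1) a = L' (k + 1) a ∧ s (k + 1) a = s' (k + 1) a := by
  obtain ⟨l, hl, hlen, hP⟩ := exists_sep (fun i => (a i, decide (i = s (k + 1) a))) k
  have hlev : lev l = a := by
    funext i
    rw [lev, hP i]
  have hl0 : l ≠ [] := by
    intro h; rw [h] at hlen; simp at hlen
  have h1 := h l hl hl0
  have h2 := h' l hl hl0
  rw [hlev, hlen] at h1 h2
  rw [hP] at h1 h2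
  rw [h1] at h2
  refine ⟨congrArg Prod.fst h2, ?_⟩
  have := congrArg Prod.snd h2
  simp only [true_eq_decide_iff, decide_true] at this
  exact this.symm

open Filter in
/-- The ultrafilter on pairs. -/
noncomputable def V : Ultrafilter ℕ :=
  (hyperfilter ℕ).bind (fun i => (hyperfilter ℕ).map (fun j => Nat.pair i (j - i - 1)))

open Filter in
lemma eventually_V {p : ℕ → Prop} :
    (∀ᶠ k in (V : Filter ℕ), p k) ↔
      ∀ᶠ i in (hyperfilter ℕ : Filter ℕ), ∀ᶠ j in (hyperfilter ℕ : Filter ℕ),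
        p (Nat.pair i (j - i - 1)) := Iff.rfl

open Filter in
lemma V_hh (γ : ℕ → ZMod 2) : ∀ᶠ k in (V : Filter ℕ), hh k γ = 0 := by
  obtain ⟨z, hz⟩ := Ultrafilter.eq_pure_of_finite ((hyperfilter ℕ).map γ)
  have h1 : ∀ᶠ i in (hyperfilter ℕ : Filter ℕ), γ i = z := by
    have : ({z} : Set (ZMod 2)) ∈ (hyperfilter ℕ).map γ := by
      rw [hz]; exact Set.mem_singleton z
    exact this
  rw [eventually_V]
  filter_upwards [h1] with i hi
  have h2 : ∀ᶠ j in (hyperfilter ℕ : Filter ℕ), i < j :=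
    Nat.hyperfilter_le_atTop (eventually_gt_atTop i)
  filter_upwards [h1, h2] with j hj hij
  rw [hh, Nat.unpair_pair]
  have : i + (j - i - 1) + 1 = j := by omega
  simp only [this, hi, hj]
  exact CharTwo.add_self_eq_zero z

open Filter in
lemma V_pos : ∀ᶠ k in (V : Filter ℕ), 1 ≤ k := by
  rw [eventually_V]
  have h2 : ∀ᶠ i in (hyperfilter ℕ : Filter ℕ), 0 < i :=
    Nat.hyperfilter_le_atTop (eventually_gt_atTop 0)
  filter_upwards [h2] with i hi
  exact Eventually.of_forall (fun j => le_trans hi (Nat.left_le_pair i _))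

/-- `i` is the coordinate selected by the ultrafilter. -/
def Xi {n : ℕ} (f : (Fin n → ℕ) → ℕ) (i : Fin n) : Prop :=
  ∃ c γ s, InC f c γ s ∧ ∀ᶠ k in (V : Filter ℕ), s k (fun _ => 0) = i

lemma Xi_exists {n : ℕ} {f : (Fin n → ℕ) → ℕ} (hf : f ∈ C n) : ∃ i, Xi f i := by
  obtain ⟨c, γ, s, h⟩ := hf
  obtain ⟨i, hi⟩ := Ultrafilter.eq_pure_of_finite (V.map (fun k => s k (fun _ => 0)))
  refine ⟨i, c, γ, s, h, ?_⟩
  have : ({i} : Set (Fin n)) ∈ V.map (fun k => s k (fun _ => 0)) := by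
    rw [hi]; exact Set.mem_singleton i
  exact this

lemma Xi_unique {n : ℕ} {f : (Fin n → ℕ) → ℕ} {i j : Fin n} (hi : Xi f i) (hj : Xi f j) :
    i = j := by
  obtain ⟨c, γ, s, h, h1⟩ := hi
  obtain ⟨c', γ', s', h', h2⟩ := hj
  obtain ⟨k, hk1, hk2, hk3⟩ := (h1.and (h2.and V_pos)).exists
  obtain ⟨k', rfl⟩ : ∃ k', k = k' + 1 := ⟨k - 1, by omega⟩
  rw [← hk1, ← hk2]
  exact (h.rep.unique h'.rep k' _).2

lemma Xi_proj {n : ℕ} (i : Fin n) : Xi (fun x : Fin n → ℕ => x i) i :=
  ⟨_, _, _, InC.proj i, Filter.Eventually.of_forall (fun _ => rfl)⟩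

lemma Xi_comp {n m : ℕ} {f : (Fin n → ℕ) → ℕ} {g : Fin n → (Fin m → ℕ) → ℕ} {i : Fin n}
    {j : Fin n → Fin m} (hf : Xi f i) (hg : ∀ a, Xi (g a) (j a)) :
    Xi (fun x => f (fun a => g a x)) (j i) := by
  obtain ⟨c, γ, s, h, h1⟩ := hf
  choose c' γ' s' h' h2 using hg
  refine ⟨_, _, _, h.comp h', ?_⟩
  have h3 : ∀ᶠ k in (V : Filter ℕ), ∀ a, hh k (γ' a) = 0 :=
    Filter.eventually_all.2 (fun a => V_hh (γ' a))
  have h4 : ∀ᶠ k in (V : Filter ℕ), ∀ a, s' a k (fun _ => 0) = j a :=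
    Filter.eventually_all.2 h2
  filter_upwards [h1, h3, h4] with k hk1 hk3 hk4
  have h5 : (fun a => Lin (c' a) (γ' a) k (fun _ => 0)) = (fun _ => 0) := by
    funext a
    simp [Lin, hk3 a]
  rw [h5, hk1, hk4]

open Classical in
/-- The homomorphism given by the ultrafilter. -/
noncomputable def xi (n : ℕ) (f : (Fin n → ℕ) → ℕ) : ℕ :=
  if h : ∃ i : Fin n, Xi f i then (Classical.choose h).1 else 0

lemma xi_eq {n : ℕ} {f : (Fin n → ℕ) → ℕ} {i : Fin n} (h : Xi f i) : xi n f = i := by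
  have h' : ∃ i : Fin n, Xi f i := ⟨i, h⟩
  rw [xi, dif_pos h', Xi_unique (Classical.choose_spec h') h]

/-- The axioms of a clone homomorphism to the clone of projections. -/
structure IsHom (ξ : ∀ n : ℕ, ((Fin n → ℕ) → ℕ) → ℕ) : Prop where
  lt : ∀ (n : ℕ) (f : (Fin n → ℕ) → ℕ), f ∈ C n → ξ n f < n
  proj : ∀ (n : ℕ) (i : Fin n), ξ n (fun x : Fin n → ℕ => x i) = (i : ℕ)
  comp : ∀ (n m : ℕ) (f : (Fin n → ℕ) → ℕ) (g : Fin n → (Fin m → ℕ) → ℕ),
    f ∈ C n → (∀ i, g i ∈ C m) → ∀ i : Fin n, ξ n f = (i : ℕ) →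
    ξ m (fun x : Fin m → ℕ => f (fun j => g j x)) = ξ m (g i)

theorem xi_isHom : IsHom xi := by
  refine ⟨?_, ?_, ?_⟩
  · intro n f hf
    obtain ⟨i, hi⟩ := Xi_exists hf
    rw [xi_eq hi]
    exact i.2
  · intro n i
    exact xi_eq (Xi_proj i)
  · intro n m f g hf hg i hi
    obtain ⟨i', hi'⟩ := Xi_exists hf
    choose j hj using fun a => Xi_exists (hg a)
    have : i = i' := by
      rw [xi_eq hi'] at hi
      exact (Fin.ext hi).symm
    subst this
    rw [xi_eq (Xi_comp hi' hj), xi_eq (hj i)]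

/-! ### Every homomorphism factors through the data -/

/-- Operations with given data. -/
theorem exists_op {n : ℕ} (L : ℕ → (Fin n → ZMod 2) → ZMod 2)
    (s : ℕ → (Fin n → ZMod 2) → Fin n) :
    ∃ f : (Fin n → ℕ) → ℕ, Function.Injective f ∧ Rep f L s := by
  obtain ⟨ι, h1, h2⟩ := exists_embedding (Q := Fin n → ℕ)
    (fun l => (L l.length (lev l), (P (l.map (fun u => u (s l.length (lev l))))).2))
  refine ⟨ι, h1, ?_⟩
  intro l hl hl0
  refine h2 l ?_ hl0
  rw [List.Nodup]
  refine hl.imp ?_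
  intro u v huv h
  exact huv (s 0 (fun _ => 0)) (by rw [h])

lemma exists_inC {n : ℕ} (c : Fin n → ZMod 2) (hc : ∑ i, c i = 1) (γ : ℕ → ZMod 2)
    (s : ℕ → (Fin n → ZMod 2) → Fin n) :
    ∃ f : (Fin n → ℕ) → ℕ, Function.Injective f ∧ InC f c γ s := by
  obtain ⟨f, h1, h2⟩ := exists_op (Lin c γ) s
  refine ⟨f, h1, ⟨?_, hc, h2⟩⟩
  intro u v huv h
  exact huv (s 0 (fun _ => 0)) (by rw [h1 h])

/-- Two self-embeddings with disjoint ranges. -/
lemma exists_disjoint : ∃ α β : ℕ → ℕ, Emb α ∧ Emb β ∧ ∀ x y, α x ≠ β y := by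
  obtain ⟨ι, h1, h2⟩ := exists_embedding (Q := ℕ ⊕ ℕ) (fun l => P (l.map (Sum.elim id id)))
  refine ⟨fun x => ι (Sum.inl x), fun x => ι (Sum.inr x), ⟨?_, ?_⟩, ⟨?_, ?_⟩, ?_⟩
  · intro x y h
    simpa using h1 h
  · intro l hl hl0
    have := h2 (l.map Sum.inl) (hl.map Sum.inl_injective) (by simpa using hl0)
    rw [List.map_map, List.map_map] at this
    have h3 : (Sum.elim id id ∘ Sum.inl : ℕ → ℕ) = id := rfl
    rw [h3, List.map_id] at this
    exact this
  · intro x y h
    simpa using h1 h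
  · intro l hl hl0
    have := h2 (l.map Sum.inr) (hl.map Sum.inr_injective) (by simpa using hl0)
    rw [List.map_map, List.map_map] at this
    have h3 : (Sum.elim id id ∘ Sum.inr : ℕ → ℕ) = id := rfl
    rw [h3, List.map_id] at this
    exact this
  · intro x y h
    simpa using h1 h

/-- The linking operation. -/
theorem exists_link {n : ℕ} {f f' : (Fin (n + 1) → ℕ) → ℕ} {c : Fin (n + 1) → ZMod 2}
    {γ : ℕ → ZMod 2} {s : ℕ → (Fin (n + 1) → ZMod 2) → Fin (n + 1)} (hf : InC f c γ s)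
    (hf' : InC f' c γ s) (hinj : Function.Injective f') {α β : ℕ → ℕ}
    (hαβ : ∀ x y, α x ≠ β y) :
    ∃ (h : (Fin (n + 2) → ℕ) → ℕ) (α' β' : ℕ → ℕ), h ∈ C (n + 2) ∧ Emb α' ∧ Emb β' ∧
      (∀ x, h (Fin.cons (α (x 0)) x) = α' (f x)) ∧
      (∀ x, h (Fin.cons (β (x 0)) x) = β' (f' x)) := by
  classical
  set κ : (Fin (n + 2) → ℕ) → ℕ ⊕ ℕ ⊕ (Fin (n + 2) → ℕ) := fun w =>
    if w 0 = α (Fin.tail w 0) then Sum.inl (f (Fin.tail w))
    else if w 0 = β (Fin.tail w 0) then Sum.inr (Sum.inl (f' (Fin.tail w)))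
    else Sum.inr (Sum.inr w) with hκ
  set θ : ℕ ⊕ ℕ ⊕ (Fin (n + 2) → ℕ) → ℕ := Sum.elim id
    (Sum.elim (fun b => f (Function.invFun f' b)) (fun w => f (Fin.tail w))) with hθ
  set un : ℕ ⊕ ℕ ⊕ (Fin (n + 2) → ℕ) → ℕ := Sum.elim id (Sum.elim id (fun _ => 0)) with hun
  set q : List (ℕ ⊕ ℕ ⊕ (Fin (n + 2) → ℕ)) → ZMod 2 × Bool := fun l =>
    if ∀ x ∈ l, ∃ b, x = Sum.inr (Sum.inl b) then P (l.map un) else P (l.map θ) with hq
  obtain ⟨ι, h1, h2⟩ := exists_embedding q
  have hinv : ∀ v, Function.invFun f' (f' v) = v := Function.leftInverse_invFun hinj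
  have hθκ : ∀ w, θ (κ w) = f (Fin.tail w) := by
    intro w
    simp only [hκ, hθ]
    split_ifs <;> simp [hinv]
  have hκne : ∀ u v : Fin (n + 2) → ℕ, (∀ i, u i ≠ v i) → κ u ≠ κ v := by
    intro u v huv
    have ht : ∀ i, Fin.tail u i ≠ Fin.tail v i := fun i => huv i.succ
    have a1 := hf.ne _ _ ht
    have a2 := hf'.ne _ _ ht
    have a3 : u ≠ v := fun h => huv 0 (by rw [h])
    simp only [hκ]
    split_ifs <;> simp [a1, a2, a3]
  have hhne : NE (fun w => ι (κ w)) := fun u v huv h => hκne u v huv (h1 h)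
  have hlevtail : ∀ l : List (Fin (n + 2) → ℕ), lev (l.map Fin.tail) = fun i => lev l i.succ := by
    intro l
    funext i
    rw [lev, lev, List.map_map]
    rfl
  have hsept : ∀ l : List (Fin (n + 2) → ℕ), Sep l → Sep (l.map Fin.tail) := by
    intro l hl
    rw [Sep, List.pairwise_map]
    exact hl.imp (fun h => fun (i : Fin (n + 1)) => h (Fin.succ i))
  refine ⟨fun w => ι (κ w), fun x => ι (Sum.inl x), fun x => ι (Sum.inr (Sum.inl x)),
    ?_, ?_, ?_, ?_, ?_⟩
  · refine ⟨Fin.cons 0 c, γ, fun k a => (s k (fun i : Fin (n + 1) => a i.succ)).succ,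
      hhne, ?_, ?_⟩
    · rw [Fin.sum_univ_succ]
      simp [hf.sum]
    · intro l hl hl0
      have h3 : (l.map κ).Nodup := by
        rw [List.Nodup, List.pairwise_map]
        exact hl.imp (fun h => hκne _ _ h)
      have h4 := h2 (l.map κ) h3 (by simpa using hl0)
      rw [List.map_map] at h4
      have h5 : (ι ∘ κ) = fun w => ι (κ w) := rfl
      rw [h5] at h4
      rw [h4, hq]
      have hLin : Lin (Fin.cons 0 c) γ l.length (lev l) =
          Lin c γ l.length (lev (l.map Fin.tail)) := by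
        rw [hlevtail, Lin, Lin, Fin.sum_univ_succ]
        simp
      have hgoal : ∀ g : (Fin (n + 1) → ℕ) → ℕ, InC g c γ s →
          P (l.map (fun w => g (Fin.tail w))) = (Lin (Fin.cons 0 c) γ l.length (lev l),
            (P (l.map (fun u => u ((s l.length (fun i : Fin (n + 1) => lev l i.succ)).succ)))).2) := by
        intro g hg
        have h6 := hg.rep (l.map Fin.tail) (hsept l hl) (by simpa using hl0)
        rw [List.map_map, List.map_map, List.length_map] at h6
        rw [hLin]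
        rw [hlevtail] at h6 ⊢
        exact h6
      dsimp only
      split_ifs with hall
      · rw [← hgoal f' hf']
        congr 1
        rw [List.map_map]
        apply List.map_congr_left
        intro w hw
        obtain ⟨b, hb⟩ := hall (κ w) (List.mem_map.2 ⟨w, hw, rfl⟩)
        simp only [Function.comp_apply]
        rw [hb]
        simp only [hκ] at hb
        split_ifs at hb
        · simp only [Sum.inr.injEq, Sum.inl.injEq] at hb
          rw [hun, hb]
          rfl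
        · simp at hb
      · rw [← hgoal f hf]
        congr 1
        rw [List.map_map]
        apply List.map_congr_left
        intro w _
        exact hθκ w
  · refine ⟨fun x y h => by simpa using h1 h, ?_⟩
    intro l hl hl0
    have := h2 (l.map Sum.inl) (hl.map Sum.inl_injective) (by simpa using hl0)
    rw [List.map_map, hq] at this
    dsimp only at this
    rw [if_neg] at this
    · rw [List.map_map] at this
      have h3 : (θ ∘ Sum.inl : ℕ → ℕ) = id := rfl
      rw [h3, List.map_id] at this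
      exact this
    · intro hall
      obtain ⟨x, hx⟩ := List.exists_mem_of_ne_nil l hl0
      obtain ⟨b, hb⟩ := hall (Sum.inl x) (List.mem_map.2 ⟨x, hx, rfl⟩)
      simp at hb
  · refine ⟨fun x y h => by simpa using h1 h, ?_⟩
    intro l hl hl0
    have hinj' : Function.Injective (fun x : ℕ =>
        (Sum.inr (Sum.inl x) : ℕ ⊕ ℕ ⊕ (Fin (n + 2) → ℕ))) := by
      intro x y h; simpa using h
    have := h2 (l.map (fun x => Sum.inr (Sum.inl x))) (hl.map hinj') (by simpa using hl0)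
    rw [List.map_map, hq] at this
    dsimp only at this
    rw [if_pos] at this
    · rw [List.map_map] at this
      have h3 : (un ∘ fun x : ℕ => Sum.inr (Sum.inl x)) = id := rfl
      rw [h3, List.map_id] at this
      exact this
    · intro x hx
      obtain ⟨b, _, rfl⟩ := List.mem_map.1 hx
      exact ⟨b, rfl⟩
  · intro x
    simp [hκ, Fin.tail_cons]
  · intro x
    simp [hκ, Fin.tail_cons, (hαβ _ _).symm]

/-- A homomorphism ignores composition with embeddings. -/
lemma IsHom.emb_comp {ξ : ∀ n : ℕ, ((Fin n → ℕ) → ℕ) → ℕ} (hξ : IsHom ξ) {σ : ℕ → ℕ}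
    (hσ : Emb σ) {n : ℕ} {f : (Fin n → ℕ) → ℕ} (hf : f ∈ C n) :
    ξ n (fun x => σ (f x)) = ξ n f := by
  have h1 : ξ 1 (fun y : Fin 1 → ℕ => σ (y 0)) = ((0 : Fin 1) : ℕ) := by
    have := hξ.lt 1 _ hσ.inC.mem
    simp only [Fin.val_zero]
    omega
  exact hξ.comp 1 n (fun y => σ (y 0)) (fun _ => f) hσ.inC.mem (fun _ => hf) 0 h1

theorem IsHom.eq_of_injective {ξ : ∀ n : ℕ, ((Fin n → ℕ) → ℕ) → ℕ} (hξ : IsHom ξ) {n : ℕ}
    {f f' : (Fin (n + 1) → ℕ) → ℕ} {c : Fin (n + 1) → ZMod 2}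
    {γ : ℕ → ZMod 2} {s : ℕ → (Fin (n + 1) → ZMod 2) → Fin (n + 1)} (hf : InC f c γ s)
    (hf' : InC f' c γ s) (hinj : Function.Injective f') : ξ (n + 1) f = ξ (n + 1) f' := by
  obtain ⟨α, β, hα, hβ, hαβ⟩ := exists_disjoint
  obtain ⟨h, α', β', hC, hα', hβ', e1, e2⟩ := exists_link hf hf' hinj hαβ
  have hlt := hξ.lt _ _ hC
  -- the two specialisations
  have key : ∀ (σ : ℕ → ℕ), Emb σ → ∀ j : Fin (n + 2), ξ (n + 2) h = j →
      ξ (n + 1) (fun x => h (Fin.cons (σ (x 0)) x)) =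
        ξ (n + 1) (fun x : Fin (n + 1) → ℕ => Fin.cons (α := fun _ => ℕ) (x 0) x j) := by
    intro σ hσ j hj
    have hg : ∀ i : Fin (n + 2),
        (fun x : Fin (n + 1) → ℕ => Fin.cons (α := fun _ => ℕ) (σ (x 0)) x i) ∈ C (n + 1) := by
      intro i
      refine Fin.cases ?_ ?_ i
      · exact ((InC.proj (0 : Fin (n + 1))).emb_comp hσ).mem
      · intro i; exact C_proj _ i
    have h3 := hξ.comp (n + 2) (n + 1) h
      (fun i x => Fin.cons (α := fun _ => ℕ) (σ (x 0)) x i) hC hg j hj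
    have h4 : (fun x : Fin (n + 1) → ℕ => h (fun i => Fin.cons (α := fun _ => ℕ) (σ (x 0)) x i)) =
        fun x => h (Fin.cons (σ (x 0)) x) := rfl
    rw [h4] at h3
    rw [h3]
    refine Fin.cases ?_ ?_ j
    · exact hξ.emb_comp hσ (C_proj _ 0)
    · intro i; rfl
  have k1 := key α hα ⟨_, hlt⟩ rfl
  have k2 := key β hβ ⟨_, hlt⟩ rfl
  have e1' : (fun x => h (Fin.cons (α (x 0)) x)) = fun x => α' (f x) := funext e1
  have e2' : (fun x => h (Fin.cons (β (x 0)) x)) = fun x => β' (f' x) := funext e2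
  rw [e1', hξ.emb_comp hα' hf.mem] at k1
  rw [e2', hξ.emb_comp hβ' hf'.mem] at k2
  rw [k1, k2]

/-- A homomorphism only depends on the data. -/
theorem IsHom.eq_of_data {ξ : ∀ n : ℕ, ((Fin n → ℕ) → ℕ) → ℕ} (hξ : IsHom ξ) {n : ℕ}
    {f f' : (Fin n → ℕ) → ℕ} {c : Fin n → ZMod 2}
    {γ : ℕ → ZMod 2} {s : ℕ → (Fin n → ZMod 2) → Fin n} (hf : InC f c γ s)
    (hf' : InC f' c γ s) : ξ n f = ξ n f' := by
  cases n with
  | zero => exact (s 0 (fun _ => 0)).elim0
  | succ n =>
    obtain ⟨g, h1, h2⟩ := exists_inC c hf.sum γ s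
    rw [hξ.eq_of_injective hf h2 h1, hξ.eq_of_injective hf' h2 h1]

/-! ### No continuous homomorphism -/

lemma InC.congr {n : ℕ} {f : (Fin n → ℕ) → ℕ} {c c' : Fin n → ZMod 2} {γ γ' : ℕ → ZMod 2}
    {s s' : ℕ → (Fin n → ZMod 2) → Fin n} (h : InC f c γ s) (h1 : c = c') (h2 : γ = γ')
    (h3 : s = s') : InC f c' γ' s' := by
  subst h1 h2 h3
  exact h

/-- Composition with a binary operation whose level part is the first projection. -/
lemma InC.comp2 {n : ℕ} {f : (Fin 2 → ℕ) → ℕ} {t : ℕ → Fin 2} {g0 g1 : (Fin n → ℕ) → ℕ}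
    {c0 c1 : Fin n → ZMod 2} {γ0 γ1 : ℕ → ZMod 2} {s0 s1 : ℕ → (Fin n → ZMod 2) → Fin n}
    (hf : InC f (Pi.single 0 1) (fun _ => 0) (fun k _ => t k))
    (h0 : InC g0 c0 γ0 s0) (h1 : InC g1 c1 γ1 s1) :
    InC (fun x => f (fun i => (![g0, g1] : Fin 2 → (Fin n → ℕ) → ℕ) i x)) c0 γ0
      (fun k a => if t k = 0 then s0 k a else s1 k a) := by
  have h := hf.comp (g := ![g0, g1]) (c' := ![c0, c1]) (γ' := ![γ0, γ1]) (s' := ![s0, s1])
    (by rw [Fin.forall_fin_two]; exact ⟨h0, h1⟩)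
  refine h.congr ?_ ?_ ?_
  · funext j; simp [Fin.sum_univ_two]
  · funext j; simp [Fin.sum_univ_two]
  · funext k a
    rcases Fin.exists_fin_two.1 ⟨t k, rfl⟩ with h | h
    · rw [h]; simp
    · rw [h]; simp

lemma IsHom.comp2 {ξ : ∀ n : ℕ, ((Fin n → ℕ) → ℕ) → ℕ} (hξ : IsHom ξ) {n : ℕ}
    {f : (Fin 2 → ℕ) → ℕ} (hf : f ∈ C 2) {g0 g1 : (Fin n → ℕ) → ℕ} (h0 : g0 ∈ C n)
    (h1 : g1 ∈ C n) :
    (ξ 2 f = 0 → ξ n (fun x => f (fun i => (![g0, g1] : Fin 2 → (Fin n → ℕ) → ℕ) i x)) =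
      ξ n g0) ∧
    (ξ 2 f = 1 → ξ n (fun x => f (fun i => (![g0, g1] : Fin 2 → (Fin n → ℕ) → ℕ) i x)) =
      ξ n g1) := by
  have h : ∀ i, (![g0, g1] : Fin 2 → (Fin n → ℕ) → ℕ) i ∈ C n := by
    rw [Fin.forall_fin_two]; exact ⟨h0, h1⟩
  exact ⟨fun e => hξ.comp 2 n f _ hf h 0 e, fun e => hξ.comp 2 n f _ hf h 1 e⟩

lemma IsHom.comp3 {ξ : ∀ n : ℕ, ((Fin n → ℕ) → ℕ) → ℕ} (hξ : IsHom ξ) {n : ℕ}
    {f : (Fin 3 → ℕ) → ℕ} (hf : f ∈ C 3) {g0 g1 g2 : (Fin n → ℕ) → ℕ} (h0 : g0 ∈ C n)
    (h1 : g1 ∈ C n) (h2 : g2 ∈ C n) :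
    (ξ 3 f = 0 → ξ n (fun x => f (fun i => (![g0, g1, g2] : Fin 3 → (Fin n → ℕ) → ℕ) i x)) =
      ξ n g0) ∧
    (ξ 3 f = 1 → ξ n (fun x => f (fun i => (![g0, g1, g2] : Fin 3 → (Fin n → ℕ) → ℕ) i x)) =
      ξ n g1) ∧
    (ξ 3 f = 2 → ξ n (fun x => f (fun i => (![g0, g1, g2] : Fin 3 → (Fin n → ℕ) → ℕ) i x)) =
      ξ n g2) := by
  have h : ∀ i, (![g0, g1, g2] : Fin 3 → (Fin n → ℕ) → ℕ) i ∈ C n := by
    intro i
    fin_cases i
    · exact h0
    · exact h1
    · exact h2
  exact ⟨fun e => hξ.comp 3 n f _ hf h 0 e, fun e => hξ.comp 3 n f _ hf h 1 e,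
    fun e => hξ.comp 3 n f _ hf h 2 e⟩

lemma InC.comp3 {n : ℕ} {f : (Fin 3 → ℕ) → ℕ} {c : Fin 3 → ZMod 2} {γ : ℕ → ZMod 2}
    {s : ℕ → (Fin 3 → ZMod 2) → Fin 3} {g0 g1 g2 : (Fin n → ℕ) → ℕ}
    {c0 c1 c2 : Fin n → ZMod 2} {γ0 γ1 γ2 : ℕ → ZMod 2}
    {s0 s1 s2 : ℕ → (Fin n → ZMod 2) → Fin n}
    (hf : InC f c γ s)
    (h0 : InC g0 c0 γ0 s0) (h1 : InC g1 c1 γ1 s1) (h2 : InC g2 c2 γ2 s2) :
    InC (fun x => f (fun i => (![g0, g1, g2] : Fin 3 → (Fin n → ℕ) → ℕ) i x))
      (fun j => c 0 * c0 j + c 1 * c1 j + c 2 * c2 j)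
      (fun x => c 0 * γ0 x + c 1 * γ1 x + c 2 * γ2 x + γ x)
      (fun k a => (![s0, s1, s2] : Fin 3 → ℕ → (Fin n → ZMod 2) → Fin n)
        (s k (fun i => Lin ((![c0, c1, c2] : Fin 3 → Fin n → ZMod 2) i)
          ((![γ0, γ1, γ2] : Fin 3 → ℕ → ZMod 2) i) k a)) k a) := by
  have h := hf.comp (g := ![g0, g1, g2]) (c' := ![c0, c1, c2]) (γ' := ![γ0, γ1, γ2])
    (s' := ![s0, s1, s2])
    (by
      intro i
      fin_cases i
      · exact h0
      · exact h1
      · exact h2)
  refine h.congr ?_ ?_ rfl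
  · funext j; simp [Fin.sum_univ_three]
  · funext j; simp [Fin.sum_univ_three]

lemma lt_two {a : ℕ} (h : a < 2) : a = 0 ∨ a = 1 := by omega

/-- Step 1: the decomposition operation is mapped to the second projection. -/
lemma IsHom.step1 {ξ : ∀ n : ℕ, ((Fin n → ℕ) → ℕ) → ℕ} (hξ : IsHom ξ) {p : (Fin 2 → ℕ) → ℕ}
    (hp : InC p (Pi.single 0 1) (fun _ => 0) (fun _ _ => 1)) : ξ 2 p = 1 := by
  rcases lt_two (hξ.lt 2 p hp.mem) with h0 | h0
  swap
  · exact h0
  exfalso
  obtain ⟨m, -, hm⟩ := exists_inC (n := 3) (fun _ => 1) (by decide) (fun _ => 0) (fun _ _ => 0)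
  have e0 : InC (fun x : Fin 3 → ℕ => x 0) _ _ _ := InC.proj 0
  have e1 : InC (fun x : Fin 3 → ℕ => x 1) _ _ _ := InC.proj 1
  have e2 : InC (fun x : Fin 3 → ℕ => x 2) _ _ _ := InC.proj 2
  -- the two Maltsev terms
  have m1 := hm.comp3 e0 e0 e1
  have m2 := hm.comp3 e1 e0 e0
  have q1 := hp.comp2 m1 e2
  have q2 := hp.comp2 m2 e2
  have r1 := hp.comp2 e1 e2
  have x1 := hξ.eq_of_data q1 (r1.congr (by funext j; fin_cases j <;> simp <;> decide)
    (by funext j; simp) (by funext k a; simp))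
  have x2 := hξ.eq_of_data q2 (r1.congr (by funext j; fin_cases j <;> simp <;> decide)
    (by funext j; simp) (by funext k a; simp))
  rw [(hξ.comp2 hp.mem m1.mem e2.mem).1 h0, (hξ.comp2 hp.mem e1.mem e2.mem).1 h0,
    hξ.proj 3 1] at x1
  rw [(hξ.comp2 hp.mem m2.mem e2.mem).1 h0, (hξ.comp2 hp.mem e1.mem e2.mem).1 h0,
    hξ.proj 3 1] at x2
  have hlt := hξ.lt 3 m hm.mem
  have y1 := hξ.comp3 hm.mem e0.mem e0.mem e1.mem
  have y2 := hξ.comp3 hm.mem e1.mem e0.mem e0.mem
  have z0 := hξ.proj 3 0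
  have z1 := hξ.proj 3 1
  rw [z0, z1] at y1 y2
  rw [x1] at y1
  rw [x2] at y2
  have : ξ 3 m = 0 ∨ ξ 3 m = 1 ∨ ξ 3 m = 2 := by omega
  rcases this with h | h | h
  · simpa using y1.1 h
  · simpa using y1.2.1 h
  · simpa using y2.2.2 h

/-- Step 2: a homomorphism depends only on the selection part. -/
lemma IsHom.step2 {ξ : ∀ n : ℕ, ((Fin n → ℕ) → ℕ) → ℕ} (hξ : IsHom ξ) {n : ℕ}
    {f f' : (Fin n → ℕ) → ℕ} {c c' : Fin n → ZMod 2} {γ γ' : ℕ → ZMod 2}
    {s : ℕ → (Fin n → ZMod 2) → Fin n} (hf : InC f c γ s) (hf' : InC f' c' γ' s) :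
    ξ n f = ξ n f' := by
  obtain ⟨p, -, hp⟩ := exists_inC (n := 2) (Pi.single 0 1) (by simp) (fun _ => 0)
    (fun _ _ => 1)
  have h1 := hξ.step1 hp
  have e := InC.proj (s 0 (fun _ => 0))
  have x := hξ.eq_of_data (hp.comp2 e hf) ((hp.comp2 e hf').congr rfl rfl rfl)
  rw [(hξ.comp2 hp.mem e.mem hf.mem).2 h1, (hξ.comp2 hp.mem e.mem hf'.mem).2 h1] at x
  exact x

/-- The switching functions. -/
def sw (j k : ℕ) : Fin 2 := if k < j then 0 else 1

/-- Step 3: continuity gives a switching operation that is mapped to the first projection. -/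
lemma IsHom.step3 {ξ : ∀ n : ℕ, ((Fin n → ℕ) → ℕ) → ℕ} (hξ : IsHom ξ)
    (hcont : ContinuousOn (ξ 2) (C 2)) :
    ∃ m g, InC g (Pi.single 0 1) (fun _ => 0) (fun k _ => sw m k) ∧ ξ 2 g = 0 := by
  classical
  obtain ⟨e, heinj, he⟩ := exists_inC (n := 2) (Pi.single 0 1) (by simp) (fun _ => 0)
    (fun _ _ => 0)
  have he0 : ξ 2 e = 0 := by
    rw [hξ.eq_of_data he (InC.proj 0), hξ.proj 2 0]
    rfl
  have hc : {g | ξ 2 g = 0} ∈ nhdsWithin e (C 2) := by
    have := (hcont e he.mem) (show {(0 : ℕ)} ∈ nhds (ξ 2 e) by rw [he0]; simp)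
    exact this
  rw [mem_nhdsWithin] at hc
  obtain ⟨O, hO, heO, hOC⟩ := hc
  rw [isOpen_pi_iff] at hO
  obtain ⟨U, W, hW, hUW⟩ := hO e heO
  set F : Finset ℕ := U.biUnion (fun u => Finset.univ.image u) with hF
  have hUF : ∀ u ∈ U, ∀ i, u i ∈ F := by
    intro u hu i
    exact Finset.mem_biUnion.2 ⟨u, hu, Finset.mem_image.2 ⟨i, Finset.mem_univ _, rfl⟩⟩
  set m := F.card + 1 with hm
  obtain ⟨g', h1, h2⟩ := exists_embedding (Q := Fin 2 → ℕ)
    (fun l => if Sep l then (Lin (Pi.single 0 1) (fun _ => 0) l.length (lev l),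
      (P (l.map (fun u => u (sw m l.length)))).2) else P (l.map e))
  have hPI : IsPI ((fun u => (g' u, e u)) '' (U : Set (Fin 2 → ℕ))) := by
    refine ⟨U.finite_toSet.image _, ?_, ?_⟩
    · rintro _ ⟨u, _, rfl⟩ _ ⟨v, _, rfl⟩
      exact ⟨fun h => by simp only at h; rw [h1 h], fun h => by simp only at h; rw [heinj h]⟩
    · intro l hl hnd hne
      choose! r hr using hl
      have hlr : l = (l.map r).map (fun u => (g' u, e u)) := by
        rw [List.map_map]
        conv_lhs => rw [← List.map_id l]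
        apply List.map_congr_left
        intro p hp
        exact (hr p hp).2.symm
      have hmem : ∀ u ∈ l.map r, u ∈ U := by
        intro u hu
        obtain ⟨p, hp, rfl⟩ := List.mem_map.1 hu
        exact (hr p hp).1
      have hnd2 : (l.map r).Nodup := by
        rw [hlr] at hnd
        exact List.Nodup.of_map _ hnd
      have hne2 : l.map r ≠ [] := by simpa using hne
      rw [hlr]
      generalize l.map r = l' at *
      rw [List.map_map, List.map_map]
      have e1 : (Prod.fst ∘ fun u => (g' u, e u)) = g' := rfl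
      have e2 : (Prod.snd ∘ fun u => (g' u, e u)) = e := rfl
      rw [e1, e2, h2 l' hnd2 hne2]
      split_ifs with hsep
      · have hlen : l'.length < m := by
          have h3 := hsep.row 0
          have h4 : (l'.map (fun u => u 0)).toFinset ⊆ F := by
            intro y hy
            rw [List.mem_toFinset] at hy
            obtain ⟨u, hu, rfl⟩ := List.mem_map.1 hy
            exact hUF u (hmem u hu) 0
          have h5 := Finset.card_le_card h4
          rw [List.toFinset_card_of_nodup h3, List.length_map] at h5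
          omega
        rw [he.rep l' hsep hne2]
        simp [sw, hlen]
      · rfl
  obtain ⟨σ, τ, a1, a2, a3, a4⟩ := homogeneous hPI
  have hσ : Emb σ := ⟨a1.injective, a4⟩
  have hg' : InC g' (Pi.single 0 1) (fun _ => 0) (fun k _ => sw m k) := by
    refine ⟨?_, by simp, ?_⟩
    · intro u v huv h
      exact huv 0 (by rw [h1 h])
    · intro l hl hl0
      have hnd : l.Nodup := by
        rw [List.Nodup]
        refine hl.imp ?_
        intro u v huv h
        exact huv 0 (by rw [h])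
      rw [h2 l hnd hl0, if_pos hl]
  have hg := hg'.emb_comp hσ
  refine ⟨m, _, hg, ?_⟩
  refine hOC ⟨hUW ?_, hg.mem⟩
  intro u hu
  have : σ (g' u) = e u := a3 (g' u, e u) ⟨u, hu, rfl⟩
  show σ (g' u) ∈ W u
  rw [this]
  exact (hW u hu).2

/-- There is no continuous homomorphism. -/
theorem IsHom.not_continuous {ξ : ∀ n : ℕ, ((Fin n → ℕ) → ℕ) → ℕ} (hξ : IsHom ξ)
    (hcont : ContinuousOn (ξ 2) (C 2)) : False := by
  -- the switching operations
  choose g hginj hg using fun j => exists_inC (n := 2) (Pi.single 0 1) (by simp) (fun _ => 0)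
    (fun k _ => sw j k)
  have hg0 : ξ 2 (g 0) = 1 := by
    refine hξ.step1 ((hg 0).congr rfl rfl ?_)
    funext k a
    simp [sw]
  obtain ⟨m, gm, hgm, hgm0⟩ := hξ.step3 hcont
  have hm : ξ 2 (g m) = 0 := by rw [← hgm0]; exact hξ.eq_of_data (hg m) hgm
  obtain ⟨j, hj1, hj2⟩ : ∃ j, ξ 2 (g j) = 1 ∧ ξ 2 (g (j + 1)) = 0 := by
    by_contra hcon
    push Not at hcon
    have : ∀ j, ξ 2 (g j) = 1 := by
      intro j
      induction j with
      | zero => exact hg0
      | succ j ih =>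
        rcases lt_two (hξ.lt 2 _ (hg (j + 1)).mem) with h | h
        · exact absurd h (hcon j ih)
        · exact h
    rw [this m] at hm
    exact one_ne_zero hm
  -- the homomorphism depends only on the selection part at level `j`
  have key : ∀ (n : ℕ) (f f' : (Fin n → ℕ) → ℕ) (c c' : Fin n → ZMod 2) (γ γ' : ℕ → ZMod 2)
      (s s' : ℕ → (Fin n → ZMod 2) → Fin n), InC f c γ s → InC f' c' γ' s' →
      (∀ a, s j a = s' j a) → ξ n f = ξ n f' := by
    intro n f f' c c' γ γ' s s' hf hf' hs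
    have e := InC.proj (s 0 (fun _ => 0))
    have t1 := (hg (j + 1)).comp2 ((hg j).comp2 e hf) e
    have t2 := (hg (j + 1)).comp2 ((hg j).comp2 e hf') e
    have x := hξ.step2 t1 (t2.congr rfl rfl (by
      funext k a
      rcases lt_trichotomy k j with h | h | h
      · have h1 : sw j k = 0 := by simp [sw, h]
        have h2 : sw (j + 1) k = 0 := by
          have : k < j + 1 := by omega
          simp [sw, this]
        simp [h1, h2]
      · subst h
        have h1 : sw k k = 1 := by simp [sw]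
        have h2 : sw (k + 1) k = 0 := by simp [sw]
        simp [h1, h2, hs a]
      · have h2 : sw (j + 1) k = 1 := by
          have : ¬ k < j + 1 := by omega
          simp [sw, this]
        simp [h2]))
    rw [(hξ.comp2 (hg (j + 1)).mem ((hg j).comp2 e hf).mem e.mem).1 hj2,
      (hξ.comp2 (hg (j + 1)).mem ((hg j).comp2 e hf').mem e.mem).1 hj2,
      (hξ.comp2 (hg j).mem e.mem hf.mem).2 hj1, (hξ.comp2 (hg j).mem e.mem hf'.mem).2 hj1] at x
    exact x
  -- the choice operation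
  obtain ⟨q, -, hq⟩ := exists_inC (n := 3) (Pi.single 0 1) (by simp) (fun _ => 0)
    (fun _ a => if a 0 = 0 then 1 else 2)
  -- the translation
  set γ : ℕ → ZMod 2 := fun x => if x = (Nat.unpair j).1 then 1 else 0 with hγ
  have hhγ : hh j γ = 1 := by
    have : (Nat.unpair j).1 + (Nat.unpair j).2 + 1 ≠ (Nat.unpair j).1 := by omega
    simp [hh, hγ, this]
  obtain ⟨v, -, hv⟩ := exists_inC (n := 1) (fun _ => 1) (by simp) γ (fun _ _ => 0)
  have e0 : InC (fun x : Fin 3 → ℕ => x 0) _ _ _ := InC.proj 0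
  have e1 : InC (fun x : Fin 3 → ℕ => x 1) _ _ _ := InC.proj 1
  have e2 : InC (fun x : Fin 3 → ℕ => x 2) _ _ _ := InC.proj 2
  have d0 : InC (fun x : Fin 2 → ℕ => x 0) _ _ _ := InC.proj 0
  have d1 : InC (fun x : Fin 2 → ℕ => x 1) _ _ _ := InC.proj 1
  have hvv : InC (fun x : Fin 3 → ℕ => v (fun _ => x 0)) (Pi.single 0 1) γ (fun _ _ => 0) := by
    have h := hv.comp (g := fun _ : Fin 1 => fun x : Fin 3 → ℕ => x 0) (fun _ => e0)
    refine h.congr ?_ ?_ rfl
    · funext i; simp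
    · funext i; simp
  have hqlt := hξ.lt 3 q hq.mem
  -- `ξ q ≠ 0`
  have a1 := hq.comp3 d0 d1 d1
  have x1 := key 2 _ _ _ _ _ _ _ _ a1 d1 (by
    intro a
    by_cases h : a 0 = 0 <;> simp [Lin_single, h])
  have y1 := hξ.comp3 hq.mem d0.mem d1.mem d1.mem
  rw [x1, hξ.proj 2 0, hξ.proj 2 1] at y1
  have hq0 : ξ 3 q ≠ 0 := by
    intro h
    simpa using y1.1 h
  -- the contradiction
  have a2 := hq.comp3 hvv e1 e2
  have a3 := hq.comp3 e0 e2 e1
  have x2 := key 3 _ _ _ _ _ _ _ _ a2 a3 (by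
    intro a
    have hL : Lin (Pi.single 0 1) γ j a = a 0 + 1 := by
      simp [Lin, hhγ, Pi.single_apply]
    have hL' : Lin (Pi.single 0 1) (fun _ => 0) j a = a 0 := by
      rw [Lin_single]
    have hz : a 0 = 0 ∨ a 0 = 1 := by
      generalize a 0 = z
      revert z
      decide
    rcases hz with h | h
    · have h10 : (1 : ZMod 2) ≠ 0 := by decide
      simp [hL, hL', h]
    · have h11 : (1 : ZMod 2) + 1 = 0 := by decide
      simp [hL, hL', h, h11])
  have y2 := hξ.comp3 hq.mem hvv.mem e1.mem e2.mem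
  have y3 := hξ.comp3 hq.mem e0.mem e2.mem e1.mem
  rw [x2] at y2
  have z1 := hξ.proj 3 1
  have z2 := hξ.proj 3 2
  rw [z1, z2] at y2 y3
  have : ξ 3 q = 1 ∨ ξ 3 q = 2 := by omega
  rcases this with h | h
  · have u1 := y2.2.1 h
    have u2 := y3.2.1 h
    rw [u1] at u2
    simp at u2
  · have u1 := y2.2.2 h
    have u2 := y3.2.2 h
    rw [u1] at u2
    simp at u2

end Pool.Agent.Helper31.CloneProj
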