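import Mathlib

set_option autoImplicit false

namespace Pool.Agent.Helper31.Homog

open FirstOrder FirstOrder.Language

variable {L : FirstOrder.Language.{0, 0}}

/-- Two tuples have the same complete type. -/
def SameType {α M N : Type} [L.Structure M] [L.Structure N] (a : α → M) (b : α → N) : Prop :=
  ∀ φ : L.Formula α, φ.Realize a ↔ φ.Realize b

variable (L) in
/-- Homogeneity: finite tuples with the same complete type are conjugate. -/
def Homogeneous (M : Type) [L.Structure M] : Prop :=
  ∀ (n : ℕ) (a b : Fin n → M), SameType (L := L) a b → ∃ σ : M ≃[L] M, ∀ i, σ (a i) = b i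

lemma SameType.symm {α M N : Type} [L.Structure M] [L.Structure N] {a : α → M} {b : α → N}
    (h : SameType (L := L) a b) : SameType (L := L) b a := fun φ => (h φ).symm

lemma SameType.trans {α M N P : Type} [L.Structure M] [L.Structure N] [L.Structure P]
    {a : α → M} {b : α → N} {c : α → P}
    (h : SameType (L := L) a b) (h' : SameType (L := L) b c) : SameType (L := L) a c :=
  fun φ => (h φ).trans (h' φ)

lemma SameType.comp {α β M N : Type} [L.Structure M] [L.Structure N] {a : α → M} {b : α → N}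
    (h : SameType (L := L) a b) (σ : β → α) : SameType (L := L) (a ∘ σ) (b ∘ σ) := by
  intro φ
  have := h (φ.relabel σ)
  rwa [Formula.realize_relabel, Formula.realize_relabel] at this

/-! ### Saturation of ultrapowers -/

section Sat

variable (M : Type) [L.Structure M] [Nonempty M]

/-- The ultrapower over a nonprincipal ultrafilter on the natural numbers. -/
abbrev UP : Type := ((Filter.hyperfilter ℕ : Ultrafilter ℕ) : Filter ℕ).Product (fun _ => M)

/-- The class of a sequence. -/
noncomputable abbrev cl (x : ℕ → M) : UP M := (x : UP M)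

omit [L.Structure M] [Nonempty M] in
lemma cl_surj (z : UP M) : ∃ x : ℕ → M, cl M x = z := by
  obtain ⟨x, hx⟩ := Quotient.exists_rep z
  exact ⟨x, hx⟩

variable {M}

lemma los {β : Type} (φ : L.Formula β) (x : β → ℕ → M) :
    (φ.Realize (fun i => cl M (x i))) ↔
      ∀ᶠ t in ((Filter.hyperfilter ℕ : Ultrafilter ℕ) : Filter ℕ), φ.Realize (fun i => x i t) :=
  Ultraproduct.realize_formula_cast φ x

/-- Countable saturation of the ultrapower. -/
theorem saturation {α β : Type} (a : α → UP M) (γ : ℕ → L.Formula (α ⊕ β))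
    (h : ∀ j : ℕ, ∃ x : β → UP M, ∀ i < j, (γ i).Realize (Sum.elim a x)) :
    ∃ x : β → UP M, ∀ i, (γ i).Realize (Sum.elim a x) := by
  classical
  choose A hA using fun i => cl_surj M (a i)
  choose x hx using h
  choose X hX using fun j i => cl_surj M (x j i)
  let T : ℕ → Set ℕ := fun j => {t | ∀ i < j, (γ i).Realize (Sum.elim (fun i => A i t) (fun i => X j i t))}
  have hT : ∀ j, ∀ᶠ t in ((Filter.hyperfilter ℕ : Ultrafilter ℕ) : Filter ℕ), t ∈ T j := by
    intro j
    have h1 : ∀ i ∈ Finset.range j, ∀ᶠ t in ((Filter.hyperfilter ℕ : Ultrafilter ℕ) : Filter ℕ),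
        (γ i).Realize (Sum.elim (fun i => A i t) (fun i => X j i t)) := by
      intro i hi
      have h2 := hx j i (Finset.mem_range.1 hi)
      have h3 : (Sum.elim a (x j) : α ⊕ β → UP M) =
          fun e => cl M (Sum.elim A (X j) e) := by
        funext e
        rcases e with e | e
        · exact (hA e).symm
        · exact (hX j e).symm
      rw [h3, los] at h2
      refine h2.mono (fun t ht => ?_)
      have h4 : (fun e => Sum.elim A (X j) e t) =
          Sum.elim (fun i => A i t) (fun i => X j i t) := by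
        funext e
        rcases e with e | e <;> rfl
      rw [h4] at ht
      exact ht
    rw [← Filter.eventually_all_finset] at h1
    refine h1.mono (fun t ht i hi => ht i (Finset.mem_range.2 hi))
  -- choose the level
  let J : ℕ → ℕ := fun t => Nat.findGreatest (fun j => t ∈ T j) t
  have hJ : ∀ t, t ∈ T (J t) := by
    intro t
    refine Nat.findGreatest_spec (P := fun j => t ∈ T j) (Nat.zero_le t) ?_
    intro i hi
    exact absurd hi (Nat.not_lt_zero i)
  let Y : β → ℕ → M := fun e t => X (J t) e t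
  refine ⟨fun e => cl M (Y e), fun i => ?_⟩
  have h3 : (Sum.elim a (fun e => cl M (Y e)) : α ⊕ β → UP M) =
      fun e => cl M (Sum.elim A Y e) := by
    funext e
    rcases e with e | e
    · exact (hA e).symm
    · rfl
  rw [h3, los]
  have h5 : ∀ᶠ t in ((Filter.hyperfilter ℕ : Ultrafilter ℕ) : Filter ℕ), i + 1 ≤ t := by
    have : ∀ᶠ t in (Filter.cofinite : Filter ℕ), i + 1 ≤ t := by
      rw [Nat.cofinite_eq_atTop]
      exact Filter.eventually_ge_atTop (i + 1)
    exact this.filter_mono Filter.hyperfilter_le_cofinite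
  filter_upwards [hT (i + 1), h5] with t ht1 ht2
  have h6 : i + 1 ≤ J t := Nat.le_findGreatest ht2 ht1
  have h7 := hJ t i (by omega)
  have h4 : (fun e => Sum.elim A Y e t) =
      Sum.elim (fun i => A i t) (fun i => X (J t) i t) := by
    funext e
    rcases e with e | e <;> rfl
  rw [h4]
  exact h7

/-- If every formula of a complete type over a tuple is satisfiable then the type is realised. -/
theorem realize_type [Countable L.Symbols] {α β N : Type} [L.Structure N]
    [Countable α] [Finite β] (a : α → N) (c : β → N) (b : α → UP M)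
    (hab : SameType (L := L) a b) :
    ∃ d : β → UP M, SameType (L := L) (Sum.elim a c) (Sum.elim b d) := by
  classical
  have : Countable (L.Formula (α ⊕ β)) := inferInstance
  -- an enumeration of the type
  let Γ : Type := {φ : L.Formula (α ⊕ β) // φ.Realize (Sum.elim a c)}
  have hΓ : Nonempty Γ := ⟨⟨⊤, by simp⟩⟩
  have : Countable Γ := inferInstance
  obtain ⟨e, he⟩ := exists_surjective_nat Γ
  obtain ⟨d, hd⟩ := saturation (L := L) b (fun i => (e i).1) (by
    intro j
    let ψ : L.Formula (α ⊕ β) := Formula.iInf (fun i : Fin j => (e i).1)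
    have h1 : (ψ.iExs β).Realize a := by
      rw [Formula.realize_iExs]
      refine ⟨c, ?_⟩
      rw [Formula.realize_iInf]
      intro i
      exact (e i).2
    rw [hab, Formula.realize_iExs] at h1
    obtain ⟨d, hd⟩ := h1
    rw [Formula.realize_iInf] at hd
    exact ⟨d, fun i hi => hd ⟨i, hi⟩⟩)
  refine ⟨d, fun φ => ?_⟩
  have key : ∀ φ : L.Formula (α ⊕ β), φ.Realize (Sum.elim a c) → φ.Realize (Sum.elim b d) := by
    intro φ hφ
    obtain ⟨i, hi⟩ := he ⟨φ, hφ⟩
    have := hd i
    rw [hi] at this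
    exact this
  constructor
  · exact key φ
  · intro h
    by_contra hn
    exact (key φ.not (by rwa [Formula.realize_not])) h

end Sat

/-! ### Weak homogeneity and countable elementary substructures -/

variable (L) in
/-- Weak homogeneity. -/
def WH (N : Type) [L.Structure N] : Prop :=
  ∀ (n : ℕ) (a b : Fin n → N), SameType (L := L) a b → ∀ c : N, ∃ d : N,
    SameType (L := L) (Sum.elim a (fun _ : Unit => c)) (Sum.elim b (fun _ : Unit => d))

lemma wh_UP [Countable L.Symbols] (M : Type) [L.Structure M] [Nonempty M] : WH L (UP M) := by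
  intro n a b hab c
  obtain ⟨d, hd⟩ := realize_type a (fun _ : Unit => c) b hab
  refine ⟨d (), ?_⟩
  have : (fun _ : Unit => d ()) = d := by
    funext u
    rfl
  rw [this]
  exact hd

section Closure

variable {N : Type} [L.Structure N] [Nonempty N]

open Classical in
/-- A choice of the extension in weak homogeneity. -/
noncomputable def Dfun (L : FirstOrder.Language.{0, 0}) {N : Type} [L.Structure N] (n : ℕ)
    (a b : Fin n → N) (c : N) : N :=
  if h : ∃ d : N,
    SameType (L := L) (Sum.elim a (fun _ : Unit => c)) (Sum.elim b (fun _ : Unit => d))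
  then h.choose else c

open Classical in
/-- Witnesses for the test of Tarski and Vaught. -/
noncomputable def Sk (n : ℕ) (φ : L.BoundedFormula Empty (n + 1)) (x : Fin n → N) : N :=
  if h : ∃ a : N, φ.Realize default (Fin.snoc x a : Fin (n + 1) → N) then h.choose
  else Classical.arbitrary N

variable (L) in
/-- One closure step. -/
def stepC (S : Set N) : Set N :=
  S ∪ Set.range (fun p : Σ n : ℕ, (Fin n → S) × (Fin n → S) × S =>
      Dfun L p.1 (fun i => (p.2.1 i : N)) (fun i => (p.2.2.1 i : N)) p.2.2.2) ∪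
    Set.range (fun p : Σ n : ℕ, L.BoundedFormula Empty (n + 1) × (Fin n → S) =>
      Sk p.1 p.2.1 (fun i => (p.2.2 i : N))) ∪
    Set.range (fun p : Σ n : ℕ, L.Functions n × (Fin n → S) =>
      Structure.funMap p.2.1 (fun i => (p.2.2 i : N)))

lemma subset_stepC (S : Set N) : S ⊆ stepC L S := fun _ hx => Or.inl (Or.inl (Or.inl hx))

lemma countable_stepC [Countable L.Symbols] {S : Set N} (hS : S.Countable) :
    (stepC L S).Countable := by
  have := hS.to_subtype
  have h1 : ∀ n, Countable (L.BoundedFormula Empty (n + 1)) := fun n =>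
    Function.Injective.countable (f := fun φ : L.BoundedFormula Empty (n + 1) =>
      (⟨n + 1, φ⟩ : Σ n, L.BoundedFormula Empty n)) (fun φ ψ h => by simpa using h)
  have h2 : ∀ n, Countable (L.Functions n) := fun n =>
    Function.Injective.countable (f := fun f : L.Functions n =>
      (Sum.inl ⟨n, f⟩ : L.Symbols)) (fun φ ψ h => by simpa using h)
  exact ((hS.union (Set.countable_range _)).union (Set.countable_range _)).union
    (Set.countable_range _)

variable (L) in
/-- The closure. -/
def cloC (A : Set N) : Set N := ⋃ k : ℕ, (stepC L)^[k] A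

lemma countable_cloC [Countable L.Symbols] {A : Set N} (hA : A.Countable) :
    (cloC L A).Countable := by
  refine Set.countable_iUnion (fun k => ?_)
  induction k with
  | zero => exact hA
  | succ k ih =>
    rw [Function.iterate_succ_apply']
    exact countable_stepC ih

lemma subset_cloC (A : Set N) : A ⊆ cloC L A := by
  intro x hx
  exact Set.mem_iUnion.2 ⟨0, hx⟩

lemma mono_iter (A : Set N) : Monotone (fun k => (stepC L)^[k] A) := by
  refine monotone_nat_of_le_succ (fun k => ?_)
  rw [Function.iterate_succ_apply']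
  exact subset_stepC _

lemma tuple_level {A : Set N} {n : ℕ} (x : Fin n → N) (hx : ∀ i, x i ∈ cloC L A) :
    ∃ k, ∀ i, x i ∈ (stepC L)^[k] A := by
  choose k hk using fun i => Set.mem_iUnion.1 (hx i)
  refine ⟨Finset.univ.sup k, fun i => ?_⟩
  exact mono_iter A (Finset.le_sup (f := k) (Finset.mem_univ i)) (hk i)

lemma cloC_D {A : Set N} {n : ℕ} (a b : Fin n → N) (c : N) (ha : ∀ i, a i ∈ cloC L A)
    (hb : ∀ i, b i ∈ cloC L A) (hc : c ∈ cloC L A) : Dfun L n a b c ∈ cloC L A := by
  obtain ⟨k1, h1⟩ := tuple_level a ha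
  obtain ⟨k2, h2⟩ := tuple_level b hb
  obtain ⟨k3, h3⟩ := Set.mem_iUnion.1 hc
  set k := max (max k1 k2) k3 with hk
  have e1 : ∀ i, a i ∈ (stepC L)^[k] A := fun i => mono_iter A (by omega) (h1 i)
  have e2 : ∀ i, b i ∈ (stepC L)^[k] A := fun i => mono_iter A (by omega) (h2 i)
  have e3 : c ∈ (stepC L)^[k] A := mono_iter A (by omega) h3
  refine Set.mem_iUnion.2 ⟨k + 1, ?_⟩
  rw [Function.iterate_succ_apply']
  exact Or.inl (Or.inl (Or.inr ⟨⟨n, fun i => ⟨a i, e1 i⟩, fun i => ⟨b i, e2 i⟩, ⟨c, e3⟩⟩, rfl⟩))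

lemma cloC_Sk {A : Set N} {n : ℕ} (φ : L.BoundedFormula Empty (n + 1)) (x : Fin n → N)
    (hx : ∀ i, x i ∈ cloC L A) : Sk n φ x ∈ cloC L A := by
  obtain ⟨k, h1⟩ := tuple_level x hx
  refine Set.mem_iUnion.2 ⟨k + 1, ?_⟩
  rw [Function.iterate_succ_apply']
  exact Or.inl (Or.inr ⟨⟨n, φ, fun i => ⟨x i, h1 i⟩⟩, rfl⟩)

lemma cloC_fun {A : Set N} {n : ℕ} (f : L.Functions n) (x : Fin n → N)
    (hx : ∀ i, x i ∈ cloC L A) : Structure.funMap f x ∈ cloC L A := by
  obtain ⟨k, h1⟩ := tuple_level x hx
  refine Set.mem_iUnion.2 ⟨k + 1, ?_⟩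
  rw [Function.iterate_succ_apply']
  exact Or.inr ⟨⟨n, f, fun i => ⟨x i, h1 i⟩⟩, rfl⟩

variable (L) in
/-- The closure as a substructure. -/
def subC (A : Set N) : L.Substructure N where
  carrier := cloC L A
  fun_mem := fun f x hx => cloC_fun f x hx

lemma subC_elem (A : Set N) : (subC L A).IsElementary := by
  refine (subC L A).isElementary_of_exists (fun n φ x a ha => ?_)
  have hex : ∃ a : N, φ.Realize default (Fin.snoc (fun i => (x i : N)) a : Fin (n + 1) → N) :=
    ⟨a, ha⟩
  refine ⟨⟨Sk n φ (fun i => (x i : N)), cloC_Sk φ _ (fun i => (x i).2)⟩, ?_⟩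
  have h1 : Sk n φ (fun i => (x i : N)) = hex.choose := dif_pos hex
  have h2 := hex.choose_spec
  rw [← h1] at h2
  exact h2

lemma subC_wh (hN : WH L N) (A : Set N) : WH L (subC L A) := by
  intro n a b hab c
  have hel := subC_elem (L := L) A
  let E : L.ElementarySubstructure N := ⟨subC L A, hel⟩
  have hE : ∀ {α : Type} (φ : L.Formula α) (x : α → subC L A),
      φ.Realize (fun i => ((x i : subC L A) : N)) ↔ φ.Realize x := by
    intro α φ x
    exact E.subtype.map_formula φ x
  have h1 : SameType (L := L) (fun i => ((a i : subC L A) : N)) (fun i => (b i : N)) := by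
    intro φ
    rw [hE φ a, hE φ b]
    exact hab φ
  obtain ⟨d, hd⟩ := hN n _ _ h1 (c : N)
  have hex : ∃ d : N, SameType (L := L)
    (Sum.elim (fun i => ((a i : subC L A) : N)) (fun _ : Unit => (c : N)))
    (Sum.elim (fun i => ((b i : subC L A) : N)) (fun _ : Unit => d)) := ⟨d, hd⟩
  have h2 : Dfun L n (fun i => ((a i : subC L A) : N)) (fun i => ((b i : subC L A) : N)) (c : N) =
    hex.choose := dif_pos hex
  have h3 := hex.choose_spec
  rw [← h2] at h3
  have hmem : Dfun L n (fun i => ((a i : subC L A) : N)) (fun i => ((b i : subC L A) : N))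
      (c : N) ∈ subC L A := cloC_D _ _ _ (fun i => (a i).2) (fun i => (b i).2) c.2
  refine ⟨⟨_, hmem⟩, ?_⟩
  intro φ
  have h4 := h3 φ
  have e1 : (Sum.elim (fun i => ((a i : subC L A) : N)) (fun _ : Unit => (c : N))) =
      fun i => ((Sum.elim a (fun _ : Unit => c) i : subC L A) : N) := by
    funext i
    rcases i with i | i <;> rfl
  have e2 : (Sum.elim (fun i => ((b i : subC L A) : N)) (fun _ : Unit =>
      Dfun L n (fun i => ((a i : subC L A) : N)) (fun i => ((b i : subC L A) : N)) (c : N))) =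
      fun i => ((Sum.elim b (fun _ : Unit => (⟨_, hmem⟩ : subC L A)) i : subC L A) : N) := by
    funext i
    rcases i with i | i <;> rfl
  rw [e1, e2, hE, hE] at h4
  exact h4

end Closure

/-! ### Back and forth -/

section BF

variable {G : Type} [L.Structure G]

variable (L) in
/-- A relation between elements that preserves all formulas. -/
def PE (R : Set (G × G)) : Prop :=
  ∀ (n : ℕ) (p : Fin n → G × G), (∀ i, p i ∈ R) →
    SameType (L := L) (fun i => (p i).1) (fun i => (p i).2)

lemma SameType.eq_iff {α M N : Type} [L.Structure M] [L.Structure N] {a : α → M} {b : α → N}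
    (h : SameType (L := L) a b) (i j : α) : a i = a j ↔ b i = b j := by
  have := h (Term.equal (Term.var i) (Term.var j))
  simpa [Formula.realize_equal] using this

lemma pe_insert {R : Set (G × G)} {n : ℕ} {p : Fin n → G × G} (hp : ∀ z ∈ R, ∃ i, p i = z)
    (w : G × G)
    (h : SameType (L := L) (Sum.elim (fun i => (p i).1) (fun _ : Unit => w.1))
      (Sum.elim (fun i => (p i).2) (fun _ : Unit => w.2))) : PE L (insert w R) := by
  intro m q hq
  have h1 : ∀ i, ∃ s : Fin n ⊕ Unit, q i = Sum.elim p (fun _ => w) s := by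
    intro i
    rcases hq i with h | h
    · exact ⟨Sum.inr (), h⟩
    · obtain ⟨j, hj⟩ := hp _ h
      exact ⟨Sum.inl j, hj.symm⟩
  choose s hs using h1
  have h2 := h.comp s
  have e1 : (Sum.elim (fun i => (p i).1) (fun _ : Unit => w.1)) ∘ s = fun i => (q i).1 := by
    funext i
    rw [hs i, Function.comp_apply]
    rcases s i with j | j <;> rfl
  have e2 : (Sum.elim (fun i => (p i).2) (fun _ : Unit => w.2)) ∘ s = fun i => (q i).2 := by
    funext i
    rw [hs i, Function.comp_apply]
    rcases s i with j | j <;> rfl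
  rw [e1, e2] at h2
  exact h2

lemma fin_enum {X : Type} {R : Set X} (hR : R.Finite) :
    ∃ (n : ℕ) (p : Fin n → X), (∀ i, p i ∈ R) ∧ ∀ z ∈ R, ∃ i, p i = z := by
  have := hR.to_subtype
  obtain ⟨n, ⟨e⟩⟩ := Finite.exists_equiv_fin R
  exact ⟨n, fun i => (e.symm i).1, fun i => (e.symm i).2, fun z hz => ⟨e ⟨z, hz⟩, by simp⟩⟩

lemma forth (hG : WH L G) {R : Set (G × G)} (hR : R.Finite) (hPE : PE L R) (c : G) :
    ∃ d, PE L (insert (c, d) R) := by
  obtain ⟨n, p, hp1, hp2⟩ := fin_enum hR
  obtain ⟨d, hd⟩ := hG n _ _ (hPE n p hp1) c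
  exact ⟨d, pe_insert hp2 (c, d) hd⟩

lemma back (hG : WH L G) {R : Set (G × G)} (hR : R.Finite) (hPE : PE L R) (c : G) :
    ∃ d, PE L (insert (d, c) R) := by
  obtain ⟨n, p, hp1, hp2⟩ := fin_enum hR
  obtain ⟨d, hd⟩ := hG n _ _ (hPE n p hp1).symm c
  exact ⟨d, pe_insert hp2 (d, c) hd.symm⟩

theorem homogeneous_of_wh [Countable G] (hG : WH L G) : Homogeneous L G := by
  classical
  intro n a b hab
  let P : Type := {R : Set (G × G) // R.Finite ∧ PE L R}
  let R0 : P := ⟨Set.range (fun i => (a i, b i)), Set.finite_range _, by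
    intro m q hq
    choose s hs using hq
    have h2 := hab.comp s
    have e1 : a ∘ s = fun i => (q i).1 := by
      funext i
      rw [← hs i]; rfl
    have e2 : b ∘ s = fun i => (q i).2 := by
      funext i
      rw [← hs i]; rfl
    rw [e1, e2] at h2
    exact h2⟩
  let 𝒟 : G ⊕ G → Order.Cofinal P := fun z => match z with
    | Sum.inl c => ⟨{R | ∃ d, (c, d) ∈ R.1}, by
        intro R
        obtain ⟨d, hd⟩ := forth hG R.2.1 R.2.2 c
        exact ⟨⟨insert (c, d) R.1, R.2.1.insert _, hd⟩, ⟨d, Or.inl rfl⟩,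
          Set.subset_insert _ _⟩⟩
    | Sum.inr c => ⟨{R | ∃ d, (d, c) ∈ R.1}, by
        intro R
        obtain ⟨d, hd⟩ := back hG R.2.1 R.2.2 c
        exact ⟨⟨insert (d, c) R.1, R.2.1.insert _, hd⟩, ⟨d, Or.inl rfl⟩,
          Set.subset_insert _ _⟩⟩
  have : Encodable (G ⊕ G) := Encodable.ofCountable _
  let I := Order.idealOfCofinals R0 𝒟
  let U : Set (G × G) := {z | ∃ R ∈ I, z ∈ R.1}
  have hU : PE L U := by
    intro m q hq
    choose R hR1 hR2 using hq
    have hdir : Directed (· ≤ ·) (fun x : {x // x ∈ I} => (x : P)) :=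
      directedOn_iff_directed.1 I.directed
    have : Nonempty {x // x ∈ I} := ⟨⟨R0, Order.mem_idealOfCofinals R0 𝒟⟩⟩
    obtain ⟨⟨Z, hZ⟩, hZ2⟩ := hdir.finset_le (Finset.univ.image (fun i => (⟨R i, hR1 i⟩ : {x // x ∈ I})))
    refine Z.2.2 m q (fun i => ?_)
    exact hZ2 ⟨R i, hR1 i⟩ (Finset.mem_image_of_mem _ (Finset.mem_univ i)) (hR2 i)
  have htot : ∀ c, ∃ d, (c, d) ∈ U := by
    intro c
    obtain ⟨R, hR1, hR2⟩ := Order.cofinal_meets_idealOfCofinals R0 𝒟 (Sum.inl c)
    obtain ⟨d, hd⟩ := hR1
    exact ⟨d, R, hR2, hd⟩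
  have hsurj : ∀ c, ∃ d, (d, c) ∈ U := by
    intro c
    obtain ⟨R, hR1, hR2⟩ := Order.cofinal_meets_idealOfCofinals R0 𝒟 (Sum.inr c)
    obtain ⟨d, hd⟩ := hR1
    exact ⟨d, R, hR2, hd⟩
  have huni : ∀ z ∈ U, ∀ w ∈ U, (z.1 = w.1 ↔ z.2 = w.2) := by
    intro z hz w hw
    have h1 := (hU 2 ![z, w] (by
      intro i
      fin_cases i
      · exact hz
      · exact hw)).eq_iff 0 1
    exact h1
  choose f hf using htot
  have hinj : Function.Injective f := by
    intro x y hxy
    exact (huni _ (hf x) _ (hf y)).2 hxy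
  have hsur : Function.Surjective f := by
    intro c
    obtain ⟨d, hd⟩ := hsurj c
    exact ⟨d, (huni _ (hf d) _ hd).1 rfl⟩
  let σ : G ≃ G := Equiv.ofBijective f ⟨hinj, hsur⟩
  refine ⟨{ σ with
    map_fun' := ?_
    map_rel' := ?_ }, ?_⟩
  · intro m g x
    have h1 := hU (m + 1) (Fin.snoc (fun i => (x i, f (x i)))
      (Structure.funMap g x, f (Structure.funMap g x))) (by
        intro i
        refine Fin.lastCases ?_ (fun i => ?_) i
        · rw [Fin.snoc_last]; exact hf _
        · rw [Fin.snoc_castSucc]; exact hf _)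
      (Term.equal (Term.func g (fun i => Term.var (Fin.castSucc i))) (Term.var (Fin.last m)))
    rw [Formula.realize_equal, Formula.realize_equal] at h1
    simp only [Term.realize_func, Term.realize_var, Fin.snoc_castSucc, Fin.snoc_last] at h1
    exact (h1.1 trivial).symm
  · intro m r x
    have h1 := hU m (fun i => (x i, f (x i))) (fun i => hf _)
      (r.formula (fun i => Term.var i))
    rw [Formula.realize_rel, Formula.realize_rel] at h1
    exact h1.symm
  · intro i
    have h1 : (a i, b i) ∈ U := ⟨R0, Order.mem_idealOfCofinals R0 𝒟, ⟨i, rfl⟩⟩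
    exact (huni _ (hf (a i)) _ h1).1 rfl

end BF

end Pool.Agent.Helper31.Homog
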