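import Mathlib

set_option autoImplicit false

/-!
Definitions: monster models, o-minimal theories, global 1-types, invariance, cofinality and
definable closure.  Languages and structures live in `Type`.
-/

namespace Pool.Agent.Helper31.OMin

open FirstOrder FirstOrder.Language Cardinal

variable (L : FirstOrder.Language.{0, 0})

/-- `κ`-saturation: every set of formulas in one variable with parameters from a set of size
less than `κ` which is finitely satisfiable in `U` is realised in `U`. -/
def Saturated (κ : Cardinal.{0}) (U : Type) [L.Structure U] : Prop :=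
  ∀ A : Set U, #A < κ → ∀ T : Set (L.Formula (A ⊕ Unit)),
    (∀ s : Finset (L.Formula (A ⊕ Unit)), (s : Set (L.Formula (A ⊕ Unit))) ⊆ T →
      ∃ x : U, ∀ φ ∈ s, φ.Realize (Sum.elim (fun a : A => (a : U)) (fun _ => x))) →
    ∃ x : U, ∀ φ ∈ T, φ.Realize (Sum.elim (fun a : A => (a : U)) (fun _ => x))

/-- Strong `κ`-homogeneity: every elementary map defined on a set of size less than `κ` extends
to an automorphism. -/
def StronglyHomogeneous (κ : Cardinal.{0}) (U : Type) [L.Structure U] : Prop :=
  ∀ A : Set U, #A < κ → ∀ f : A → U,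
    (∀ φ : L.Formula A, φ.Realize (fun a : A => (a : U)) ↔ φ.Realize f) →
    ∃ σ : U ≃[L] U, ∀ a : A, σ a = f a

/-- `κ`-monster models: `κ`-saturated and strongly `κ`-homogeneous. -/
def Monster (κ : Cardinal.{0}) (U : Type) [L.Structure U] : Prop :=
  Saturated L κ U ∧ StronglyHomogeneous L κ U

variable {L}

/-- Points and open intervals with endpoints in the structure or infinite, for a binary
relation `lt`. -/
def IsCell {N : Type} (lt : N → N → Prop) (s : Set N) : Prop :=
  (∃ a, s = {a}) ∨ (∃ a b, s = {x | lt a x ∧ lt x b}) ∨ (∃ a, s = {x | lt a x}) ∨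
    (∃ a, s = {x | lt x a}) ∨ s = Set.univ

/-- A theory is o-minimal (with respect to a binary relation symbol): in every model the symbol
is a dense linear order without endpoints, and every set definable with parameters is a finite
union of points and open intervals. -/
def OMinimal (T : L.Theory) (lt : L.Relations 2) : Prop :=
  ∀ (N : Type) [L.Structure N] [N ⊨ T],
    IsStrictTotalOrder N (fun a b => Structure.RelMap lt ![a, b]) ∧
    (∀ a b : N, Structure.RelMap lt ![a, b] →
      ∃ c, Structure.RelMap lt ![a, c] ∧ Structure.RelMap lt ![c, b]) ∧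
    (∀ a : N, (∃ b, Structure.RelMap lt ![a, b]) ∧ ∃ b, Structure.RelMap lt ![b, a]) ∧
    ∀ D : Set N, (Set.univ : Set N).Definable₁ L D →
      ∃ C : Set (Set N), C.Finite ∧
        (∀ s ∈ C, IsCell (fun a b => Structure.RelMap lt ![a, b]) s) ∧ D = ⋃₀ C

section Types

variable {U V : Type} [L.Structure U] [L.Structure V]

/-- A global 1-type: a complete and finitely satisfiable set of formulas in one variable with
parameters from `U`. -/
def IsGlobalType (p : Set (L.Formula (U ⊕ Unit))) : Prop :=
  (∀ φ : L.Formula (U ⊕ Unit), φ ∈ p ∨ φ.not ∈ p) ∧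
  ∀ s : Finset (L.Formula (U ⊕ Unit)), (s : Set (L.Formula (U ⊕ Unit))) ⊆ p →
    ∃ x : U, ∀ φ ∈ s, φ.Realize (Sum.elim id (fun _ => x))

/-- A global type is `M`-invariant if it is fixed by all automorphisms fixing `M` pointwise. -/
def IsInvariant (M : Set U) (p : Set (L.Formula (U ⊕ Unit))) : Prop :=
  ∀ σ : U ≃[L] U, (∀ m ∈ M, σ m = m) →
    ∀ φ : L.Formula (U ⊕ Unit), φ.relabel (Sum.map σ id) ∈ p ↔ φ ∈ p

/-- `b` realises `p` in the elementary extension `j`. -/
def Realises (p : Set (L.Formula (U ⊕ Unit))) (j : U ↪ₑ[L] V) (b : V) : Prop :=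
  ∀ φ ∈ p, φ.Realize (Sum.elim j (fun _ => b))

/-- The set `R_p` of all `d` with `p(x) ⊢ x ≤ d`. -/
def rightSet (lt : L.Relations 2) (p : Set (L.Formula (U ⊕ Unit))) : Set U :=
  {d | (lt.formula₂ (Term.var (Sum.inl d)) (Term.var (Sum.inr ()))).not ∈ p}

/-- The set `R_p` has coinitiality less than `κ`. -/
def SmallOnRight (lt : L.Relations 2) (κ : Cardinal.{0}) (p : Set (L.Formula (U ⊕ Unit))) :
    Prop :=
  ∃ C : Set U, C ⊆ rightSet lt p ∧ #C < κ ∧
    ∀ d ∈ rightSet lt p, ∃ c ∈ C, ¬ Structure.RelMap lt ![d, c]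

/-- Definable closure. -/
def dcl (A : Set V) : Set V := {c | A.Definable₁ L {c}}

end Types

end Pool.Agent.Helper31.OMin
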