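import Mathlib
import Pool.Agent.Helper31.OMinDefs

set_option autoImplicit false

/-!
Existence of saturated and strongly homogeneous structures.

Everything takes place inside one ultrapower `M ^ X / D` where `X` is a product of index sets
indexed by a well-order `J`; the members of the chain are the classes of functions that depend
only on the coordinates below a given element of `J`.
-/

namespace Pool.Agent.Helper31.Monster

open FirstOrder FirstOrder.Language Cardinal Set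

variable {L : FirstOrder.Language.{0, 0}}

/-! ### Finite support of formulas -/

/-- Two families have the same complete type. -/
def SameType {α M N : Type} [L.Structure M] [L.Structure N] (a : α → M) (b : α → N) : Prop :=
  ∀ φ : L.Formula α, φ.Realize a ↔ φ.Realize b

lemma SameType.symm {α M N : Type} [L.Structure M] [L.Structure N] {a : α → M} {b : α → N}
    (h : SameType (L := L) a b) : SameType (L := L) b a := fun φ => (h φ).symm

lemma SameType.trans {α M N P : Type} [L.Structure M] [L.Structure N] [L.Structure P]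
    {a : α → M} {b : α → N} {c : α → P}
    (h : SameType (L := L) a b) (h' : SameType (L := L) b c) : SameType (L := L) a c :=
  fun φ => (h φ).trans (h' φ)

lemma SameType.comp {α β M N : Type} [L.Structure M] [L.Structure N] {a : α → M} {b : α → N}
    (h : SameType (L := L) a b) (σ : β → α) : SameType (L := L) (a ∘ σ) (b ∘ σ) := by
  intro φ
  have := h (φ.relabel σ)
  rwa [Formula.realize_relabel, Formula.realize_relabel] at this

/-- A formula is a relabelling of a formula in finitely many variables. -/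
lemma exists_restrict {α : Type} (φ : L.Formula α) :
    ∃ (s : Finset α) (ψ : L.Formula s), ∀ (M : Type) [L.Structure M] (v : α → M),
      φ.Realize v ↔ ψ.Realize (fun i => v i) := by
  classical
  refine ⟨BoundedFormula.freeVarFinset φ, BoundedFormula.restrictFreeVar φ id, ?_⟩
  intro M _ v
  have h := BoundedFormula.realize_restrictFreeVar (M := M) (φ := φ) (f := id)
    (v := fun i => v i) (v' := v) (xs := default) (by intro a; rfl)
  exact h.symm

lemma sameType_of_finite {α M N : Type} [L.Structure M] [L.Structure N] {a : α → M} {b : α → N}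
    (h : ∀ s : Finset α, SameType (L := L) (fun i : s => a i) (fun i : s => b i)) :
    SameType (L := L) a b := by
  intro φ
  obtain ⟨s, ψ, hψ⟩ := exists_restrict φ
  rw [hψ M a, hψ N b]
  exact h s ψ

/-- Existence of solutions transfers along families with the same type. -/
lemma exists_realize_of_sameType {ι ι' M N : Type} [L.Structure M] [L.Structure N] [Nonempty N]
    {a : ι → M} {b : ι → N} (h : SameType (L := L) a b) (χ : L.Formula (ι ⊕ ι'))
    (e : ι' → M) (he : χ.Realize (Sum.elim a e)) :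
    ∃ e' : ι' → N, χ.Realize (Sum.elim b e') := by
  classical
  obtain ⟨s, ψ, hψ⟩ := exists_restrict χ
  -- the variables in the second component
  let t : Finset ι' := s.toRight
  let f : s → ι ⊕ t := fun i =>
    match hi : i.1 with
    | Sum.inl x => Sum.inl x
    | Sum.inr y => Sum.inr ⟨y, by
        have := i.2
        rw [hi] at this
        exact Finset.mem_toRight.2 this⟩
  have hf : ∀ (P : Type) (u : ι → P) (w : ι' → P) (i : s),
      Sum.elim u (fun j : t => w j) (f i) = Sum.elim u w i := by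
    intro P u w i
    rcases i with ⟨i | i, hi⟩ <;> rfl
  let ξ : L.Formula (ι ⊕ t) := ψ.relabel f
  have h1 : (Formula.iExs t ξ).Realize a := by
    rw [Formula.realize_iExs]
    refine ⟨fun j => e j, ?_⟩
    rw [Formula.realize_relabel]
    rw [hψ] at he
    convert he using 1
    funext i
    exact hf M a e i
  rw [h, Formula.realize_iExs] at h1
  obtain ⟨g, hg⟩ := h1
  rw [Formula.realize_relabel] at hg
  refine ⟨fun j => if hj : j ∈ t then g ⟨j, hj⟩ else Classical.arbitrary N, ?_⟩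
  rw [hψ]
  convert hg using 1
  funext i
  have := hf N b (fun j => if hj : j ∈ t then g ⟨j, hj⟩ else Classical.arbitrary N) i
  rw [← this]
  congr 1
  funext j
  simp

/-! ### The ultrafilter -/

section Filter

open Filter

variable {J : Type} [LinearOrder J] [WellFoundedLT J] (Φ : J → Type)

/-- The product of the index sets. -/
abbrev X : Type := ∀ β : J, Finset (Φ β)

/-- An ultrafilter on the finite subsets of a type, containing all cones. -/
noncomputable def D (P : Type) : Ultrafilter (Finset P) :=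
  Ultrafilter.of (Filter.atTop : Filter (Finset P))

lemma eventually_mem_D (P : Type) (p : P) : ∀ᶠ i in (D P : Filter (Finset P)), p ∈ i := by
  classical
  have h : ∀ᶠ i in (Filter.atTop : Filter (Finset P)), p ∈ i := by
    filter_upwards [Filter.eventually_ge_atTop ({p} : Finset P)] with i hi
    exact hi (Finset.mem_singleton_self p)
  exact h.filter_mono (Ultrafilter.of_le _)

/-- Any ultrafilter below a filter, if there is one. -/
noncomputable def of' (f : Filter (X Φ)) : Ultrafilter (X Φ) :=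
  open Classical in if h : f.NeBot then @Ultrafilter.of _ f h else pure (fun _ => ∅)

omit [LinearOrder J] [WellFoundedLT J] in
lemma of'_le (f : Filter (X Φ)) (h : f.NeBot) : (of' Φ f : Filter (X Φ)) ≤ f := by
  unfold of'
  rw [dif_pos h]
  exact Ultrafilter.of_le _

/-- The sets obtained by choosing, along coordinate `γ`, large sets depending on the earlier
coordinates. -/
def gen (γ : J) (u : Ultrafilter (X Φ)) : Set (Set (X Φ)) :=
  {T | ∃ S : Finset (Φ γ) → Set (X Φ), (∀ i, DependsOn (fun x => x ∈ S i) (Iio γ)) ∧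
    (∀ᶠ i in (D (Φ γ) : Filter (Finset (Φ γ))), S i ∈ u) ∧ T = {x | x ∈ S (x γ)}}

/-- The successive approximations of the final ultrafilter. -/
noncomputable def U : J → Ultrafilter (X Φ) :=
  (wellFounded_lt : WellFounded ((· < ·) : J → J → Prop)).fix
    (fun β ih => of' Φ (generate {T | ∃ γ, ∃ h : γ < β, T ∈ gen Φ γ (ih γ h)}))

/-- The large sets coming from the coordinates in `B`. -/
def A (B : Set J) : Set (Set (X Φ)) := {T | ∃ γ ∈ B, T ∈ gen Φ γ (U Φ γ)}

lemma U_eq (β : J) : U Φ β = of' Φ (generate (A Φ (Iio β))) := by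
  have := (wellFounded_lt : WellFounded ((· < ·) : J → J → Prop)).fix_eq
    (fun β ih => of' Φ (generate {T | ∃ γ, ∃ h : γ < β, T ∈ gen Φ γ (ih γ h)})) β
  unfold U
  rw [this]
  congr 2
  ext T
  simp only [A, mem_Iio, exists_prop]
  rfl

omit [WellFoundedLT J] in
lemma dependsOn_gen {γ : J} {u : Ultrafilter (X Φ)} {T : Set (X Φ)} (hT : T ∈ gen Φ γ u) :
    DependsOn (fun x => x ∈ T) (Iic γ) := by
  obtain ⟨S, hS, -, rfl⟩ := hT
  intro x y hxy
  show (x ∈ S (x γ)) = (y ∈ S (y γ))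
  rw [hxy γ (mem_Iic.2 le_rfl)]
  exact hS (y γ) (fun i hi => hxy i (le_of_lt hi))

omit [WellFoundedLT J] in
lemma mem_gen_of_mem {γ : J} {u : Ultrafilter (X Φ)} {T : Set (X Φ)} (hT : T ∈ u)
    (h : DependsOn (fun x => x ∈ T) (Iio γ)) : T ∈ gen Φ γ u :=
  ⟨fun _ => T, fun _ => h, Filter.Eventually.of_forall (fun _ => hT), rfl⟩

lemma step (γ : J) (hU : ∀ T ∈ A Φ (Iio γ), T ∈ U Φ γ) (t : Set (Set (X Φ)))
    (ht : t ⊆ A Φ (Iic γ)) (hfin : t.Finite) : (⋂₀ t).Nonempty := by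
  classical
  have key : ∀ T ∈ t, ∃ S : Finset (Φ γ) → Set (X Φ),
      (∀ i, DependsOn (fun x => x ∈ S i) (Iio γ)) ∧
      (∀ᶠ i in (D (Φ γ) : Filter (Finset (Φ γ))), S i ∈ U Φ γ) ∧
      ∀ x, x ∈ S (x γ) → x ∈ T := by
    intro T hT
    obtain ⟨γ', hγ', hg⟩ := ht hT
    rcases lt_or_eq_of_le (mem_Iic.1 hγ') with h | h
    · refine ⟨fun _ => T, fun _ => ?_, Filter.Eventually.of_forall (fun _ => ?_), fun x hx => hx⟩
      · refine (dependsOn_gen Φ hg).mono ?_
        intro i hi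
        exact lt_of_le_of_lt hi h
      · exact hU T ⟨γ', h, hg⟩
    · subst h
      obtain ⟨S, h1, h2, rfl⟩ := hg
      exact ⟨S, h1, h2, fun x hx => hx⟩
  choose! S hS1 hS2 hS3 using key
  have h1 : ∀ᶠ i in (D (Φ γ) : Filter (Finset (Φ γ))), ∀ T ∈ t, S T i ∈ U Φ γ :=
    (Filter.eventually_all_finite hfin).2 hS2
  obtain ⟨i, hi⟩ := h1.exists
  have h2 : (⋂ T ∈ t, S T i) ∈ U Φ γ := (Filter.biInter_mem hfin).2 hi
  obtain ⟨x, hx⟩ := (U Φ γ).nonempty_of_mem h2
  refine ⟨Function.update x γ i, ?_⟩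
  intro T hT
  apply hS3 T hT
  rw [Function.update_self]
  have h3 : x ∈ S T i := by
    have := mem_iInter₂.1 hx T hT
    exact this
  have h4 := hS1 T hT i (x := x) (y := Function.update x γ i) (by
    intro j hj
    rw [Function.update_of_ne (ne_of_lt hj)])
  have h5 : (x ∈ S T i) = (Function.update x γ i ∈ S T i) := h4
  rw [← h5]
  exact h3

lemma exists_max {B : Set J} (t : Set (Set (X Φ))) (ht : t ⊆ A Φ B) (hfin : t.Finite)
    (hne : t.Nonempty) : ∃ γ ∈ B, t ⊆ A Φ (Iic γ) := by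
  classical
  obtain ⟨T₁, hT₁⟩ := hne
  obtain ⟨γ₁, -, -⟩ := ht hT₁
  have : Nonempty J := ⟨γ₁⟩
  have hne : t.Nonempty := ⟨T₁, hT₁⟩
  choose! g hg1 hg2 using fun T (hT : T ∈ t) => ht hT
  obtain ⟨T₀, hT₀, hmax⟩ := Set.exists_max_image t g hfin hne
  exact ⟨g T₀, hg1 T₀ hT₀, fun T hT => ⟨g T, hmax T hT, hg2 T hT⟩⟩

lemma nonempty_sInter : ∀ (β : J) (t : Set (Set (X Φ))), t ⊆ A Φ (Iio β) → t.Finite →
    (⋂₀ t).Nonempty := by
  intro β
  induction β using WellFoundedLT.induction with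
  | ind β ih =>
  intro t ht hfin
  rcases t.eq_empty_or_nonempty with rfl | hne
  · exact ⟨fun _ => ∅, by simp⟩
  · obtain ⟨γ, hγ, h⟩ := exists_max Φ t ht hfin hne
    refine step Φ γ ?_ t h hfin
    intro T hT
    have h1 : (generate (A Φ (Iio γ))).NeBot := by
      rw [generate_neBot_iff]
      intro t' ht' hf'
      exact ih γ hγ t' ht' hf'
    have h2 := of'_le Φ _ h1
    rw [← U_eq] at h2
    exact h2 (mem_generate_of_mem hT)

lemma A_sub_U (γ : J) : ∀ T ∈ A Φ (Iio γ), T ∈ U Φ γ := by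
  intro T hT
  have h1 : (generate (A Φ (Iio γ))).NeBot := by
    rw [generate_neBot_iff]
    exact fun t' ht' hf' => nonempty_sInter Φ γ t' ht' hf'
  have h2 := of'_le Φ _ h1
  rw [← U_eq] at h2
  exact h2 (mem_generate_of_mem hT)

lemma neBot_top : (generate (A Φ univ)).NeBot := by
  rw [generate_neBot_iff]
  intro t ht hfin
  rcases t.eq_empty_or_nonempty with rfl | hne
  · exact ⟨fun _ => ∅, by simp⟩
  · obtain ⟨γ, -, h⟩ := exists_max Φ t ht hfin hne
    exact step Φ γ (A_sub_U Φ γ) t h hfin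

/-- The final ultrafilter. -/
noncomputable def UU : Ultrafilter (X Φ) := of' Φ (generate (A Φ univ))

lemma mem_UU_of_mem_A {T : Set (X Φ)} (hT : T ∈ A Φ univ) : T ∈ UU Φ :=
  of'_le Φ _ (neBot_top Φ) (mem_generate_of_mem hT)

lemma mem_UU_iff {β : J} {T : Set (X Φ)} (h : DependsOn (fun x => x ∈ T) (Iio β)) :
    T ∈ UU Φ ↔ T ∈ U Φ β := by
  have h1 : ∀ T : Set (X Φ), DependsOn (fun x => x ∈ T) (Iio β) → T ∈ U Φ β → T ∈ UU Φ :=
    fun T h hT => mem_UU_of_mem_A Φ ⟨β, mem_univ _, mem_gen_of_mem Φ hT h⟩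
  refine ⟨fun hT => ?_, h1 T h⟩
  by_contra hn
  rw [← Ultrafilter.compl_mem_iff_notMem] at hn
  have h2 := h1 Tᶜ (by
    intro x y hxy
    have := h hxy
    show (x ∉ T) = (y ∉ T)
    exact congrArg Not this) hn
  exact (Ultrafilter.compl_mem_iff_notMem.1 h2) hT

/-- Genericity of each coordinate over the earlier ones. -/
theorem generic (β : J) (S : Finset (Φ β) → Set (X Φ))
    (hS : ∀ i, DependsOn (fun x => x ∈ S i) (Iio β))
    (h : ∀ᶠ i in (D (Φ β) : Filter (Finset (Φ β))), S i ∈ UU Φ) :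
    {x : X Φ | x ∈ S (x β)} ∈ UU Φ := by
  apply mem_UU_of_mem_A
  refine ⟨β, mem_univ _, S, hS, ?_, rfl⟩
  refine h.mono (fun i hi => ?_)
  rwa [mem_UU_iff Φ (hS i)] at hi

end Filter

/-! ### The chain of elementary substructures -/

section Chain

open Filter

variable {J : Type} [LinearOrder J] [WellFoundedLT J] (Φ : J → Type)
variable (M : Type) [L.Structure M] [Nonempty M]

/-- The big ultrapower. -/
abbrev N : Type := ((UU Φ : Ultrafilter (X Φ)) : Filter (X Φ)).Product (fun _ => M)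

/-- The class of a function. -/
noncomputable abbrev cl (x : X Φ → M) : N Φ M := (x : N Φ M)

omit [L.Structure M] [Nonempty M] in
lemma cl_surj (z : N Φ M) : ∃ x : X Φ → M, cl Φ M x = z := by
  obtain ⟨x, hx⟩ := Quotient.exists_rep z
  exact ⟨x, hx⟩

variable {M} in
lemma los {β : Type} (φ : L.Formula β) (x : β → X Φ → M) :
    (φ.Realize (fun i => cl Φ M (x i))) ↔
      ∀ᶠ t in ((UU Φ : Ultrafilter (X Φ)) : Filter (X Φ)), φ.Realize (fun i => x i t) :=
  Ultraproduct.realize_formula_cast φ x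

/-- Classes of functions depending only on the coordinates in `B`. -/
def Dep (B : Set J) : Set (N Φ M) := {z | ∃ f : X Φ → M, DependsOn f B ∧ cl Φ M f = z}

omit [L.Structure M] [Nonempty M] in
lemma Dep_mono {B C : Set J} (h : B ⊆ C) : Dep Φ M B ⊆ Dep Φ M C := by
  rintro z ⟨f, hf, rfl⟩
  exact ⟨f, hf.mono h, rfl⟩

lemma los_sum {ι ι' : Type} (χ : L.Formula (ι ⊕ ι')) (b : ι → X Φ → M) (e : ι' → X Φ → M) :
    χ.Realize (Sum.elim (fun i => cl Φ M (b i)) (fun j => cl Φ M (e j))) ↔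
      ∀ᶠ t in ((UU Φ : Ultrafilter (X Φ)) : Filter (X Φ)),
        χ.Realize (Sum.elim (fun i => b i t) (fun j => e j t)) := by
  have h := los Φ χ (Sum.elim b e)
  have h1 : (fun i => cl Φ M (Sum.elim b e i)) =
      Sum.elim (fun i => cl Φ M (b i)) (fun j => cl Φ M (e j)) := by
    funext i; rcases i with i | i <;> rfl
  have h2 : ∀ t, (fun i => Sum.elim b e i t) =
      Sum.elim (fun i => b i t) (fun j => e j t) := by
    intro t; funext i; rcases i with i | i <;> rfl
  rw [h1] at h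
  simp only [h2] at h
  exact h

/-- Solutions can be found among functions depending on the same coordinates. -/
lemma witness {ι ι' : Type} {B : Set J} (χ : L.Formula (ι ⊕ ι')) (b : ι → N Φ M)
    (hb : ∀ i, b i ∈ Dep Φ M B) (e : ι' → N Φ M) (h : χ.Realize (Sum.elim b e)) :
    ∃ e' : ι' → N Φ M, (∀ j, e' j ∈ Dep Φ M B) ∧ χ.Realize (Sum.elim b e') := by
  classical
  choose b' hb1 hb2 using hb
  choose e₁ he₁ using fun j => cl_surj Φ M (e j)
  obtain rfl : (fun i => cl Φ M (b' i)) = b := funext hb2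
  obtain rfl : (fun i => cl Φ M (e₁ i)) = e := funext he₁
  rw [los_sum] at h
  let G : (ι → M) → (ι' → M) := fun u =>
    if hu : ∃ y : ι' → M, χ.Realize (Sum.elim u y) then hu.choose
    else fun _ => Classical.arbitrary M
  refine ⟨fun j => cl Φ M (fun t => G (fun i => b' i t) j), fun j => ?_, ?_⟩
  · refine ⟨_, ?_, rfl⟩
    intro x y hxy
    show G (fun i => b' i x) j = G (fun i => b' i y) j
    have : (fun i => b' i x) = (fun i => b' i y) := funext (fun i => hb1 i hxy)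
    rw [this]
  · rw [los_sum]
    refine h.mono (fun t ht => ?_)
    have hu : ∃ y : ι' → M, χ.Realize (Sum.elim (fun i => b' i t) y) := ⟨_, ht⟩
    show χ.Realize (Sum.elim (fun i => b' i t) (fun j => G (fun i => b' i t) j))
    have : G (fun i => b' i t) = hu.choose := dif_pos hu
    rw [this]
    exact hu.choose_spec

lemma meets (B : Set J) : L.MeetsDefinable (Dep Φ M B) := by
  intro D hD hdef
  obtain ⟨φ, hφ⟩ := Set.definable_iff_exists_formula_sum.1 hdef
  obtain ⟨x, hx⟩ := hD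
  have h1 : φ.Realize (Sum.elim (fun a : Dep Φ M B => (a : N Φ M)) (fun _ : Fin 1 => x)) := by
    have : (fun _ : Fin 1 => x) ∈ {v : Fin 1 → N Φ M | v 0 ∈ D} := hx
    change (fun _ : Fin 1 => x) ∈ _ at this
    have h2 : (fun _ : Fin 1 => x) ∈ {v : Fin 1 → N Φ M |
        φ.Realize (Sum.elim (fun a : Dep Φ M B => (a : N Φ M)) v)} := by
      rw [← hφ]; exact hx
    exact h2
  obtain ⟨e', he1, he2⟩ := witness Φ M φ _ (fun a => a.2) _ h1
  refine ⟨e' 0, ?_, he1 0⟩
  have h3 : e' ∈ {v : Fin 1 → N Φ M |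
        φ.Realize (Sum.elim (fun a : Dep Φ M B => (a : N Φ M)) v)} := he2
  rw [← hφ] at h3
  exact h3

/-- Realisation of types: if every finite part of `Σ` is realised below `β`, then `Σ` is realised
by functions depending on the coordinates up to `β`. -/
lemma realize_type {ι ι' : Type} (β : J) (T : Set (L.Formula (ι ⊕ ι')))
    (code : L.Formula (ι ⊕ ι') → Φ β) (hcode : Function.Injective code)
    (b : ι → N Φ M) (hb : ∀ i, b i ∈ Dep Φ M (Iio β))
    (h : ∀ s : Finset (L.Formula (ι ⊕ ι')), ↑s ⊆ T →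
      ∃ e : ι' → N Φ M, (∀ j, e j ∈ Dep Φ M (Iio β)) ∧ ∀ φ ∈ s, φ.Realize (Sum.elim b e)) :
    ∃ e : ι' → N Φ M, (∀ j, e j ∈ Dep Φ M (Iic β)) ∧ ∀ φ ∈ T, φ.Realize (Sum.elim b e) := by
  classical
  choose b' hb1 hb2 using hb
  obtain rfl : (fun i => cl Φ M (b' i)) = b := funext hb2
  have h' : ∀ i : Finset (Φ β), ∃ e : ι' → X Φ → M, (∀ j, DependsOn (e j) (Iio β)) ∧
      ∀ φ ∈ T, code φ ∈ i →
        φ.Realize (Sum.elim (fun i => cl Φ M (b' i)) (fun j => cl Φ M (e j))) := by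
    intro i
    let s : Finset (L.Formula (ι ⊕ ι')) :=
      (i.preimage code (hcode.injOn)).filter (fun φ => φ ∈ T)
    obtain ⟨e, he1, he2⟩ := h s (by intro φ hφ; exact (Finset.mem_filter.1 hφ).2)
    choose e₁ he₁ he₂ using he1
    refine ⟨e₁, he₁, fun φ hφ hc => ?_⟩
    have h3 : (fun j => cl Φ M (e₁ j)) = e := funext he₂
    rw [h3]
    exact he2 φ (Finset.mem_filter.2 ⟨Finset.mem_preimage.2 hc, hφ⟩)
  choose e he1 he2 using h'
  refine ⟨fun j => cl Φ M (fun x => e (x β) j x), fun j => ⟨_, ?_, rfl⟩, fun φ hφ => ?_⟩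
  · intro x y hxy
    show e (x β) j x = e (y β) j y
    rw [hxy β (mem_Iic.2 le_rfl)]
    exact he1 (y β) j (fun i hi => hxy i (le_of_lt hi))
  · rw [los_sum]
    refine generic Φ β (fun i => {x | φ.Realize (Sum.elim (fun k => b' k x) (fun j => e i j x))})
      ?_ ?_
    · intro i x y hxy
      show φ.Realize _ = φ.Realize _
      have h1 : (fun k => b' k x) = (fun k => b' k y) := funext (fun k => hb1 k hxy)
      have h2 : (fun j => e i j x) = (fun j => e i j y) := funext (fun j => he1 i j hxy)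
      rw [h1, h2]
    · refine (eventually_mem_D (Φ β) (code φ)).mono (fun i hi => ?_)
      have := he2 i φ hφ hi
      rw [los_sum] at this
      exact this

/-- Extension of elementary maps. -/
lemma extend {ι ι' : Type} (β : J) (code : L.Formula (ι ⊕ ι') → Φ β)
    (hcode : Function.Injective code) (a b : ι → N Φ M) (hb : ∀ i, b i ∈ Dep Φ M (Iio β))
    (hab : SameType (L := L) a b) (e : ι' → N Φ M) :
    ∃ e' : ι' → N Φ M, (∀ j, e' j ∈ Dep Φ M (Iic β)) ∧
      SameType (L := L) (Sum.elim a e) (Sum.elim b e') := by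
  classical
  obtain ⟨e', h1, h2⟩ := realize_type Φ M β {φ | φ.Realize (Sum.elim a e)} code hcode b hb (by
    intro s hs
    let χ : L.Formula (ι ⊕ ι') := BoundedFormula.iInf (fun φ : s => (φ : L.Formula (ι ⊕ ι')))
    have hχ : ∀ (v : ι ⊕ ι' → N Φ M), χ.Realize v ↔ ∀ φ ∈ s, φ.Realize v := by
      intro v
      show BoundedFormula.Realize _ _ _ ↔ _
      rw [BoundedFormula.realize_iInf]
      exact ⟨fun h φ hφ => h ⟨φ, hφ⟩, fun h φ => h φ φ.2⟩
    obtain ⟨e₁, he₁⟩ := exists_realize_of_sameType hab χ e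
      ((hχ _).2 (fun φ hφ => hs hφ))
    obtain ⟨e₂, he₂, he₃⟩ := witness Φ M χ b hb e₁ he₁
    exact ⟨e₂, he₂, (hχ _).1 he₃⟩)
  refine ⟨e', h1, fun φ => ⟨fun h => h2 φ h, fun h => ?_⟩⟩
  by_contra hn
  have h3 := h2 φ.not (by
    show (Formula.not φ).Realize _
    rw [Formula.realize_not]
    exact hn)
  rw [Formula.realize_not] at h3
  exact h3 h

end Chain

/-! ### Choice of the index sets -/

section Index

variable {J : Type} [LinearOrder J] [WellFoundedLT J] (L : FirstOrder.Language.{0, 0}) (M : Type)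

/-- The index sets, defined by recursion. -/
noncomputable def Idx : J → Type :=
  (wellFounded_lt : WellFounded ((· < ·) : J → J → Prop)).fix
    (fun β ih => (ℕ ⊕ L.Symbols) ⊕ ((∀ γ : Iio β, Finset (ih γ.1 γ.2)) → M))

lemma Idx_eq (β : J) :
    Idx L M β = ((ℕ ⊕ L.Symbols) ⊕ ((∀ γ : Iio β, Finset (Idx (J := J) L M γ)) → M)) := by
  have := (wellFounded_lt : WellFounded ((· < ·) : J → J → Prop)).fix_eq
    (C := fun _ => Type)
    (fun β ih => (ℕ ⊕ L.Symbols) ⊕ ((∀ γ : Iio β, Finset (ih γ.1 γ.2)) → M)) β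
  exact this

lemma card_Idx_base (β : J) : max ℵ₀ L.card ≤ #(Idx (J := J) L M β) := by
  rw [Idx_eq, mk_sum, mk_sum]
  simp only [lift_id]
  refine max_le ?_ ?_
  · calc ℵ₀ = #ℕ := mk_nat.symm
      _ ≤ #ℕ + #L.Symbols := self_le_add_right _ _
      _ ≤ _ := self_le_add_right _ _
  · calc L.card = #L.Symbols := rfl
      _ ≤ #ℕ + #L.Symbols := self_le_add_left _ _
      _ ≤ _ := self_le_add_right _ _

lemma card_Idx_fun (β : J) :
    #((∀ γ : Iio β, Finset (Idx (J := J) L M γ)) → M) ≤ #(Idx (J := J) L M β) := by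
  conv_rhs => rw [Idx_eq, mk_sum]
  simp only [lift_id]
  exact self_le_add_left _ _

lemma card_Dep (Φ : J → Type) (β : J) :
    #(Dep Φ M (Iio β)) ≤ #((∀ γ : Iio β, Finset (Φ γ)) → M) := by
  classical
  let F : ((∀ γ : Iio β, Finset (Φ γ)) → M) → Dep Φ M (Iio β) := fun h =>
    ⟨cl Φ M (fun x => h (fun γ => x γ)), _, (by
      intro x y hxy
      show h (fun γ => x γ) = h (fun γ => y γ)
      congr 1
      funext γ
      exact hxy γ γ.2), rfl⟩
  refine mk_le_of_surjective (f := F) ?_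
  rintro ⟨z, f, hf, rfl⟩
  refine ⟨fun u => f (fun γ => if h : γ < β then u ⟨γ, h⟩ else ∅), ?_⟩
  apply Subtype.ext
  show cl Φ M _ = cl Φ M f
  congr 1
  funext x
  refine hf (fun i hi => ?_)
  rw [dif_pos (mem_Iio.1 hi)]

lemma exists_code (β : J) {ι ι' : Type} (h1 : #ι ≤ #(Idx (J := J) L M β))
    (h2 : #ι' ≤ #(Idx (J := J) L M β)) :
    ∃ code : L.Formula (ι ⊕ ι') → Idx (J := J) L M β, Function.Injective code := by
  have hb := card_Idx_base (J := J) L M β
  have h0 : ℵ₀ ≤ #(Idx (J := J) L M β) := (le_max_left _ _).trans hb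
  have h3 : #(L.Formula (ι ⊕ ι')) ≤ #(Σ n, L.BoundedFormula (ι ⊕ ι') n) :=
    mk_le_of_injective (f := fun φ => (⟨0, φ⟩ : Σ n, L.BoundedFormula (ι ⊕ ι') n))
      (fun a b h => by simpa using h)
  have h4 := BoundedFormula.card_le (L := L) (α := ι ⊕ ι')
  simp only [mk_sum, lift_id] at h4
  have h5 : #(L.Formula (ι ⊕ ι')) ≤ #(Idx (J := J) L M β) := by
    refine h3.trans (h4.trans (max_le h0 ?_))
    exact add_le_of_le h0 (add_le_of_le h0 h1 h2) ((le_max_right _ _).trans hb)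
  obtain ⟨f⟩ := (Cardinal.le_def _ _).1 h5
  exact ⟨f, f.injective⟩

end Index

/-! ### The union of the chain -/

section Total

variable {J : Type} [LinearOrder J] [WellFoundedLT J] (M : Type) [L.Structure M] [Nonempty M]
variable (κ : Cardinal.{0}) (hκ : ℵ₀ ≤ κ) (hJ1 : ∀ s : Set J, #s < κ → ∃ b, ∀ a ∈ s, a < b)

variable (L J) in
/-- The union of the chain, as a set. -/
def totSet : Set (N (Idx (J := J) L M) M) := {z | ∃ β, z ∈ Dep (Idx (J := J) L M) M (Iio β)}

omit [L.Structure M] [Nonempty M] in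
include hJ1 in
lemma bounded_tot {ι : Type} (hι : #ι < κ) (c : ι → N (Idx (J := J) L M) M)
    (hc : ∀ i, c i ∈ totSet L J M) : ∃ β, ∀ i, c i ∈ Dep (Idx (J := J) L M) M (Iio β) := by
  choose g hg using hc
  obtain ⟨b, hb⟩ := hJ1 (range g) (lt_of_le_of_lt mk_range_le hι)
  refine ⟨b, fun i => Dep_mono _ _ ?_ (hg i)⟩
  intro x hx
  exact lt_trans hx (hb (g i) ⟨i, rfl⟩)

include hκ hJ1 in
lemma meets_tot : L.MeetsDefinable (totSet L J M) := by
  intro D hD hdef
  obtain ⟨A0, hA0, hd⟩ := Set.definable_iff_finitely_definable.1 hdef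
  obtain ⟨β, hβ⟩ := bounded_tot (L := L) (J := J) M κ hJ1 (ι := A0)
    (lt_of_lt_of_le (by simp) hκ) (fun a => (a : N (Idx (J := J) L M) M))
    (fun a => hA0 a.2)
  obtain ⟨x, hx1, hx2⟩ := meets (Idx (J := J) L M) M (Iio β) D hD
    (hd.mono (fun a ha => hβ ⟨a, ha⟩))
  exact ⟨x, hx1, β, hx2⟩

/-- The union of the chain, as an elementary substructure. -/
noncomputable def tot : L.ElementarySubstructure (N (Idx (J := J) L M) M) :=
  (meets_tot (L := L) (J := J) M κ hκ hJ1).toElementarySubstructure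

lemma mem_tot (x : N (Idx (J := J) L M) M) :
    x ∈ tot (L := L) (J := J) M κ hκ hJ1 ↔ x ∈ totSet L J M := by
  have := (meets_tot (L := L) (J := J) M κ hκ hJ1).closure_eq_self
  show x ∈ Substructure.closure L (totSet L J M) ↔ _
  rw [← SetLike.mem_coe, this]

/-- The structure that will be the large saturated and homogeneous one. -/
abbrev MM : Type := tot (L := L) (J := J) M κ hκ hJ1

/-- The levels of the chain. -/
def lev (β : J) : Set (MM (L := L) (J := J) M κ hκ hJ1) :=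
  {x | (x : N (Idx (J := J) L M) M) ∈ Dep (Idx (J := J) L M) M (Iio β)}

lemma lev_mono {β γ : J} (h : β ≤ γ) :
    lev (L := L) (J := J) M κ hκ hJ1 β ⊆ lev (L := L) (J := J) M κ hκ hJ1 γ := by
  intro x hx
  exact Dep_mono _ _ (fun i hi => lt_of_lt_of_le hi h) hx

lemma bounded_MM {ι : Type} (hι : #ι < κ) (c : ι → MM (L := L) (J := J) M κ hκ hJ1) :
    ∃ β, ∀ i, c i ∈ lev (L := L) (J := J) M κ hκ hJ1 β :=
  bounded_tot (L := L) (J := J) M κ hJ1 hι (fun i => (c i : N (Idx (J := J) L M) M))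
    (fun i => (mem_tot (L := L) (J := J) M κ hκ hJ1 _).1 (c i).2)

lemma realize_coe {α : Type} (φ : L.Formula α) (v : α → MM (L := L) (J := J) M κ hκ hJ1) :
    φ.Realize (fun i => (v i : N (Idx (J := J) L M) M)) ↔ φ.Realize v :=
  (tot (L := L) (J := J) M κ hκ hJ1).subtype.map_formula φ v

lemma realize_coe_sum {α β : Type} (φ : L.Formula (α ⊕ β))
    (v : α → MM (L := L) (J := J) M κ hκ hJ1) (w : β → MM (L := L) (J := J) M κ hκ hJ1) :
    φ.Realize (Sum.elim (fun i => (v i : N (Idx (J := J) L M) M))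
      (fun j => (w j : N (Idx (J := J) L M) M))) ↔ φ.Realize (Sum.elim v w) := by
  rw [← realize_coe (L := L) (J := J) M κ hκ hJ1 φ (Sum.elim v w)]
  have : (fun i => ((Sum.elim v w i : MM (L := L) (J := J) M κ hκ hJ1) :
        N (Idx (J := J) L M) M)) =
      Sum.elim (fun i => (v i : N (Idx (J := J) L M) M))
      (fun j => (w j : N (Idx (J := J) L M) M)) := by
    funext i; rcases i with i | i <;> rfl
  rw [this]

lemma card_lev (β : J) :
    #(lev (L := L) (J := J) M κ hκ hJ1 β) ≤ #(Idx (J := J) L M β) := by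
  have h1 : #(lev (L := L) (J := J) M κ hκ hJ1 β) ≤ #(Dep (Idx (J := J) L M) M (Iio β)) := by
    refine mk_le_of_injective (f := fun x => ⟨(x.1 : N (Idx (J := J) L M) M), x.2⟩) ?_
    intro x y hxy
    have := Subtype.mk.inj hxy
    exact Subtype.ext (Subtype.ext this)
  exact h1.trans ((card_Dep M (Idx (J := J) L M) β).trans (card_Idx_fun (J := J) L M β))

omit [WellFoundedLT J] in
include hκ hJ1 in
lemma exists_gt' (β : J) : ∃ γ, β < γ := by
  obtain ⟨b, hb⟩ := hJ1 {β} (by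
    rw [mk_singleton]
    exact lt_of_lt_of_le one_lt_aleph0 hκ)
  exact ⟨b, hb β rfl⟩

lemma mem_lev_of_Iic {β γ : J} (h : β < γ) {x : MM (L := L) (J := J) M κ hκ hJ1}
    (hx : (x : N (Idx (J := J) L M) M) ∈ Dep (Idx (J := J) L M) M (Iic β)) :
    x ∈ lev (L := L) (J := J) M κ hκ hJ1 γ :=
  Dep_mono _ _ (fun _ hi => lt_of_le_of_lt hi h) hx

lemma extendMM {ι ι' : Type} {β γ : J} (hβγ : β < γ)
    (h1 : #ι ≤ #(Idx (J := J) L M β)) (h2 : #ι' ≤ #(Idx (J := J) L M β))
    (a b : ι → MM (L := L) (J := J) M κ hκ hJ1)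
    (hb : ∀ i, b i ∈ lev (L := L) (J := J) M κ hκ hJ1 β)
    (hab : SameType (L := L) a b) (e : ι' → MM (L := L) (J := J) M κ hκ hJ1) :
    ∃ e' : ι' → MM (L := L) (J := J) M κ hκ hJ1,
      (∀ j, e' j ∈ lev (L := L) (J := J) M κ hκ hJ1 γ) ∧
      SameType (L := L) (Sum.elim a e) (Sum.elim b e') := by
  obtain ⟨code, hcode⟩ := exists_code (J := J) L M β h1 h2
  obtain ⟨e', h3, h4⟩ := extend (Idx (J := J) L M) M β code hcode
    (fun i => (a i : N (Idx (J := J) L M) M)) (fun i => (b i : N (Idx (J := J) L M) M)) hb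
    (fun φ => by
      rw [realize_coe (L := L) (J := J) M κ hκ hJ1, realize_coe (L := L) (J := J) M κ hκ hJ1]
      exact hab φ)
    (fun i => (e i : N (Idx (J := J) L M) M))
  have h5 : ∀ j, e' j ∈ Dep (Idx (J := J) L M) M (Iio γ) := fun j =>
    Dep_mono _ _ (fun _ hi => lt_of_le_of_lt hi hβγ) (h3 j)
  refine ⟨fun j => ⟨e' j, (mem_tot (L := L) (J := J) M κ hκ hJ1 _).2 ⟨γ, h5 j⟩⟩, h5,
    fun φ => ?_⟩
  rw [← realize_coe_sum (L := L) (J := J) M κ hκ hJ1,
    ← realize_coe_sum (L := L) (J := J) M κ hκ hJ1]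
  exact h4 φ

/-! ### Saturation -/

lemma saturated_MM : OMin.Saturated L κ (MM (L := L) (J := J) M κ hκ hJ1) := by
  classical
  intro A hA T hT
  obtain ⟨β₀, hβ₀⟩ := bounded_MM (L := L) (J := J) M κ hκ hJ1 hA
    (fun a => (a : MM (L := L) (J := J) M κ hκ hJ1))
  have hA' : #A ≤ #(Idx (J := J) L M β₀) := by
    refine (mk_le_of_injective (f := fun a : A =>
      (⟨a, hβ₀ a⟩ : lev (L := L) (J := J) M κ hκ hJ1 β₀)) ?_).trans
      (card_lev (L := L) (J := J) M κ hκ hJ1 β₀)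
    intro a b hab
    exact Subtype.ext (Subtype.mk.inj hab)
  have hU : #Unit ≤ #(Idx (J := J) L M β₀) := by
    rw [mk_unit]
    exact one_le_aleph0.trans ((le_max_left _ _).trans (card_Idx_base (J := J) L M β₀))
  obtain ⟨code, hcode⟩ := exists_code (J := J) L M β₀ hA' hU
  obtain ⟨e, he1, he2⟩ := realize_type (Idx (J := J) L M) M β₀ T code hcode
    (fun a : A => ((a : MM (L := L) (J := J) M κ hκ hJ1) : N (Idx (J := J) L M) M))
    hβ₀ (by
      intro s hs
      let χ : L.Formula (A ⊕ Unit) := BoundedFormula.iInf (fun φ : s => (φ : L.Formula (A ⊕ Unit)))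
      have hχ : ∀ (v : A ⊕ Unit → N (Idx (J := J) L M) M),
          χ.Realize v ↔ ∀ φ ∈ s, φ.Realize v := by
        intro v
        show BoundedFormula.Realize _ _ _ ↔ _
        rw [BoundedFormula.realize_iInf]
        exact ⟨fun h φ hφ => h ⟨φ, hφ⟩, fun h φ => h φ φ.2⟩
      obtain ⟨x, hx⟩ := hT s hs
      obtain ⟨e₂, he₂, he₃⟩ := witness (Idx (J := J) L M) M χ
        (fun a : A => ((a : MM (L := L) (J := J) M κ hκ hJ1) : N (Idx (J := J) L M) M))
        hβ₀ (fun _ => (x : N (Idx (J := J) L M) M)) ((hχ _).2 (fun φ hφ => by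
          have := hx φ hφ
          rw [← realize_coe_sum (L := L) (J := J) M κ hκ hJ1] at this
          exact this))
      exact ⟨e₂, he₂, (hχ _).1 he₃⟩)
  obtain ⟨γ, hγ⟩ := exists_gt' κ hκ hJ1 β₀
  have h5 : e () ∈ Dep (Idx (J := J) L M) M (Iio γ) :=
    Dep_mono _ _ (fun _ hi => lt_of_le_of_lt hi hγ) (he1 ())
  refine ⟨⟨e (), (mem_tot (L := L) (J := J) M κ hκ hJ1 _).2 ⟨γ, h5⟩⟩, fun φ hφ => ?_⟩
  rw [← realize_coe_sum (L := L) (J := J) M κ hκ hJ1]
  exact he2 φ hφ

/-! ### Elementary relations -/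

/-- Elementary relations: corresponding tuples have the same type. -/
def PE {P : Type} [L.Structure P] (R : Set (P × P)) : Prop :=
  ∀ (n : ℕ) (p : Fin n → P × P), (∀ i, p i ∈ R) →
    SameType (L := L) (fun i => (p i).1) (fun i => (p i).2)

lemma PE.family {P : Type} [L.Structure P] {R : Set (P × P)} (h : PE (L := L) R) {ι : Type}
    (p : ι → P × P) (hp : ∀ i, p i ∈ R) :
    SameType (L := L) (fun i => (p i).1) (fun i => (p i).2) := by
  refine sameType_of_finite (fun s => ?_)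
  let f := s.equivFin
  have h1 := h s.card (fun k => p (f.symm k)) (fun k => hp _)
  have h2 := h1.comp f
  have h3 : ∀ i : s, (f.symm (f i)) = i := fun i => f.symm_apply_apply i
  simpa [Function.comp_def, h3] using h2

lemma PE.swap {P : Type} [L.Structure P] {R : Set (P × P)} (h : PE (L := L) R) :
    PE (L := L) (Prod.swap ⁻¹' R) := by
  intro n p hp
  exact (h n (fun i => (p i).swap) hp).symm

lemma PE.mono {P : Type} [L.Structure P] {R S : Set (P × P)} (h : PE (L := L) R) (hS : S ⊆ R) :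
    PE (L := L) S := fun n p hp => h n p (fun i => hS (hp i))

lemma PE.right_unique {P : Type} [L.Structure P] {R : Set (P × P)} (h : PE (L := L) R)
    {x y y' : P} (h1 : (x, y) ∈ R) (h2 : (x, y') ∈ R) : y = y' := by
  have h3 := h 2 ![(x, y), (x, y')] (by intro i; fin_cases i <;> simpa)
  have h4 := (h3 ((Term.var 0).equal (Term.var 1))).1 (by
    rw [Formula.realize_equal]; rfl)
  rw [Formula.realize_equal] at h4
  simpa using h4

lemma PE.left_unique {P : Type} [L.Structure P] {R : Set (P × P)} (h : PE (L := L) R)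
    {x x' y : P} (h1 : (x, y) ∈ R) (h2 : (x', y) ∈ R) : x = x' :=
  h.swap.right_unique (x := y) h1 h2

/-- An elementary relation total on both sides gives an automorphism. -/
lemma PE.exists_equiv {P : Type} [L.Structure P] {R : Set (P × P)} (h : PE (L := L) R)
    (h1 : ∀ x, ∃ y, (x, y) ∈ R) (h2 : ∀ y, ∃ x, (x, y) ∈ R) :
    ∃ σ : P ≃[L] P, ∀ x y, (x, y) ∈ R → σ x = y := by
  choose f hf using h1
  choose g hg using h2
  refine ⟨⟨⟨f, g, fun x => h.left_unique (hg (f x)) (hf x),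
    fun y => h.right_unique (hf (g y)) (hg y)⟩, ?_, ?_⟩, fun x y hxy => h.right_unique (hf x) hxy⟩
  · intro n F x
    show f (Structure.funMap F x) = Structure.funMap F (f ∘ x)
    have h3 := h (n + 1) (Fin.snoc (fun i => (x i, f (x i)))
      (Structure.funMap F x, f (Structure.funMap F x))) (by
        intro i
        refine Fin.lastCases ?_ (fun i => ?_) i
        · rw [Fin.snoc_last]; exact hf _
        · rw [Fin.snoc_castSucc]; exact hf _)
    have h4 := (h3 ((Term.func F (fun i => Term.var (Fin.castSucc i))).equal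
      (Term.var (Fin.last n)))).1 (by
        rw [Formula.realize_equal]
        simp [Term.realize])
    rw [Formula.realize_equal] at h4
    simp only [Term.realize, Fin.snoc_last, Fin.snoc_castSucc] at h4
    exact h4.symm
  · intro n r x
    show Structure.RelMap r (f ∘ x) ↔ Structure.RelMap r x
    have h3 := h n (fun i => (x i, f (x i))) (fun i => hf _)
    have h4 := h3 (r.formula (fun i => Term.var i))
    rw [Formula.realize_rel, Formula.realize_rel] at h4
    simp only [Term.realize] at h4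
    exact h4.symm

/-- The relation lives below a level. -/
def Below (β : J) (R : Set (MM (L := L) (J := J) M κ hκ hJ1 × MM (L := L) (J := J) M κ hκ hJ1)) :
    Prop :=
  ∀ p ∈ R, p.1 ∈ lev (L := L) (J := J) M κ hκ hJ1 β ∧ p.2 ∈ lev (L := L) (J := J) M κ hκ hJ1 β

lemma Below.mono {β γ : J} (h : β ≤ γ)
    {R : Set (MM (L := L) (J := J) M κ hκ hJ1 × MM (L := L) (J := J) M κ hκ hJ1)}
    (hR : Below (L := L) (J := J) M κ hκ hJ1 β R) :
    Below (L := L) (J := J) M κ hκ hJ1 γ R :=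
  fun p hp => ⟨lev_mono M κ hκ hJ1 h (hR p hp).1, lev_mono M κ hκ hJ1 h (hR p hp).2⟩

lemma forth {β γ : J} (hβγ : β < γ)
    {R : Set (MM (L := L) (J := J) M κ hκ hJ1 × MM (L := L) (J := J) M κ hκ hJ1)}
    (h : PE (L := L) R) (hR : Below (L := L) (J := J) M κ hκ hJ1 β R) :
    ∃ R', R ⊆ R' ∧ PE (L := L) R' ∧ Below (L := L) (J := J) M κ hκ hJ1 γ R' ∧
      ∀ x ∈ lev (L := L) (J := J) M κ hκ hJ1 β, ∃ y, (x, y) ∈ R' := by
  classical
  let ι := R
  let ι' := lev (L := L) (J := J) M κ hκ hJ1 β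
  let a : ι → MM (L := L) (J := J) M κ hκ hJ1 := fun p => p.1.1
  let b : ι → MM (L := L) (J := J) M κ hκ hJ1 := fun p => p.1.2
  let e : ι' → MM (L := L) (J := J) M κ hκ hJ1 := fun x => x.1
  have hι : #ι ≤ #(Idx (J := J) L M β) := by
    refine (mk_le_of_injective (f := fun p : ι =>
      (⟨a p, (hR p.1 p.2).1⟩ : lev (L := L) (J := J) M κ hκ hJ1 β)) ?_).trans
      (card_lev (L := L) (J := J) M κ hκ hJ1 β)
    rintro ⟨⟨x, y⟩, hp⟩ ⟨⟨x', y'⟩, hq⟩ hpq
    have h1 : x = x' := Subtype.mk.inj hpq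
    subst h1
    have h2 : y = y' := h.right_unique hp hq
    subst h2
    rfl
  obtain ⟨e', he1, he2⟩ := extendMM (L := L) (J := J) M κ hκ hJ1 hβγ hι
    (card_lev (L := L) (J := J) M κ hκ hJ1 β) a b (fun p => (hR p.1 p.2).2)
    (h.family (fun p : ι => p.1) (fun p => p.2)) e
  refine ⟨R ∪ range (fun j : ι' => (e j, e' j)), subset_union_left, ?_, ?_, ?_⟩
  · intro n p hp
    have : ∀ i, ∃ k : ι ⊕ ι', Sum.elim a e k = (p i).1 ∧ Sum.elim b e' k = (p i).2 := by
      intro i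
      rcases hp i with h1 | ⟨j, hj⟩
      · exact ⟨Sum.inl ⟨p i, h1⟩, rfl, rfl⟩
      · refine ⟨Sum.inr j, ?_, ?_⟩
        · exact congrArg Prod.fst hj
        · exact congrArg Prod.snd hj
    choose k hk1 hk2 using this
    have h3 := he2.comp k
    have h4 : Sum.elim a e ∘ k = fun i => (p i).1 := funext hk1
    have h5 : Sum.elim b e' ∘ k = fun i => (p i).2 := funext hk2
    rw [h4, h5] at h3
    exact h3
  · rintro p (hp | ⟨j, rfl⟩)
    · exact hR.mono M κ hκ hJ1 hβγ.le p hp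
    · exact ⟨lev_mono M κ hκ hJ1 hβγ.le j.2, he1 j⟩
  · intro x hx
    exact ⟨e' ⟨x, hx⟩, Or.inr ⟨⟨x, hx⟩, rfl⟩⟩

lemma backforth (β : J)
    {R : Set (MM (L := L) (J := J) M κ hκ hJ1 × MM (L := L) (J := J) M κ hκ hJ1)}
    (h : PE (L := L) R) (hR : ∃ γ, Below (L := L) (J := J) M κ hκ hJ1 γ R) :
    ∃ R', R ⊆ R' ∧ PE (L := L) R' ∧ (∃ γ, Below (L := L) (J := J) M κ hκ hJ1 γ R') ∧
      (∀ x ∈ lev (L := L) (J := J) M κ hκ hJ1 β, ∃ y, (x, y) ∈ R') ∧
      ∀ y ∈ lev (L := L) (J := J) M κ hκ hJ1 β, ∃ x, (x, y) ∈ R' := by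
  obtain ⟨γ, hγ⟩ := hR
  obtain ⟨δ, hδ⟩ := exists_gt' κ hκ hJ1 (max β γ)
  obtain ⟨ε, hε⟩ := exists_gt' κ hκ hJ1 δ
  obtain ⟨R₁, h1, h2, h3, h4⟩ := forth (L := L) (J := J) M κ hκ hJ1 hδ h
    (hγ.mono M κ hκ hJ1 (le_max_right _ _))
  obtain ⟨R₂, h5, h6, h7, h8⟩ := forth (L := L) (J := J) M κ hκ hJ1 hε h2.swap
    (fun p hp => ⟨(h3 _ hp).2, (h3 _ hp).1⟩)
  refine ⟨Prod.swap ⁻¹' R₂, ?_, h6.swap, ⟨ε, fun p hp => ⟨(h7 _ hp).2, (h7 _ hp).1⟩⟩, ?_, ?_⟩
  · intro p hp
    refine h5 ?_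
    show p.swap.swap ∈ R₁
    exact h1 hp
  · intro x hx
    obtain ⟨y, hy⟩ := h4 x (lev_mono M κ hκ hJ1 (le_max_left _ _) hx)
    exact ⟨y, h5 hy⟩
  · intro y hy
    obtain ⟨x, hx⟩ := h8 y (lev_mono M κ hκ hJ1 ((le_max_left _ _).trans hδ.le) hy)
    exact ⟨x, hx⟩

/-! ### Strong homogeneity -/

open Classical in
/-- One step of the construction of an automorphism. -/
noncomputable def E
    (R : Set (MM (L := L) (J := J) M κ hκ hJ1 × MM (L := L) (J := J) M κ hκ hJ1)) (β : J) :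
    Set (MM (L := L) (J := J) M κ hκ hJ1 × MM (L := L) (J := J) M κ hκ hJ1) :=
  if h : PE (L := L) R ∧ ∃ γ, Below (L := L) (J := J) M κ hκ hJ1 γ R then
    (backforth (L := L) (J := J) M κ hκ hJ1 β h.1 h.2).choose else R

/-- The construction of an automorphism by recursion. -/
noncomputable def RR
    (f₀ : Set (MM (L := L) (J := J) M κ hκ hJ1 × MM (L := L) (J := J) M κ hκ hJ1)) :
    J → Set (MM (L := L) (J := J) M κ hκ hJ1 × MM (L := L) (J := J) M κ hκ hJ1) :=
  (wellFounded_lt : WellFounded ((· < ·) : J → J → Prop)).fix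
    (fun β ih => E (L := L) (J := J) M κ hκ hJ1 (f₀ ∪ ⋃ γ, ⋃ h : γ < β, ih γ h) β)

lemma RR_eq
    (f₀ : Set (MM (L := L) (J := J) M κ hκ hJ1 × MM (L := L) (J := J) M κ hκ hJ1)) (β : J) :
    RR (L := L) (J := J) M κ hκ hJ1 f₀ β =
      E (L := L) (J := J) M κ hκ hJ1 (f₀ ∪ ⋃ γ, ⋃ _ : γ < β,
        RR (L := L) (J := J) M κ hκ hJ1 f₀ γ) β := by
  exact (wellFounded_lt : WellFounded ((· < ·) : J → J → Prop)).fix_eq
    (fun β ih => E (L := L) (J := J) M κ hκ hJ1 (f₀ ∪ ⋃ γ, ⋃ h : γ < β, ih γ h) β) β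

omit [WellFoundedLT J] in
/-- A union of a chain of elementary relations is elementary. -/
lemma PE_iUnion {P : Type} [L.Structure P] {B : Set J} {R₀ : Set (P × P)}
    {R : J → Set (P × P)} (h0 : PE (L := L) R₀) (h1 : ∀ β ∈ B, PE (L := L) (R β))
    (h2 : ∀ β ∈ B, R₀ ⊆ R β) (h3 : ∀ β ∈ B, ∀ γ < β, R γ ⊆ R β) :
    PE (L := L) (R₀ ∪ ⋃ γ, ⋃ _ : γ ∈ B, R γ) := by
  classical
  intro n p hp
  by_cases h : ∀ i, p i ∈ R₀
  · exact h0 n p h
  · push Not at h
    obtain ⟨i₀, hi₀⟩ := h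
    have h4 : ∀ i, p i ∈ R₀ ∨ ∃ γ ∈ B, p i ∈ R γ := by
      intro i
      rcases hp i with h5 | h5
      · exact Or.inl h5
      · right
        simp only [mem_iUnion] at h5
        obtain ⟨γ, hγ, h6⟩ := h5
        exact ⟨γ, hγ, h6⟩
    have hB : ∃ γ ∈ B, p i₀ ∈ R γ := by
      rcases h4 i₀ with h5 | h5
      · exact absurd h5 hi₀
      · exact h5
    obtain ⟨γ₀, hγ₀, -⟩ := hB
    have h5 : ∀ i, ∃ γ ∈ B, p i ∈ R γ := by
      intro i
      rcases h4 i with h5 | h5
      · exact ⟨γ₀, hγ₀, h2 γ₀ hγ₀ h5⟩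
      · exact h5
    choose g hg1 hg2 using h5
    obtain ⟨i₁, -, hmax⟩ := Finset.exists_max_image Finset.univ g ⟨i₀, Finset.mem_univ _⟩
    refine h1 (g i₁) (hg1 i₁) n p (fun i => ?_)
    rcases lt_or_eq_of_le (hmax i (Finset.mem_univ _)) with h6 | h6
    · exact h3 _ (hg1 i₁) _ h6 (hg2 i)
    · rw [← h6]
      exact hg2 i

variable (hJ2 : ∀ b : J, #(Iio b) < κ)

include hJ2 in
lemma RR_spec
    (f₀ : Set (MM (L := L) (J := J) M κ hκ hJ1 × MM (L := L) (J := J) M κ hκ hJ1))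
    (h0 : PE (L := L) f₀) (hb : ∃ γ, Below (L := L) (J := J) M κ hκ hJ1 γ f₀) (β : J) :
    PE (L := L) (RR (L := L) (J := J) M κ hκ hJ1 f₀ β) ∧
    (∃ γ, Below (L := L) (J := J) M κ hκ hJ1 γ (RR (L := L) (J := J) M κ hκ hJ1 f₀ β)) ∧
    f₀ ⊆ RR (L := L) (J := J) M κ hκ hJ1 f₀ β ∧
    (∀ γ < β, RR (L := L) (J := J) M κ hκ hJ1 f₀ γ ⊆ RR (L := L) (J := J) M κ hκ hJ1 f₀ β) ∧
    (∀ x ∈ lev (L := L) (J := J) M κ hκ hJ1 β,
      ∃ y, (x, y) ∈ RR (L := L) (J := J) M κ hκ hJ1 f₀ β) ∧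
    (∀ y ∈ lev (L := L) (J := J) M κ hκ hJ1 β,
      ∃ x, (x, y) ∈ RR (L := L) (J := J) M κ hκ hJ1 f₀ β) := by
  classical
  induction β using WellFoundedLT.induction with
  | ind β ih =>
  set Q : Set (MM (L := L) (J := J) M κ hκ hJ1 × MM (L := L) (J := J) M κ hκ hJ1) :=
    f₀ ∪ ⋃ γ, ⋃ _ : γ < β, RR (L := L) (J := J) M κ hκ hJ1 f₀ γ with hQ
  have hQ1 : PE (L := L) Q :=
    PE_iUnion (B := Iio β) h0 (fun γ hγ => (ih γ hγ).1) (fun γ hγ => (ih γ hγ).2.2.1)
      (fun γ hγ => (ih γ hγ).2.2.2.1)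
  have hQ2 : ∃ γ, Below (L := L) (J := J) M κ hκ hJ1 γ Q := by
    obtain ⟨γ₀, hγ₀⟩ := hb
    choose g hg using fun γ : Iio β => (ih γ.1 γ.2).2.1
    obtain ⟨b, hb⟩ := hJ1 (range g) (lt_of_le_of_lt mk_range_le (hJ2 β))
    refine ⟨max γ₀ b, ?_⟩
    rintro p (hp | hp)
    · exact hγ₀.mono M κ hκ hJ1 (le_max_left _ _) p hp
    · simp only [mem_iUnion] at hp
      obtain ⟨γ, hγ, hp⟩ := hp
      exact (hg ⟨γ, hγ⟩).mono M κ hκ hJ1
        ((hb _ ⟨⟨γ, hγ⟩, rfl⟩).le.trans (le_max_right _ _)) p hp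
  have hE : RR (L := L) (J := J) M κ hκ hJ1 f₀ β =
      (backforth (L := L) (J := J) M κ hκ hJ1 β hQ1 hQ2).choose := by
    rw [RR_eq, ← hQ]
    unfold E
    rw [dif_pos ⟨hQ1, hQ2⟩]
  obtain ⟨h1, h2, h3, h4, h5⟩ := (backforth (L := L) (J := J) M κ hκ hJ1 β hQ1 hQ2).choose_spec
  rw [← hE] at h1 h2 h3 h4 h5
  refine ⟨h2, h3, subset_union_left.trans h1, ?_, h4, h5⟩
  intro γ hγ
  refine subset_trans ?_ h1
  intro p hp
  right
  simp only [mem_iUnion]
  exact ⟨γ, hγ, hp⟩

include hJ2 in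
lemma homogeneous_MM : OMin.StronglyHomogeneous L κ (MM (L := L) (J := J) M κ hκ hJ1) := by
  classical
  intro A hA f hf
  let f₀ : Set (MM (L := L) (J := J) M κ hκ hJ1 × MM (L := L) (J := J) M κ hκ hJ1) :=
    range (fun a : A => ((a : MM (L := L) (J := J) M κ hκ hJ1), f a))
  have h0 : PE (L := L) f₀ := by
    intro n p hp
    choose k hk using hp
    have hf' : SameType (L := L) (fun a : A => (a : MM (L := L) (J := J) M κ hκ hJ1)) f := hf
    have h1 := hf'.comp k
    have h2 : (fun a : A => (a : MM (L := L) (J := J) M κ hκ hJ1)) ∘ k = fun i => (p i).1 :=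
      funext (fun i => congrArg Prod.fst (hk i))
    have h3 : f ∘ k = fun i => (p i).2 := funext (fun i => congrArg Prod.snd (hk i))
    rw [h2, h3] at h1
    exact h1
  have hb : ∃ γ, Below (L := L) (J := J) M κ hκ hJ1 γ f₀ := by
    obtain ⟨γ₁, h1⟩ := bounded_MM (L := L) (J := J) M κ hκ hJ1 hA (fun a => a.1)
    obtain ⟨γ₂, h2⟩ := bounded_MM (L := L) (J := J) M κ hκ hJ1 hA f
    refine ⟨max γ₁ γ₂, ?_⟩
    rintro p ⟨a, rfl⟩
    exact ⟨lev_mono M κ hκ hJ1 (le_max_left _ _) (h1 a),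
      lev_mono M κ hκ hJ1 (le_max_right _ _) (h2 a)⟩
  have hspec := RR_spec (L := L) (J := J) M κ hκ hJ1 hJ2 f₀ h0 hb
  have hR : PE (L := L) (f₀ ∪ ⋃ γ, ⋃ _ : γ ∈ (univ : Set J),
      RR (L := L) (J := J) M κ hκ hJ1 f₀ γ) :=
    PE_iUnion (B := univ) h0 (fun γ _ => (hspec γ).1) (fun γ _ => (hspec γ).2.2.1)
      (fun γ _ => (hspec γ).2.2.2.1)
  have hlev : ∀ x : MM (L := L) (J := J) M κ hκ hJ1, ∃ β,
      x ∈ lev (L := L) (J := J) M κ hκ hJ1 β :=
    fun x => (mem_tot (L := L) (J := J) M κ hκ hJ1 _).1 x.2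
  obtain ⟨σ, hσ⟩ := hR.exists_equiv (by
      intro x
      obtain ⟨β, hβ⟩ := hlev x
      obtain ⟨y, hy⟩ := (hspec β).2.2.2.2.1 x hβ
      refine ⟨y, Or.inr ?_⟩
      simp only [mem_iUnion]
      exact ⟨β, mem_univ _, hy⟩) (by
      intro y
      obtain ⟨β, hβ⟩ := hlev y
      obtain ⟨x, hx⟩ := (hspec β).2.2.2.2.2 y hβ
      refine ⟨x, Or.inr ?_⟩
      simp only [mem_iUnion]
      exact ⟨β, mem_univ _, hx⟩)
  exact ⟨σ, fun a => hσ _ _ (Or.inl ⟨a, rfl⟩)⟩

include hκ hJ1 in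
lemma exists_embedding [Nonempty J] :
    Nonempty (M ↪ₑ[L] MM (L := L) (J := J) M κ hκ hJ1) := by
  obtain ⟨β⟩ : Nonempty J := inferInstance
  refine ⟨⟨fun m => ⟨cl (Idx (J := J) L M) M (fun _ => m),
    (mem_tot (L := L) (J := J) M κ hκ hJ1 _).2 ⟨β, _, fun _ _ _ => rfl, rfl⟩⟩, ?_⟩⟩
  intro n φ x
  rw [← realize_coe (L := L) (J := J) M κ hκ hJ1]
  have := los (Idx (J := J) L M) (M := M) φ (fun i _ => x i)
  simp only [Function.comp_def]
  rw [this, Filter.eventually_const]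

end Total

/-- **Existence of monster models**: for every regular cardinal `κ`, every structure has an
elementary extension which is `κ`-saturated and strongly `κ`-homogeneous. -/
theorem exists_monster (κ : Cardinal.{0}) (hκ : κ.IsRegular) (M : Type) [L.Structure M]
    [Nonempty M] :
    ∃ (U : Type) (_ : L.Structure U), Nonempty (M ↪ₑ[L] U) ∧ OMin.Monster L κ U := by
  let J := κ.ord.ToType
  have hJ1 : ∀ s : Set J, #s < κ → ∃ b, ∀ a ∈ s, a < b := by
    intro s hs
    by_contra hn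
    push Not at hn
    have h1 : IsCofinal s := fun b => by
      obtain ⟨a, ha, hab⟩ := hn b
      exact ⟨a, ha, hab⟩
    have h2 := Order.cof_le h1
    rw [Ordinal.cof_toType, hκ.cof_ord] at h2
    exact absurd hs (not_lt.2 h2)
  have hJ2 : ∀ b : J, #(Iio b) < κ := fun b => by
    have := mk_Iio_lt b (by simp [J])
    simpa [J] using this
  have hne : Nonempty J := by
    rw [← mk_ne_zero_iff]
    simp only [J, mk_ord_toType]
    exact (aleph0_pos.trans_le hκ.aleph0_le).ne'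
  exact ⟨MM (L := L) (J := J) M κ hκ.aleph0_le hJ1, inferInstance,
    exists_embedding (L := L) (J := J) M κ hκ.aleph0_le hJ1,
    saturated_MM (L := L) (J := J) M κ hκ.aleph0_le hJ1,
    homogeneous_MM (L := L) (J := J) M κ hκ.aleph0_le hJ1 hJ2⟩

/-- The same for arbitrary cardinals. -/
theorem exists_monster' (κ : Cardinal.{0}) (M : Type) [L.Structure M] [Nonempty M] :
    ∃ (U : Type) (_ : L.Structure U), Nonempty (M ↪ₑ[L] U) ∧ OMin.Monster L κ U := by
  obtain ⟨U, hU, h1, h2, h3⟩ := exists_monster (L := L) (Order.succ (max κ ℵ₀))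
    (isRegular_succ (le_max_right _ _)) M
  refine ⟨U, hU, h1, ?_, ?_⟩
  · intro A hA
    exact h2 A (hA.trans_le ((le_max_left _ _).trans (Order.le_succ _)))
  · intro A hA
    exact h3 A (hA.trans_le ((le_max_left _ _).trans (Order.le_succ _)))

end Pool.Agent.Helper31.Monster
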