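import Mathlib
import Pool.Agent.Helper31.OMinDefs

set_option autoImplicit false

/-!
Ordered rational vector spaces as first-order structures, and quantifier elimination in
semantic form.
-/

namespace Pool.Agent.Helper31.OQV

open FirstOrder FirstOrder.Language

/-- Function symbols: zero, addition, multiplication by each rational number. -/
inductive Fn : ℕ → Type
  | zero : Fn 0
  | add : Fn 2
  | smul (q : ℚ) : Fn 1

/-- Relation symbols: the order. -/
inductive Rl : ℕ → Type
  | lt : Rl 2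

/-- The language of ordered rational vector spaces. -/
def LQ : FirstOrder.Language.{0, 0} := ⟨Fn, Rl⟩

/-- The order symbol. -/
def ltSym : LQ.Relations 2 := Rl.lt

/-- An ordered rational vector space as a structure. -/
@[reducible] def str (V : Type) [AddCommGroup V] [LinearOrder V] [Module ℚ V] : LQ.Structure V where
  funMap := fun {n} f =>
    match n, f with
    | _, Fn.zero => fun _ => 0
    | _, Fn.add => fun v => v 0 + v 1
    | _, Fn.smul q => fun v => q • v 0
  RelMap := fun {n} r =>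
    match n, r with
    | _, Rl.lt => fun v => v 0 < v 1

attribute [local instance] str

section Basic

variable {V : Type} [AddCommGroup V] [LinearOrder V] [IsOrderedAddMonoid V] [Module ℚ V]

lemma smul_pos_rat {q : ℚ} (hq : 0 < q) {x : V} (hx : 0 < x) : 0 < q • x := by
  by_contra h
  push Not at h
  have h1 : (q.den : ℕ) • (q • x) ≤ 0 := nsmul_nonpos h _
  have h2 : (q.den : ℕ) • (q • x) = (q.num.toNat : ℕ) • x := by
    rw [← Nat.cast_smul_eq_nsmul ℚ, ← Nat.cast_smul_eq_nsmul ℚ, smul_smul]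
    congr 1
    have h3 : (0 : ℤ) < q.num := Rat.num_pos.2 hq
    have h4 : ((q.num.toNat : ℕ) : ℚ) = (q.num : ℚ) := by
      have : ((q.num.toNat : ℕ) : ℤ) = q.num := Int.toNat_of_nonneg h3.le
      exact_mod_cast congrArg (fun z : ℤ => (z : ℚ)) this
    rw [h4]
    exact Rat.den_mul_eq_num q
  rw [h2] at h1
  have h5 : (0 : V) < q.num.toNat • x := by
    apply nsmul_pos hx
    have : (0 : ℤ) < q.num := Rat.num_pos.2 hq
    omega
  exact absurd h1 (not_le.2 h5)

lemma smul_pos_iff_of_pos {q : ℚ} (hq : 0 < q) {x : V} : 0 < q • x ↔ 0 < x := by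
  refine ⟨fun h => ?_, smul_pos_rat hq⟩
  have := smul_pos_rat (inv_pos.2 hq) h
  rwa [smul_smul, inv_mul_cancel₀ hq.ne', one_smul] at this

lemma smul_pos_iff_of_neg {q : ℚ} (hq : q < 0) {x : V} : 0 < q • x ↔ x < 0 := by
  have := smul_pos_iff_of_pos (q := -q) (by linarith) (x := -x)
  rw [neg_smul, smul_neg, neg_neg] at this
  rw [this]
  exact neg_pos

instance (priority := 50) densely : DenselyOrdered V where
  dense a b hab := by
    have h1 : 0 < ((1 : ℚ) / 2) • (b - a) := smul_pos_rat (by norm_num) (sub_pos.2 hab)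
    refine ⟨a + ((1 : ℚ) / 2) • (b - a), lt_add_of_pos_right a h1, ?_⟩
    have h2 : b - (a + ((1 : ℚ) / 2) • (b - a)) = ((1 : ℚ) / 2) • (b - a) := by
      module
    rw [← h2] at h1
    exact sub_pos.1 h1

variable [Nontrivial V]

instance (priority := 50) noMax : NoMaxOrder V where
  exists_gt a := by
    obtain ⟨x, hx⟩ := exists_ne (0 : V)
    refine ⟨a + |x|, lt_add_of_pos_right a (abs_pos.2 hx)⟩

instance (priority := 50) noMin : NoMinOrder V where
  exists_lt a := by
    obtain ⟨x, hx⟩ := exists_ne (0 : V)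
    refine ⟨a - |x|, sub_lt_self a (abs_pos.2 hx)⟩

end Basic

/-! ### Linear forms of terms -/

section Terms

/-- The linear form of a term. -/
noncomputable def lin {α : Type} : LQ.Term α → (α →₀ ℚ)
  | .var a => Finsupp.single a 1
  | .func (l := l) f ts =>
    match l, f, ts with
    | _, Fn.zero, _ => 0
    | _, Fn.add, ts => lin (ts 0) + lin (ts 1)
    | _, Fn.smul q, ts => q • lin (ts 0)

/-- Value of a linear form. -/
noncomputable abbrev lc {V : Type} [AddCommGroup V] [Module ℚ V] {α : Type} (v : α → V)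
    (ℓ : α →₀ ℚ) : V := Finsupp.linearCombination ℚ v ℓ

lemma realize_lin {V : Type} [AddCommGroup V] [LinearOrder V] [Module ℚ V] {α : Type} (v : α → V)
    (t : LQ.Term α) : t.realize v = lc v (lin t) := by
  induction t with
  | var a => simp [lin, lc]
  | @func l f ts ih =>
    cases f with
    | zero =>
      simp only [Term.realize, lin, lc, map_zero]
      rfl
    | add =>
      simp only [Term.realize, lin, lc, map_add]
      rw [← lc, ← lc, ← ih 0, ← ih 1]
      rfl
    | smul q =>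
      simp only [Term.realize, lin, lc, map_smul]
      rw [← lc, ← ih 0]
      rfl

end Terms

/-! ### Quantifier elimination -/

section QE

/-- One-dimensional transfer. -/
lemma one_dim {V W K : Type} [LinearOrder V] [LinearOrder W] [DenselyOrdered W] [NoMaxOrder W]
    [NoMinOrder W] [Nonempty W] [Fintype K] (r : K → V) (s : K → W)
    (h : ∀ k k', r k < r k' ↔ s k < s k') (a : V) :
    ∃ b : W, ∀ k, (r k < a ↔ s k < b) ∧ (a < r k ↔ b < s k) := by
  classical
  by_cases hk : ∃ k, r k = a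
  · obtain ⟨k, rfl⟩ := hk
    exact ⟨s k, fun k' => ⟨h k' k, h k k'⟩⟩
  · push Not at hk
    obtain ⟨b, hb1, hb2⟩ := Order.exists_between_finsets
      ((Finset.univ.filter (fun k => r k < a)).image s)
      ((Finset.univ.filter (fun k => a < r k)).image s) (by
        intro x hx y hy
        obtain ⟨k, hk1, rfl⟩ := Finset.mem_image.1 hx
        obtain ⟨k', hk2, rfl⟩ := Finset.mem_image.1 hy
        exact (h k k').1 ((Finset.mem_filter.1 hk1).2.trans (Finset.mem_filter.1 hk2).2))
    refine ⟨b, fun k => ?_⟩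
    rcases lt_or_gt_of_ne (hk k) with h1 | h1
    · have h2 := hb1 (s k) (Finset.mem_image.2 ⟨k, Finset.mem_filter.2 ⟨Finset.mem_univ _, h1⟩, rfl⟩)
      exact ⟨⟨fun _ => h2, fun _ => h1⟩, ⟨fun h3 => absurd h3 (not_lt.2 h1.le),
        fun h3 => absurd h3 (not_lt.2 h2.le)⟩⟩
    · have h2 := hb2 (s k) (Finset.mem_image.2 ⟨k, Finset.mem_filter.2 ⟨Finset.mem_univ _, h1⟩, rfl⟩)
      exact ⟨⟨fun h3 => absurd h3 (not_lt.2 h1.le),
        fun h3 => absurd h3 (not_lt.2 h2.le)⟩, ⟨fun _ => h2, fun _ => h1⟩⟩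

variable {α : Type}

/-- Two assignments give the same signs to the linear forms in `F`. -/
def SS {V W : Type} [AddCommGroup V] [LinearOrder V] [Module ℚ V] [AddCommGroup W]
    [LinearOrder W] [Module ℚ W] (F : Finset (α →₀ ℚ)) (v : α → V) (w : α → W) : Prop :=
  ∀ ℓ ∈ F, (0 < lc v ℓ ↔ 0 < lc w ℓ) ∧ (lc v ℓ = 0 ↔ lc w ℓ = 0)

lemma SS.symm {V W : Type} [AddCommGroup V] [LinearOrder V] [Module ℚ V] [AddCommGroup W]
    [LinearOrder W] [Module ℚ W] {F : Finset (α →₀ ℚ)} {v : α → V} {w : α → W}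
    (h : SS F v w) : SS F w v := fun ℓ hℓ => ⟨(h ℓ hℓ).1.symm, (h ℓ hℓ).2.symm⟩

lemma SS.mono {V W : Type} [AddCommGroup V] [LinearOrder V] [Module ℚ V] [AddCommGroup W]
    [LinearOrder W] [Module ℚ W] {F G : Finset (α →₀ ℚ)} {v : α → V} {w : α → W}
    (h : SS F v w) (hG : G ⊆ F) : SS G v w := fun ℓ hℓ => h ℓ (hG hℓ)

/-- The embedding of the variables. -/
def emb (β : Type) (n : ℕ) : β ⊕ Fin n → β ⊕ Fin (n + 1) := Sum.map id Fin.castSucc

lemma emb_injective (β : Type) (n : ℕ) : Function.Injective (emb β n) :=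
  Function.Injective.sumMap Function.injective_id (Fin.castSucc_injective n)

/-- The part of a linear form not involving the last variable. -/
noncomputable def rest {β : Type} {n : ℕ} :
    ((β ⊕ Fin (n + 1)) →₀ ℚ) →ₗ[ℚ] ((β ⊕ Fin n) →₀ ℚ) :=
  Finsupp.lcomapDomain (emb β n) (emb_injective β n)

/-- The coefficient of the last variable. -/
def co {β : Type} {n : ℕ} (ℓ : (β ⊕ Fin (n + 1)) →₀ ℚ) : ℚ := ℓ (Sum.inr (Fin.last n))

lemma lc_split {β : Type} {n : ℕ} {V : Type} [AddCommGroup V] [Module ℚ V] (v : β → V)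
    (xs : Fin n → V) (a : V) (ℓ : (β ⊕ Fin (n + 1)) →₀ ℚ) :
    lc (Sum.elim v (Fin.snoc xs a : Fin (n + 1) → V)) ℓ =
      lc (Sum.elim v xs) (rest ℓ) + co ℓ • a := by
  classical
  induction ℓ using Finsupp.induction_linear with
  | zero => simp [lc, co]
  | add f g hf hg =>
    simp only [lc, map_add] at hf hg ⊢
    rw [hf, hg]
    simp only [co, Finsupp.add_apply, add_smul]
    abel
  | single i q =>
    have key : ∀ j : β ⊕ Fin n, rest (Finsupp.single (emb β n j) q) = Finsupp.single j q := by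
      intro j
      ext k
      simp only [rest, Finsupp.lcomapDomain_apply, Finsupp.comapDomain_apply]
      rw [Finsupp.single_apply, Finsupp.single_apply]
      by_cases hjk : j = k
      · subst hjk; simp
      · rw [if_neg hjk, if_neg (fun h => hjk (emb_injective β n h))]
    rcases i with b | i
    · have h1 : (Sum.inl b : β ⊕ Fin (n + 1)) = emb β n (Sum.inl b) := rfl
      rw [h1, key]
      simp [lc, co, emb, Finsupp.linearCombination_single]
    · refine Fin.lastCases ?_ (fun i => ?_) i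
      · have h2 : rest (Finsupp.single (Sum.inr (Fin.last n) : β ⊕ Fin (n + 1)) q) = 0 := by
          ext k
          simp only [rest, Finsupp.lcomapDomain_apply, Finsupp.comapDomain_apply,
            Finsupp.coe_zero, Pi.zero_apply]
          rw [Finsupp.single_apply, if_neg]
          rcases k with k | k
          · simp [emb]
          · simp only [emb, Sum.map_inr, Sum.inr.injEq]
            exact (Fin.castSucc_lt_last k).ne'
        rw [h2]
        simp [lc, co, Finsupp.linearCombination_single]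
      · have h1 : (Sum.inr (Fin.castSucc i) : β ⊕ Fin (n + 1)) = emb β n (Sum.inr i) := rfl
        rw [h1, key]
        simp [lc, co, emb, Finsupp.linearCombination_single, (Fin.castSucc_lt_last i).ne]

open Classical in
/-- The linear forms needed to describe the projection. -/
noncomputable def proj {β : Type} {n : ℕ} (F : Finset ((β ⊕ Fin (n + 1)) →₀ ℚ)) :
    Finset ((β ⊕ Fin n) →₀ ℚ) :=
  F.image rest ∪ (F ×ˢ F).image (fun p => (co p.1)⁻¹ • rest p.1 - (co p.2)⁻¹ • rest p.2)

variable {V W : Type} [AddCommGroup V] [LinearOrder V] [IsOrderedAddMonoid V] [Module ℚ V]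
  [AddCommGroup W] [LinearOrder W] [IsOrderedAddMonoid W] [Module ℚ W] [Nontrivial W]

lemma project {β : Type} {n : ℕ} (F : Finset ((β ⊕ Fin (n + 1)) →₀ ℚ)) (v : β → V)
    (xs : Fin n → V) (w : β → W) (ys : Fin n → W)
    (h : SS (proj F) (Sum.elim v xs) (Sum.elim w ys)) (a : V) :
    ∃ b : W, SS F (Sum.elim v (Fin.snoc xs a : Fin (n + 1) → V))
      (Sum.elim w (Fin.snoc ys b : Fin (n + 1) → W)) := by
  classical
  let K := {ℓ // ℓ ∈ F}
  let r : K → V := fun ℓ => -((co ℓ.1)⁻¹ • lc (Sum.elim v xs) (rest ℓ.1))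
  let s : K → W := fun ℓ => -((co ℓ.1)⁻¹ • lc (Sum.elim w ys) (rest ℓ.1))
  have hrs : ∀ k k' : K, r k < r k' ↔ s k < s k' := by
    intro k k'
    have h1 := (h ((co k.1)⁻¹ • rest k.1 - (co k'.1)⁻¹ • rest k'.1) (by
      refine Finset.mem_union_right _ (Finset.mem_image.2 ⟨(k.1, k'.1), ?_, rfl⟩)
      exact Finset.mem_product.2 ⟨k.2, k'.2⟩)).1
    simp only [lc, map_sub, map_smul] at h1
    simp only [r, s]
    rw [neg_lt_neg_iff, neg_lt_neg_iff, ← sub_pos, h1, sub_pos]
  obtain ⟨b, hb⟩ := one_dim r s hrs a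
  refine ⟨b, fun ℓ hℓ => ?_⟩
  rw [lc_split, lc_split]
  by_cases hc : co ℓ = 0
  · rw [hc, zero_smul, zero_smul, add_zero, add_zero]
    exact h (rest ℓ) (Finset.mem_union_left _ (Finset.mem_image_of_mem _ hℓ))
  · have hv : lc (Sum.elim v xs) (rest ℓ) + co ℓ • a = co ℓ • (a - r ⟨ℓ, hℓ⟩) := by
      simp only [r, sub_neg_eq_add, smul_add, smul_smul, mul_inv_cancel₀ hc, one_smul]
      abel
    have hw : lc (Sum.elim w ys) (rest ℓ) + co ℓ • b = co ℓ • (b - s ⟨ℓ, hℓ⟩) := by
      simp only [s, sub_neg_eq_add, smul_add, smul_smul, mul_inv_cancel₀ hc, one_smul]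
      abel
    rw [hv, hw]
    obtain ⟨h1, h2⟩ := hb ⟨ℓ, hℓ⟩
    have h3 : a = r ⟨ℓ, hℓ⟩ ↔ b = s ⟨ℓ, hℓ⟩ := by
      constructor
      · intro h4
        rcases lt_trichotomy b (s ⟨ℓ, hℓ⟩) with h5 | h5 | h5
        · exact absurd (h2.2 h5) (by rw [h4]; exact lt_irrefl _)
        · exact h5
        · exact absurd (h1.2 h5) (by rw [h4]; exact lt_irrefl _)
      · intro h4
        rcases lt_trichotomy a (r ⟨ℓ, hℓ⟩) with h5 | h5 | h5
        · exact absurd (h2.1 h5) (by rw [h4]; exact lt_irrefl _)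
        · exact h5
        · exact absurd (h1.1 h5) (by rw [h4]; exact lt_irrefl _)
    constructor
    · rcases lt_or_gt_of_ne hc with hneg | hpos
      · rw [smul_pos_iff_of_neg hneg, smul_pos_iff_of_neg hneg, sub_neg, sub_neg]
        exact h2
      · rw [smul_pos_iff_of_pos hpos, smul_pos_iff_of_pos hpos, sub_pos, sub_pos]
        exact h1
    · rw [smul_eq_zero_iff_right hc, smul_eq_zero_iff_right hc, sub_eq_zero, sub_eq_zero]
      exact h3

end QE

/-- **Quantifier elimination**, in semantic form: the truth of a formula at a tuple depends only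
on the signs of finitely many rational linear forms, uniformly in all nontrivial ordered
rational vector spaces. -/
theorem qe {β : Type} {n : ℕ} (φ : LQ.BoundedFormula β n) :
    ∃ F : Finset ((β ⊕ Fin n) →₀ ℚ), ∀ (V W : Type)
      [AddCommGroup V] [LinearOrder V] [IsOrderedAddMonoid V] [Module ℚ V] [Nontrivial V]
      [AddCommGroup W] [LinearOrder W] [IsOrderedAddMonoid W] [Module ℚ W] [Nontrivial W]
      (v : β → V) (xs : Fin n → V) (w : β → W) (ys : Fin n → W),
      SS F (Sum.elim v xs) (Sum.elim w ys) → (φ.Realize v xs ↔ φ.Realize w ys) := by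
  classical
  induction φ with
  | falsum => exact ⟨∅, fun V W _ _ _ _ _ _ _ _ _ _ v xs w ys _ => Iff.rfl⟩
  | @equal n t₁ t₂ =>
    refine ⟨{lin t₁ - lin t₂}, fun V W _ _ _ _ _ _ _ _ _ _ v xs w ys h => ?_⟩
    have h1 := (h _ (Finset.mem_singleton_self _)).2
    simp only [lc, map_sub, sub_eq_zero] at h1
    simp only [BoundedFormula.Realize]
    rw [realize_lin, realize_lin, realize_lin, realize_lin]
    exact h1
  | @rel n l R ts =>
    cases R
    refine ⟨{lin (ts 1) - lin (ts 0)}, fun V W _ _ _ _ _ _ _ _ _ _ v xs w ys h => ?_⟩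
    have h1 := (h _ (Finset.mem_singleton_self _)).1
    simp only [lc, map_sub, sub_pos] at h1
    simp only [BoundedFormula.Realize]
    show (ts 0).realize _ < (ts 1).realize _ ↔ (ts 0).realize _ < (ts 1).realize _
    rw [realize_lin, realize_lin, realize_lin, realize_lin]
    exact h1
  | @imp n φ ψ ih1 ih2 =>
    obtain ⟨F, hF⟩ := ih1
    obtain ⟨G, hG⟩ := ih2
    refine ⟨F ∪ G, fun V W _ _ _ _ _ _ _ _ _ _ v xs w ys h => ?_⟩
    simp only [BoundedFormula.realize_imp]
    rw [hF V W v xs w ys (h.mono Finset.subset_union_left),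
      hG V W v xs w ys (h.mono Finset.subset_union_right)]
  | @all n φ ih =>
    obtain ⟨F, hF⟩ := ih
    refine ⟨proj F, fun V W _ _ _ _ _ _ _ _ _ _ v xs w ys h => ?_⟩
    simp only [BoundedFormula.realize_all]
    constructor
    · intro h1 b
      obtain ⟨a, ha⟩ := project F w ys v xs h.symm b
      exact (hF V W v _ w _ ha.symm).1 (h1 a)
    · intro h1 a
      obtain ⟨b, hb⟩ := project F v xs w ys h a
      exact (hF V W v _ w _ hb).2 (h1 b)

/-! ### Definable subsets of the line -/

section Line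

variable {V : Type} [AddCommGroup V] [LinearOrder V] [IsOrderedAddMonoid V] [Module ℚ V]

/-- `x` and `y` have the same position with respect to the points of `R`. -/
def SamePos (R : Finset V) (x y : V) : Prop := ∀ ρ ∈ R, (ρ < x ↔ ρ < y) ∧ (x < ρ ↔ y < ρ)

/-- The assignment used for one-variable formulas over `A`. -/
def asg (A : Set V) (x : V) : (A ⊕ Fin 1) ⊕ Fin 0 → V :=
  Sum.elim (Sum.elim (fun a : A => (a : V)) (fun _ => x)) (default : Fin 0 → V)

omit [LinearOrder V] [IsOrderedAddMonoid V] in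
lemma lc_asg (A : Set V) (x : V) (ℓ : ((A ⊕ Fin 1) ⊕ Fin 0) →₀ ℚ) :
    lc (asg A x) ℓ = lc (asg A 0) ℓ + ℓ (Sum.inl (Sum.inr 0)) • x := by
  classical
  induction ℓ using Finsupp.induction_linear with
  | zero => simp [lc]
  | add f g hf hg =>
    simp only [lc, map_add] at hf hg ⊢
    rw [hf, hg]
    simp only [Finsupp.add_apply, add_smul]
    abel
  | single i q =>
    rcases i with (a | j) | k
    · simp [lc, asg, Finsupp.linearCombination_single]
    · obtain rfl : j = 0 := Subsingleton.elim _ _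
      simp [lc, asg, Finsupp.linearCombination_single]
    · exact k.elim0

omit [LinearOrder V] [IsOrderedAddMonoid V] in
lemma lc_asg_mem (A : Set V) (ℓ : ((A ⊕ Fin 1) ⊕ Fin 0) →₀ ℚ) :
    lc (asg A 0) ℓ ∈ Submodule.span ℚ A := by
  classical
  induction ℓ using Finsupp.induction_linear with
  | zero => simp [lc]
  | add f g hf hg =>
    simp only [lc, map_add] at hf hg ⊢
    exact Submodule.add_mem _ hf hg
  | single i q =>
    rcases i with (a | j) | k
    · simp only [lc, asg, Finsupp.linearCombination_single]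
      exact Submodule.smul_mem _ _ (Submodule.subset_span a.2)
    · simp [lc, asg, Finsupp.linearCombination_single]
    · exact k.elim0

/-- Sets definable over `A` in one variable. -/
theorem definable_line [Nontrivial V] (A D : Set V) (h : A.Definable₁ LQ D) :
    ∃ R : Finset V, (∀ ρ ∈ R, ρ ∈ Submodule.span ℚ A) ∧
      ∀ x y, SamePos R x y → (x ∈ D ↔ y ∈ D) := by
  classical
  obtain ⟨φ, hφ⟩ := Set.definable_iff_exists_formula_sum.1 h
  obtain ⟨F, hF⟩ := qe φ
  refine ⟨(F.filter (fun ℓ => ℓ (Sum.inl (Sum.inr 0)) ≠ 0)).image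
    (fun ℓ => -((ℓ (Sum.inl (Sum.inr 0)))⁻¹ • lc (asg A 0) ℓ)), ?_, ?_⟩
  · intro ρ hρ
    obtain ⟨ℓ, -, rfl⟩ := Finset.mem_image.1 hρ
    exact Submodule.neg_mem _ (Submodule.smul_mem _ _ (lc_asg_mem A ℓ))
  · intro x y hxy
    have hD : ∀ z : V, z ∈ D ↔ φ.Realize (Sum.elim (fun a : A => (a : V)) (fun _ : Fin 1 => z)) := by
      intro z
      have : (fun _ : Fin 1 => z) ∈ {v : Fin 1 → V | v 0 ∈ D} ↔
          (fun _ : Fin 1 => z) ∈ {v : Fin 1 → V |
            φ.Realize (Sum.elim (fun a : A => (a : V)) v)} := by rw [hφ]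
      exact this
    rw [hD, hD]
    refine hF V V _ default _ default ?_
    intro ℓ hℓ
    show (0 < lc (asg A x) ℓ ↔ 0 < lc (asg A y) ℓ) ∧ (lc (asg A x) ℓ = 0 ↔ lc (asg A y) ℓ = 0)
    rw [lc_asg A x, lc_asg A y]
    by_cases hc : ℓ (Sum.inl (Sum.inr 0)) = 0
    · rw [hc, zero_smul, zero_smul]
      exact ⟨Iff.rfl, Iff.rfl⟩
    · set c := ℓ (Sum.inl (Sum.inr 0)) with hcdef
      set ρ := -(c⁻¹ • lc (asg A 0) ℓ) with hρ
      have hz : ∀ z : V, lc (asg A 0) ℓ + c • z = c • (z - ρ) := by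
        intro z
        simp only [hρ, sub_neg_eq_add, smul_add, smul_smul, mul_inv_cancel₀ hc, one_smul]
        abel
      rw [hz, hz]
      obtain ⟨h1, h2⟩ := hxy ρ (Finset.mem_image.2 ⟨ℓ, Finset.mem_filter.2 ⟨hℓ, hc⟩, rfl⟩)
      have h3 : x = ρ ↔ y = ρ := by
        constructor
        · intro h4
          rcases lt_trichotomy y ρ with h5 | h5 | h5
          · exact absurd (h2.2 h5) (by rw [h4]; exact lt_irrefl _)
          · exact h5
          · exact absurd (h1.2 h5) (by rw [h4]; exact lt_irrefl _)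
        · intro h4
          rcases lt_trichotomy x ρ with h5 | h5 | h5
          · exact absurd (h2.1 h5) (by rw [h4]; exact lt_irrefl _)
          · exact h5
          · exact absurd (h1.1 h5) (by rw [h4]; exact lt_irrefl _)
      constructor
      · rcases lt_or_gt_of_ne hc with hneg | hpos
        · rw [smul_pos_iff_of_neg hneg, smul_pos_iff_of_neg hneg, sub_neg, sub_neg]
          exact h2
        · rw [smul_pos_iff_of_pos hpos, smul_pos_iff_of_pos hpos, sub_pos, sub_pos]
          exact h1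
      · rw [smul_eq_zero_iff_right hc, smul_eq_zero_iff_right hc, sub_eq_zero, sub_eq_zero]
        exact h3

end Line

section Cells

variable {V : Type} [LinearOrder V]

/-- The cell of a point. -/
def cell (R : Finset V) (x : V) : Set V :=
  {y | ∀ ρ ∈ R, (ρ < x ↔ ρ < y) ∧ (x < ρ ↔ y < ρ)}

lemma cell_finite (R : Finset V) : (Set.range (cell R)).Finite := by
  classical
  let f : V → Finset V × Finset V := fun x => (R.filter (fun ρ => ρ < x), R.filter (fun ρ => x < ρ))
  let g : Finset V × Finset V → Set V := fun p =>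
    {y | ∀ ρ ∈ R, (ρ ∈ p.1 ↔ ρ < y) ∧ (ρ ∈ p.2 ↔ y < ρ)}
  have h1 : cell R = g ∘ f := by
    funext x
    ext y
    simp only [cell, g, f, Function.comp, Set.mem_ofPred_eq, Finset.mem_filter]
    constructor
    · intro h ρ hρ
      exact ⟨by rw [← (h ρ hρ).1]; simp [hρ], by rw [← (h ρ hρ).2]; simp [hρ]⟩
    · intro h ρ hρ
      exact ⟨by rw [← (h ρ hρ).1]; simp [hρ], by rw [← (h ρ hρ).2]; simp [hρ]⟩
  rw [h1, Set.range_comp]
  refine Set.Finite.image _ (Set.Finite.subset
    (Finset.finite_toSet (R.powerset ×ˢ R.powerset)) ?_)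
  rintro _ ⟨x, rfl⟩
  simp only [f, Finset.coe_product, Set.mem_prod, Finset.mem_coe, Finset.mem_powerset]
  exact ⟨Finset.filter_subset _ _, Finset.filter_subset _ _⟩

lemma isCell_cell (R : Finset V) (x : V) : OMin.IsCell (fun a b : V => a < b) (cell R x) := by
  classical
  by_cases hx : x ∈ R
  · left
    refine ⟨x, ?_⟩
    ext y
    constructor
    · intro h
      have h1 := h x hx
      rcases lt_trichotomy x y with h2 | h2 | h2
      · exact absurd (h1.1.2 h2) (lt_irrefl _)
      · exact h2.symm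
      · exact absurd (h1.2.2 h2) (lt_irrefl _)
    · rintro rfl ρ _
      exact ⟨Iff.rfl, Iff.rfl⟩
  · have hne : ∀ ρ ∈ R, ρ ≠ x := fun ρ hρ h => hx (h ▸ hρ)
    let lo := R.filter (fun ρ => ρ < x)
    let hi := R.filter (fun ρ => x < ρ)
    have hmem : ∀ y, y ∈ cell R x ↔ (∀ ρ ∈ lo, ρ < y) ∧ ∀ ρ ∈ hi, y < ρ := by
      intro y
      constructor
      · intro h
        exact ⟨fun ρ hρ => (h ρ (Finset.mem_filter.1 hρ).1).1.1 (Finset.mem_filter.1 hρ).2,
          fun ρ hρ => (h ρ (Finset.mem_filter.1 hρ).1).2.1 (Finset.mem_filter.1 hρ).2⟩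
      · rintro ⟨h1, h2⟩ ρ hρ
        rcases lt_or_gt_of_ne (hne ρ hρ) with h3 | h3
        · have h4 := h1 ρ (Finset.mem_filter.2 ⟨hρ, h3⟩)
          exact ⟨⟨fun _ => h4, fun _ => h3⟩, ⟨fun h5 => absurd h5 (not_lt.2 h3.le),
            fun h5 => absurd h5 (not_lt.2 h4.le)⟩⟩
        · have h4 := h2 ρ (Finset.mem_filter.2 ⟨hρ, h3⟩)
          exact ⟨⟨fun h5 => absurd h5 (not_lt.2 h3.le),
            fun h5 => absurd h5 (not_lt.2 h4.le)⟩, ⟨fun _ => h4, fun _ => h3⟩⟩
    have hlo : ∀ (h : lo.Nonempty) (y : V), (∀ ρ ∈ lo, ρ < y) ↔ lo.max' h < y := by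
      intro h y
      exact ⟨fun h1 => h1 _ (Finset.max'_mem _ h), fun h1 ρ hρ =>
        lt_of_le_of_lt (Finset.le_max' _ _ hρ) h1⟩
    have hhi : ∀ (h : hi.Nonempty) (y : V), (∀ ρ ∈ hi, y < ρ) ↔ y < hi.min' h := by
      intro h y
      exact ⟨fun h1 => h1 _ (Finset.min'_mem _ h), fun h1 ρ hρ =>
        lt_of_lt_of_le h1 (Finset.min'_le _ _ hρ)⟩
    rcases lo.eq_empty_or_nonempty with h1 | h1
    · rcases hi.eq_empty_or_nonempty with h2 | h2
      · right; right; right; right
        ext y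
        rw [hmem, h1, h2]
        simp
      · right; right; right; left
        refine ⟨hi.min' h2, ?_⟩
        ext y
        rw [hmem, hhi h2, h1]
        simp
    · rcases hi.eq_empty_or_nonempty with h2 | h2
      · right; right; left
        refine ⟨lo.max' h1, ?_⟩
        ext y
        rw [hmem, hlo h1, h2]
        simp
      · right; left
        refine ⟨lo.max' h1, hi.min' h2, ?_⟩
        ext y
        rw [hmem, hlo h1, hhi h2]
        rfl

lemma finite_union (R : Finset V) (D : Set V)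
    (h : ∀ x y, (∀ ρ ∈ R, (ρ < x ↔ ρ < y) ∧ (x < ρ ↔ y < ρ)) → (x ∈ D ↔ y ∈ D)) :
    ∃ C : Set (Set V), C.Finite ∧ (∀ s ∈ C, OMin.IsCell (fun a b : V => a < b) s) ∧
      D = ⋃₀ C := by
  refine ⟨cell R '' D, (cell_finite R).subset (Set.image_subset_range _ _), ?_, ?_⟩
  · rintro _ ⟨x, -, rfl⟩
    exact isCell_cell R x
  · ext y
    constructor
    · intro hy
      exact ⟨cell R y, ⟨y, hy, rfl⟩, fun ρ _ => ⟨Iff.rfl, Iff.rfl⟩⟩
    · rintro ⟨_, ⟨x, hx, rfl⟩, hy⟩
      exact (h x y hy).1 hx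

end Cells

end Pool.Agent.Helper31.OQV
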