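import Mathlib
import Pool.Agent.Helper31.OQV

set_option autoImplicit false

/-!
The complete theory of ordered rational vector spaces; its models are the nontrivial ordered
rational vector spaces.
-/

namespace Pool.Agent.Helper31.OQV

open FirstOrder FirstOrder.Language

/-- The theory of the ordered rational vector space `ℚ`. -/
def TQ : LQ.Theory := @Language.completeTheory LQ ℚ (str ℚ)

section Transfer

/-- Sum of terms. -/
def tadd {α : Type} (s t : LQ.Term α) : LQ.Term α := Functions.apply₂ (L := LQ) Fn.add s t

/-- Scalar multiple of a term. -/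
def tsmul {α : Type} (q : ℚ) (t : LQ.Term α) : LQ.Term α :=
  Functions.apply₁ (L := LQ) (Fn.smul q) t

/-- The zero term. -/
def tzero {α : Type} : LQ.Term α := Term.func (L := LQ) Fn.zero ![]

/-- Order formula. -/
def tlt {α : Type} (s t : LQ.Term α) : LQ.Formula α := Relations.formula₂ (L := LQ) Rl.lt s t

variable {U : Type} [LQ.Structure U]

/-- Addition of a structure. -/
def uadd (a b : U) : U := Structure.funMap (L := LQ) (Fn.add : LQ.Functions 2) ![a, b]

/-- Scalar multiplication of a structure. -/
def usmul (q : ℚ) (a : U) : U := Structure.funMap (L := LQ) (Fn.smul q : LQ.Functions 1) ![a]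

variable (U) in
/-- Zero of a structure. -/
def uzero : U := Structure.funMap (L := LQ) (Fn.zero : LQ.Functions 0) ![]

/-- Order of a structure. -/
def ult (a b : U) : Prop := Structure.RelMap (L := LQ) (Rl.lt : LQ.Relations 2) ![a, b]

lemma realize_tadd {α : Type} (s t : LQ.Term α) (v : α → U) :
    (tadd s t).realize v = uadd (s.realize v) (t.realize v) := Term.realize_functions_apply₂

lemma realize_tsmul {α : Type} (q : ℚ) (t : LQ.Term α) (v : α → U) :
    (tsmul q t).realize v = usmul q (t.realize v) := Term.realize_functions_apply₁

lemma realize_tzero {α : Type} (v : α → U) : (tzero : LQ.Term α).realize v = uzero U := by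
  unfold tzero uzero
  rw [Term.realize]
  congr 1
  exact Subsingleton.elim _ _

lemma realize_tlt {α : Type} (s t : LQ.Term α) (v : α → U) :
    (tlt s t).Realize v ↔ ult (s.realize v) (t.realize v) := Formula.realize_rel₂

lemma transfer (hU : U ⊨ TQ) {n : ℕ} (φ : LQ.Formula (Fin n))
    (h : ∀ v : Fin n → ℚ, @Formula.Realize LQ ℚ (str ℚ) _ φ v) (v : Fin n → U) : φ.Realize v := by
  let ψ : LQ.Sentence := Formula.iAlls (Fin n) (φ.relabel (Sum.inr : Fin n → Empty ⊕ Fin n))
  have h1 : ψ ∈ TQ := by
    show @Sentence.Realize LQ ℚ (str ℚ) ψ
    let _ := str ℚ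
    show Formula.Realize _ _
    rw [Formula.realize_iAlls]
    intro i
    rw [Formula.realize_relabel]
    exact h _
  have h2 : U ⊨ ψ := TQ.realize_sentence_of_mem h1
  have h3 : Formula.Realize ψ (default : Empty → U) := h2
  rw [Formula.realize_iAlls] at h3
  have h4 := h3 v
  rw [Formula.realize_relabel] at h4
  exact h4


lemma ax_assoc (hU : U ⊨ TQ) (a b c : U) : uadd (uadd a b) c = uadd a (uadd b c) := by
  have := transfer hU (n := 3) ((tadd (tadd (.var 0) (.var 1)) (.var 2)).equal
    (tadd (.var 0) (tadd (.var 1) (.var 2)))) (fun v => by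
      let _ := str ℚ
      rw [Formula.realize_equal]
      simp only [realize_tadd, Term.realize_var]
      exact add_assoc (v 0) (v 1) (v 2)) ![a, b, c]
  rw [Formula.realize_equal] at this
  simpa [realize_tadd] using this

lemma ax_comm (hU : U ⊨ TQ) (a b : U) : uadd a b = uadd b a := by
  have := transfer hU (n := 2) ((tadd (.var 0) (.var 1)).equal
    (tadd (.var 1) (.var 0))) (fun v => by
      let _ := str ℚ
      rw [Formula.realize_equal]
      simp only [realize_tadd, Term.realize_var]
      exact add_comm (v 0) (v 1)) ![a, b]
  rw [Formula.realize_equal] at this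
  simpa [realize_tadd] using this

lemma ax_zero_add (hU : U ⊨ TQ) (a : U) : uadd (uzero U) a = a := by
  have := transfer hU (n := 1) ((tadd tzero (.var 0)).equal (.var 0)) (fun v => by
      let _ := str ℚ
      rw [Formula.realize_equal]
      simp only [realize_tadd, realize_tzero, Term.realize_var]
      exact zero_add (v 0)) ![a]
  rw [Formula.realize_equal] at this
  simpa [realize_tadd, realize_tzero] using this

lemma ax_neg (hU : U ⊨ TQ) (a : U) : uadd (usmul (-1) a) a = uzero U := by
  have := transfer hU (n := 1) ((tadd (tsmul (-1) (.var 0)) (.var 0)).equal tzero) (fun v => by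
      let _ := str ℚ
      rw [Formula.realize_equal]
      simp only [realize_tadd, realize_tzero, realize_tsmul, Term.realize_var]
      show (-1 : ℚ) • v 0 + v 0 = 0
      simp) ![a]
  rw [Formula.realize_equal] at this
  simpa [realize_tadd, realize_tzero, realize_tsmul] using this

lemma ax_one_smul (hU : U ⊨ TQ) (a : U) : usmul 1 a = a := by
  have := transfer hU (n := 1) ((tsmul 1 (.var 0)).equal (.var 0)) (fun v => by
      let _ := str ℚ
      rw [Formula.realize_equal]
      simp only [realize_tsmul, Term.realize_var]
      exact one_smul ℚ (v 0)) ![a]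
  rw [Formula.realize_equal] at this
  simpa [realize_tsmul] using this

lemma ax_mul_smul (hU : U ⊨ TQ) (q r : ℚ) (a : U) : usmul (q * r) a = usmul q (usmul r a) := by
  have := transfer hU (n := 1) ((tsmul (q * r) (.var 0)).equal (tsmul q (tsmul r (.var 0))))
    (fun v => by
      let _ := str ℚ
      rw [Formula.realize_equal]
      simp only [realize_tsmul, Term.realize_var]
      exact mul_smul q r (v 0)) ![a]
  rw [Formula.realize_equal] at this
  simpa [realize_tsmul] using this

lemma ax_smul_zero (hU : U ⊨ TQ) (q : ℚ) : usmul q (uzero U) = uzero U := by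
  have := transfer hU (n := 0) ((tsmul q tzero).equal tzero)
    (fun v => by
      let _ := str ℚ
      rw [Formula.realize_equal]
      simp only [realize_tsmul, realize_tzero]
      exact smul_zero q) ![]
  rw [Formula.realize_equal] at this
  simpa [realize_tsmul, realize_tzero] using this

lemma ax_zero_smul (hU : U ⊨ TQ) (a : U) : usmul 0 a = uzero U := by
  have := transfer hU (n := 1) ((tsmul 0 (.var 0)).equal tzero)
    (fun v => by
      let _ := str ℚ
      rw [Formula.realize_equal]
      simp only [realize_tsmul, realize_tzero, Term.realize_var]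
      exact zero_smul ℚ (v 0)) ![a]
  rw [Formula.realize_equal] at this
  simpa [realize_tsmul, realize_tzero] using this

lemma ax_smul_add (hU : U ⊨ TQ) (q : ℚ) (a b : U) :
    usmul q (uadd a b) = uadd (usmul q a) (usmul q b) := by
  have := transfer hU (n := 2) ((tsmul q (tadd (.var 0) (.var 1))).equal
    (tadd (tsmul q (.var 0)) (tsmul q (.var 1))))
    (fun v => by
      let _ := str ℚ
      rw [Formula.realize_equal]
      simp only [realize_tsmul, realize_tadd, Term.realize_var]
      exact smul_add q (v 0) (v 1)) ![a, b]
  rw [Formula.realize_equal] at this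
  simpa [realize_tsmul, realize_tadd] using this

lemma ax_add_smul (hU : U ⊨ TQ) (q r : ℚ) (a : U) :
    usmul (q + r) a = uadd (usmul q a) (usmul r a) := by
  have := transfer hU (n := 1) ((tsmul (q + r) (.var 0)).equal
    (tadd (tsmul q (.var 0)) (tsmul r (.var 0))))
    (fun v => by
      let _ := str ℚ
      rw [Formula.realize_equal]
      simp only [realize_tsmul, realize_tadd, Term.realize_var]
      exact add_smul q r (v 0)) ![a]
  rw [Formula.realize_equal] at this
  simpa [realize_tsmul, realize_tadd] using this

lemma ax_irrefl (hU : U ⊨ TQ) (a : U) : ¬ ult a a := by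
  have := transfer hU (n := 1) (tlt (.var 0) (.var 0)).not
    (fun v => by
      let _ := str ℚ
      rw [Formula.realize_not, realize_tlt]
      exact lt_irrefl (v 0)) ![a]
  rw [Formula.realize_not, realize_tlt] at this
  simpa using this

lemma ax_trans (hU : U ⊨ TQ) (a b c : U) (h1 : ult a b) (h2 : ult b c) : ult a c := by
  have := transfer hU (n := 3) ((tlt (.var 0) (.var 1)).imp
      ((tlt (.var 1) (.var 2)).imp (tlt (.var 0) (.var 2))))
    (fun v => by
      let _ := str ℚ
      rw [Formula.realize_imp, Formula.realize_imp, realize_tlt, realize_tlt, realize_tlt]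
      exact fun h1 h2 => lt_trans (show v 0 < v 1 from h1) h2) ![a, b, c]
  rw [Formula.realize_imp, Formula.realize_imp, realize_tlt, realize_tlt, realize_tlt] at this
  exact this h1 h2

lemma ax_total (hU : U ⊨ TQ) (a b : U) (h1 : ¬ ult a b) (h2 : ¬ ult b a) : a = b := by
  have := transfer hU (n := 2) ((tlt (.var 0) (.var 1)).not.imp
      ((tlt (.var 1) (.var 0)).not.imp ((Term.var 0).equal (Term.var 1))))
    (fun v => by
      let _ := str ℚ
      rw [Formula.realize_imp, Formula.realize_imp, Formula.realize_not, Formula.realize_not,
        realize_tlt, realize_tlt, Formula.realize_equal]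
      exact fun h1 h2 => le_antisymm (not_lt.1 (show ¬ (v 1 < v 0) from h2))
        (not_lt.1 (show ¬ (v 0 < v 1) from h1))) ![a, b]
  rw [Formula.realize_imp, Formula.realize_imp, Formula.realize_not, Formula.realize_not,
        realize_tlt, realize_tlt, Formula.realize_equal] at this
  exact this h1 h2

lemma ax_mono (hU : U ⊨ TQ) (a b c : U) (h1 : ult a b) : ult (uadd c a) (uadd c b) := by
  have := transfer hU (n := 3) ((tlt (.var 0) (.var 1)).imp
      (tlt (tadd (.var 2) (.var 0)) (tadd (.var 2) (.var 1))))
    (fun v => by
      let _ := str ℚ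
      rw [Formula.realize_imp, realize_tlt, realize_tlt, realize_tadd, realize_tadd]
      exact fun h1 => add_lt_add_right (show v 0 < v 1 from h1) (v 2)) ![a, b, c]
  rw [Formula.realize_imp, realize_tlt, realize_tlt, realize_tadd, realize_tadd] at this
  exact this h1

lemma ax_nontrivial (hU : U ⊨ TQ) : ∃ a : U, a ≠ uzero U := by
  let φ : LQ.Formula (Fin 1) := (Term.var 0).equal tzero
  let ψ : LQ.Sentence := Formula.iAlls (Fin 1) (φ.relabel (Sum.inr : Fin 1 → Empty ⊕ Fin 1))
  have h1 : ψ.not ∈ TQ := by
    show @Sentence.Realize LQ ℚ (str ℚ) ψ.not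
    let _ := str ℚ
    rw [Sentence.realize_not]
    intro h
    change Formula.Realize ψ _ at h
    rw [Formula.realize_iAlls] at h
    have h4 := h (fun _ => 1)
    rw [Formula.realize_relabel, Formula.realize_equal, realize_tzero] at h4
    exact one_ne_zero (α := ℚ) h4
  have h2 : U ⊨ ψ.not := TQ.realize_sentence_of_mem h1
  rw [Sentence.realize_not] at h2
  by_contra hn
  push Not at hn
  apply h2
  show Formula.Realize ψ (default : Empty → U)
  rw [Formula.realize_iAlls]
  intro i
  rw [Formula.realize_relabel, Formula.realize_equal, realize_tzero]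
  exact hn _

end Transfer

/-- Every model of the theory is (the structure of) a nontrivial ordered rational vector
space. -/
theorem exists_alg (U : Type) [s : LQ.Structure U] (hU : U ⊨ TQ) :
    ∃ (i1 : AddCommGroup U) (i2 : LinearOrder U) (_ : IsOrderedAddMonoid U) (i4 : Module ℚ U)
      (_ : Nontrivial U), s = @str U i1 i2 i4 := by
  classical
  let _ : Add U := ⟨uadd⟩
  let _ : Zero U := ⟨uzero U⟩
  let _ : Neg U := ⟨usmul (-1)⟩
  let i1 : AddCommGroup U :=
    { add := uadd
      add_assoc := ax_assoc hU
      zero := uzero U
      zero_add := ax_zero_add hU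
      add_zero := fun a => (ax_comm hU a (uzero U)).trans (ax_zero_add hU a)
      nsmul := nsmulRec
      neg := usmul (-1)
      zsmul := zsmulRec
      neg_add_cancel := ax_neg hU
      add_comm := ax_comm hU }
  let _ : IsStrictTotalOrder U ult :=
    { irrefl := ax_irrefl hU
      trans := ax_trans hU
      trichotomous := ax_total hU }
  let i2 : LinearOrder U := linearOrderOfSTO ult
  have hlt : ∀ a b : U, a < b ↔ ult a b := fun a b => Iff.rfl
  have i3 : IsOrderedAddMonoid U :=
    { add_le_add_left := by
        intro a b hab c
        rcases eq_or_lt_of_le hab with h | h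
        · rw [h]
        · have := ax_mono hU a b c ((hlt a b).1 h)
          rw [ax_comm hU c a, ax_comm hU c b] at this
          exact ((hlt _ _).2 this).le }
  let i4 : Module ℚ U :=
    { smul := usmul
      one_smul := ax_one_smul hU
      mul_smul := ax_mul_smul hU
      smul_zero := ax_smul_zero hU
      smul_add := ax_smul_add hU
      add_smul := ax_add_smul hU
      zero_smul := ax_zero_smul hU }
  have i5 : Nontrivial U := by
    obtain ⟨a, ha⟩ := ax_nontrivial hU
    exact ⟨a, uzero U, ha⟩
  refine ⟨i1, i2, i3, i4, i5, ?_⟩
  refine Structure.ext ?_ ?_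
  · funext n f v
    cases f with
    | zero =>
      show Structure.funMap (L := LQ) (Fn.zero : LQ.Functions 0) v = uzero U
      unfold uzero
      congr 1
      exact Subsingleton.elim _ _
    | add =>
      show Structure.funMap (L := LQ) (Fn.add : LQ.Functions 2) v = uadd (v 0) (v 1)
      unfold uadd
      congr 1
      funext i
      fin_cases i <;> rfl
    | smul q =>
      show Structure.funMap (L := LQ) (Fn.smul q : LQ.Functions 1) v = usmul q (v 0)
      unfold usmul
      congr 1
      funext i
      fin_cases i; rfl
  · funext n r v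
    cases r with
    | lt =>
      show Structure.RelMap (L := LQ) (Rl.lt : LQ.Relations 2) v = ult (v 0) (v 1)
      unfold ult
      congr 1
      funext i
      fin_cases i <;> rfl

end Pool.Agent.Helper31.OQV
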