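import Mathlib
import Pool.Agent.Helper31.OQVTheory
import Pool.Agent.Helper31.Monster

set_option autoImplicit false

/-!
The counterexample: a cut of a saturated ordered rational vector space.
-/

namespace Pool.Agent.Helper31.OQV

open FirstOrder FirstOrder.Language Cardinal

attribute [local instance] str

section General

variable {V : Type} [AddCommGroup V] [LinearOrder V] [IsOrderedAddMonoid V] [Module ℚ V]
  [Nontrivial V]

omit [Nontrivial V] in
lemma exists_samePos (R : Finset V) (c : V) (hc : c ∉ R) (S : Submodule ℚ V)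
    (hR : ∀ ρ ∈ R, ρ ∈ S) (hS : ∃ x ∈ S, x ≠ 0) : ∃ y ∈ S, SamePos R c y := by
  classical
  obtain ⟨x, hx, hx0⟩ := hS
  have : Nontrivial S := ⟨⟨x, hx⟩, 0, fun h => hx0 (congrArg Subtype.val h)⟩
  let lo : Finset S := (R.filter (fun ρ => ρ < c)).subtype (fun ρ => ρ ∈ S)
  let hi : Finset S := (R.filter (fun ρ => c < ρ)).subtype (fun ρ => ρ ∈ S)
  obtain ⟨m, hm1, hm2⟩ := Order.exists_between_finsets lo hi (by
    intro x hx y hy
    have h1 := (Finset.mem_filter.1 (Finset.mem_subtype.1 hx)).2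
    have h2 := (Finset.mem_filter.1 (Finset.mem_subtype.1 hy)).2
    exact Subtype.mk_lt_mk.2 (lt_trans h1 h2))
  refine ⟨m, m.2, fun ρ hρ => ?_⟩
  have hne : ρ ≠ c := fun h => hc (h ▸ hρ)
  rcases lt_or_gt_of_ne hne with h1 | h1
  · have h2 : ρ < m := hm1 ⟨ρ, hR ρ hρ⟩ (Finset.mem_subtype.2 (Finset.mem_filter.2 ⟨hρ, h1⟩))
    exact ⟨⟨fun _ => h2, fun _ => h1⟩, ⟨fun h3 => absurd h3 (not_lt.2 h1.le),
      fun h3 => absurd h3 (not_lt.2 h2.le)⟩⟩
  · have h2 : (m : V) < ρ := hm2 ⟨ρ, hR ρ hρ⟩ (Finset.mem_subtype.2 (Finset.mem_filter.2 ⟨hρ, h1⟩))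
    exact ⟨⟨fun h3 => absurd h3 (not_lt.2 h1.le),
      fun h3 => absurd h3 (not_lt.2 h2.le)⟩, ⟨fun _ => h2, fun _ => h1⟩⟩

/-- The definable closure is contained in the linear span. -/
lemma dcl_subset (A : Set V) : OMin.dcl (L := LQ) A ⊆ (Submodule.span ℚ A : Set V) := by
  classical
  intro c hc
  obtain ⟨R, hR, hD⟩ := definable_line A {c} hc
  by_contra hn
  have hcR : c ∉ R := fun h => hn (hR c h)
  obtain ⟨y, hy1, hy2⟩ := Order.exists_between_finsets (insert c (R.filter (fun ρ => ρ < c)))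
    (R.filter (fun ρ => c < ρ)) (by
      intro x hx y hy
      have h2 := (Finset.mem_filter.1 hy).2
      rcases Finset.mem_insert.1 hx with rfl | hx
      · exact h2
      · exact (Finset.mem_filter.1 hx).2.trans h2)
  have hpos : SamePos R c y := by
    intro ρ hρ
    have hne : ρ ≠ c := fun h => hcR (h ▸ hρ)
    rcases lt_or_gt_of_ne hne with h1 | h1
    · have h2 : ρ < y := hy1 ρ (Finset.mem_insert_of_mem (Finset.mem_filter.2 ⟨hρ, h1⟩))
      exact ⟨⟨fun _ => h2, fun _ => h1⟩, ⟨fun h3 => absurd h3 (not_lt.2 h1.le),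
        fun h3 => absurd h3 (not_lt.2 h2.le)⟩⟩
    · have h2 : y < ρ := hy2 ρ (Finset.mem_filter.2 ⟨hρ, h1⟩)
      exact ⟨⟨fun h3 => absurd h3 (not_lt.2 h1.le),
        fun h3 => absurd h3 (not_lt.2 h2.le)⟩, ⟨fun _ => h2, fun _ => h1⟩⟩
  have h1 : y ∈ ({c} : Set V) := (hD c y hpos).1 rfl
  have h2 : c < y := hy1 c (Finset.mem_insert_self _ _)
  rw [Set.mem_singleton_iff] at h1
  exact absurd h2 (by rw [h1]; exact lt_irrefl _)

omit [Nontrivial V] [IsOrderedAddMonoid V] in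
/-- Sums belong to the definable closure. -/
lemma add_mem_dcl {A : Set V} {a b : V} (ha : a ∈ A) (hb : b ∈ A) :
    a + b ∈ OMin.dcl (L := LQ) A := by
  show A.Definable₁ LQ {a + b}
  refine Set.definable_iff_exists_formula_sum.2
    ⟨(Term.var (Sum.inr 0)).equal (tadd (Term.var (Sum.inl ⟨a, ha⟩)) (Term.var (Sum.inl ⟨b, hb⟩))),
      ?_⟩
  ext v
  show v 0 = a + b ↔ Formula.Realize _ _
  rw [Formula.realize_equal, realize_tadd]
  exact Iff.rfl

/-- Nonzero subspaces are elementary. -/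
lemma meets_submodule (S : Submodule ℚ V) (hS : ∃ x ∈ S, x ≠ 0) :
    LQ.MeetsDefinable (S : Set V) := by
  intro D hD hdef
  obtain ⟨R, hR, hRD⟩ := definable_line (S : Set V) D hdef
  rw [Submodule.span_eq] at hR
  obtain ⟨x, hx⟩ := hD
  by_cases hxR : x ∈ R
  · exact ⟨x, hx, hR x hxR⟩
  · obtain ⟨y, hy, hpos⟩ := exists_samePos R x hxR S hR hS
    exact ⟨y, (hRD x y hpos).1 hx, hy⟩

/-- A nonzero subspace as an elementary substructure. -/
def subES (S : Submodule ℚ V) (hS : ∃ x ∈ S, x ≠ 0) : LQ.ElementarySubstructure V :=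
  (meets_submodule S hS).toElementarySubstructure

lemma mem_subES (S : Submodule ℚ V) (hS : ∃ x ∈ S, x ≠ 0) (x : V) : x ∈ subES S hS ↔ x ∈ S := by
  have := (meets_submodule S hS).closure_eq_self
  show x ∈ Substructure.closure LQ (S : Set V) ↔ _
  rw [← SetLike.mem_coe, this]
  exact Iff.rfl

end General

/-! ### The cut -/

section Cut

variable {U : Type} [AddCommGroup U] [LinearOrder U] [IsOrderedAddMonoid U] [Module ℚ U]
  [Nontrivial U]

omit [Nontrivial U] in
lemma smul_lt_smul_of_lt {p q : ℚ} (h : p < q) {u : U} (hu : 0 < u) : p • u < q • u := by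
  have := smul_pos_rat (sub_pos.2 h) hu
  rw [sub_smul] at this
  exact sub_pos.1 this

omit [Nontrivial U] in
lemma smul_le_smul_of_le {p q : ℚ} (h : p ≤ q) {u : U} (hu : 0 < u) : p • u ≤ q • u := by
  rcases h.lt_or_eq with h | h
  · exact (smul_lt_smul_of_lt h hu).le
  · rw [h]

/-- The right side of the cut. -/
def Rs (u : U) : Set U := {d | ∃ q : ℚ, √2 < (q : ℝ) ∧ q • u ≤ d}

omit [Nontrivial U] [IsOrderedAddMonoid U] in
lemma notMem_Rs {u d : U} : d ∉ Rs u ↔ ∀ q : ℚ, √2 < (q : ℝ) → d < q • u := by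
  simp only [Rs, Set.mem_ofPred_eq, not_exists, not_and, not_le]

lemma sqrt_two_pos' : (0 : ℝ) < √2 := Real.sqrt_pos.2 (by norm_num)

lemma sqrt_two_lt_two : √2 < ((2 : ℚ) : ℝ) := by
  rw [Real.sqrt_lt' (by norm_num)]
  norm_num

omit [Nontrivial U] in
lemma zero_notMem_Rs {u : U} (hu : 0 < u) : (0 : U) ∉ Rs u := by
  rw [notMem_Rs]
  intro q hq
  exact smul_pos_rat (by exact_mod_cast (sqrt_two_pos'.trans hq)) hu

omit [Nontrivial U] [IsOrderedAddMonoid U] in
lemma two_mem_Rs (u : U) : (2 : ℚ) • u ∈ Rs u := ⟨2, sqrt_two_lt_two, le_rfl⟩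

omit [Nontrivial U] [IsOrderedAddMonoid U] in
lemma lt_of_notMem_of_mem {u l r : U} (hl : l ∉ Rs u) (hr : r ∈ Rs u) : l < r := by
  obtain ⟨q, hq, hqr⟩ := hr
  exact (notMem_Rs.1 hl q hq).trans_le hqr

/-- An element is infinitesimal with respect to `u`. -/
def Infi (u ε : U) : Prop := 0 < ε ∧ ∀ q : ℚ, 0 < q → ε < q • u

omit [Nontrivial U] in
lemma add_notMem_Rs {u ε : U} (hε : Infi u ε) {l : U} (hl : l ∉ Rs u) :
    l + ε ∉ Rs u := by
  rw [notMem_Rs] at hl ⊢
  intro q hq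
  obtain ⟨q', h1, h2⟩ := exists_rat_btwn hq
  have h3 := hl q' h1
  have h4 := hε.2 (q - q') (by
    have : (q' : ℝ) < (q : ℝ) := h2
    have : q' < q := by exact_mod_cast this
    linarith)
  rw [sub_smul] at h4
  calc l + ε < q' • u + (q • u - q' • u) := add_lt_add h3 h4
    _ = q • u := by abel

/-- The type of the cut. -/
def pt (u : U) : Set (LQ.Formula (U ⊕ Unit)) :=
  {φ | ∃ l r, l ∉ Rs u ∧ r ∈ Rs u ∧ ∀ x, l < x → x < r →
    φ.Realize (Sum.elim id (fun _ => x))}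

omit [Nontrivial U] in
lemma pt_finite {u : U} (hu : 0 < u) (s : Finset (LQ.Formula (U ⊕ Unit))) (hs : ↑s ⊆ pt u) :
    ∃ l r, l ∉ Rs u ∧ r ∈ Rs u ∧ ∀ x, l < x → x < r →
      ∀ φ ∈ s, φ.Realize (Sum.elim id (fun _ => x)) := by
  classical
  induction s using Finset.induction_on with
  | empty =>
    exact ⟨0, (2 : ℚ) • u, zero_notMem_Rs hu, two_mem_Rs u, fun x _ _ φ hφ => by simp at hφ⟩
  | insert φ s hφ ih =>
    obtain ⟨l, r, hl, hr, h⟩ := ih (fun ψ hψ => hs (Finset.mem_insert_of_mem hψ))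
    obtain ⟨l', r', hl', hr', h'⟩ := hs (Finset.mem_insert_self _ _)
    refine ⟨max l l', min r r', ?_, ?_, ?_⟩
    · rcases max_choice l l' with h1 | h1 <;> rw [h1] <;> assumption
    · rcases min_choice r r' with h1 | h1 <;> rw [h1] <;> assumption
    · intro x hx1 hx2 ψ hψ
      rcases Finset.mem_insert.1 hψ with rfl | hψ
      · exact h' x (lt_of_le_of_lt (le_max_right _ _) hx1) (lt_of_lt_of_le hx2 (min_le_right _ _))
      · exact h x (lt_of_le_of_lt (le_max_left _ _) hx1)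
          (lt_of_lt_of_le hx2 (min_le_left _ _)) ψ hψ

lemma pt_complete {u : U} (hu : 0 < u) (φ : LQ.Formula (U ⊕ Unit)) :
    φ ∈ pt u ∨ φ.not ∈ pt u := by
  classical
  let D : Set U := {x | φ.Realize (Sum.elim id (fun _ => x))}
  have hD : (Set.univ : Set U).Definable₁ LQ D := by
    refine Set.definable_iff_exists_formula_sum.2
      ⟨φ.relabel (Sum.map (fun x => ⟨x, Set.mem_univ x⟩) (fun _ => 0)), ?_⟩
    ext v
    show φ.Realize _ ↔ Formula.Realize _ _
    rw [Formula.realize_relabel]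
    have : (Sum.elim (fun a : (Set.univ : Set U) => (a : U)) v ∘
        Sum.map (fun x : U => (⟨x, Set.mem_univ x⟩ : (Set.univ : Set U))) (fun _ : Unit => 0)) =
        Sum.elim id (fun _ => v 0) := by
      funext i; rcases i with i | i <;> rfl
    rw [this]
  obtain ⟨R, -, hR⟩ := definable_line _ D hD
  -- a neighbourhood of the cut without points of `R`
  have key : ∀ R : Finset U, ∃ l r, l ∉ Rs u ∧ r ∈ Rs u ∧
      ∀ x y, l < x → x < r → l < y → y < r → SamePos R x y := by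
    intro R
    induction R using Finset.induction_on with
    | empty =>
      exact ⟨0, (2 : ℚ) • u, zero_notMem_Rs hu, two_mem_Rs u, fun x y _ _ _ _ ρ hρ => by
        simp at hρ⟩
    | insert ρ R _ ih =>
      obtain ⟨l, r, hl, hr, h⟩ := ih
      by_cases hρ : ρ ∈ Rs u
      · refine ⟨l, min r ρ, hl, ?_, ?_⟩
        · rcases min_choice r ρ with h1 | h1 <;> rw [h1] <;> assumption
        · intro x y hx1 hx2 hy1 hy2 σ hσ
          rcases Finset.mem_insert.1 hσ with rfl | hσ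
          · have h3 := lt_of_lt_of_le hx2 (min_le_right _ _)
            have h4 := lt_of_lt_of_le hy2 (min_le_right _ _)
            exact ⟨⟨fun h5 => absurd h5 (not_lt.2 h3.le), fun h5 => absurd h5 (not_lt.2 h4.le)⟩,
              ⟨fun _ => h4, fun _ => h3⟩⟩
          · exact h x y hx1 (lt_of_lt_of_le hx2 (min_le_left _ _)) hy1
              (lt_of_lt_of_le hy2 (min_le_left _ _)) σ hσ
      · refine ⟨max l ρ, r, ?_, hr, ?_⟩
        · rcases max_choice l ρ with h1 | h1 <;> rw [h1] <;> assumption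
        · intro x y hx1 hx2 hy1 hy2 σ hσ
          rcases Finset.mem_insert.1 hσ with rfl | hσ
          · have h3 := lt_of_le_of_lt (le_max_right _ _) hx1
            have h4 := lt_of_le_of_lt (le_max_right _ _) hy1
            exact ⟨⟨fun _ => h4, fun _ => h3⟩,
              ⟨fun h5 => absurd h5 (not_lt.2 h3.le), fun h5 => absurd h5 (not_lt.2 h4.le)⟩⟩
          · exact h x y (lt_of_le_of_lt (le_max_left _ _) hx1) hx2
              (lt_of_le_of_lt (le_max_left _ _) hy1) hy2 σ hσ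
  obtain ⟨l, r, hl, hr, h⟩ := key R
  obtain ⟨x₀, hx1, hx2⟩ := exists_between (lt_of_notMem_of_mem hl hr)
  by_cases hx : x₀ ∈ D
  · left
    exact ⟨l, r, hl, hr, fun x h1 h2 => (hR x₀ x (h x₀ x hx1 hx2 h1 h2)).1 hx⟩
  · right
    refine ⟨l, r, hl, hr, fun x h1 h2 => ?_⟩
    rw [Formula.realize_not]
    exact fun h3 => hx ((hR x₀ x (h x₀ x hx1 hx2 h1 h2)).2 h3)

lemma pt_isGlobalType {u : U} (hu : 0 < u) : OMin.IsGlobalType (pt u) := by
  refine ⟨pt_complete hu, fun s hs => ?_⟩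
  obtain ⟨l, r, hl, hr, h⟩ := pt_finite hu s hs
  obtain ⟨x₀, hx1, hx2⟩ := exists_between (lt_of_notMem_of_mem hl hr)
  exact ⟨x₀, h x₀ hx1 hx2⟩

omit [Nontrivial U] [IsOrderedAddMonoid U] in
lemma aut_lt (σ : U ≃[LQ] U) (a b : U) : σ a < σ b ↔ a < b := by
  have h := σ.map_rel' ltSym ![a, b]
  exact h

omit [Nontrivial U] [IsOrderedAddMonoid U] in
lemma aut_mem_Rs (σ : U ≃[LQ] U) {u : U} (hσ : ∀ q : ℚ, σ (q • u) = q • u) (d : U) :
    σ d ∈ Rs u ↔ d ∈ Rs u := by
  constructor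
  · rintro ⟨q, hq, h⟩
    refine ⟨q, hq, ?_⟩
    rw [← not_lt] at h ⊢
    rw [← hσ q, aut_lt] at h
    exact h
  · rintro ⟨q, hq, h⟩
    refine ⟨q, hq, ?_⟩
    rw [← not_lt] at h ⊢
    rw [← hσ q, aut_lt]
    exact h

omit [Nontrivial U] [IsOrderedAddMonoid U] in
lemma pt_relabel (σ : U ≃[LQ] U) {u : U} (hσ : ∀ q : ℚ, σ (q • u) = q • u)
    (φ : LQ.Formula (U ⊕ Unit)) (h : φ ∈ pt u) : φ.relabel (Sum.map σ id) ∈ pt u := by
  obtain ⟨l, r, hl, hr, h⟩ := h
  refine ⟨σ l, σ r, fun h1 => hl ((aut_mem_Rs σ hσ l).1 h1), (aut_mem_Rs σ hσ r).2 hr, ?_⟩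
  intro x hx1 hx2
  obtain ⟨y, rfl⟩ := σ.toEquiv.surjective x
  have hy1 : l < y := (aut_lt σ l y).1 hx1
  have hy2 : y < r := (aut_lt σ y r).1 hx2
  rw [Formula.realize_relabel]
  have h2 := (StrongHomClass.realize_formula σ φ (v := Sum.elim id (fun _ => y))).2 (h y hy1 hy2)
  have h3 : (Sum.elim id (fun _ => σ.toEquiv y) : U ⊕ Unit → U) ∘ Sum.map σ id =
      σ ∘ Sum.elim id (fun _ => y) := by
    funext i; rcases i with i | i <;> rfl
  rw [h3]
  exact h2

omit [Nontrivial U] [IsOrderedAddMonoid U] in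
lemma pt_invariant {u : U} (M : Set U) (hM : ∀ q : ℚ, q • u ∈ M) :
    OMin.IsInvariant M (pt u) := by
  intro σ hσ φ
  refine ⟨fun h => ?_, pt_relabel σ (fun q => hσ _ (hM q)) φ⟩
  have hσ' : ∀ q : ℚ, σ.symm (q • u) = q • u := by
    intro q
    have h1 := hσ _ (hM q)
    conv_lhs => rw [← h1]
    exact σ.toEquiv.symm_apply_apply _
  have h2 := pt_relabel σ.symm hσ' _ h
  obtain ⟨l, r, hl, hr, h3⟩ := h2
  refine ⟨l, r, hl, hr, fun x hx1 hx2 => ?_⟩
  have h4 := h3 x hx1 hx2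
  rw [Formula.realize_relabel, Formula.realize_relabel] at h4
  have h5 : ((Sum.elim id (fun _ => x) : U ⊕ Unit → U) ∘ Sum.map σ.symm id) ∘ Sum.map σ id =
      Sum.elim id (fun _ => x) := by
    funext i
    rcases i with i | i
    · exact σ.toEquiv.symm_apply_apply i
    · rfl
  rw [h5] at h4
  exact h4

omit [Nontrivial U] in
lemma rightSet_pt {u : U} (hu : 0 < u) : OMin.rightSet ltSym (pt u) = Rs u := by
  ext d
  constructor
  · rintro ⟨l, r, hl, hr, h⟩
    by_contra hd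
    obtain ⟨x, hx1, hx2⟩ := exists_between (lt_of_notMem_of_mem (l := max l d) (r := r) (by
      rcases max_choice l d with h1 | h1 <;> rw [h1] <;> assumption) hr)
    have h1 := h x (lt_of_le_of_lt (le_max_left _ _) hx1) hx2
    rw [Formula.realize_not, Formula.realize_rel₂] at h1
    exact h1 (show d < x from lt_of_le_of_lt (le_max_right _ _) hx1)
  · intro hd
    refine ⟨0, d, zero_notMem_Rs hu, hd, fun x _ hx2 => ?_⟩
    rw [Formula.realize_not, Formula.realize_rel₂]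
    exact fun h : d < x => absurd h (not_lt.2 hx2.le)

omit [Nontrivial U] in
lemma pt_small {u : U} (hu : 0 < u) {κ : Cardinal.{0}} (hκ : ℵ₀ < κ) :
    OMin.SmallOnRight ltSym κ (pt u) := by
  refine ⟨Set.range (fun q : {q : ℚ // √2 < (q : ℝ)} => q.1 • u), ?_, ?_, ?_⟩
  · rintro _ ⟨q, rfl⟩
    rw [rightSet_pt hu]
    exact ⟨q.1, q.2, le_rfl⟩
  · exact lt_of_le_of_lt (mk_range_le.trans mk_le_aleph0) hκ
  · intro d hd
    rw [rightSet_pt hu] at hd
    obtain ⟨q, hq, h⟩ := hd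
    exact ⟨q • u, ⟨⟨q, hq⟩, rfl⟩, fun h1 : d < q • u => absurd h1 (not_lt.2 h)⟩

end Cut

/-! ### Realisations -/

section Realise

variable {U : Type} [AddCommGroup U] [LinearOrder U] [IsOrderedAddMonoid U] [Module ℚ U]
  [Nontrivial U]
variable {V : Type} [AddCommGroup V] [LinearOrder V] [IsOrderedAddMonoid V] [Module ℚ V]
  [Nontrivial V]

omit [Nontrivial U] [IsOrderedAddMonoid U] [Nontrivial V] [IsOrderedAddMonoid V] in
lemma j_lt (j : U ↪ₑ[LQ] V) (a b : U) : j a < j b ↔ a < b :=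
  j.map_rel ltSym ![a, b]

omit [Nontrivial U] [IsOrderedAddMonoid U] [Nontrivial V] [IsOrderedAddMonoid V] in
lemma j_add (j : U ↪ₑ[LQ] V) (a b : U) : j (a + b) = j a + j b :=
  j.map_fun (Fn.add : LQ.Functions 2) ![a, b]

omit [Nontrivial U] [IsOrderedAddMonoid U] [Nontrivial V] [IsOrderedAddMonoid V] in
lemma j_smul (j : U ↪ₑ[LQ] V) (q : ℚ) (a : U) : j (q • a) = q • j a :=
  j.map_fun (Fn.smul q : LQ.Functions 1) ![a]

omit [Nontrivial U] [IsOrderedAddMonoid U] [Nontrivial V] [IsOrderedAddMonoid V] in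
lemma j_zero (j : U ↪ₑ[LQ] V) : j 0 = 0 :=
  j.map_fun (Fn.zero : LQ.Functions 0) ![]

omit [Nontrivial U] [IsOrderedAddMonoid U] [Nontrivial V] [IsOrderedAddMonoid V] in
lemma lt_of_realises {j : U ↪ₑ[LQ] V} {u : U} {b : V} (h : OMin.Realises (pt u) j b)
    {l : U} (hl : l ∉ Rs u) : j l < b := by
  have h1 : tlt (Term.var (Sum.inl l)) (Term.var (Sum.inr ())) ∈ pt u := by
    refine ⟨l, (2 : ℚ) • u, hl, two_mem_Rs u, fun x hx _ => ?_⟩
    rw [realize_tlt]
    exact hx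
  have h2 := h _ h1
  rw [realize_tlt] at h2
  exact h2

omit [Nontrivial U] [Nontrivial V] [IsOrderedAddMonoid V] in
lemma realises_lt {j : U ↪ₑ[LQ] V} {u : U} (hu : 0 < u) {b : V}
    (h : OMin.Realises (pt u) j b) {r : U} (hr : r ∈ Rs u) : b < j r := by
  have h1 : tlt (Term.var (Sum.inr ())) (Term.var (Sum.inl r)) ∈ pt u := by
    refine ⟨0, r, zero_notMem_Rs hu, hr, fun x _ hx => ?_⟩
    rw [realize_tlt]
    exact hx
  have h2 := h _ h1
  rw [realize_tlt] at h2
  exact h2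

omit [Nontrivial U] [IsOrderedAddMonoid U] [Nontrivial V] [IsOrderedAddMonoid V] in
lemma realises_of_cut {j : U ↪ₑ[LQ] V} {u : U} {c : V} (h1 : ∀ l, l ∉ Rs u → j l < c)
    (h2 : ∀ r ∈ Rs u, c < j r) : OMin.Realises (pt u) j c := by
  rintro φ ⟨l, r, hl, hr, h⟩
  let ψ : LQ.Formula U := Formula.iAlls Unit
    ((tlt (Term.var (Sum.inl l)) (Term.var (Sum.inr ()))).imp
      ((tlt (Term.var (Sum.inr ())) (Term.var (Sum.inl r))).imp φ))
  have h3 : ψ.Realize (id : U → U) := by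
    rw [Formula.realize_iAlls]
    intro i
    rw [Formula.realize_imp, Formula.realize_imp, realize_tlt, realize_tlt]
    intro h4 h5
    exact h (i ()) h4 h5
  have h4 := (j.map_formula ψ id).2 h3
  rw [Formula.realize_iAlls] at h4
  have h5 := h4 (fun _ => c)
  rw [Formula.realize_imp, Formula.realize_imp, realize_tlt, realize_tlt] at h5
  exact h5 (h1 l hl) (h2 r hr)

omit [Nontrivial U] [Nontrivial V] in
/-- Shifting a realisation by an infinitesimal. -/
lemma realises_add {j : U ↪ₑ[LQ] V} {u ε : U} (hu : 0 < u) (hε : Infi u ε) {b : V}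
    (h : OMin.Realises (pt u) j b) : OMin.Realises (pt u) j (b + j ε) := by
  have hjε : 0 < j ε := by
    rw [← j_zero j, j_lt]
    exact hε.1
  refine realises_of_cut (fun l hl => (lt_of_realises h hl).trans (lt_add_of_pos_right b hjε)) ?_
  rintro r ⟨q, hq, hqr⟩
  obtain ⟨q', h1, h2⟩ := exists_rat_btwn hq
  have h3 : b < j (q' • u) := realises_lt hu h ⟨q', h1, le_rfl⟩
  have h4 := hε.2 (q - q') (by
    have : (q' : ℝ) < (q : ℝ) := h2
    have : q' < q := by exact_mod_cast this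
    linarith)
  have h5 : j ε < j ((q - q') • u) := (j_lt j _ _).2 h4
  have h6 : j (q • u) ≤ j r := by
    rw [← not_lt, j_lt, not_lt]
    exact hqr
  calc b + j ε < j (q' • u) + j ((q - q') • u) := add_lt_add h3 h5
    _ = j (q • u) := by
      rw [← j_add, ← add_smul]
      congr 2
      ring
    _ ≤ j r := h6

omit [Nontrivial V] in
/-- Comparison of combinations of `b` and `w` with rational multiples of `w`. -/
lemma value_lt {b w : V} (hw : 0 < w) (h1 : ∀ α : ℚ, (α : ℝ) < √2 → α • w < b)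
    (h2 : ∀ β : ℚ, √2 < (β : ℝ) → b < β • w) (t s ρ : ℚ)
    (h : (t : ℝ) * √2 + s < ρ) : t • b + s • w < ρ • w := by
  rcases lt_trichotomy t 0 with ht | ht | ht
  · have ht' : (t : ℝ) < 0 := by exact_mod_cast ht
    have h3 : ((ρ : ℝ) - s) / t < √2 := by
      rw [div_lt_iff_of_neg ht']
      linarith
    obtain ⟨α, h4, h5⟩ := exists_rat_btwn h3
    rw [div_lt_iff_of_neg ht'] at h4
    have h6 : t • b < t • (α • w) := by
      have := smul_pos_rat (neg_pos.2 ht) (sub_pos.2 (h1 α h5))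
      rw [neg_smul, smul_sub, neg_sub] at this
      exact sub_pos.1 this
    have h7 : t * α + s < ρ := by
      have : (α : ℝ) * t < ρ - s := h4
      have : ((t * α + s : ℚ) : ℝ) < ((ρ : ℚ) : ℝ) := by push_cast; linarith
      exact_mod_cast this
    calc t • b + s • w < t • (α • w) + s • w := add_lt_add_left h6 _
      _ = (t * α + s) • w := by rw [smul_smul, add_smul]
      _ < ρ • w := smul_lt_smul_of_lt h7 hw
  · subst ht
    rw [zero_smul, zero_add]
    refine smul_lt_smul_of_lt ?_ hw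
    have : ((s : ℚ) : ℝ) < ((ρ : ℚ) : ℝ) := by simpa using h
    exact_mod_cast this
  · have ht' : (0 : ℝ) < t := by exact_mod_cast ht
    have h3 : √2 < ((ρ : ℝ) - s) / t := by
      rw [lt_div_iff₀ ht']
      linarith
    obtain ⟨β, h4, h5⟩ := exists_rat_btwn h3
    rw [lt_div_iff₀ ht'] at h5
    have h6 : t • b < t • (β • w) := by
      have := smul_pos_rat ht (sub_pos.2 (h2 β h4))
      rw [smul_sub] at this
      exact sub_pos.1 this
    have h7 : t * β + s < ρ := by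
      have : ((t * β + s : ℚ) : ℝ) < ((ρ : ℚ) : ℝ) := by push_cast; linarith
      exact_mod_cast this
    calc t • b + s • w < t • (β • w) + s • w := add_lt_add_left h6 _
      _ = (t * β + s) • w := by rw [smul_smul, add_smul]
      _ < ρ • w := smul_lt_smul_of_lt h7 hw

omit [Nontrivial V] in
lemma lt_value {b w : V} (hw : 0 < w) (h1 : ∀ α : ℚ, (α : ℝ) < √2 → α • w < b)
    (h2 : ∀ β : ℚ, √2 < (β : ℝ) → b < β • w) (t s ρ : ℚ)
    (h : (ρ : ℝ) < (t : ℝ) * √2 + s) : ρ • w < t • b + s • w := by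
  have h3 := value_lt hw h1 h2 (-t) (-s) (-ρ) (by push_cast; linarith)
  have h4 : (-t) • b + (-s) • w = -(t • b + s • w) := by
    rw [neg_smul, neg_smul]; abel
  rw [h4, neg_smul] at h3
  exact neg_lt_neg_iff.1 h3

omit [Nontrivial V] in
lemma eq_of_cut {b e w : V} (hw : 0 < w) (h1 : ∀ α : ℚ, (α : ℝ) < √2 → α • w < b)
    (h2 : ∀ β : ℚ, √2 < (β : ℝ) → b < β • w) (h3 : ∀ α : ℚ, (α : ℝ) < √2 → α • w < e)
    (h4 : ∀ β : ℚ, √2 < (β : ℝ) → e < β • w) (t s : ℚ) (he : e = t • b + s • w) : e = b := by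
  have hval : (t : ℝ) * √2 + s = √2 := by
    by_contra hne
    rcases lt_or_gt_of_ne hne with h5 | h5
    · obtain ⟨ρ, h6, h7⟩ := exists_rat_btwn h5
      have h8 := value_lt hw h1 h2 t s ρ h6
      rw [← he] at h8
      exact absurd (h3 ρ h7) (not_lt.2 h8.le)
    · obtain ⟨ρ, h6, h7⟩ := exists_rat_btwn h5
      have h8 := lt_value hw h1 h2 t s ρ h7
      rw [← he] at h8
      exact absurd (h4 ρ h6) (not_lt.2 h8.le)
  have ht : t = 1 := by
    by_contra ht
    have h5 : (1 : ℝ) - t ≠ 0 := by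
      intro h6
      apply ht
      have : (t : ℝ) = ((1 : ℚ) : ℝ) := by push_cast; linarith
      exact_mod_cast this
    have h6 : √2 = ((s / (1 - t) : ℚ) : ℝ) := by
      push_cast
      rw [eq_div_iff h5]
      linarith
    exact irrational_sqrt_two ⟨_, h6.symm⟩
  subst ht
  have hs : s = 0 := by
    have : ((s : ℚ) : ℝ) = ((0 : ℚ) : ℝ) := by
      push_cast at hval ⊢
      linarith
    exact_mod_cast this
  rw [he, hs, one_smul, zero_smul, add_zero]

omit [Nontrivial U] in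
/-- The only realisation in the definable closure of `M b`. -/
lemma dcl_realises {j : U ↪ₑ[LQ] V} {u : U} (hu : 0 < u) {b : V}
    (h : OMin.Realises (pt u) j b) (M : Set U) (hM : ∀ x ∈ M, ∃ q : ℚ, x = q • u) {e : V}
    (he : e ∈ OMin.dcl (L := LQ) (j '' M ∪ {b})) (he' : OMin.Realises (pt u) j e) : e = b := by
  have hw : 0 < j u := by rw [← j_zero j, j_lt]; exact hu
  have hnot : ∀ α : ℚ, (α : ℝ) < √2 → α • u ∉ Rs u := by
    intro α hα
    rw [notMem_Rs]
    intro q hq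
    exact smul_lt_smul_of_lt (by exact_mod_cast hα.trans hq) hu
  have h1 : ∀ z : V, OMin.Realises (pt u) j z → ∀ α : ℚ, (α : ℝ) < √2 → α • j u < z := by
    intro z hz α hα
    rw [← j_smul]
    exact lt_of_realises hz (hnot α hα)
  have h2 : ∀ z : V, OMin.Realises (pt u) j z → ∀ β : ℚ, √2 < (β : ℝ) → z < β • j u := by
    intro z hz β hβ
    rw [← j_smul]
    exact realises_lt hu hz ⟨β, hβ, le_rfl⟩
  have h3 := dcl_subset _ he
  have h4 : Submodule.span ℚ (j '' M ∪ {b}) ≤ Submodule.span ℚ {b, j u} := by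
    rw [Submodule.span_le]
    rintro x (⟨y, hy, rfl⟩ | hx)
    · obtain ⟨q, rfl⟩ := hM y hy
      rw [j_smul]
      exact Submodule.smul_mem _ _ (Submodule.subset_span (by simp))
    · rw [Set.mem_singleton_iff] at hx
      subst hx
      exact Submodule.subset_span (by simp)
  obtain ⟨t, s, hts⟩ := Submodule.mem_span_pair.1 (h4 h3)
  exact eq_of_cut hw (h1 b h) (h2 b h) (h1 e he') (h2 e he') t s hts.symm

end Realise

/-! ### Saturation -/

section Sat

variable {U : Type} [AddCommGroup U] [LinearOrder U] [IsOrderedAddMonoid U] [Module ℚ U]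
  [Nontrivial U]

omit [Nontrivial U] in
lemma exists_infi {κ : Cardinal.{0}} (hκ : ℵ₀ < κ) (hU : OMin.Saturated LQ κ U) {u : U}
    (hu : 0 < u) : ∃ ε, Infi u ε := by
  classical
  let a₀ : ({u} : Set U) := ⟨u, rfl⟩
  let φ : ℕ → LQ.Formula (({u} : Set U) ⊕ Unit) := fun n =>
    (tlt tzero (Term.var (Sum.inr ()))) ⊓
      (tlt (tsmul ((n : ℚ) + 1) (Term.var (Sum.inr ()))) (Term.var (Sum.inl a₀)))
  have hφ : ∀ n x, (φ n).Realize (Sum.elim (fun a : ({u} : Set U) => (a : U)) (fun _ => x)) ↔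
      0 < x ∧ ((n : ℚ) + 1) • x < u := by
    intro n x
    simp only [φ]
    rw [Formula.realize_inf, realize_tlt, realize_tlt, realize_tsmul, realize_tzero]
    exact Iff.rfl
  obtain ⟨ε, hε⟩ := hU {u} (by
      rw [mk_singleton]
      exact one_lt_aleph0.trans hκ) (Set.range φ) (by
      intro s hs
      have : ∀ ψ : s, ∃ n, φ n = ψ.1 := fun ψ => hs ψ.2
      choose g hg using this
      let n := Finset.univ.sup g
      refine ⟨((1 : ℚ) / (n + 2)) • u, fun ψ hψ => ?_⟩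
      have hg' : φ (g ⟨ψ, hψ⟩) = ψ := hg ⟨ψ, hψ⟩
      rw [← hg', hφ]
      have hle : g ⟨ψ, hψ⟩ ≤ n := Finset.le_sup (f := g) (Finset.mem_univ _)
      have hle' : ((g ⟨ψ, hψ⟩ : ℕ) : ℚ) ≤ (n : ℚ) := by exact_mod_cast hle
      have hn : (0 : ℚ) ≤ (n : ℚ) := Nat.cast_nonneg n
      refine ⟨smul_pos_rat (by positivity) hu, ?_⟩
      rw [smul_smul]
      calc ((((g ⟨ψ, hψ⟩ : ℕ) : ℚ) + 1) * (1 / ((n : ℚ) + 2))) • u < (1 : ℚ) • u := by
            refine smul_lt_smul_of_lt ?_ hu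
            rw [mul_one_div, div_lt_one (by linarith)]
            linarith
        _ = u := one_smul _ _)
  refine ⟨ε, ((hφ 0 ε).1 (hε _ ⟨0, rfl⟩)).1, fun q hq => ?_⟩
  obtain ⟨n, hn⟩ := exists_nat_one_div_lt hq
  have h1 := ((hφ n ε).1 (hε _ ⟨n, rfl⟩)).2
  have hn0 : (0 : ℚ) < (n : ℚ) + 1 := by positivity
  have h2 : ε < ((1 : ℚ) / (n + 1)) • u := by
    have := smul_pos_rat (inv_pos.2 hn0) (sub_pos.2 h1)
    rw [smul_sub, smul_smul, inv_mul_cancel₀ hn0.ne', one_smul] at this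
    rw [one_div]
    exact sub_pos.1 this
  exact h2.trans (smul_lt_smul_of_lt hn hu)

end Sat

end Pool.Agent.Helper31.OQV
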