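import Mathlib
import Pool.Agent.Helper31.Spectra

set_option autoImplicit false

namespace Pool.Agent.Helper31.ShelahClosed

open FirstOrder FirstOrder.Language
open Pool.Agent.Helper31.Spectra

/-! ### Boolean combinations -/

section BC

variable {L : FirstOrder.Language.{0, 0}} {n : ℕ}

lemma qf_foldr_inf (l : List (L.BoundedFormula Empty n)) (h : ∀ φ ∈ l, φ.IsQF) :
    (l.foldr (· ⊓ ·) ⊤).IsQF := by
  induction l with
  | nil => exact BoundedFormula.IsQF.top
  | cons a l ih =>
    simp only [List.foldr_cons]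
    exact (h a (by simp)).inf (ih (fun φ hφ => h φ (by simp [hφ])))

lemma qf_foldr_sup (l : List (L.BoundedFormula Empty n)) (h : ∀ φ ∈ l, φ.IsQF) :
    (l.foldr (· ⊔ ·) ⊥).IsQF := by
  induction l with
  | nil => exact BoundedFormula.isQF_bot
  | cons a l ih =>
    simp only [List.foldr_cons]
    exact (h a (by simp)).sup (ih (fun φ hφ => h φ (by simp [hφ])))

lemma qf_iInf {β : Type} [Finite β] (f : β → L.BoundedFormula Empty n) (h : ∀ b, (f b).IsQF) :
    (BoundedFormula.iInf f).IsQF := by
  rw [BoundedFormula.iInf]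
  refine qf_foldr_inf _ (fun φ hφ => ?_)
  rw [List.mem_map] at hφ
  obtain ⟨b, -, rfl⟩ := hφ
  exact h b

lemma qf_iSup {β : Type} [Finite β] (f : β → L.BoundedFormula Empty n) (h : ∀ b, (f b).IsQF) :
    (BoundedFormula.iSup f).IsQF := by
  rw [BoundedFormula.iSup]
  refine qf_foldr_sup _ (fun φ hφ => ?_)
  rw [List.mem_map] at hφ
  obtain ⟨b, -, rfl⟩ := hφ
  exact h b

/-- Every Boolean function of finitely many quantifier-free formulas is given by a
quantifier-free formula. -/
theorem bool_comb {ι : Type} [Finite ι] (A : ι → L.BoundedFormula Empty n)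
    (hA : ∀ i, (A i).IsQF) (β : (ι → Prop) → Prop) :
    ∃ θ : L.BoundedFormula Empty n, θ.IsQF ∧ ∀ (M : Type) [L.Structure M] (v : Empty → M)
      (xs : Fin n → M), θ.Realize v xs ↔ β (fun i => (A i).Realize v xs) := by
  classical
  let T : Type := {b : ι → Bool // β (fun i => b i = true)}
  let f : T → L.BoundedFormula Empty n := fun b =>
    BoundedFormula.iInf (fun i => if b.1 i = true then A i else (A i).not)
  refine ⟨BoundedFormula.iSup f, qf_iSup f (fun b => qf_iInf _ (fun i => ?_)), ?_⟩
  · by_cases h : b.1 i = true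
    · rw [if_pos h]; exact hA i
    · rw [if_neg h]; exact (hA i).not
  · intro M _ v xs
    rw [BoundedFormula.realize_iSup]
    constructor
    · rintro ⟨b, hb⟩
      rw [BoundedFormula.realize_iInf] at hb
      have : (fun i => b.1 i = true) = fun i => (A i).Realize v xs := by
        funext i
        apply propext
        have hi := hb i
        by_cases h : b.1 i = true
        · rw [if_pos h] at hi
          exact ⟨fun _ => hi, fun _ => h⟩
        · rw [if_neg h, BoundedFormula.realize_not] at hi
          exact ⟨fun h' => absurd h' h, fun h' => absurd h' hi⟩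
      rw [← this]
      exact b.2
    · intro h
      refine ⟨⟨fun i => decide ((A i).Realize v xs), ?_⟩, ?_⟩
      · have : (fun i => (decide ((A i).Realize v xs)) = true) =
            fun i => (A i).Realize v xs := by
          funext i
          simp
        rw [this]
        exact h
      · rw [BoundedFormula.realize_iInf]
        intro i
        by_cases h' : (A i).Realize v xs
        · rw [if_pos (by simpa using h')]
          exact h'
        · rw [if_neg (by simpa using h'), BoundedFormula.realize_not]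
          exact h'

end BC

/-! ### Counting free orbits -/

theorem dvd_of_free {M : Type} [Finite M] (F : M → M) (p : ℕ) (hp : 0 < p) (D : Set M)
    (h1 : ∀ x ∈ D, F^[p] x = x) (h2 : ∀ x ∈ D, ∀ s, 0 < s → s < p → F^[s] x ≠ x)
    (h3 : ∀ x ∈ D, F x ∈ D) : p ∣ D.ncard := by
  classical
  have hit : ∀ s, ∀ x ∈ D, F^[s] x ∈ D := by
    intro s
    induction s with
    | zero => intro x hx; exact hx
    | succ s ih =>
      intro x hx
      rw [Function.iterate_succ_apply']
      exact h3 _ (ih x hx)
  have hDfin : D.Finite := Set.toFinite D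
  let E : Finset M := hDfin.toFinset
  have hE : ∀ x, x ∈ E ↔ x ∈ D := fun x => hDfin.mem_toFinset
  let O : M → Finset M := fun x => (Finset.range p).image (fun s => F^[s] x)
  have hOcard : ∀ x ∈ D, (O x).card = p := by
    intro x hx
    rw [Finset.card_image_of_injOn, Finset.card_range]
    have key : ∀ s t, s < t → t < p → F^[s] x = F^[t] x → False := by
      intro s t hlt ht hst
      have h4 : F^[t - s] (F^[s] x) = F^[s] x := by
        rw [← Function.iterate_add_apply, Nat.sub_add_cancel hlt.le]
        exact hst.symm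
      exact h2 _ (hit s x hx) (t - s) (by omega) (by omega) h4
    intro s hs t ht hst
    simp only [Finset.coe_range, Set.mem_Iio] at hs ht
    rcases lt_trichotomy s t with h | h | h
    · exact (key s t h ht hst).elim
    · exact h
    · exact (key t s h hs hst.symm).elim
  have hmod : ∀ x ∈ D, ∀ s, F^[s] x = F^[s % p] x := by
    intro x hx s
    have h5 : ∀ q, ∀ r, F^[r + p * q] x = F^[r] x := by
      intro q
      induction q with
      | zero => intro r; simp
      | succ q ih =>
        intro r
        have : r + p * (q + 1) = (r + p * q) + p := by ring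
        rw [this, Function.iterate_add_apply, h1 x hx, ih]
    conv_lhs => rw [← Nat.mod_add_div s p]
    exact h5 _ _
  have hself : ∀ x, x ∈ O x := fun x => Finset.mem_image.2 ⟨0, Finset.mem_range.2 hp, rfl⟩
  have heq : ∀ x ∈ D, ∀ y ∈ O x, O y = O x := by
    intro x hx y hy
    obtain ⟨s, hs, rfl⟩ := Finset.mem_image.1 hy
    refine Finset.eq_of_subset_of_card_le ?_ ?_
    · intro z hz
      obtain ⟨t, ht, rfl⟩ := Finset.mem_image.1 hz
      show F^[t] (F^[s] x) ∈ O x
      rw [← Function.iterate_add_apply, hmod x hx]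
      exact Finset.mem_image.2 ⟨_, Finset.mem_range.2 (Nat.mod_lt _ hp), rfl⟩
    · rw [hOcard x hx]
      show p ≤ (O (F^[s] x)).card
      rw [hOcard _ (hit s x hx)]
  have hcount := Finset.card_eq_sum_card_image O E
  have hfib : ∀ b ∈ E.image O, (E.filter (fun y => O y = b)).card = p := by
    intro b hb
    obtain ⟨x, hx, rfl⟩ := Finset.mem_image.1 hb
    have hxD := (hE x).1 hx
    have : E.filter (fun y => O y = O x) = O x := by
      ext y
      rw [Finset.mem_filter]
      constructor
      · rintro ⟨_, h⟩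
        rw [← h]
        exact hself y
      · intro hy
        refine ⟨?_, heq x hxD y hy⟩
        obtain ⟨s, -, rfl⟩ := Finset.mem_image.1 hy
        exact (hE _).2 (hit s x hxD)
    rw [this]
    exact hOcard x hxD
  rw [Finset.sum_congr rfl hfib, Finset.sum_const, smul_eq_mul] at hcount
  have hn : D.ncard = E.card := Set.ncard_eq_toFinset_card D hDfin
  rw [hn, hcount]
  exact Dvd.intro_left _ rfl

/-! ### The sentences -/

/-- The function symbols: one unary symbol. -/
inductive OF : ℕ → Type
  | F : OF 1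

/-- The vocabulary with one unary function symbol. -/
abbrev LF : FirstOrder.Language.{0, 0} := ⟨OF, fun _ => Empty⟩

/-- The unary function of a structure. -/
def fn (M : Type) [LF.Structure M] (x : M) : M :=
  Structure.funMap (L := LF) (OF.F : LF.Functions 1) (fun _ => x)

/-- A variable. -/
def tv {m : ℕ} (i : Fin m) : LF.Term (Empty ⊕ Fin m) := Term.var (Sum.inr i)

/-- Iterates of the function symbol on a term. -/
def tI {m : ℕ} (t : LF.Term (Empty ⊕ Fin m)) : ℕ → LF.Term (Empty ⊕ Fin m)
  | 0 => t
  | s + 1 => Term.func (OF.F : LF.Functions 1) (fun _ => tI t s)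

lemma realize_tI {m : ℕ} (t : LF.Term (Empty ⊕ Fin m)) (s : ℕ) {M : Type} [LF.Structure M]
    (v : Empty ⊕ Fin m → M) : (tI t s).realize v = (fn M)^[s] (t.realize v) := by
  induction s with
  | zero => rfl
  | succ s ih =>
    rw [Function.iterate_succ_apply', ← ih]
    rfl

/-- The atomic formulas. -/
def atm (A p : ℕ) : (Fin A × Fin A) ⊕ Fin A ⊕ Fin A ⊕ Fin (p + 1) →
    LF.BoundedFormula Empty (A + 1)
  | Sum.inl (j, j') => (tv j.castSucc).bdEqual (tv j'.castSucc)
  | Sum.inr (Sum.inl j) => (tv (Fin.last A)).bdEqual (tv j.castSucc)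
  | Sum.inr (Sum.inr (Sum.inl j)) => (tI (tv j.castSucc) 1).bdEqual (tv j.castSucc)
  | Sum.inr (Sum.inr (Sum.inr s)) => (tI (tv (Fin.last A)) s.1).bdEqual (tv (Fin.last A))

lemma atm_qf (A p : ℕ) (i : (Fin A × Fin A) ⊕ Fin A ⊕ Fin A ⊕ Fin (p + 1)) :
    (atm A p i).IsQF := by
  rcases i with ⟨j, j'⟩ | j | j | s <;>
  exact (BoundedFormula.IsAtomic.equal _ _).isQF

/-- The number of classes of a matrix of equalities. -/
noncomputable def cls {A : ℕ} (e : Fin A × Fin A → Prop) : ℕ :=
  (Set.range (fun j => {j' | e (j, j')})).ncard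

lemma cls_eq {A : ℕ} {M : Type} (c : Fin A → M) :
    cls (fun z : Fin A × Fin A => c z.1 = c z.2) = (Set.range c).ncard := by
  have h : Set.range (fun j => {j' | c j = c j'}) = (fun m => {j' | m = c j'}) '' Set.range c := by
    rw [← Set.range_comp]
    rfl
  rw [cls, h]
  refine Set.InjOn.ncard_image ?_
  rintro _ ⟨j, rfl⟩ _ ⟨j', rfl⟩ hjj
  simp only at hjj
  have : j ∈ {i | c j = c i} := rfl
  rw [hjj] at this
  exact this.symm

/-- The Boolean combination. -/
def bet (T : Set ℕ) (N p A : ℕ) (b : (Fin A × Fin A) ⊕ Fin A ⊕ Fin A ⊕ Fin (p + 1) → Prop) :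
    Prop :=
  cls (fun z => b (Sum.inl z)) ∈ T ∧
    ((cls (fun z => b (Sum.inl z)) < N ∧ ∃ j, b (Sum.inr (Sum.inl j))) ∨
      (N ≤ cls (fun z => b (Sum.inl z)) ∧ (∀ j, b (Sum.inr (Sum.inr (Sum.inl j)))) ∧
        ((∃ j, b (Sum.inr (Sum.inl j))) ∨
          (b (Sum.inr (Sum.inr (Sum.inr (Fin.last p)))) ∧
            ∀ s : Fin p, 0 < s.1 → ¬ b (Sum.inr (Sum.inr (Sum.inr s.castSucc)))))))

/-- The meaning of the Boolean combination. -/
def Good (T : Set ℕ) (N p A : ℕ) {M : Type} (F : M → M) (c : Fin A → M) (x : M) : Prop :=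
  (Set.range c).ncard ∈ T ∧
    (((Set.range c).ncard < N ∧ x ∈ Set.range c) ∨
      (N ≤ (Set.range c).ncard ∧ (∀ j, F (c j) = c j) ∧
        (x ∈ Set.range c ∨ (F^[p] x = x ∧ ∀ s, 0 < s → s < p → F^[s] x ≠ x))))

theorem exists_matrix (T : Set ℕ) (N p A : ℕ) :
    ∃ θ : LF.BoundedFormula Empty (A + 1), θ.IsQF ∧ ∀ (M : Type) [LF.Structure M]
      (v : Empty → M) (c : Fin A → M) (x : M),
      θ.Realize v (Fin.snoc c x : Fin (A + 1) → M) ↔ Good T N p A (fn M) c x := by
  obtain ⟨θ, h1, h2⟩ := bool_comb (atm A p) (atm_qf A p) (bet T N p A)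
  refine ⟨θ, h1, fun M _ v c x => ?_⟩
  rw [h2 M v]
  have e1 : (fun z : Fin A × Fin A => (atm A p (Sum.inl z)).Realize v
      (Fin.snoc c x : Fin (A + 1) → M)) = fun z => c z.1 = c z.2 := by
    funext z
    apply propext
    show BoundedFormula.Realize ((tv z.1.castSucc).bdEqual (tv z.2.castSucc)) _ _ ↔ _
    rw [BoundedFormula.realize_bdEqual]
    simp [tv]
  have e2 : ∀ j, (atm A p (Sum.inr (Sum.inl j))).Realize v
      (Fin.snoc c x : Fin (A + 1) → M) ↔ x = c j := by
    intro j
    show BoundedFormula.Realize ((tv (Fin.last A)).bdEqual (tv j.castSucc)) _ _ ↔ _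
    rw [BoundedFormula.realize_bdEqual]
    simp [tv]
  have e3 : ∀ j, (atm A p (Sum.inr (Sum.inr (Sum.inl j)))).Realize v
      (Fin.snoc c x : Fin (A + 1) → M) ↔ fn M (c j) = c j := by
    intro j
    show BoundedFormula.Realize ((tI (tv j.castSucc) 1).bdEqual (tv j.castSucc)) _ _ ↔ _
    rw [BoundedFormula.realize_bdEqual, realize_tI]
    simp [tv]
  have e4 : ∀ s, (atm A p (Sum.inr (Sum.inr (Sum.inr s)))).Realize v
      (Fin.snoc c x : Fin (A + 1) → M) ↔ (fn M)^[s.1] x = x := by
    intro s
    show BoundedFormula.Realize ((tI (tv (Fin.last A)) s.1).bdEqual (tv (Fin.last A))) _ _ ↔ _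
    rw [BoundedFormula.realize_bdEqual, realize_tI]
    simp [tv]
  have e5 : (∃ j, (atm A p (Sum.inr (Sum.inl j))).Realize v
      (Fin.snoc c x : Fin (A + 1) → M)) ↔ x ∈ Set.range c := by
    constructor
    · rintro ⟨j, hj⟩
      exact ⟨j, ((e2 j).1 hj).symm⟩
    · rintro ⟨j, hj⟩
      exact ⟨j, (e2 j).2 hj.symm⟩
  have e6 : (∀ s : Fin p, 0 < s.1 → ¬ (atm A p (Sum.inr (Sum.inr (Sum.inr s.castSucc)))).Realize v
      (Fin.snoc c x : Fin (A + 1) → M)) ↔ ∀ s, 0 < s → s < p → (fn M)^[s] x ≠ x := by
    constructor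
    · intro h s hs1 hs2 hs3
      exact h ⟨s, hs2⟩ hs1 ((e4 _).2 hs3)
    · intro h s hs1 hs2
      exact h s.1 hs1 s.2 ((e4 _).1 hs2)
  rw [bet, Good, e1, cls_eq, e5, e4, e6]
  simp only [e3, Fin.val_last]

theorem exists_sentence (T : Set ℕ) (h0 : 0 ∉ T) (N p : ℕ) (hp : 0 < p)
    (hT : ∀ n, N ≤ n → (n ∈ T ↔ n + p ∈ T)) :
    ∃ (a : ℕ) (θ : LF.BoundedFormula Empty (a + 1)), θ.IsQF ∧ Spec LF θ.all.exs = T := by
  classical
  obtain ⟨θ, hθ1, hθ2⟩ := exists_matrix T N p (N + p)
  refine ⟨N + p, θ, hθ1, ?_⟩
  have hreal : ∀ (M : Type) (sM : LF.Structure M),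
      (@Sentence.Realize LF M sM θ.all.exs ↔ ∃ c : Fin (N + p) → M, ∀ x : M,
        Good T N p (N + p) (fn M) c x) := by
    intro M sM
    have h1 : @Sentence.Realize LF M sM θ.all.exs ↔
      @Formula.Realize LF M sM _ θ.all.exs (default : Empty → M) := Iff.rfl
    rw [h1, BoundedFormula.realize_exs]
    constructor
    · rintro ⟨c, hc⟩
      exact ⟨c, fun x => (hθ2 M _ c x).1 (hc x)⟩
    · rintro ⟨c, hc⟩
      exact ⟨c, fun x => (hθ2 M _ c x).2 (hc x)⟩
  have hmul : ∀ i, N ≤ i → ∀ k, (i ∈ T ↔ i + p * k ∈ T) := by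
    intro i hi k
    induction k with
    | zero => simp
    | succ k ih =>
      rw [ih, hT (i + p * k) (by omega)]
      have : i + p * k + p = i + p * (k + 1) := by ring
      rw [this]
  ext n
  constructor
  · rintro ⟨hn, M, sM, hM, hr⟩
    have hMfin : Finite M := Nat.finite_of_card_ne_zero (by omega)
    have hne : Nonempty M := (Nat.card_pos_iff.1 (by omega)).1
    obtain ⟨c, hc⟩ := (hreal M sM).1 hr
    obtain ⟨x0⟩ := hne
    obtain ⟨hiT, hcase⟩ := hc x0
    set i := (Set.range c).ncard with hi
    rcases hcase with ⟨hiN, -⟩ | ⟨hiN, hfix, -⟩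
    · -- every element is among the constants
      have : Set.range c = Set.univ := by
        rw [Set.eq_univ_iff_forall]
        intro x
        rcases (hc x).2 with ⟨-, h⟩ | ⟨h, -⟩
        · exact h
        · omega
      rw [this, Set.ncard_univ, hM] at hi
      rw [← hi]
      exact hiT
    · have hD : p ∣ ((Set.range c)ᶜ).ncard := by
        have hx : ∀ x ∈ (Set.range c)ᶜ, (fn M)^[p] x = x ∧
            ∀ s, 0 < s → s < p → (fn M)^[s] x ≠ x := by
          intro x hx
          rcases (hc x).2 with ⟨-, h⟩ | ⟨-, -, h | h⟩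
          · exact absurd h hx
          · exact absurd h hx
          · exact h
        refine dvd_of_free (fn M) p hp _ (fun x h => (hx x h).1) (fun x h => (hx x h).2) ?_
        rintro x h ⟨j, hj⟩
        apply h
        have h1 := (hx x h).1
        obtain ⟨p', rfl⟩ : ∃ p', p = p' + 1 := ⟨p - 1, by omega⟩
        rw [Function.iterate_succ_apply, ← hj] at h1
        have h2 : ∀ s, (fn M)^[s] (c j) = c j := by
          intro s
          induction s with
          | zero => rfl
          | succ s ih => rw [Function.iterate_succ_apply, hfix j, ih]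
        rw [h2] at h1
        exact ⟨j, h1⟩
      obtain ⟨k, hk⟩ := hD
      have h3 := Set.ncard_add_ncard_compl (Set.range c)
      rw [hk, hM, ← hi] at h3
      rw [← h3]
      exact (hmul i hiN k).1 hiT
  · intro hn
    have hn0 : 0 < n := by
      rcases Nat.eq_zero_or_pos n with h | h
      · rw [h] at hn; exact absurd hn h0
      · exact h
    by_cases hnN : n < N
    · refine ⟨hn0, Fin n, ⟨fun _ x => ⟨0, hn0⟩, fun r _ => r.elim⟩, Nat.card_fin n, ?_⟩
      rw [hreal]
      refine ⟨fun j => if h : j.1 < n then ⟨j.1, h⟩ else ⟨0, hn0⟩, fun x => ?_⟩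
      have hr : Set.range (fun j : Fin (N + p) =>
          if h : j.1 < n then (⟨j.1, h⟩ : Fin n) else ⟨0, hn0⟩) = Set.univ := by
        rw [Set.eq_univ_iff_forall]
        intro y
        refine ⟨⟨y.1, by omega⟩, ?_⟩
        simp
      rw [Good, hr, Set.ncard_univ, Nat.card_fin]
      exact ⟨hn, Or.inl ⟨hnN, trivial⟩⟩
    · push Not at hnN
      -- write `n = i + p * k`
      obtain ⟨i, k, hiN, hip, hik⟩ : ∃ i k, N ≤ i ∧ i < N + p ∧ n = i + p * k := by
        refine ⟨N + (n - N) % p, (n - N) / p, by omega, ?_, ?_⟩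
        · have := Nat.mod_lt (n - N) hp
          omega
        · have := Nat.mod_add_div (n - N) p
          omega
      have hiT : i ∈ T := by
        rw [hmul i hiN k, ← hik]
        exact hn
      have hi0 : 0 < i := by
        rcases Nat.eq_zero_or_pos i with h | h
        · rw [h] at hiT; exact absurd hiT h0
        · exact h
      have : NeZero p := ⟨by omega⟩
      let G : Fin i ⊕ (Fin k × ZMod p) → Fin i ⊕ (Fin k × ZMod p) := fun z => match z with
        | Sum.inl j => Sum.inl j
        | Sum.inr (l, z) => Sum.inr (l, z + 1)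
      let sM : LF.Structure (Fin i ⊕ (Fin k × ZMod p)) :=
        ⟨fun f x => match f, x with
          | OF.F, x => G (x 0), fun r _ => r.elim⟩
      have hfn : fn (Fin i ⊕ (Fin k × ZMod p)) = G := rfl
      refine ⟨hn0, Fin i ⊕ (Fin k × ZMod p), sM, ?_, ?_⟩
      · rw [Nat.card_sum, Nat.card_fin, Nat.card_prod, Nat.card_fin, Nat.card_zmod, hik, mul_comm]
      · rw [hreal]
        let c : Fin (N + p) → Fin i ⊕ (Fin k × ZMod p) := fun j =>
          if h : j.1 < i then Sum.inl ⟨j.1, h⟩ else Sum.inl ⟨0, hi0⟩
        have hrange : Set.range c = Set.range Sum.inl := by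
          ext z
          constructor
          · rintro ⟨j, rfl⟩
            by_cases h : j.1 < i
            · exact ⟨⟨j.1, h⟩, by simp [c, h]⟩
            · exact ⟨⟨0, hi0⟩, by simp [c, h]⟩
          · rintro ⟨j, rfl⟩
            exact ⟨⟨j.1, by omega⟩, by simp [c]⟩
        have hcard : (Set.range c).ncard = i := by
          rw [hrange, ← Set.image_univ, Set.InjOn.ncard_image (Sum.inl_injective.injOn),
            Set.ncard_univ, Nat.card_fin]
        refine ⟨c, fun x => ?_⟩
        rw [Good, hcard, hfn]
        refine ⟨hiT, Or.inr ⟨hiN, ?_, ?_⟩⟩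
        · intro j
          simp only [c, G]
          split_ifs <;> rfl
        · rcases x with j | ⟨l, z⟩
          · left
            rw [hrange]
            exact ⟨j, rfl⟩
          · right
            have hit : ∀ s : ℕ, G^[s] (Sum.inr (l, z)) = Sum.inr (l, z + s) := by
              intro s
              induction s with
              | zero => simp
              | succ s ih =>
                rw [Function.iterate_succ_apply', ih]
                simp only [G]
                push_cast
                rw [add_assoc]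
            constructor
            · rw [hit]
              simp
            · intro s hs1 hs2 hs3
              rw [hit] at hs3
              have h5 := Sum.inr_injective hs3
              rw [Prod.mk.injEq] at h5
              have h6 : ((s : ℕ) : ZMod p) = 0 := by
                have := h5.2
                simpa using this
              rw [ZMod.natCast_eq_zero_iff] at h6
              exact absurd (Nat.le_of_dvd hs1 h6) (by omega)

end Pool.Agent.Helper31.ShelahClosed
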