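import Mathlib

set_option autoImplicit false

namespace Pool.Agent.Helper31.ShelahCore

open Finset

/-! ### A dichotomy for finite functional graphs -/

theorem dichotomy {M : Type} [Finite M] (F : M → M) (C : Set M) (m : ℕ) (hC : C.ncard ≤ m)
    (L : ℕ) (hM : (L + 1) * (2 * m) < Nat.card M) :
    (∃ D : Set M, D.Nonempty ∧ D.ncard ≤ L + 1 ∧ (∀ y ∈ D, y ∉ C) ∧ ∀ y, y ∉ D → F y ∉ D) ∨
    (∃ x : ℕ → M, (∀ t < L, F (x t) = x (t + 1)) ∧ (∀ t ≤ L, x t ∉ C) ∧
      (∀ t < L, ∀ y, F y = x (t + 1) → y = x t) ∧ ∀ s ≤ L, ∀ t ≤ L, x s = x t → s = t) := by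
  classical
  by_cases ha : ∃ D : Set M, D.Nonempty ∧ D.ncard ≤ L + 1 ∧ (∀ y ∈ D, y ∉ C) ∧
      ∀ y, y ∉ D → F y ∉ D
  · exact Or.inl ha
  right
  have hne : Nonempty M := by
    by_contra h
    rw [not_nonempty_iff] at h
    rw [Nat.card_of_isEmpty] at hM
    omega
  -- every element outside `C` has a preimage
  have hpre : ∀ u, u ∉ C → ∃ y, F y = u := by
    intro u hu
    by_contra hcon
    push Not at hcon
    refine ha ⟨{u}, Set.singleton_nonempty u, by simp, ?_, ?_⟩
    · intro y hy
      rw [Set.mem_singleton_iff] at hy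
      rw [hy]; exact hu
    · intro y _ hy
      exact hcon y hy
  choose! p hp using hpre
  have hpinj : Set.InjOn p Cᶜ := by
    intro u hu v hv huv
    rw [← hp u hu, ← hp v hv, huv]
  set E : Set M := (p '' Cᶜ)ᶜ with hE
  have hEcard : E.ncard ≤ m := by
    have h1 := Set.ncard_add_ncard_compl (p '' Cᶜ)
    have h2 := Set.ncard_add_ncard_compl C
    rw [Set.InjOn.ncard_image hpinj] at h1
    change (p '' Cᶜ)ᶜ.ncard ≤ m
    omega
  set Bad : Set M := C ∪ F '' E with hBad
  have hBadcard : Bad.ncard ≤ 2 * m := by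
    calc Bad.ncard ≤ C.ncard + (F '' E).ncard := Set.ncard_union_le _ _
      _ ≤ C.ncard + E.ncard := by
          have := Set.ncard_image_le (f := F) (s := E) (Set.toFinite _)
          omega
      _ ≤ 2 * m := by omega
  have huniq : ∀ x, x ∉ Bad → ∀ y, F y = x → y = p x := by
    intro x hx y hy
    by_contra hne
    apply hx
    right
    refine ⟨y, ?_, hy⟩
    rintro ⟨u, hu, rfl⟩
    have : u = x := by rw [← hp u hu, hy]
    exact hne (by rw [this])
  have hgood : ∃ x, ∀ i ≤ L, p^[i] x ∉ Bad := by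
    by_contra hcon
    push Not at hcon
    have hcov : (Set.univ : Set M) ⊆ ⋃ i ∈ (Finset.range (L + 1) : Finset ℕ),
        (F^[i] '' Bad) := by
      intro x _
      have hex := hcon x
      set i := Nat.find hex with hi
      obtain ⟨hiL, hibad⟩ := Nat.find_spec hex
      have hmin : ∀ j < i, p^[j] x ∉ Bad := by
        intro j hj hb
        exact Nat.find_min hex hj ⟨by omega, hb⟩
      have hback : ∀ j ≤ i, F^[j] (p^[j] x) = x := by
        intro j hj
        induction j with
        | zero => rfl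
        | succ j ih =>
          rw [Function.iterate_succ_apply, Function.iterate_succ_apply', hp, ih (by omega)]
          intro hc
          exact hmin j (by omega) (Or.inl hc)
      simp only [Set.mem_iUnion]
      exact ⟨i, Finset.mem_range.2 (by omega), p^[i] x, hibad, hback i le_rfl⟩
    have h1 : Nat.card M ≤ (L + 1) * (2 * m) := by
      rw [← Set.ncard_univ]
      calc (Set.univ : Set M).ncard
          ≤ (⋃ i ∈ (Finset.range (L + 1) : Finset ℕ), (F^[i] '' Bad)).ncard :=
            Set.ncard_le_ncard hcov (Set.toFinite _)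
        _ ≤ ∑ i ∈ Finset.range (L + 1), (F^[i] '' Bad).ncard :=
            Finset.set_ncard_biUnion_le _ _
        _ ≤ ∑ i ∈ Finset.range (L + 1), (2 * m) := by
            refine Finset.sum_le_sum (fun i _ => ?_)
            exact le_trans (Set.ncard_image_le (Set.toFinite _)) hBadcard
        _ = (L + 1) * (2 * m) := by simp
    omega
  obtain ⟨x, hx⟩ := hgood
  have hinj : ∀ s ≤ L, ∀ t ≤ L, p^[s] x = p^[t] x → s = t := by
    by_contra hcon
    push Not at hcon
    obtain ⟨s, hs, t, ht, hst, hne'⟩ := hcon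
    wlog hlt : s < t generalizing s t
    · exact this t ht s hs hst.symm hne'.symm (by omega)
    refine ha ⟨(fun e => p^[e] x) '' Set.Ico s t, ⟨_, s, ⟨le_rfl, hlt⟩, rfl⟩, ?_, ?_, ?_⟩
    · calc ((fun e => p^[e] x) '' Set.Ico s t).ncard ≤ (Set.Ico s t).ncard :=
            Set.ncard_image_le (Set.finite_Ico s t)
        _ = t - s := by
            rw [← Finset.coe_Ico, Set.ncard_coe_finset, Nat.card_Ico]
        _ ≤ L + 1 := by omega
    · rintro _ ⟨e, ⟨h1, h2⟩, rfl⟩ hc
      exact hx e (by omega) (Or.inl hc)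
    · rintro y hy ⟨e, ⟨h1, h2⟩, he⟩
      apply hy
      have h3 := huniq _ (hx e (by omega)) y he.symm
      rw [← Function.iterate_succ_apply' p e x] at h3
      by_cases het : e + 1 = t
      · refine ⟨s, ⟨le_rfl, hlt⟩, ?_⟩
        simp only
        rw [h3, hst, ← het]
      · exact ⟨e + 1, ⟨by omega, by omega⟩, h3.symm⟩
  refine ⟨fun t => p^[L - t] x, ?_, ?_, ?_, ?_⟩
  · intro t ht
    have h1 : L - t = (L - (t + 1)) + 1 := by omega
    simp only
    rw [h1, Function.iterate_succ_apply', hp]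
    intro hc
    exact hx (L - (t + 1)) (by omega) (Or.inl hc)
  · intro t _ hc
    exact hx (L - t) (by omega) (Or.inl hc)
  · intro t ht y hy
    have h1 : L - t = (L - (t + 1)) + 1 := by omega
    simp only
    rw [h1, Function.iterate_succ_apply']
    exact huniq _ (hx _ (by omega)) y hy
  · intro s hs t ht hst
    have := hinj (L - s) (by omega) (L - t) (by omega) hst
    omega

/-! ### A sunflower lemma -/

theorem sunflower (s q : ℕ) : ∃ N : ℕ, ∀ (M : Type) (T : Finset ℕ) (A : ℕ → Finset M),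
    N ≤ T.card → (∀ t ∈ T, (A t).card ≤ s) →
    ∃ T' ⊆ T, q ≤ T'.card ∧ ∃ K : Finset M, K.card ≤ s ∧
      ∀ t ∈ T', ∀ t' ∈ T', t ≠ t' → ∀ y, y ∈ A t → y ∈ A t' → y ∈ K := by
  classical
  induction s with
  | zero =>
    refine ⟨q, fun M T A hN hA => ⟨T, subset_rfl, hN, ∅, by simp, ?_⟩⟩
    intro t ht t' _ _ y hy _
    have := hA t ht
    rw [Nat.le_zero, Finset.card_eq_zero] at this
    rw [this] at hy
    exact hy
  | succ s ih =>
    obtain ⟨N, hN⟩ := ih
    refine ⟨q + (q * (s + 1)) * N + 1, fun M T A hT hA => ?_⟩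
    -- a maximal pairwise disjoint subfamily
    set P : Finset (Finset ℕ) := T.powerset.filter
      (fun T0 => ∀ t ∈ T0, ∀ t' ∈ T0, t ≠ t' → Disjoint (A t) (A t')) with hP
    have hPne : P.Nonempty := ⟨∅, by simp [hP]⟩
    obtain ⟨T0, hT0, hmax⟩ := Finset.exists_max_image P Finset.card hPne
    rw [hP, Finset.mem_filter, Finset.mem_powerset] at hT0
    obtain ⟨hT0T, hT0d⟩ := hT0
    by_cases hq : q ≤ T0.card
    · refine ⟨T0, hT0T, hq, ∅, by simp, ?_⟩
      intro t ht t' ht' htt y hy hy'
      exact absurd hy' (Finset.disjoint_left.1 (hT0d t ht t' ht' htt) hy)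
    · set U : Finset M := T0.biUnion A with hU
      have hUcard : U.card ≤ q * (s + 1) := by
        calc U.card ≤ ∑ t ∈ T0, (A t).card := Finset.card_biUnion_le
          _ ≤ ∑ t ∈ T0, (s + 1) := Finset.sum_le_sum (fun t ht => hA t (hT0T ht))
          _ = T0.card * (s + 1) := by simp
          _ ≤ q * (s + 1) := Nat.mul_le_mul_right _ (by omega)
      have hmeet : ∀ t ∈ T \ T0, ∃ y ∈ U, y ∈ A t := by
        intro t ht
        rw [Finset.mem_sdiff] at ht
        by_contra hcon
        push Not at hcon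
        have hins : insert t T0 ∈ P := by
          rw [hP, Finset.mem_filter, Finset.mem_powerset]
          refine ⟨Finset.insert_subset ht.1 hT0T, ?_⟩
          have hdis : ∀ t' ∈ T0, Disjoint (A t) (A t') := by
            intro t' ht'
            rw [Finset.disjoint_left]
            intro y hy hy'
            exact hcon y (Finset.mem_biUnion.2 ⟨t', ht', hy'⟩) hy
          intro a ha b hb hab
          by_cases hat : a = t
          · subst hat
            by_cases hbt : b = a
            · exact absurd hbt.symm hab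
            · exact hdis b ((Finset.mem_insert.1 hb).resolve_left hbt)
          · by_cases hbt : b = t
            · subst hbt
              exact (hdis a ((Finset.mem_insert.1 ha).resolve_left hat)).symm
            · exact hT0d a ((Finset.mem_insert.1 ha).resolve_left hat) b
                ((Finset.mem_insert.1 hb).resolve_left hbt) hab
        have := hmax _ hins
        rw [Finset.card_insert_of_notMem ht.2] at this
        omega
      have hcard : U.card * N < (T \ T0).card := by
        have h1 : (T \ T0).card = T.card - T0.card := Finset.card_sdiff_of_subset hT0T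
        have h2 : U.card * N ≤ q * (s + 1) * N := Nat.mul_le_mul_right _ hUcard
        omega
      have hMne : Nonempty M := by
        obtain ⟨t, ht⟩ := Finset.card_pos.1 (lt_of_le_of_lt (Nat.zero_le _) hcard)
        obtain ⟨y, _⟩ := hmeet t ht
        exact ⟨y⟩
      choose! u hu1 hu2 using hmeet
      obtain ⟨y0, hy0, hfib⟩ :=
        Finset.exists_lt_card_fiber_of_mul_lt_card_of_maps_to hu1 hcard
      set T1 := (T \ T0).filter (fun t => u t = y0) with hT1
      obtain ⟨T', hT'1, hT'q, K, hK, hKd⟩ := hN M T1 (fun t => (A t).erase y0) hfib.le (by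
        intro t ht
        rw [hT1, Finset.mem_filter] at ht
        have h1 := hu2 t ht.1
        rw [ht.2] at h1
        rw [Finset.card_erase_of_mem h1]
        have := hA t (Finset.mem_sdiff.1 ht.1).1
        omega)
      refine ⟨T', ?_, hT'q, insert y0 K, ?_, ?_⟩
      · intro t ht
        have := hT'1 ht
        rw [hT1, Finset.mem_filter] at this
        exact (Finset.mem_sdiff.1 this.1).1
      · exact le_trans (Finset.card_insert_le _ _) (by omega)
      · intro t ht t' ht' htt y hy hy'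
        by_cases hyy : y = y0
        · rw [hyy]; exact Finset.mem_insert_self _ _
        · exact Finset.mem_insert_of_mem (hKd t ht t' ht' htt y
            (Finset.mem_erase.2 ⟨hyy, hy⟩) (Finset.mem_erase.2 ⟨hyy, hy'⟩))

/-! ### Structures with one unary function, constants and relations -/

/-- Structures with one unary function, constants indexed by `I`, relations indexed by `J`. -/
structure Str (I J : Type) (ar : J → ℕ) (M : Type) where
  F : M → M
  c : I → M
  R : ∀ j : J, (Fin (ar j) → M) → Prop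

variable {I J : Type} {ar : J → ℕ} {k : ℕ}

/-- The elements within `h` steps of `x`, the `y a` and the constants. -/
def Win (h : ℕ) {M : Type} (S : Str I J ar M) (x : M) (y : Fin k → M) : Set M :=
  {z | ∃ i ≤ h, z = S.F^[i] x ∨ (∃ a, z = S.F^[i] (y a)) ∨ ∃ l, z = S.F^[i] (S.c l)}

/-- Invariance under injective maps that preserve everything within `h` steps. -/
def Inv (h : ℕ) (Θ : ∀ M : Type, Str I J ar M → M → (Fin k → M) → Prop) : Prop :=
  ∀ (A B : Type) (SA : Str I J ar A) (SB : Str I J ar B) (x : A) (y : Fin k → A) (g : A → B),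
    Function.Injective g →
    (∀ i ≤ h, g (SA.F^[i] x) = SB.F^[i] (g x)) →
    (∀ i ≤ h, ∀ a, g (SA.F^[i] (y a)) = SB.F^[i] (g (y a))) →
    (∀ i ≤ h, ∀ l, g (SA.F^[i] (SA.c l)) = SB.F^[i] (SB.c l)) →
    (∀ j (t : Fin (ar j) → A), (∀ e, t e ∈ Win h SA x y) → (SA.R j t ↔ SB.R j (g ∘ t))) →
    Θ A SA x y → Θ B SB (g x) (g ∘ y)

/-- Models of `∀ x ∃ y Θ`. -/
def Mod (Θ : ∀ M : Type, Str I J ar M → M → (Fin k → M) → Prop) (M : Type)
    (S : Str I J ar M) : Prop := ∀ x, ∃ y, Θ M S x y

/-- The sizes of the finite models. -/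
def Sp (Θ : ∀ M : Type, Str I J ar M → M → (Fin k → M) → Prop) : Set ℕ :=
  {n | ∃ (M : Type) (S : Str I J ar M), Finite M ∧ Nat.card M = n ∧ Mod Θ M S}

/-- There is a model of size `n` with a removable part of size `d`. -/
def HasD (Θ : ∀ M : Type, Str I J ar M → M → (Fin k → M) → Prop) (n d : ℕ) : Prop :=
  ∃ (M : Type) (S : Str I J ar M), Finite M ∧ Nat.card M = n ∧ Mod Θ M S ∧
    ∃ D : Set M, D.ncard = d ∧ (∀ i, S.c i ∉ D) ∧ ∀ y, y ∉ D → S.F y ∉ D

lemma HasD.mem {Θ : ∀ M : Type, Str I J ar M → M → (Fin k → M) → Prop} {n d : ℕ}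
    (h : HasD Θ n d) : n ∈ Sp Θ := by
  obtain ⟨M, S, h1, h2, h3, -⟩ := h
  exact ⟨M, S, h1, h2, h3⟩

theorem clone {h : ℕ} {Θ : ∀ M : Type, Str I J ar M → M → (Fin k → M) → Prop} (hΘ : Inv h Θ)
    {n d : ℕ} (hD : HasD Θ n d) : HasD Θ (n + d) d := by
  classical
  obtain ⟨M, S, hfin, hcard, hmod, D, hDcard, hc, hF⟩ := hD
  set π : M ⊕ D → M := Sum.elim id Subtype.val with hπ
  set S' : Str I J ar (M ⊕ D) :=
    { F := Sum.elim (fun x => Sum.inl (S.F x)) (fun u => if hu : S.F u.1 ∈ D
        then Sum.inr ⟨S.F u.1, hu⟩ else Sum.inl (S.F u.1))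
      c := fun i => Sum.inl (S.c i)
      R := fun j t => S.R j (π ∘ t) } with hS'
  set g : M → M ⊕ D := fun x => if hx : x ∈ D then Sum.inr ⟨x, hx⟩ else Sum.inl x with hg
  have hπg : ∀ x, π (g x) = x := by
    intro x
    simp only [hg, hπ]
    split_ifs <;> simp
  have hFl : ∀ x, S'.F (Sum.inl x) = Sum.inl (S.F x) := fun x => rfl
  have hFg : ∀ x, S'.F (g x) = g (S.F x) := by
    intro x
    by_cases hx : x ∈ D
    · simp only [hg, hx, dif_pos, hS']
      rfl
    · have hx2 := hF x hx
      simp [hg, hx, hx2, hS']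
  have hcg : ∀ i, g (S.c i) = S'.c i := by
    intro i
    simp [hg, hc i, hS']
  have iter : ∀ (g0 : M → M ⊕ D), (∀ x, S'.F (g0 x) = g0 (S.F x)) → ∀ i x,
      g0 (S.F^[i] x) = S'.F^[i] (g0 x) := by
    intro g0 h0 i
    induction i with
    | zero => intro x; rfl
    | succ i ih =>
      intro x
      rw [Function.iterate_succ_apply, Function.iterate_succ_apply, ih, h0]
  have trans : ∀ (g0 : M → M ⊕ D), (∀ x, S'.F (g0 x) = g0 (S.F x)) →
      (∀ i, g0 (S.c i) = S'.c i) → (∀ x, π (g0 x) = x) → ∀ x, ∃ y, Θ (M ⊕ D) S' (g0 x) y := by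
    intro g0 h0 h1 h2 x
    obtain ⟨y, hy⟩ := hmod x
    refine ⟨g0 ∘ y, hΘ M (M ⊕ D) S S' x y g0 ?_ ?_ ?_ ?_ ?_ hy⟩
    · intro a b hab
      rw [← h2 a, ← h2 b, hab]
    · intro i _
      exact iter g0 h0 i x
    · intro i _ a
      exact iter g0 h0 i (y a)
    · intro i _ l
      rw [iter g0 h0 i, h1]
    · intro j t _
      have : π ∘ g0 ∘ t = t := by
        funext e
        exact h2 _
      show S.R j t ↔ S.R j (π ∘ g0 ∘ t)
      rw [this]
  refine ⟨M ⊕ D, S', inferInstance, ?_, ?_, Set.range Sum.inr, ?_, ?_, ?_⟩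
  · rw [Nat.card_sum, hcard]
    congr 1
  · intro z
    rcases z with x | u
    · exact trans Sum.inl hFl (fun _ => rfl) (fun _ => rfl) x
    · have hu : g u.1 = Sum.inr u := by simp [hg]
      rw [← hu]
      exact trans g hFg hcg hπg u.1
  · rw [← Set.image_univ, Set.InjOn.ncard_image (Sum.inr_injective.injOn), Set.ncard_univ]
    exact hDcard
  · rintro i ⟨u, hu⟩
    simp [hS'] at hu
  · rintro y hy ⟨u, hu⟩
    rcases y with x | v
    · simp [hS'] at hu
    · exact hy ⟨v, rfl⟩

theorem clone_iter {h : ℕ} {Θ : ∀ M : Type, Str I J ar M → M → (Fin k → M) → Prop}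
    (hΘ : Inv h Θ) {n d : ℕ} (hD : HasD Θ n d) (r : ℕ) : HasD Θ (n + r * d) d := by
  induction r with
  | zero => simpa using hD
  | succ r ih =>
    have := clone hΘ ih
    have h2 : n + (r + 1) * d = n + r * d + d := by ring
    rw [h2]
    exact this

/-! ### Extraction of a removable cycle -/

theorem annulus {k : ℕ} (H t : ℕ) (Q : Fin k → ℕ → Prop)
    (hQ : ∀ a s s', Q a s → Q a s' → s = s') :
    ∃ r ≤ k, ∀ a s, Q a s → t ≤ s + (r * H + H) → s ≤ t + (r * H + H) →
      t ≤ s + r * H ∧ s ≤ t + r * H := by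
  by_contra hcon
  push Not at hcon
  have h1 : ∀ r : Fin (k + 1), ∃ a s, Q a s ∧ t ≤ s + (r.1 * H + H) ∧ s ≤ t + (r.1 * H + H) ∧
      (t ≤ s + r.1 * H → t + r.1 * H < s) := by
    intro r
    obtain ⟨a, s, h2, h3, h4, h5⟩ := hcon r.1 (by omega)
    exact ⟨a, s, h2, h3, h4, h5⟩
  choose a s h2 h3 h4 h5 using h1
  have hinj : Function.Injective a := by
    have key : ∀ r r' : Fin (k + 1), r < r' → a r ≠ a r' := by
      intro r r' hr he
      have hs : s r = s r' := by
        apply hQ (a r') _ _ _ (h2 r')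
        rw [← he]; exact h2 r
      have h6 : (r.1 + 1) * H ≤ r'.1 * H := Nat.mul_le_mul_right _ (by omega)
      have h7 : (r.1 + 1) * H = r.1 * H + H := by ring
      have h8 := h5 r'
      have h9 := h3 r
      have h10 := h4 r
      rw [hs] at h9 h10
      have := h8 (by omega)
      omega
    intro r r' he
    rcases lt_trichotomy r r' with h | h | h
    · exact absurd he (key r r' h)
    · exact h
    · exact absurd he.symm (key r' r h)
  have := Fintype.card_le_of_injective a hinj
  simp at this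

lemma cong_cases {d a b : ℕ} (h : (a : ZMod d) = (b : ZMod d)) (h1 : a < b + 2 * d)
    (h2 : b < a + 2 * d) : a = b ∨ b = a + d ∨ a = b + d := by
  rw [ZMod.natCast_eq_natCast_iff] at h
  rcases le_total a b with hab | hab
  · obtain ⟨m, hm⟩ := (Nat.modEq_iff_dvd' hab).1 h
    have : m < 2 := by
      by_contra hc
      have : d * 2 ≤ d * m := Nat.mul_le_mul_left _ (by omega)
      omega
    interval_cases m <;> omega
  · obtain ⟨m, hm⟩ := (Nat.modEq_iff_dvd' hab).1 h.symm
    have : m < 2 := by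
      by_contra hc
      have : d * 2 ≤ d * m := Nat.mul_le_mul_left _ (by omega)
      omega
    interval_cases m <;> omega

lemma win_ncard (h : ℕ) [Finite I] {M : Type} (S : Str I J ar M) (x : M) (y : Fin k → M) :
    (Win h S x y).ncard ≤ (h + 1) * (k + Nat.card I + 1) := by
  classical
  have hfI : Finite (Option (Fin k ⊕ I)) := inferInstance
  set f : Fin (h + 1) × Option (Fin k ⊕ I) → M := fun z =>
    match z.2 with
    | none => S.F^[z.1.1] x
    | some (Sum.inl a) => S.F^[z.1.1] (y a)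
    | some (Sum.inr l) => S.F^[z.1.1] (S.c l) with hf
  have hsub : Win h S x y ⊆ f '' Set.univ := by
    rintro z ⟨i, hi, hz⟩
    rcases hz with hz | ⟨a, hz⟩ | ⟨l, hz⟩
    · exact ⟨(⟨i, by omega⟩, none), Set.mem_univ _, hz.symm⟩
    · exact ⟨(⟨i, by omega⟩, some (Sum.inl a)), Set.mem_univ _, hz.symm⟩
    · exact ⟨(⟨i, by omega⟩, some (Sum.inr l)), Set.mem_univ _, hz.symm⟩
  calc (Win h S x y).ncard ≤ (f '' Set.univ).ncard :=
        Set.ncard_le_ncard hsub (Set.toFinite _)
    _ ≤ (Set.univ : Set (Fin (h + 1) × Option (Fin k ⊕ I))).ncard :=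
        Set.ncard_image_le (Set.toFinite _)
    _ = (h + 1) * (k + Nat.card I + 1) := by
        rw [Set.ncard_univ, Nat.card_prod, Nat.card_eq_fintype_card, Fintype.card_fin,
          Finite.card_option, Nat.card_sum, Nat.card_eq_fintype_card, Fintype.card_fin]

/-- A long path whose points have unique preimages and are not constants. -/
structure Path {M : Type} (S : Str I J ar M) (L : ℕ) (x : ℕ → M) : Prop where
  step : ∀ t < L, S.F (x t) = x (t + 1)
  nc : ∀ t ≤ L, ∀ i, x t ≠ S.c i
  pre : ∀ t < L, ∀ y, S.F y = x (t + 1) → y = x t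
  inj : ∀ s ≤ L, ∀ t ≤ L, x s = x t → s = t

lemma Path.iter {M : Type} {S : Str I J ar M} {L : ℕ} {x : ℕ → M} (hx : Path S L x) (a s : ℕ)
    (h : s + a ≤ L) : S.F^[a] (x s) = x (s + a) := by
  induction a with
  | zero => rfl
  | succ a ih =>
    rw [Function.iterate_succ_apply', ih (by omega), hx.step _ (by omega)]
    rfl

lemma Path.back {M : Type} {S : Str I J ar M} {L : ℕ} {x : ℕ → M} (hx : Path S L x) (a : ℕ) :
    ∀ u y, a ≤ u → u ≤ L → S.F^[a] y = x u → y = x (u - a) := by
  induction a with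
  | zero => intro u y _ _ h; exact h
  | succ a ih =>
    intro u y h1 h2 h3
    rw [Function.iterate_succ_apply'] at h3
    obtain ⟨u', rfl⟩ : ∃ u', u = u' + 1 := ⟨u - 1, by omega⟩
    have h4 := hx.pre u' (by omega) _ h3
    have h5 := ih u' y (by omega) (by omega) h4
    rw [h5]
    congr 1
    omega

/-- `z = x s` with `s` in the near interval of `t`. -/
def Near {M : Type} (x : ℕ → M) (h ρ t : ℕ) (z : M) (s : ℕ) : Prop :=
  t ≤ s + ρ ∧ s ≤ t + ρ + h ∧ x s = z

open Classical in
/-- The template map at `t`. -/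
noncomputable def gmap {M : Type} (x : ℕ → M) (h ρ t d : ℕ) (z : M) : M ⊕ ZMod d :=
  if hz : ∃ s, Near x h ρ t z s then Sum.inr ((Classical.choose hz : ℕ) : ZMod d)
  else Sum.inl z

lemma gmap_near {M : Type} {S : Str I J ar M} {L : ℕ} {x : ℕ → M} (hx : Path S L x)
    {h ρ t d : ℕ} (hL : t + ρ + h ≤ L) {z : M} {s : ℕ} (hs : Near x h ρ t z s) :
    gmap x h ρ t d z = Sum.inr (s : ZMod d) := by
  have hz : ∃ s, Near x h ρ t z s := ⟨s, hs⟩
  rw [gmap, dif_pos hz]
  have h1 := Classical.choose_spec hz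
  have : Classical.choose hz = s := by
    apply hx.inj _ (by have := h1.2.1; omega) _ (by have := hs.2.1; omega)
    rw [h1.2.2, hs.2.2]
  rw [this]

lemma gmap_far {M : Type} {x : ℕ → M} {h ρ t d : ℕ} {z : M} (hz : ¬ ∃ s, Near x h ρ t z s) :
    gmap x h ρ t d z = Sum.inl z := by
  rw [gmap, dif_neg hz]

lemma gmap_inj {M : Type} {S : Str I J ar M} {L : ℕ} {x : ℕ → M} (hx : Path S L x)
    {h ρ t d : ℕ} (hL : t + ρ + h ≤ L) (hd : 2 * ρ + h < d) :
    Function.Injective (gmap x h ρ t d) := by
  intro y z hyz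
  by_cases hy : ∃ s, Near x h ρ t y s
  · obtain ⟨s, hs⟩ := hy
    by_cases hz : ∃ s, Near x h ρ t z s
    · obtain ⟨s', hs'⟩ := hz
      rw [gmap_near hx hL hs, gmap_near hx hL hs'] at hyz
      have h1 := Sum.inr_injective hyz
      have a1 := hs.1
      have a2 := hs.2.1
      have a3 := hs'.1
      have a4 := hs'.2.1
      rcases cong_cases h1 (by omega) (by omega) with h2 | h2 | h2
      · rw [← hs.2.2, ← hs'.2.2, h2]
      · omega
      · omega
    · rw [gmap_near hx hL hs, gmap_far hz] at hyz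
      simp at hyz
  · by_cases hz : ∃ s, Near x h ρ t z s
    · obtain ⟨s', hs'⟩ := hz
      rw [gmap_far hy, gmap_near hx hL hs'] at hyz
      simp at hyz
    · rw [gmap_far hy, gmap_far hz] at hyz
      exact Sum.inl_injective hyz

/-- The structure extended by a new cycle of length `d`. -/
def extStr {M : Type} (S : Str I J ar M) (x : ℕ → M) (h : ℕ) (ρ : ℕ → ℕ) (W : ℕ → Set M)
    (i d : ℕ) : Str I J ar (M ⊕ ZMod d) where
  F := Sum.elim (fun z => Sum.inl (S.F z)) (fun e => Sum.inr (e + 1))
  c := fun l => Sum.inl (S.c l)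
  R := fun j w => (∃ v : Fin (ar j) → M, w = Sum.inl ∘ v ∧ S.R j v) ∨
    ((∃ e a, w e = Sum.inr a) ∧ ∃ t, i ≤ t ∧ t < i + d ∧ ∃ u : Fin (ar j) → M,
      (∀ e, u e ∈ W t) ∧ w = gmap x h (ρ t) t d ∘ u ∧ S.R j u)

theorem ext_mod {h : ℕ} {Θ : ∀ M : Type, Str I J ar M → M → (Fin k → M) → Prop}
    (hΘ : Inv h Θ) {M : Type} (S : Str I J ar M) (w : M → Fin k → M) (hw : ∀ z, Θ M S z (w z))
    {L : ℕ} {x : ℕ → M} (hx : Path S L x) (ρ : ℕ → ℕ) (i d : ℕ) (hd0 : 0 < d)
    (hlo : ∀ t, i ≤ t → t < i + d → h + ρ t ≤ t)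
    (hhi : ∀ t, i ≤ t → t < i + d → t + ρ t + h ≤ L)
    (hd : ∀ t, i ≤ t → t < i + d → 2 * ρ t + h < d)
    (hann : ∀ t, i ≤ t → t < i + d → ∀ a s, s ≤ L → w (x t) a = x s → t ≤ s + (ρ t + (h + 1)) →
      s ≤ t + (ρ t + (h + 1)) → t ≤ s + ρ t ∧ s ≤ t + ρ t)
    (hcons : ∀ j t t' (u u' : Fin (ar j) → M), i ≤ t → t < i + d → i ≤ t' → t' < i + d →
      (∀ e, u e ∈ Win h S (x t) (w (x t))) → (∀ e, u' e ∈ Win h S (x t') (w (x t'))) →
      gmap x h (ρ t) t d ∘ u = gmap x h (ρ t') t' d ∘ u' →
      (∃ e a, gmap x h (ρ t) t d (u e) = Sum.inr a) → S.R j u → S.R j u') :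
    Mod Θ (M ⊕ ZMod d) (extStr S x h ρ (fun t => Win h S (x t) (w (x t))) i d) := by
  set S' := extStr S x h ρ (fun t => Win h S (x t) (w (x t))) i d with hS'
  have Fl : ∀ a (z : M), S'.F^[a] (Sum.inl z) = Sum.inl (S.F^[a] z) := by
    intro a
    induction a with
    | zero => intro z; rfl
    | succ a ih =>
      intro z
      rw [Function.iterate_succ_apply, Function.iterate_succ_apply, ← ih]
      rfl
  have Fr : ∀ a (s : ℕ), S'.F^[a] (Sum.inr (s : ZMod d)) = Sum.inr ((s + a : ℕ) : ZMod d) := by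
    intro a
    induction a with
    | zero => intro s; rfl
    | succ a ih =>
      intro s
      rw [Function.iterate_succ_apply]
      have : S'.F (Sum.inr (s : ZMod d)) = Sum.inr ((s + 1 : ℕ) : ZMod d) := by
        rw [hS']
        simp [extStr]
      rw [this, ih]
      congr 2
      omega
  rintro (z | e)
  · -- old elements
    refine ⟨Sum.inl ∘ w z, hΘ M _ S S' z (w z) Sum.inl Sum.inl_injective ?_ ?_ ?_ ?_ (hw z)⟩
    · intro a _; exact (Fl a z).symm
    · intro a _ b; exact (Fl a _).symm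
    · intro a _ l; exact (Fl a _).symm
    · intro j u _
      constructor
      · intro hu
        exact Or.inl ⟨u, rfl, hu⟩
      · rintro (⟨v, hv, hR⟩ | ⟨⟨e, a, he⟩, -⟩)
        · have : u = v := by
            funext e
            exact Sum.inl_injective (congrFun hv e)
          rw [this]; exact hR
        · simp at he
  · -- new elements
    have : NeZero d := ⟨by omega⟩
    obtain ⟨t, ht1, ht2, rfl⟩ : ∃ t : ℕ, i ≤ t ∧ t < i + d ∧ ((t : ℕ) : ZMod d) = e := by
      refine ⟨i + (e - (i : ZMod d)).val, by omega, ?_, ?_⟩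
      · have := ZMod.val_lt (e - (i : ZMod d))
        omega
      · push_cast
        rw [ZMod.natCast_zmod_val]
        ring
    have hhit := hhi t ht1 ht2
    have hlot := hlo t ht1 ht2
    set g := gmap x h (ρ t) t d with hg
    have hgx : g (x t) = Sum.inr (t : ZMod d) :=
      gmap_near hx hhit ⟨by omega, by omega, rfl⟩
    have hgl : ∀ z y, g z = Sum.inl y → z = y := by
      intro z y hz
      by_cases hn : ∃ s, Near x h (ρ t) t z s
      · obtain ⟨s, hs⟩ := hn
        rw [hg, gmap_near hx hhit hs] at hz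
        simp at hz
      · rw [hg, gmap_far hn] at hz
        exact Sum.inl_injective hz
    have hfar : ∀ b, (∀ s ≤ L, b = x s → t ≤ s + (ρ t + (h + 1)) → s ≤ t + (ρ t + (h + 1)) →
        False) → ∀ a ≤ h, g (S.F^[a] b) = S'.F^[a] (Sum.inl b) := by
      intro b hb a ha
      rw [Fl, hg, gmap_far]
      rintro ⟨s, hs1, hs2, hs3⟩
      have h5 := hx.back a s b (by omega) (by omega) hs3.symm
      exact hb (s - a) (by omega) h5 (by omega) (by omega)
    rw [← hgx]
    refine ⟨g ∘ w (x t), hΘ M _ S S' (x t) (w (x t)) g (gmap_inj hx hhit (hd t ht1 ht2))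
      ?_ ?_ ?_ ?_ (hw (x t))⟩
    · intro a ha
      rw [hx.iter a t (by omega), hgx, Fr]
      exact gmap_near hx hhit ⟨by omega, by omega, rfl⟩
    · intro a ha b
      by_cases hn : ∃ s ≤ L, w (x t) b = x s ∧ t ≤ s + ρ t ∧ s ≤ t + ρ t
      · obtain ⟨s, hsL, hs1, hs2, hs3⟩ := hn
        have e1 : g (w (x t) b) = Sum.inr (s : ZMod d) :=
          gmap_near hx hhit ⟨by omega, by omega, hs1.symm⟩
        rw [e1, Fr, hs1, hx.iter a s (by omega)]
        exact gmap_near hx hhit ⟨by omega, by omega, rfl⟩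
      · have hb : ∀ s ≤ L, w (x t) b = x s → t ≤ s + (ρ t + (h + 1)) →
            s ≤ t + (ρ t + (h + 1)) → False := by
          intro s hsL hs1 hs2 hs3
          obtain ⟨h4, h5⟩ := hann t ht1 ht2 b s hsL hs1 hs2 hs3
          exact hn ⟨s, hsL, hs1, h4, h5⟩
        have e1 : g (w (x t) b) = Sum.inl (w (x t) b) := by
          have := hfar _ hb 0 (by omega)
          simpa using this
        rw [e1]
        exact hfar _ hb a ha
    · intro a ha l
      have hb : ∀ s ≤ L, S.c l = x s → t ≤ s + (ρ t + (h + 1)) →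
          s ≤ t + (ρ t + (h + 1)) → False := by
        intro s hsL hs1 _ _
        exact hx.nc s hsL l hs1.symm
      exact hfar _ hb a ha
    · intro j u hu
      by_cases hn : ∃ e a, g (u e) = Sum.inr a
      · constructor
        · intro hR
          exact Or.inr ⟨hn, t, ht1, ht2, u, hu, rfl, hR⟩
        · rintro (⟨v, hv, hR⟩ | ⟨-, t', h1, h2, u', hu', he, hR⟩)
          · obtain ⟨e, a, he⟩ := hn
            have := congrFun hv e
            simp only [Function.comp_apply] at this
            rw [he] at this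
            simp at this
          · refine hcons j t' t u' u h1 h2 ht1 ht2 hu' hu he.symm ?_ hR
            obtain ⟨e, a, hea⟩ := hn
            refine ⟨e, a, ?_⟩
            have := congrFun he e
            simp only [Function.comp_apply] at this
            rw [← this]; exact hea
      · have hgu : g ∘ u = Sum.inl ∘ u := by
          funext e
          rcases hge : g (u e) with y | a
          · simp only [Function.comp_apply]
            rw [hge, hgl _ _ hge]
          · exact absurd ⟨e, a, hge⟩ hn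
        rw [hgu]
        constructor
        · intro hR
          exact Or.inl ⟨u, rfl, hR⟩
        · rintro (⟨v, hv, hR⟩ | ⟨⟨e, a, he⟩, -⟩)
          · have : u = v := by
              funext e
              exact Sum.inl_injective (congrFun hv e)
            rw [this]; exact hR
          · simp at he

lemma gmap_eq_inr {M : Type} {S : Str I J ar M} {L : ℕ} {x : ℕ → M} (hx : Path S L x)
    {h ρ t d : ℕ} (hL : t + ρ + h ≤ L) {z : M} {b : ZMod d}
    (hb : gmap x h ρ t d z = Sum.inr b) : ∃ s : ℕ, Near x h ρ t z s ∧ (s : ZMod d) = b := by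
  by_cases hz : ∃ s, Near x h ρ t z s
  · obtain ⟨s, hs⟩ := hz
    rw [gmap_near hx hL hs] at hb
    exact ⟨s, hs, Sum.inr_injective hb⟩
  · rw [gmap_far hz] at hb
    simp at hb

lemma gmap_eq_inl {M : Type} {S : Str I J ar M} {L : ℕ} {x : ℕ → M} (hx : Path S L x)
    {h ρ t d : ℕ} (hL : t + ρ + h ≤ L) {z y : M}
    (hb : gmap x h ρ t d z = Sum.inl y) : z = y := by
  by_cases hz : ∃ s, Near x h ρ t z s
  · obtain ⟨s, hs⟩ := hz
    rw [gmap_near hx hL hs] at hb
    simp at hb
  · rw [gmap_far hz] at hb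
    exact Sum.inl_injective hb

theorem extract [Finite I] [Finite J] {h : ℕ}
    {Θ : ∀ M : Type, Str I J ar M → M → (Fin k → M) → Prop} (hΘ : Inv h Θ) :
    ∃ L : ℕ, ∀ (M : Type) (S : Str I J ar M), Finite M → Mod Θ M S → (∃ x, Path S L x) →
      ∃ d, 0 < d ∧ d ≤ L ∧ HasD Θ (Nat.card M + d) d := by
  classical
  set P : ℕ := (k + 1) * (h + 1) with hP
  set s0 : ℕ := (4 * P + 1) * ((h + 1) * (k + Nat.card I + 1)) with hs0
  set Ty : Type := (Σ j : J, (Fin (ar j) → (Fin (6 * P + 1) ⊕ Fin s0))) → Prop with hTy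
  have hTyfin : Finite Ty := by rw [hTy]; infer_instance
  obtain ⟨N, hN⟩ := sunflower s0 (Nat.card Ty + 1)
  set G : ℕ := 12 * P + 12 with hG
  refine ⟨G * (N + 1), ?_⟩
  intro M S hfin hmod ⟨x, hx⟩
  choose w hw using hmod
  set L := G * (N + 1) with hL
  set pos : ℕ → ℕ := fun l => G * (l + 1) with hpos
  have hposN : ∀ l < N, pos l + 3 * P ≤ L := by
    intro l hl
    have h1 : G * (l + 1) ≤ G * N := Nat.mul_le_mul_left _ hl
    have h2 : G * (N + 1) = G * N + G := by ring
    simp only [hpos, hL]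
    omega
  have hpos0 : ∀ l, G ≤ pos l := by
    intro l
    have h1 : G * 1 ≤ G * (l + 1) := Nat.mul_le_mul_left _ (by omega)
    simp only [hpos]
    omega
  set A : ℕ → Finset M := fun l => (Finset.Icc (pos l - 2 * P) (pos l + 2 * P)).biUnion
    (fun t => (Set.toFinite (Win h S (x t) (w (x t)))).toFinset) with hA
  have hAcard : ∀ l ∈ Finset.range N, (A l).card ≤ s0 := by
    intro l _
    calc (A l).card ≤ ∑ t ∈ Finset.Icc (pos l - 2 * P) (pos l + 2 * P),
          ((Set.toFinite (Win h S (x t) (w (x t)))).toFinset).card := Finset.card_biUnion_le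
      _ ≤ ∑ t ∈ Finset.Icc (pos l - 2 * P) (pos l + 2 * P),
          ((h + 1) * (k + Nat.card I + 1)) := by
          refine Finset.sum_le_sum (fun t _ => ?_)
          have := win_ncard h S (x t) (w (x t))
          rw [Set.ncard_eq_toFinset_card _ (Set.toFinite _)] at this
          exact this
      _ = s0 := by
          rw [Finset.sum_const, Nat.card_Icc, hs0, smul_eq_mul]
          congr 1
          have := hpos0 l
          omega
  have hAmem : ∀ l t z, pos l ≤ t + 2 * P → t ≤ pos l + 2 * P →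
      z ∈ Win h S (x t) (w (x t)) → z ∈ A l := by
    intro l t z h1 h2 hz
    refine Finset.mem_biUnion.2 ⟨t, Finset.mem_Icc.2 ⟨by omega, h2⟩, ?_⟩
    rw [Set.Finite.mem_toFinset]
    exact hz
  obtain ⟨T', hT', hq, K, hK, hKd⟩ := hN M (Finset.range N) A (by simp) hAcard
  -- enumerate `K`
  obtain ⟨κ, hκ⟩ : ∃ κ : Fin s0 → M, ∀ z ∈ K, ∃ b, κ b = z := by
    have hemb : Nonempty (K ↪ Fin s0) := by
      apply Function.Embedding.nonempty_of_card_le
      simpa using hK
    obtain ⟨e⟩ := hemb
    refine ⟨Function.extend e (fun z => z.1) (fun _ => x 0), ?_⟩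
    intro z hz
    exact ⟨e ⟨z, hz⟩, e.injective.extend_apply _ _ _⟩
  set val : ℕ → Fin (6 * P + 1) ⊕ Fin s0 → M := fun i =>
    Sum.elim (fun r => x (i + r.1 - 3 * P)) κ with hval
  set ty : ℕ → Ty := fun l z => S.R z.1 (val (pos l) ∘ z.2) with hty
  obtain ⟨l, hl, l', hl', hlt, htyeq⟩ : ∃ l ∈ T', ∃ l' ∈ T', l < l' ∧ ty l = ty l' := by
    have hFt : Fintype Ty := Fintype.ofFinite Ty
    have hc : (Finset.univ : Finset Ty).card < T'.card := by
      rw [Finset.card_univ, ← Nat.card_eq_fintype_card]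
      omega
    obtain ⟨a, ha, b, hb, hab, he⟩ := Finset.exists_ne_map_eq_of_card_lt_of_maps_to hc
      (f := ty) (fun _ _ => Finset.mem_univ _)
    rcases lt_or_gt_of_ne hab with h1 | h1
    · exact ⟨a, ha, b, hb, h1, he⟩
    · exact ⟨b, hb, a, ha, h1, he.symm⟩
  have hlN : l < N := Finset.mem_range.1 (hT' hl)
  have hlN' : l' < N := Finset.mem_range.1 (hT' hl')
  set i := pos l with hi
  set d := pos l' - pos l with hd
  have hid : i + d = pos l' := by
    have : pos l ≤ pos l' := by
      simp only [hpos]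
      exact Nat.mul_le_mul_left _ (by omega)
    omega
  have hdG : G ≤ d := by
    have h1 : G * (l + 1 + 1) ≤ G * (l' + 1) := Nat.mul_le_mul_left _ (by omega)
    have h2 : G * (l + 1 + 1) = G * (l + 1) + G := by ring
    simp only [hd, hpos]
    omega
  have hposl := hposN l hlN
  have hposl' := hposN l' hlN'
  have hiG : G ≤ i := hpos0 l
  -- the near radii
  have hr : ∀ t, ∃ r ≤ k, ∀ a s, (s ≤ L ∧ w (x t) a = x s) →
      t ≤ s + (r * (h + 1) + (h + 1)) → s ≤ t + (r * (h + 1) + (h + 1)) →
      t ≤ s + r * (h + 1) ∧ s ≤ t + r * (h + 1) := by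
    intro t
    refine annulus (h + 1) t (fun a s => s ≤ L ∧ w (x t) a = x s) ?_
    rintro a s s' ⟨h1, h2⟩ ⟨h3, h4⟩
    exact hx.inj s h1 s' h3 (by rw [← h2, h4])
  choose r hrk hrann using hr
  set ρ : ℕ → ℕ := fun t => r t * (h + 1) with hρ
  have hρP : ∀ t, ρ t + (h + 1) ≤ P := by
    intro t
    have h1 : (r t + 1) * (h + 1) ≤ (k + 1) * (h + 1) :=
      Nat.mul_le_mul_right _ (by have := hrk t; omega)
    have h2 : (r t + 1) * (h + 1) = r t * (h + 1) + (h + 1) := by ring
    simp only [hρ, hP]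
    omega
  have hhi : ∀ t, i ≤ t → t < i + d → t + ρ t + h ≤ L := by
    intro t _ h2
    have := hρP t
    omega
  -- the shift lemma
  have hshift : ∀ j t t' (u u' : Fin (ar j) → M) (e0 : Fin (ar j)) (σ : ℕ),
      i ≤ t → t < i + d → i ≤ t' → t' < i + d →
      (∀ e, u e ∈ Win h S (x t) (w (x t))) → (∀ e, u' e ∈ Win h S (x t') (w (x t'))) →
      gmap x h (ρ t) t d ∘ u = gmap x h (ρ t') t' d ∘ u' →
      Near x h (ρ t) t (u e0) σ → Near x h (ρ t') t' (u' e0) (σ + d) →
      (S.R j u ↔ S.R j u') := by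
    intro j t t' u u' e0 σ h1 h2 h3 h4 hu hu' hg hn hn'
    have b1 := hn.1
    have b2 := hn.2.1
    have b3 := hn'.1
    have b4 := hn'.2.1
    have c1 := hρP t
    have c2 := hρP t'
    have key : ∀ e, ∃ a : Fin (6 * P + 1) ⊕ Fin s0, val i a = u e ∧ val (i + d) a = u' e := by
      intro e
      have hge := congrFun hg e
      simp only [Function.comp_apply] at hge
      rcases hgu : gmap x h (ρ t) t d (u e) with y | b
      · rw [hgu] at hge
        have e1 := gmap_eq_inl hx (hhi t h1 h2) hgu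
        have e2 := gmap_eq_inl hx (hhi t' h3 h4) hge.symm
        have m1 : y ∈ A l := by
          rw [← e1]
          exact hAmem l t (u e) (by omega) (by omega) (hu e)
        have m2 : y ∈ A l' := by
          rw [← e2]
          exact hAmem l' t' (u' e) (by omega) (by omega) (hu' e)
        obtain ⟨b, hb⟩ := hκ y (hKd l hl l' hl' (by omega) y m1 m2)
        refine ⟨Sum.inr b, ?_, ?_⟩
        · rw [e1, ← hb]; rfl
        · rw [e2, ← hb]; rfl
      · rw [hgu] at hge
        obtain ⟨s, hs, hsb⟩ := gmap_eq_inr hx (hhi t h1 h2) hgu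
        obtain ⟨s', hs', hsb'⟩ := gmap_eq_inr hx (hhi t' h3 h4) hge.symm
        have d1 := hs.1
        have d2 := hs.2.1
        have d3 := hs'.1
        have d4 := hs'.2.1
        have hcong : (s : ZMod d) = (s' : ZMod d) := by rw [hsb, hsb']
        have hss : s' = s + d := by
          rcases cong_cases hcong (by omega) (by omega) with h5 | h5 | h5
          · omega
          · exact h5
          · omega
        refine ⟨Sum.inl ⟨s + 3 * P - i, by omega⟩, ?_, ?_⟩
        · rw [← hs.2.2]
          simp only [hval, Sum.elim_inl]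
          congr 1
          omega
        · rw [← hs'.2.2]
          simp only [hval, Sum.elim_inl]
          congr 1
          omega
    choose a ha1 ha2 using key
    have e1 : u = val i ∘ a := by
      funext e; exact (ha1 e).symm
    have e2 : u' = val (i + d) ∘ a := by
      funext e; exact (ha2 e).symm
    have h5 := congrFun htyeq ⟨j, a⟩
    simp only [hty] at h5
    rw [e1, e2, hid]
    exact iff_of_eq h5
  have hmodel := ext_mod hΘ S w hw hx ρ i d (by omega)
    (by
      intro t h1 h2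
      have := hρP t
      omega)
    hhi
    (by
      intro t h1 h2
      have := hρP t
      omega)
    (by
      intro t h1 h2 a s h3 h4 h5 h6
      exact hrann t a s ⟨h3, h4⟩ h5 h6)
    (by
      intro j t t' u u' h1 h2 h3 h4 hu hu' hg hex hR
      obtain ⟨e0, b, hb⟩ := hex
      have hb' : gmap x h (ρ t') t' d (u' e0) = Sum.inr b := by
        have := congrFun hg e0
        simp only [Function.comp_apply] at this
        rw [← this]; exact hb
      obtain ⟨σ, hσ, hσb⟩ := gmap_eq_inr hx (hhi t h1 h2) hb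
      obtain ⟨σ', hσ', hσb'⟩ := gmap_eq_inr hx (hhi t' h3 h4) hb'
      have c1 := hρP t
      have c2 := hρP t'
      have b1 := hσ.1
      have b2 := hσ.2.1
      have b3 := hσ'.1
      have b4 := hσ'.2.1
      have hcong : (σ : ZMod d) = (σ' : ZMod d) := by rw [hσb, hσb']
      rcases cong_cases hcong (by omega) (by omega) with h5 | h5 | h5
      · subst h5
        have huu : u = u' := by
          funext e
          have hge := congrFun hg e
          simp only [Function.comp_apply] at hge
          rcases hgu : gmap x h (ρ t) t d (u e) with y | a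
          · rw [hgu] at hge
            rw [gmap_eq_inl hx (hhi t h1 h2) hgu, gmap_eq_inl hx (hhi t' h3 h4) hge.symm]
          · rw [hgu] at hge
            obtain ⟨s, hs, hsb⟩ := gmap_eq_inr hx (hhi t h1 h2) hgu
            obtain ⟨s', hs', hsb'⟩ := gmap_eq_inr hx (hhi t' h3 h4) hge.symm
            have d1 := hs.1
            have d2 := hs.2.1
            have d3 := hs'.1
            have d4 := hs'.2.1
            have hcong' : (s : ZMod d) = (s' : ZMod d) := by rw [hsb, hsb']
            rcases cong_cases hcong' (by omega) (by omega) with h6 | h6 | h6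
            · rw [← hs.2.2, ← hs'.2.2, h6]
            · omega
            · omega
        rw [← huu]
        exact hR
      · subst h5
        exact (hshift j t t' u u' e0 σ h1 h2 h3 h4 hu hu' hg hσ hσ').1 hR
      · subst h5
        exact (hshift j t' t u' u e0 σ' h3 h4 h1 h2 hu' hu hg.symm hσ' hσ).2 hR)
  refine ⟨d, by omega, by omega, M ⊕ ZMod d, _, ?_, ?_, hmodel, Set.range Sum.inr, ?_, ?_, ?_⟩
  · have : NeZero d := ⟨by omega⟩
    infer_instance
  · have : NeZero d := ⟨by omega⟩
    rw [Nat.card_sum, Nat.card_zmod]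
  · rw [← Set.image_univ, Set.InjOn.ncard_image (Sum.inr_injective.injOn), Set.ncard_univ,
      Nat.card_zmod]
  · rintro b ⟨e, he⟩
    simp [extStr] at he
  · rintro y hy ⟨e, he⟩
    rcases y with z | e'
    · simp [extStr] at he
    · exact hy ⟨e', rfl⟩

/-- The main theorem on sizes: eventually adding a fixed number is possible. -/
theorem core [Finite I] [Finite J] {h : ℕ}
    {Θ : ∀ M : Type, Str I J ar M → M → (Fin k → M) → Prop} (hΘ : Inv h Θ) :
    ∃ B p : ℕ, 0 < p ∧ ∀ n ∈ Sp Θ, B < n → n + p ∈ Sp Θ := by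
  obtain ⟨L, hL⟩ := extract hΘ
  refine ⟨(L + 1) * (2 * Nat.card I), (L + 1).factorial, Nat.factorial_pos _, ?_⟩
  rintro n ⟨M, S, hfin, hcard, hmod⟩ hn
  have hC : (Set.range S.c).ncard ≤ Nat.card I := by
    rw [← Set.image_univ]
    calc (S.c '' Set.univ).ncard ≤ (Set.univ : Set I).ncard :=
          Set.ncard_image_le (Set.toFinite _)
      _ = Nat.card I := Set.ncard_univ I
  have finish : ∀ m d, 0 < d → d ≤ L + 1 → HasD Θ m d → (m = n ∨ m = n + d) →
      n + (L + 1).factorial ∈ Sp Θ := by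
    intro m d hd0 hdL hD hm
    obtain ⟨q, hq⟩ := Nat.dvd_factorial hd0 hdL
    have hqpos : 0 < q := by
      rcases Nat.eq_zero_or_pos q with h | h
      · rw [h, mul_zero] at hq
        have := Nat.factorial_pos (L + 1)
        omega
      · exact h
    rcases hm with rfl | rfl
    · have := (clone_iter hΘ hD q).mem
      rw [hq, mul_comm d q]
      exact this
    · have := (clone_iter hΘ hD (q - 1)).mem
      have h2 : n + (L + 1).factorial = n + d + (q - 1) * d := by
        rw [hq]
        obtain ⟨q', rfl⟩ : ∃ q', q = q' + 1 := ⟨q - 1, by omega⟩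
        simp only [Nat.add_sub_cancel]
        ring
      rw [h2]
      exact this
  rcases dichotomy S.F (Set.range S.c) (Nat.card I) hC L (by rw [hcard]; exact hn) with
    ⟨D, hDne, hDcard, hDc, hDF⟩ | ⟨x, hx1, hx2, hx3, hx4⟩
  · have hDpos : 0 < D.ncard := (Set.ncard_pos (Set.toFinite D)).2 hDne
    refine finish n D.ncard hDpos hDcard ⟨M, S, hfin, hcard, hmod, D, rfl, ?_, hDF⟩ (Or.inl rfl)
    intro i hi
    exact hDc _ hi ⟨i, rfl⟩
  · have hpath : Path S L x := ⟨hx1, fun t ht i he => hx2 t ht ⟨i, he.symm⟩, hx3, hx4⟩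
    obtain ⟨d, hd0, hdL, hD⟩ := hL M S hfin hmod ⟨x, hpath⟩
    rw [hcard] at hD
    exact finish (n + d) d hd0 (by omega) hD (Or.inr rfl)

end Pool.Agent.Helper31.ShelahCore
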