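import Mathlib
import Pool.Agent.Helper31.Spectra
import Pool.Agent.Helper31.ShelahCore

set_option autoImplicit false

namespace Pool.Agent.Helper31.ShelahSyntax

open FirstOrder FirstOrder.Language
open Pool.Agent.Helper31.ShelahCore Pool.Agent.Helper31.Spectra

/-- Formulas of the form `∃ … ∃ ∀ ∃ … ∃ θ` with `θ` quantifier-free: a block of existential
quantifiers, one universal quantifier, and an existential formula. -/
inductive IsEAE {L : FirstOrder.Language.{0, 0}} : ∀ {n : ℕ}, L.BoundedFormula Empty n → Prop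
  | all {n : ℕ} {φ : L.BoundedFormula Empty (n + 1)} (h : φ.IsExistential) : IsEAE φ.all
  | ex {n : ℕ} {φ : L.BoundedFormula Empty (n + 1)} (h : IsEAE φ) : IsEAE φ.ex

/-- The vocabulary has at most one function symbol of positive arity, and this is unary. -/
structure OneUnary (L : FirstOrder.Language.{0, 0}) : Prop where
  one : Subsingleton (L.Functions 1)
  two : ∀ n, IsEmpty (L.Functions (n + 2))

variable {L : FirstOrder.Language.{0, 0}}

/-- The arities of the relation symbols. -/
abbrev arr (L : FirstOrder.Language.{0, 0}) : (Σ n, L.Relations n) → ℕ := Sigma.fst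

/-- The abstract structures for `L` with `a` extra constants. -/
abbrev LStr (L : FirstOrder.Language.{0, 0}) (a : ℕ) (M : Type) : Type :=
  Str (L.Functions 0 ⊕ Fin a) (Σ n, L.Relations n) (arr L) M

/-- Interpretation of the function symbols. -/
def fmap (h2 : ∀ n, IsEmpty (L.Functions (n + 2))) {a : ℕ} {M : Type} (S : LStr L a M) :
    ∀ {n : ℕ}, L.Functions n → (Fin n → M) → M
  | 0, f, _ => S.c (Sum.inl f)
  | 1, _, xs => S.F (xs 0)
  | n + 2, f, _ => ((h2 n).false f).elim

/-- From abstract structures to `L`-structures. -/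
@[instance_reducible]
def toL (h2 : ∀ n, IsEmpty (L.Functions (n + 2))) {a : ℕ} {M : Type} (S : LStr L a M) :
    L.Structure M where
  funMap := fun f xs => fmap h2 S f xs
  RelMap := fun {n} R xs => S.R ⟨n, R⟩ xs

open Classical in
/-- From `L`-structures to abstract structures. -/
noncomputable def ofL {a : ℕ} {M : Type} (sM : L.Structure M) (c : Fin a → M) : LStr L a M where
  F := fun x => if h : Nonempty (L.Functions 1) then sM.funMap h.some ![x] else x
  c := Sum.elim (fun f => sM.funMap f ![]) c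
  R := fun j xs => sM.RelMap j.2 xs

open Classical in
lemma toL_ofL (hL : OneUnary L) {a : ℕ} {M : Type} (sM : L.Structure M) (c : Fin a → M) :
    toL hL.two (ofL sM c) = sM := by
  have h1 : ∀ (n : ℕ) (f : L.Functions n) (xs : Fin n → M),
      fmap hL.two (ofL sM c) f xs = sM.funMap f xs := by
    intro n f xs
    match n, f, xs with
    | 0, f, xs =>
      have : xs = ![] := Subsingleton.elim _ _
      rw [this]
      rfl
    | 1, f, xs =>
      have hne : Nonempty (L.Functions 1) := ⟨f⟩
      have e1 : hne.some = f := hL.one.elim _ _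
      have e2 : ![xs 0] = xs := by
        funext i
        rw [Subsingleton.elim i 0]
        rfl
      show (if h : Nonempty (L.Functions 1) then sM.funMap h.some ![xs 0] else xs 0) = _
      rw [dif_pos hne, e1, e2]
    | n + 2, f, xs => exact ((hL.two n).false f).elim
  refine FirstOrder.Language.Structure.ext ?_ ?_
  · funext n f xs
    exact h1 n f xs
  · rfl

/-- Values of constants or variables. -/
def base {a N : ℕ} {M : Type} (S : LStr L a M) (v : Fin N → M) :
    L.Functions 0 ⊕ Fin N → M := Sum.elim (fun f => S.c (Sum.inl f)) v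

/-- Every term is an iterate of the unary function on a constant or variable. -/
lemma term_value (h2 : ∀ n, IsEmpty (L.Functions (n + 2))) (a : ℕ) {N : ℕ}
    (t : L.Term (Empty ⊕ Fin N)) :
    ∃ (i : ℕ) (b : L.Functions 0 ⊕ Fin N), ∀ (M : Type) (S : LStr L a M) (u : Empty → M)
      (v : Fin N → M), @Term.realize L M (toL h2 S) _ (Sum.elim u v) t =
        S.F^[i] (base S v b) := by
  induction t with
  | var x =>
    rcases x with x | x
    · exact x.elim
    · exact ⟨0, Sum.inr x, fun M S u v => rfl⟩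
  | @func n f ts ih =>
    match n, f, ts, ih with
    | 0, f, ts, _ => exact ⟨0, Sum.inl f, fun M S u v => rfl⟩
    | 1, f, ts, ih =>
      obtain ⟨i, b, h⟩ := ih 0
      refine ⟨i + 1, b, fun M S u v => ?_⟩
      rw [Function.iterate_succ_apply', ← h M S u v]
      rfl
    | n + 2, f, ts, _ => exact ((h2 n).false f).elim

/-- Hypotheses under which quantifier-free formulas are preserved. -/
structure Good (h : ℕ) {a N : ℕ} {A B : Type} (SA : LStr L a A) (SB : LStr L a B)
    (v : Fin N → A) (g : A → B) : Prop where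
  inj : Function.Injective g
  iter : ∀ i ≤ h, ∀ b, g (SA.F^[i] (base SA v b)) = SB.F^[i] (base SB (g ∘ v) b)
  rel : ∀ j (t : Fin (arr L j) → A), (∀ e, ∃ i ≤ h, ∃ b, t e = SA.F^[i] (base SA v b)) →
    (SA.R j t ↔ SB.R j (g ∘ t))

lemma Good.mono {h h' : ℕ} (hh : h ≤ h') {a N : ℕ} {A B : Type} {SA : LStr L a A}
    {SB : LStr L a B} {v : Fin N → A} {g : A → B} (hg : Good h' SA SB v g) :
    Good h SA SB v g :=
  ⟨hg.inj, fun i hi b => hg.iter i (le_trans hi hh) b, fun j t ht => hg.rel j t (fun e => by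
    obtain ⟨i, hi, b, hb⟩ := ht e
    exact ⟨i, le_trans hi hh, b, hb⟩)⟩

theorem qf_inv (h2 : ∀ n, IsEmpty (L.Functions (n + 2))) (a : ℕ) {N : ℕ}
    {θ : L.BoundedFormula Empty N} (hθ : θ.IsQF) :
    ∃ h : ℕ, ∀ (A B : Type) (SA : LStr L a A) (SB : LStr L a B) (u : Empty → A) (u' : Empty → B)
      (v : Fin N → A) (g : A → B), Good h SA SB v g →
      (@BoundedFormula.Realize L A (toL h2 SA) _ _ θ u v ↔
        @BoundedFormula.Realize L B (toL h2 SB) _ _ θ u' (g ∘ v)) := by
  induction hθ with
  | falsum => exact ⟨0, fun A B SA SB u u' v g _ => Iff.rfl⟩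
  | of_isAtomic hat =>
    cases hat with
    | equal t₁ t₂ =>
      obtain ⟨i1, b1, e1⟩ := term_value h2 a t₁
      obtain ⟨i2, b2, e2⟩ := term_value h2 a t₂
      refine ⟨max i1 i2, fun A B SA SB u u' v g hg => ?_⟩
      have h4 : @BoundedFormula.Realize L A (toL h2 SA) _ _ (t₁.bdEqual t₂) u v ↔
          @Term.realize L A (toL h2 SA) _ (Sum.elim u v) t₁ =
            @Term.realize L A (toL h2 SA) _ (Sum.elim u v) t₂ := Iff.rfl
      have h5 : @BoundedFormula.Realize L B (toL h2 SB) _ _ (t₁.bdEqual t₂) u' (g ∘ v) ↔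
          @Term.realize L B (toL h2 SB) _ (Sum.elim u' (g ∘ v)) t₁ =
            @Term.realize L B (toL h2 SB) _ (Sum.elim u' (g ∘ v)) t₂ := Iff.rfl
      rw [h4, h5, e1 A SA u v, e2 A SA u v, e1 B SB u' (g ∘ v), e2 B SB u' (g ∘ v),
        ← hg.iter i1 (le_max_left _ _), ← hg.iter i2 (le_max_right _ _)]
      exact ⟨fun h => by rw [h], fun h => hg.inj h⟩
    | @rel l R ts =>
      choose i b e using fun e => term_value h2 a (ts e)
      refine ⟨Finset.univ.sup i, fun A B SA SB u u' v g hg => ?_⟩
      have hrel := hg.rel ⟨l, R⟩ (fun e => SA.F^[i e] (base SA v (b e))) (fun e' =>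
        ⟨i e', Finset.le_sup (f := i) (Finset.mem_univ e'), b e', rfl⟩)
      have h3 : (g ∘ fun e => SA.F^[i e] (base SA v (b e))) =
          fun e => SB.F^[i e] (base SB (g ∘ v) (b e)) := by
        funext e'
        exact hg.iter (i e') (Finset.le_sup (f := i) (Finset.mem_univ e')) (b e')
      rw [h3] at hrel
      have h4 : @BoundedFormula.Realize L A (toL h2 SA) _ _ (R.boundedFormula ts) u v ↔
          SA.R ⟨l, R⟩ (fun e => @Term.realize L A (toL h2 SA) _ (Sum.elim u v) (ts e)) := Iff.rfl
      have h5 : @BoundedFormula.Realize L B (toL h2 SB) _ _ (R.boundedFormula ts) u' (g ∘ v) ↔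
          SB.R ⟨l, R⟩ (fun e => @Term.realize L B (toL h2 SB) _ (Sum.elim u' (g ∘ v)) (ts e)) :=
        Iff.rfl
      rw [h4, h5]
      have h6 : (fun e' => @Term.realize L A (toL h2 SA) _ (Sum.elim u v) (ts e')) =
          fun e => SA.F^[i e] (base SA v (b e)) := funext (fun e' => e e' A SA u v)
      have h7 : (fun e' => @Term.realize L B (toL h2 SB) _ (Sum.elim u' (g ∘ v)) (ts e')) =
          fun e => SB.F^[i e] (base SB (g ∘ v) (b e)) := funext (fun e' => e e' B SB u' (g ∘ v))
      rw [h6, h7]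
      exact hrel
  | @imp φ₁ φ₂ _ _ ih1 ih2 =>
    obtain ⟨h1, e1⟩ := ih1
    obtain ⟨h3, e3⟩ := ih2
    refine ⟨max h1 h3, fun A B SA SB u u' v g hg => ?_⟩
    have k1 := e1 A B SA SB u u' v g (hg.mono (le_max_left _ _))
    have k2 := e3 A B SA SB u u' v g (hg.mono (le_max_right _ _))
    have h4 : @BoundedFormula.Realize L A (toL h2 SA) _ _ (φ₁.imp φ₂) u v ↔
        (@BoundedFormula.Realize L A (toL h2 SA) _ _ φ₁ u v →
          @BoundedFormula.Realize L A (toL h2 SA) _ _ φ₂ u v) := Iff.rfl
    have h5 : @BoundedFormula.Realize L B (toL h2 SB) _ _ (φ₁.imp φ₂) u' (g ∘ v) ↔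
        (@BoundedFormula.Realize L B (toL h2 SB) _ _ φ₁ u' (g ∘ v) →
          @BoundedFormula.Realize L B (toL h2 SB) _ _ φ₂ u' (g ∘ v)) := Iff.rfl
    rw [h4, h5, k1, k2]

/-! ### Blocks of quantifiers -/

theorem exists_block {n : ℕ} {ψ : L.BoundedFormula Empty n} (hψ : ψ.IsExistential) :
    ∃ (K : ℕ) (θ : L.BoundedFormula Empty K) (k : ℕ) (σ : Fin K → Fin n ⊕ Fin k), θ.IsQF ∧
      ∀ (M : Type) (sM : L.Structure M) (u : Empty → M) (v : Fin n → M),
        (@BoundedFormula.Realize L M sM _ _ ψ u v ↔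
          ∃ y : Fin k → M,
            @BoundedFormula.Realize L M sM _ _ θ u (fun e => Sum.elim v y (σ e))) := by
  induction hψ with
  | @of_isQF n ψ h =>
    refine ⟨n, ψ, 0, Sum.inl, h, fun M sM u v => ?_⟩
    exact ⟨fun hr => ⟨Fin.elim0, hr⟩, fun ⟨_, hr⟩ => hr⟩
  | @ex n φ _ ih =>
    obtain ⟨K, θ, k, σ, hθ, hr⟩ := ih
    refine ⟨K, θ, k + 1, fun e => Sum.elim
      (fun i => Fin.lastCases (motive := fun _ => Fin n ⊕ Fin (k + 1)) (Sum.inr 0)
        (fun i => Sum.inl i) i) (fun j => Sum.inr j.succ) (σ e), hθ, fun M sM u v => ?_⟩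
    have key : ∀ (z : M) (y : Fin k → M),
        (fun e => Sum.elim v (Fin.cons z y : Fin (k + 1) → M) (Sum.elim
          (fun i => Fin.lastCases (motive := fun _ => Fin n ⊕ Fin (k + 1)) (Sum.inr 0)
            (fun i => Sum.inl i) i) (fun j => Sum.inr j.succ) (σ e))) =
        fun e => Sum.elim (Fin.snoc (α := fun _ => M) v z : Fin (n + 1) → M) y (σ e) := by
      intro z y
      funext e
      rcases σ e with i | j
      · refine Fin.lastCases ?_ (fun i => ?_) i
        · simp
        · simp
      · simp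
    have h1 : @BoundedFormula.Realize L M sM _ _ φ.ex u v ↔
        ∃ z, @BoundedFormula.Realize L M sM _ _ φ u
          (Fin.snoc (α := fun _ => M) v z : Fin (n + 1) → M) :=
      @BoundedFormula.realize_ex L M sM _ _ φ u v
    rw [h1]
    constructor
    · rintro ⟨z, hz⟩
      obtain ⟨y, hy⟩ := (hr M sM u _).1 hz
      refine ⟨Fin.cons z y, ?_⟩
      rw [key]
      exact hy
    · rintro ⟨y', hy'⟩
      have h2 : y' = (Fin.cons (y' 0) (Fin.tail y') : Fin (k + 1) → M) :=
        (Fin.cons_self_tail y').symm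
      rw [h2, key] at hy'
      exact ⟨y' 0, (hr M sM u _).2 ⟨Fin.tail y', hy'⟩⟩

theorem eae_block {n : ℕ} {φ : L.BoundedFormula Empty n} (hφ : IsEAE φ) :
    ∃ (K : ℕ) (θ : L.BoundedFormula Empty K) (a k : ℕ)
      (σ : Fin K → (Fin n ⊕ Fin a) ⊕ (Unit ⊕ Fin k)), θ.IsQF ∧
      ∀ (M : Type) (sM : L.Structure M) (u : Empty → M) (v : Fin n → M),
        (@BoundedFormula.Realize L M sM _ _ φ u v ↔
          ∃ c : Fin a → M, ∀ x : M, ∃ y : Fin k → M,
            @BoundedFormula.Realize L M sM _ _ θ u
              (fun e => Sum.elim (Sum.elim v c) (Sum.elim (fun _ => x) y) (σ e))) := by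
  induction hφ with
  | @all n φ h =>
    obtain ⟨K, θ, k, σ, hθ, hr⟩ := exists_block h
    refine ⟨K, θ, 0, k, fun e => Sum.elim
      (fun i => Fin.lastCases (motive := fun _ => (Fin n ⊕ Fin 0) ⊕ (Unit ⊕ Fin k))
        (Sum.inr (Sum.inl ())) (fun i => Sum.inl (Sum.inl i)) i)
        (fun j => Sum.inr (Sum.inr j)) (σ e), hθ, fun M sM u v => ?_⟩
    have key : ∀ (c : Fin 0 → M) (x : M) (y : Fin k → M),
        (fun e => Sum.elim (Sum.elim v c) (Sum.elim (fun _ => x) y) (Sum.elim
          (fun i => Fin.lastCases (motive := fun _ => (Fin n ⊕ Fin 0) ⊕ (Unit ⊕ Fin k))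
            (Sum.inr (Sum.inl ())) (fun i => Sum.inl (Sum.inl i)) i)
            (fun j => Sum.inr (Sum.inr j)) (σ e))) =
        fun e => Sum.elim (Fin.snoc (α := fun _ => M) v x : Fin (n + 1) → M) y (σ e) := by
      intro c x y
      funext e
      rcases σ e with i | j
      · refine Fin.lastCases ?_ (fun i => ?_) i
        · simp
        · simp
      · simp
    have h1 : @BoundedFormula.Realize L M sM _ _ φ.all u v ↔
        ∀ z, @BoundedFormula.Realize L M sM _ _ φ u
          (Fin.snoc (α := fun _ => M) v z : Fin (n + 1) → M) :=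
      @BoundedFormula.realize_all L M sM _ _ φ u v
    rw [h1]
    constructor
    · intro hall
      refine ⟨Fin.elim0, fun x => ?_⟩
      obtain ⟨y, hy⟩ := (hr M sM u _).1 (hall x)
      refine ⟨y, ?_⟩
      rw [key]
      exact hy
    · rintro ⟨c, hc⟩ x
      obtain ⟨y, hy⟩ := hc x
      rw [key] at hy
      exact (hr M sM u _).2 ⟨y, hy⟩
  | @ex n φ _ ih =>
    obtain ⟨K, θ, a, k, σ, hθ, hr⟩ := ih
    refine ⟨K, θ, a + 1, k, fun e => Sum.elim (Sum.elim
      (fun i => Fin.lastCases (motive := fun _ => (Fin n ⊕ Fin (a + 1)) ⊕ (Unit ⊕ Fin k))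
        (Sum.inl (Sum.inr 0)) (fun i => Sum.inl (Sum.inl i)) i)
        (fun j => Sum.inl (Sum.inr j.succ))) Sum.inr (σ e), hθ, fun M sM u v => ?_⟩
    have key : ∀ (z : M) (c : Fin a → M) (x : M) (y : Fin k → M),
        (fun e => Sum.elim (Sum.elim v (Fin.cons z c : Fin (a + 1) → M))
          (Sum.elim (fun _ => x) y) (Sum.elim (Sum.elim
          (fun i => Fin.lastCases (motive := fun _ => (Fin n ⊕ Fin (a + 1)) ⊕ (Unit ⊕ Fin k))
            (Sum.inl (Sum.inr 0)) (fun i => Sum.inl (Sum.inl i)) i)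
            (fun j => Sum.inl (Sum.inr j.succ))) Sum.inr (σ e))) =
        fun e => Sum.elim (Sum.elim (Fin.snoc (α := fun _ => M) v z : Fin (n + 1) → M) c)
          (Sum.elim (fun _ => x) y) (σ e) := by
      intro z c x y
      funext e
      rcases σ e with (i | j) | j
      · refine Fin.lastCases ?_ (fun i => ?_) i
        · simp
        · simp
      · simp
      · simp
    have h1 : @BoundedFormula.Realize L M sM _ _ φ.ex u v ↔
        ∃ z, @BoundedFormula.Realize L M sM _ _ φ u
          (Fin.snoc (α := fun _ => M) v z : Fin (n + 1) → M) :=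
      @BoundedFormula.realize_ex L M sM _ _ φ u v
    rw [h1]
    constructor
    · rintro ⟨z, hz⟩
      obtain ⟨c, hc⟩ := (hr M sM u _).1 hz
      refine ⟨Fin.cons z c, fun x => ?_⟩
      obtain ⟨y, hy⟩ := hc x
      refine ⟨y, ?_⟩
      rw [key]
      exact hy
    · rintro ⟨c', hc'⟩
      have h2 : c' = (Fin.cons (c' 0) (Fin.tail c') : Fin (a + 1) → M) :=
        (Fin.cons_self_tail c').symm
      rw [h2] at hc'
      refine ⟨c' 0, (hr M sM u _).2 ⟨Fin.tail c', fun x => ?_⟩⟩
      obtain ⟨y, hy⟩ := hc' x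
      rw [key] at hy
      exact ⟨y, hy⟩

/-! ### The main theorem -/

/-- The spectrum of a sentence `∃ … ∃ ∀ ∃ … ∃ θ` over a finite vocabulary with at most one
function symbol of positive arity, which is unary, is eventually closed under adding a fixed
positive number. -/
theorem spec_step (hL : OneUnary L) (hfin : FinVoc L) {φ : L.Sentence}
    (hφ : IsEAE (n := 0) φ) :
    ∃ B p : ℕ, 0 < p ∧ ∀ n ∈ Spec L φ, B < n → n + p ∈ Spec L φ := by
  obtain ⟨K, θ, a, k, σ, hθ, hr⟩ := eae_block hφ
  obtain ⟨h, hh⟩ := qf_inv hL.two a hθ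
  have hfin1 : Finite (L.Functions 0 ⊕ Fin a) := by
    have : Finite (L.Functions 0) := by
      have := hfin.1
      exact Finite.of_injective (fun f => (⟨0, f⟩ : Σ n, L.Functions n)) (by
        intro f g hfg
        simpa using hfg)
    infer_instance
  have hfin2 : Finite (Σ n, L.Relations n) := hfin.2
  let V : ∀ M : Type, LStr L a M → M → (Fin k → M) → Fin K → M := fun M S x y e =>
    Sum.elim (Sum.elim Fin.elim0 (fun i => S.c (Sum.inr i))) (Sum.elim (fun _ => x) y) (σ e)
  let Θ : ∀ M : Type, LStr L a M → M → (Fin k → M) → Prop := fun M S x y =>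
    @BoundedFormula.Realize L M (toL hL.two S) _ _ θ Empty.elim (V M S x y)
  have hΘ : Inv h Θ := by
    intro A B SA SB x y g hg hx hy hc hR hA
    have hgood : Good h SA SB (V A SA x y) g := by
      refine ⟨hg, ?_, ?_⟩
      · intro i hi b
        rcases b with f | e
        · exact hc i hi (Sum.inl f)
        · show g (SA.F^[i] (V A SA x y e)) = SB.F^[i] (g (V A SA x y e))
          simp only [V]
          rcases σ e with (i' | i') | (_ | j)
          · exact i'.elim0
          · simp only [Sum.elim_inl, Sum.elim_inr]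
            have h0 := hc 0 (Nat.zero_le _) (Sum.inr i')
            simp only [Function.iterate_zero, id_eq] at h0
            rw [h0]
            exact hc i hi (Sum.inr i')
          · exact hx i hi
          · exact hy i hi j
      · intro j t ht
        refine hR j t (fun e => ?_)
        obtain ⟨i, hi, b, hb⟩ := ht e
        refine ⟨i, hi, ?_⟩
        rcases b with f | e'
        · exact Or.inr (Or.inr ⟨Sum.inl f, hb⟩)
        · have hb' : t e = SA.F^[i] (V A SA x y e') := hb
          simp only [V] at hb'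
          rcases hσ : σ e' with (i' | i') | (_ | j')
          · exact i'.elim0
          · rw [hσ] at hb'
            exact Or.inr (Or.inr ⟨Sum.inr i', hb'⟩)
          · rw [hσ] at hb'
            exact Or.inl hb'
          · rw [hσ] at hb'
            exact Or.inr (Or.inl ⟨j', hb'⟩)
    have hV : g ∘ V A SA x y = V B SB (g x) (g ∘ y) := by
      funext e
      simp only [V, Function.comp_apply]
      rcases σ e with (i' | i') | (_ | j)
      · exact i'.elim0
      · exact hc 0 (Nat.zero_le _) (Sum.inr i')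
      · rfl
      · rfl
    have h1 := (hh A B SA SB Empty.elim Empty.elim (V A SA x y) g hgood).1 hA
    rw [hV] at h1
    exact h1
  obtain ⟨B, p, hp, hB⟩ := core hΘ
  have hspec : ∀ n, n ∈ Spec L φ ↔ 0 < n ∧ n ∈ Sp Θ := by
    intro n
    constructor
    · rintro ⟨hn, M, sM, hM, hreal⟩
      refine ⟨hn, ?_⟩
      have hMfin : Finite M := Nat.finite_of_card_ne_zero (by omega)
      have h1 : @BoundedFormula.Realize L M sM _ _ φ Empty.elim (Fin.elim0 : Fin 0 → M) := by
        have h2 : @BoundedFormula.Realize L M sM _ _ φ (default : Empty → M)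
          (default : Fin 0 → M) := hreal
        have e1 : (default : Empty → M) = Empty.elim := Subsingleton.elim _ _
        have e2 : (default : Fin 0 → M) = Fin.elim0 := Subsingleton.elim _ _
        rw [e1, e2] at h2
        exact h2
      obtain ⟨c, hc⟩ := (hr M sM Empty.elim Fin.elim0).1 h1
      refine ⟨M, ofL sM c, hMfin, hM, fun x => ?_⟩
      obtain ⟨y, hy⟩ := hc x
      refine ⟨y, ?_⟩
      show @BoundedFormula.Realize L M (toL hL.two (ofL sM c)) _ _ θ Empty.elim
        (V M (ofL sM c) x y)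
      rw [toL_ofL hL]
      exact hy
    · rintro ⟨hn, M, S, _, hM, hmod⟩
      refine ⟨hn, M, toL hL.two S, hM, ?_⟩
      have h1 := (hr M (toL hL.two S) Empty.elim Fin.elim0).2
        ⟨fun i => S.c (Sum.inr i), fun x => hmod x⟩
      have e1 : (default : Empty → M) = Empty.elim := Subsingleton.elim _ _
      have e2 : (default : Fin 0 → M) = Fin.elim0 := Subsingleton.elim _ _
      show @BoundedFormula.Realize L M (toL hL.two S) _ _ φ (default : Empty → M)
        (default : Fin 0 → M)
      rw [e1, e2]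
      exact h1
  refine ⟨B, p, hp, fun n hn hBn => ?_⟩
  rw [hspec] at hn ⊢
  exact ⟨by omega, hB n hn.2 hBn⟩

end Pool.Agent.Helper31.ShelahSyntax
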